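import Pool.Agent.PDR.Good

set_option autoImplicit false

/-!
# PDR: tame places of bad reduction
-/

open scoped WithZero

noncomputable section

namespace Pool.Agent.PDR

open Pool.Agent.PDP (Si Si_mul Si_le)
open WithZero

section Alg

variable {K : Type} [Field K]

/-- the partial derivative of a binary form with respect to the first variable -/
def dx (d : ℕ) (p : ℕ → K) (a : K × K) : K :=
  ∑ i ∈ Finset.range (d + 1), p i * ((i : K) * a.1 ^ (i - 1) * a.2 ^ (d - i))

lemma dx_smul (d : ℕ) (p : ℕ → K) (s : K) (a : K × K) :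
    dx d p (s • a) = s ^ (d - 1) * dx d p a := by
  unfold dx
  rw [Finset.mul_sum]
  refine Finset.sum_congr rfl fun i hi => ?_
  rw [Finset.mem_range] at hi
  simp only [Prod.smul_fst, Prod.smul_snd, smul_eq_mul]
  rcases Nat.eq_zero_or_pos i with rfl | hi0
  · rw [Nat.cast_zero, zero_mul, zero_mul, zero_mul, zero_mul, mul_zero, mul_zero]
  · rw [mul_pow, mul_pow]
    have : s ^ (d - 1) = s ^ (i - 1) * s ^ (d - i) := by rw [← pow_add]; congr 1; omega
    rw [this]
    ring

lemma Si_diag (k : ℕ) (x : K) : Si k x x = (k : K) * x ^ (k - 1) := by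
  unfold Si
  rw [← nsmul_eq_mul]
  conv_rhs => rw [← Finset.card_range k]
  rw [← Finset.sum_const]
  refine Finset.sum_congr rfl fun j hj => ?_
  rw [Finset.mem_range] at hj
  rw [← pow_add, Finset.card_range]
  congr 1
  omega

lemma rr_diag {d i j : ℕ} (hi : i ≤ d) (hj : j ≤ d) (b : K × K) : rr d i j b b * b.2 =
    (i : K) * b.1 ^ (i - 1) * b.2 ^ (d - i) * (b.1 ^ j * b.2 ^ (d - j)) -
    b.1 ^ i * b.2 ^ (d - i) * ((j : K) * b.1 ^ (j - 1) * b.2 ^ (d - j)) := by
  unfold rr
  split_ifs with h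
  · obtain ⟨k, rfl⟩ := Nat.exists_eq_add_of_le h
    obtain ⟨l, rfl⟩ := Nat.exists_eq_add_of_le hi
    rcases k with _ | k
    · rw [show j + 0 - j = 0 by omega, Si_zero, Nat.add_zero]
      ring
    · rw [show j + (k + 1) - j = k + 1 by omega,
        show j + (k + 1) + l - (j + (k + 1)) = l by omega,
        show j + (k + 1) + l - j = k + 1 + l by omega,
        show j + (k + 1) - 1 = j + k by omega, mul_comm b.2 b.1, Si_diag, Nat.add_sub_cancel]
      rcases j with _ | j
      · simp only [mul_pow, pow_add, Nat.cast_add, Nat.cast_zero]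
        ring
      · rw [Nat.add_sub_cancel]
        push_cast
        simp only [mul_pow, pow_add]
        ring
  · push Not at h
    obtain ⟨k, rfl⟩ := Nat.exists_eq_add_of_le h.le
    obtain ⟨l, rfl⟩ := Nat.exists_eq_add_of_le hj
    rcases k with _ | k
    · omega
    · rw [show i + (k + 1) - i = k + 1 by omega,
        show i + (k + 1) + l - (i + (k + 1)) = l by omega,
        show i + (k + 1) + l - i = k + 1 + l by omega,
        show i + (k + 1) - 1 = i + k by omega, mul_comm b.2 b.1, Si_diag, Nat.add_sub_cancel]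
      rcases i with _ | i
      · simp only [mul_pow, pow_add, Nat.cast_add, Nat.cast_zero]
        ring
      · rw [Nat.add_sub_cancel]
        push_cast
        simp only [mul_pow, pow_add]
        ring

lemma RR_diag (d : ℕ) (p q : ℕ → K) (b : K × K) : RR d p q b b * b.2 =
    dx d p b * hf d q b - hf d p b * dx d q b := by
  unfold RR
  rw [Finset.sum_mul]
  have h1 : ∀ i ∈ Finset.range (d + 1),
      (∑ j ∈ Finset.range (d + 1), p i * q j * rr d i j b b) * b.2 =
      p i * ((i : K) * b.1 ^ (i - 1) * b.2 ^ (d - i)) * hf d q b -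
      p i * (b.1 ^ i * b.2 ^ (d - i)) * dx d q b := by
    intro i hi
    rw [Finset.mem_range] at hi
    rw [Finset.sum_mul]
    unfold hf dx
    rw [Finset.mul_sum, Finset.mul_sum, ← Finset.sum_sub_distrib]
    refine Finset.sum_congr rfl fun j hj => ?_
    rw [Finset.mem_range] at hj
    rw [mul_assoc, rr_diag (by omega) (by omega)]
    ring
  rw [Finset.sum_congr rfl h1, Finset.sum_sub_distrib, ← Finset.sum_mul, ← Finset.sum_mul]
  rfl

lemma hf_const_mul (d : ℕ) (q : ℕ → K) (e : K) (a : K × K) :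
    hf d (fun i => e * q i) a = e * hf d q a := by
  unfold hf
  rw [Finset.mul_sum]
  exact Finset.sum_congr rfl fun i _ => by ring

lemma RR_const_mul (d : ℕ) (p q : ℕ → K) (e : K) (a b : K × K) :
    RR d p (fun i => e * q i) a b = e * RR d p q a b := by
  unfold RR
  rw [Finset.mul_sum]
  refine Finset.sum_congr rfl fun i _ => ?_
  rw [Finset.mul_sum]
  exact Finset.sum_congr rfl fun j _ => by ring

end Alg

section Bad

variable {K : Type} [Field K] {w : Valuation K ℤᵐ⁰} {d : ℕ} {p q : ℕ → K} {e : K}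

lemma nat_le (i : ℕ) : w ((i : ℕ) : K) ≤ 1 := by
  induction i with
  | zero => rw [Nat.cast_zero, map_zero]; exact zero_le
  | succ n ih =>
    rw [Nat.cast_succ]
    exact (Valuation.map_add w _ _).trans (max_le ih (by rw [map_one]))

/-- tame bad reduction of the map `[P : e Q]` -/
structure BD (w : Valuation K ℤᵐ⁰) (d : ℕ) (p q : ℕ → K) (e : K) : Prop where
  gd : GD w d p q
  lead : w (p d) = 1
  e0 : e ≠ 0
  e1 : w e < 1

lemma psi_fst (a : K × K) : (Ph d p (fun i => e * q i) a).1 = hf d p a := rfl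

lemma psi_snd (a : K × K) : (Ph d p (fun i => e * q i) a).2 = e * hf d q a :=
  hf_const_mul d q e a

lemma BD.ne (h : BD w d p q e) {a : K × K} (ha : a ≠ 0) : Ph d p (fun i => e * q i) a ≠ 0 := by
  intro h0
  apply h.gd.ne ha
  refine Prod.ext ?_ ?_
  · have := congrArg Prod.fst h0
    rwa [psi_fst] at this
  · have := congrArg Prod.snd h0
    rw [psi_snd] at this
    exact (mul_eq_zero.1 this).resolve_left h.e0

lemma BD.it_ne (h : BD w d p q e) {a : K × K} (ha : a ≠ 0) (k : ℕ) :
    (Ph d p (fun i => e * q i))^[k] a ≠ 0 := by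
  induction k with
  | zero => exact ha
  | succ k ih =>
    rw [Function.iterate_succ_apply']
    exact h.ne ih

/-- the value of `P` near infinity -/
lemma BD.inf_val (h : BD w d p q e) {a : K × K} (ha : w a.2 < w a.1) :
    w (hf d p a) = w a.1 ^ d := by
  have h0 : w a.1 ≠ 0 := (zero_le.trans_lt ha).ne'
  unfold hf
  rw [Finset.sum_range_succ]
  have h1 : w (p d * (a.1 ^ d * a.2 ^ (d - d))) = w a.1 ^ d := by
    rw [map_mul, h.lead, one_mul, Nat.sub_self, pow_zero, mul_one, map_pow]
  rw [Valuation.map_add_eq_of_lt_right, h1]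
  rw [h1]
  refine Valuation.map_sum_lt w (pow_ne_zero _ h0) fun i hi => ?_
  rw [Finset.mem_range] at hi
  rw [map_mul, map_mul, map_pow, map_pow]
  calc w (p i) * (w a.1 ^ i * w a.2 ^ (d - i)) ≤ 1 * (w a.1 ^ i * w a.2 ^ (d - i)) :=
        mul_le_mul_left (h.gd.hp i) _
    _ = w a.1 ^ i * w a.2 ^ (d - i) := one_mul _
    _ < w a.1 ^ i * w a.1 ^ (d - i) := by
        refine mul_lt_mul_of_pos_left ?_ (pow_pos (zero_lt_iff.2 h0) _)
        exact pow_lt_pow_left₀ ha zero_le (by omega)
    _ = w a.1 ^ d := by rw [← pow_add]; congr 1; omega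

lemma BD.inf_map (h : BD w d p q e) {a : K × K} (ha : w a.2 < w a.1) :
    w (Ph d p (fun i => e * q i) a).2 < w (Ph d p (fun i => e * q i) a).1 := by
  have h0 : w a.1 ≠ 0 := (zero_le.trans_lt ha).ne'
  have hn : nrm w a = w a.1 := max_eq_left ha.le
  rw [psi_fst, psi_snd, h.inf_val ha, map_mul]
  calc w e * w (hf d q a) ≤ w e * nrm w a ^ d := mul_le_mul_right (hf_le h.gd.hq a) _
    _ = w e * w a.1 ^ d := by rw [hn]
    _ < 1 * w a.1 ^ d := mul_lt_mul_of_pos_right h.e1 (pow_pos (zero_lt_iff.2 h0) _)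
    _ = w a.1 ^ d := one_mul _

lemma BD.inf_nrm (h : BD w d p q e) {a : K × K} (ha : w a.2 < w a.1) :
    nrm w (Ph d p (fun i => e * q i) a) = nrm w a ^ d := by
  have h1 : nrm w (Ph d p (fun i => e * q i) a) = w (Ph d p (fun i => e * q i) a).1 :=
    max_eq_left (h.inf_map ha).le
  have hn : nrm w a = w a.1 := max_eq_left ha.le
  rw [h1, psi_fst, h.inf_val ha, hn]

lemma ne_of_inf {a : K × K} (ha : w a.2 < w a.1) : a ≠ 0 := by
  rintro rfl
  rw [Prod.fst_zero, Prod.snd_zero] at ha
  exact lt_irrefl _ ha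

/-- contraction near infinity -/
lemma BD.contr (h : BD w d p q e) (hd : 1 ≤ d) {a b : K × K} (ha : w a.2 < w a.1)
    (hb : w b.2 < w b.1) :
    dl w (Ph d p (fun i => e * q i) a) (Ph d p (fun i => e * q i) b) ≤ w e * dl w a b := by
  have hn : nrm w a * nrm w b ≠ 0 := mul_ne_zero (nrm_ne (ne_of_inf ha)) (nrm_ne (ne_of_inf hb))
  obtain ⟨k, rfl⟩ : ∃ k, d = k + 1 := ⟨d - 1, by omega⟩
  unfold dl
  rw [← RR_mul, RR_const_mul, map_mul, map_mul, h.inf_nrm ha, h.inf_nrm hb, ← mul_pow]
  rw [div_le_iff₀ (zero_lt_iff.2 (pow_ne_zero _ hn))]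
  have h1 := RR_le (d := k + 1) h.gd.hp h.gd.hq a b
  rw [Nat.add_sub_cancel] at h1
  have e1 : w e * (w (dt a b) / (nrm w a * nrm w b)) * (nrm w a * nrm w b) ^ (k + 1) =
      w e * (nrm w a * nrm w b) ^ k * w (dt a b) := by
    rw [pow_succ, mul_assoc, mul_assoc]
    congr 1
    rw [mul_comm ((nrm w a * nrm w b) ^ k) (nrm w a * nrm w b), ← mul_assoc,
      div_mul_cancel₀ _ hn, mul_comm]
  rw [e1]
  exact mul_le_mul_left (mul_le_mul_right h1 _) _

/-- points whose cycle has length at least two do not come near infinity -/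
lemma BD.not_inf (h : BD w d p q e) (hd : 1 ≤ d) {x : K × K} {k n : ℕ} (hn : 0 < n)
    (h1 : dt ((Ph d p (fun i => e * q i))^[n] ((Ph d p (fun i => e * q i))^[k] x))
      ((Ph d p (fun i => e * q i))^[k] x) = 0)
    (h2 : dt (Ph d p (fun i => e * q i) ((Ph d p (fun i => e * q i))^[k] x))
      ((Ph d p (fun i => e * q i))^[k] x) ≠ 0) : ¬ w x.2 < w x.1 := by
  intro hx
  set f := Ph d p (fun i => e * q i) with hf
  have hinf : ∀ m, w (f^[m] x).2 < w (f^[m] x).1 := by
    intro m
    induction m with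
    | zero => exact hx
    | succ m ih =>
      rw [Function.iterate_succ_apply']
      exact h.inf_map ih
  have hne : ∀ m, f^[m] x ≠ 0 := fun m => ne_of_inf (hinf m)
  set y := f^[k] x with hy
  have hyinf : ∀ m, w (f^[m] y).2 < w (f^[m] y).1 := by
    intro m
    rw [hy, ← Function.iterate_add_apply]
    exact hinf _
  have hyne : ∀ m, f^[m] y ≠ 0 := fun m => ne_of_inf (hyinf m)
  have hy0 : y ≠ 0 := hne k
  have hstep : ∀ m, dl w (f^[m] (f y)) (f^[m] y) ≤ w e ^ m * dl w (f y) y := by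
    intro m
    induction m with
    | zero => rw [pow_zero, one_mul]; exact le_rfl
    | succ m ih =>
      rw [Function.iterate_succ_apply', Function.iterate_succ_apply' f m y]
      have h3 : w (f^[m] (f y)).2 < w (f^[m] (f y)).1 := by
        rw [← Function.iterate_succ_apply f]
        exact hyinf _
      refine (h.contr hd h3 (hyinf m)).trans ?_
      rw [pow_succ', mul_assoc]
      exact mul_le_mul_right ih _
  have hlast := hstep n
  have e1 : dl w (f^[n] (f y)) (f^[n] y) = dl w (f y) y := by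
    have h3 : dt (f^[n] (f y)) (f y) = 0 := by
      rw [← Function.iterate_succ_apply f, Function.iterate_succ_apply']
      exact dt_zero_of h1
    have hfy : f y ≠ 0 := hyne 1
    have hfy' : f^[n] (f y) ≠ 0 := by
      rw [← Function.iterate_succ_apply f]
      exact hyne _
    obtain ⟨s, hs, h4⟩ := par_of hfy' hfy h3
    obtain ⟨s', hs', h5⟩ := par_of (hyne n) hy0 h1
    calc dl w (f^[n] (f y)) (f^[n] y) = dl w (s • f^[n] (f y)) (s' • f^[n] y) := by
          rw [dl_smul hs, dl_smul' hs']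
      _ = dl w (f y) y := by rw [← h4, ← h5]
  rw [e1] at hlast
  have h0 : dl w (f y) y ≠ 0 := fun h3 => h2 ((dl_eq_zero (hyne 1) hy0).1 h3)
  have h4 : w e ^ n < 1 := pow_lt_one₀ zero_le h.e1 (by omega)
  have h5 : w e ^ n * dl w (f y) y < 1 * dl w (f y) y :=
    mul_lt_mul_of_pos_right h4 (zero_lt_iff.2 h0)
  rw [one_mul] at h5
  exact absurd (hlast.trans_lt h5) (lt_irrefl _)

/-- norms of the images of the points which stay away from infinity -/
lemma BD.nrmS (h : BD w d p q e) {S : Set (K × K)} (hS0 : ∀ x ∈ S, x ≠ 0)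
    (hSm : ∀ x ∈ S, Ph d p (fun i => e * q i) x ∈ S) (hSi : ∀ x ∈ S, ¬ w x.2 < w x.1)
    {x : K × K} (hx : x ∈ S) : nrm w (Ph d p (fun i => e * q i) x) = w e * nrm w x ^ d := by
  have hval : w (hf d p x) ≤ w e * w (hf d q x) := by
    have h1 := hSi _ (hSm x hx)
    rw [psi_fst, psi_snd, map_mul, not_lt] at h1
    exact h1
  have hqn : w (hf d q x) = nrm w x ^ d := by
    have h1 := h.gd.hn x
    have h0 : nrm w x ^ d ≠ 0 := pow_ne_zero _ (nrm_ne (hS0 x hx))
    unfold nrm at h1
    rcases max_choice (w (Ph d p q x).1) (w (Ph d p q x).2) with h2 | h2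
    · rw [h2] at h1
      have h3 : w (hf d p x) = nrm w x ^ d := h1
      have h4 := hval
      have h5 : w e * w (hf d q x) ≤ w e * nrm w x ^ d := mul_le_mul_right (hf_le h.gd.hq x) _
      have h6 : w e * nrm w x ^ d < 1 * nrm w x ^ d :=
        mul_lt_mul_of_pos_right h.e1 (zero_lt_iff.2 h0)
      rw [one_mul] at h6
      rw [h3] at h4
      exact absurd ((h4.trans h5).trans_lt h6) (lt_irrefl _)
    · rw [h2] at h1
      exact h1
  have h1 : nrm w (Ph d p (fun i => e * q i) x) = w (Ph d p (fun i => e * q i) x).2 :=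
    max_eq_right (not_lt.1 (hSi _ (hSm x hx)))
  rw [h1, psi_snd, map_mul, hqn]

/-- chordal distances of the points which stay away from infinity are powers of `w e` -/
lemma BD.main (h : BD w d p q e) (hd : 1 ≤ d) {S : Set (K × K)} (hS0 : ∀ x ∈ S, x ≠ 0)
    (hsep : ∀ y ∈ S, ∀ s : K, nrm w (s • y) = 1 → w (hf d p (s • y)) < 1 →
      w (dx d p (s • y)) = 1)
    (hSm : ∀ x ∈ S, Ph d p (fun i => e * q i) x ∈ S) (hSi : ∀ x ∈ S, ¬ w x.2 < w x.1)
    {x y : K × K} (hx : x ∈ S) (hy : y ∈ S) (hxy : dt x y ≠ 0) :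
    ∃ j : ℤ, log (dl w x y) = j * log (w e) := by
  have hwe : w e ≠ 0 := (Valuation.ne_zero_iff w).2 h.e0
  have hloge : log (w e) < 0 := by
    have := (log_lt_log hwe one_ne_zero).2 h.e1
    rwa [log_one] at this
  -- norms
  have hval : ∀ x ∈ S, w (hf d p x) ≤ w e * w (hf d q x) := by
    intro x hx
    have h1 := hSi _ (hSm x hx)
    rw [psi_fst, psi_snd, map_mul, not_lt] at h1
    exact h1
  have hqn : ∀ x ∈ S, w (hf d q x) = nrm w x ^ d := by
    intro x hx
    have h1 := h.gd.hn x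
    have h0 : nrm w x ^ d ≠ 0 := pow_ne_zero _ (nrm_ne (hS0 x hx))
    unfold nrm at h1
    rcases max_choice (w (Ph d p q x).1) (w (Ph d p q x).2) with h2 | h2
    · rw [h2] at h1
      have h3 : w (hf d p x) = nrm w x ^ d := h1
      have h4 := hval x hx
      have h5 : w e * w (hf d q x) ≤ w e * nrm w x ^ d := mul_le_mul_right (hf_le h.gd.hq x) _
      have h6 : w e * nrm w x ^ d < 1 * nrm w x ^ d :=
        mul_lt_mul_of_pos_right h.e1 (zero_lt_iff.2 h0)
      rw [one_mul] at h6
      rw [h3] at h4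
      exact absurd ((h4.trans h5).trans_lt h6) (lt_irrefl _)
    · rw [h2] at h1
      exact h1
  have hpn : ∀ x ∈ S, w (hf d p x) < nrm w x ^ d := by
    intro x hx
    have h0 : nrm w x ^ d ≠ 0 := pow_ne_zero _ (nrm_ne (hS0 x hx))
    refine (hval x hx).trans_lt ?_
    rw [hqn x hx]
    have h6 : w e * nrm w x ^ d < 1 * nrm w x ^ d :=
      mul_lt_mul_of_pos_right h.e1 (zero_lt_iff.2 h0)
    rwa [one_mul] at h6
  have hnn : ∀ x ∈ S, nrm w (Ph d p (fun i => e * q i) x) = w e * nrm w x ^ d := by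
    intro x hx
    have h1 : nrm w (Ph d p (fun i => e * q i) x) = w (Ph d p (fun i => e * q i) x).2 :=
      max_eq_right (not_lt.1 (hSi _ (hSm x hx)))
    rw [h1, psi_snd, map_mul, hqn x hx]
  -- the diagonal
  have hdiag : ∀ y ∈ S, w (RR d p q y y) = (nrm w y * nrm w y) ^ (d - 1) := by
    intro y hy
    obtain ⟨s, hs, hsy⟩ := exists_unit (w := w) (hS0 y hy)
    have h1 : w (hf d p (s • y)) < 1 := by
      rw [hf_smul, map_mul, map_pow]
      have h2 : w s ^ d * w (hf d p y) < w s ^ d * nrm w y ^ d :=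
        mul_lt_mul_of_pos_left (hpn y hy)
          (pow_pos (zero_lt_iff.2 ((Valuation.ne_zero_iff w).2 hs)) _)
      rwa [← mul_pow, ← nrm_smul, hsy, one_pow] at h2
    have h2 := hsep y hy s hsy h1
    have h3 : w (hf d q (s • y)) = 1 := by
      rw [hf_smul, map_mul, map_pow, hqn y hy, ← mul_pow, ← nrm_smul, hsy, one_pow]
    have h4 : w (s • y).2 = 1 := by
      have h5 : nrm w y = w y.2 := max_eq_right (not_lt.1 (hSi y hy))
      rw [Prod.smul_snd, smul_eq_mul, map_mul, ← h5, ← nrm_smul, hsy]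
    have h5 : w (dx d q (s • y)) ≤ 1 := by
      unfold dx
      refine Valuation.map_sum_le w fun i _ => ?_
      have hcast : w ((i : ℕ) : K) ≤ 1 := nat_le i
      rw [map_mul, map_mul, map_mul, map_pow, map_pow]
      refine mul_le_one' (h.gd.hq i) (mul_le_one' (mul_le_one' hcast (pow_le_one' ?_ _))
        (pow_le_one' h4.le _))
      exact (le_max_left _ _).trans hsy.le
    have h6 : w (RR d p q (s • y) (s • y)) = 1 := by
      have h7 := congrArg w (RR_diag d p q (s • y))
      rw [map_mul, h4, mul_one] at h7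
      rw [h7, Valuation.map_sub_eq_of_lt_left]
      · rw [map_mul, h2, h3, one_mul]
      · rw [map_mul, map_mul, h2, h3, one_mul]
        calc w (hf d p (s • y)) * w (dx d q (s • y)) ≤ w (hf d p (s • y)) * 1 :=
              mul_le_mul_right h5 _
          _ = w (hf d p (s • y)) := mul_one _
          _ < 1 := h1
    rw [RR_smul, RR_smul_right, map_mul, map_mul, map_pow, ← mul_assoc, ← mul_pow] at h6
    have e1 : nrm w y * nrm w y = (w s * w s)⁻¹ := by
      rw [nrm_smul] at hsy
      rw [eq_inv_of_mul_eq_one_right hsy, mul_inv]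
    rw [e1, inv_pow]
    exact eq_inv_of_mul_eq_one_right h6
  -- one step
  have hstep : ∀ x ∈ S, ∀ y ∈ S, dl w x y < 1 →
      dl w (Ph d p (fun i => e * q i) x) (Ph d p (fun i => e * q i) y) = dl w x y / w e := by
    intro x hx y hy hlt
    have h1 := RR_close h.gd.hp h.gd.hq (hS0 x hx) (hS0 y hy) (hS0 y hy) hlt (hdiag y hy)
    have hn : nrm w x * nrm w y ≠ 0 := mul_ne_zero (nrm_ne (hS0 x hx)) (nrm_ne (hS0 y hy))
    unfold dl
    rw [← RR_mul, RR_const_mul, map_mul, map_mul, h1, hnn x hx, hnn y hy]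
    obtain ⟨k, rfl⟩ : ∃ k, d = k + 1 := ⟨d - 1, by omega⟩
    rw [Nat.add_sub_cancel]
    have e1 : w e * nrm w x ^ (k + 1) * (w e * nrm w y ^ (k + 1)) =
        w e * (nrm w x * nrm w y) ^ k * (w e * (nrm w x * nrm w y)) := by
      rw [pow_succ, pow_succ, mul_pow]
      ac_rfl
    rw [e1, mul_div_mul_left _ _ (mul_ne_zero hwe (pow_ne_zero _ hn)), div_div,
      mul_comm (w e) (nrm w x * nrm w y)]
  have hle : ∀ x ∈ S, ∀ y ∈ S, dl w x y ≤ 1 := fun x hx y hy => dl_le_one (hS0 x hx) (hS0 y hy)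
  have hn0 : ∀ x ∈ S, ∀ y ∈ S, dt x y ≠ 0 → dl w x y ≠ 0 := fun x hx y hy hxy h0 =>
    hxy ((dl_eq_zero (hS0 x hx) (hS0 y hy)).1 h0)
  have claim : ∀ n : ℕ, ∀ x ∈ S, ∀ y ∈ S, dt x y ≠ 0 → -log (dl w x y) = n →
      ∃ j : ℤ, log (dl w x y) = j * log (w e) := by
    intro n
    induction n using Nat.strong_induction_on with
    | _ n ih =>
      intro x hx y hy hxy hn
      have hw0 := hn0 x hx y hy hxy
      rcases (hle x hx y hy).lt_or_eq with hlt | heq
      · have h2 := hstep x hx y hy hlt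
        have hw1 : dl w (Ph d p (fun i => e * q i) x) (Ph d p (fun i => e * q i) y) ≠ 0 := by
          rw [h2]
          exact div_ne_zero hw0 hwe
        have hne2 : dt (Ph d p (fun i => e * q i) x) (Ph d p (fun i => e * q i) y) ≠ 0 := by
          intro h0
          exact hw1 ((dl_eq_zero (hS0 _ (hSm x hx)) (hS0 _ (hSm y hy))).2 h0)
        have hlog : log (dl w (Ph d p (fun i => e * q i) x) (Ph d p (fun i => e * q i) y)) =
            log (dl w x y) - log (w e) := by
          rw [h2, log_div hw0 hwe]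
        have h3 : log (dl w (Ph d p (fun i => e * q i) x) (Ph d p (fun i => e * q i) y)) ≤ 0 := by
          have := (log_le_log hw1 one_ne_zero).2 (hle _ (hSm x hx) _ (hSm y hy))
          rwa [log_one] at this
        obtain ⟨j, hj⟩ := ih
          (-log (dl w (Ph d p (fun i => e * q i) x) (Ph d p (fun i => e * q i) y))).toNat
          (by omega) _ (hSm x hx) _ (hSm y hy) hne2 (by rw [Int.toNat_of_nonneg (by omega)])
        rw [hlog] at hj
        exact ⟨j + 1, by rw [add_mul, one_mul, ← hj]; ring⟩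
      · exact ⟨0, by rw [heq, log_one, zero_mul]⟩
  have h3 : log (dl w x y) ≤ 0 := by
    have := (log_le_log (hn0 x hx y hy hxy) one_ne_zero).2 (hle x hx y hy)
    rwa [log_one] at this
  exact claim (-log (dl w x y)).toNat x hx y hy hxy (by rw [Int.toNat_of_nonneg (by omega)])

end Bad

end Pool.Agent.PDR
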