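import Pool.Agent.PDR.Count
import Pool.Agent.PDR.Bad

set_option autoImplicit false

/-!
# PDR: binary forms as multivariate polynomials
-/

noncomputable section

namespace Pool.Agent.PDR

section

variable {L : Type} [Field L]

/-- the exponent of the monomial `X^i Y^(d-i)` -/
def ex (d i : ℕ) : Fin 2 →₀ ℕ := Finsupp.single 0 i + Finsupp.single 1 (d - i)

lemma ex_zero (d i : ℕ) : ex d i 0 = i := by
  unfold ex
  simp

lemma ex_one (d i : ℕ) : ex d i 1 = d - i := by
  unfold ex
  simp

/-- the coefficients of a binary form -/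
def cf (P : MvPolynomial (Fin 2) L) (d : ℕ) (i : ℕ) : L := P.coeff (ex d i)

lemma form_eq {P : MvPolynomial (Fin 2) L} {d : ℕ} (hP : P.IsHomogeneous d) :
    P = ∑ i ∈ Finset.range (d + 1), MvPolynomial.monomial (ex d i) (cf P d i) := by
  classical
  ext m
  rw [MvPolynomial.coeff_sum]
  simp only [MvPolynomial.coeff_monomial]
  by_cases hm : m 0 + m 1 = d
  · rw [Finset.sum_eq_single (m 0)]
    · have : ex d (m 0) = m := by
        ext j
        fin_cases j
        · exact ex_zero d (m 0)
        · change ex d (m 0) 1 = m 1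
          rw [ex_one]
          omega
      rw [if_pos this]
      unfold cf
      rw [this]
    · intro i hi hne
      rw [if_neg]
      intro he
      apply hne
      rw [← he, ex_zero]
    · intro h
      rw [Finset.mem_range] at h
      omega
  · rw [Finset.sum_eq_zero]
    · by_contra hne
      exact hm (supp_sum hP (MvPolynomial.mem_support_iff.2 hne))
    · intro i hi
      rw [Finset.mem_range] at hi
      rw [if_neg]
      intro he
      apply hm
      rw [← he, ex_zero, ex_one]
      omega

lemma eval_form {P : MvPolynomial (Fin 2) L} {d : ℕ} (hP : P.IsHomogeneous d) (a : L × L) :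
    MvPolynomial.eval ![a.1, a.2] P = hf d (cf P d) a := by
  conv_lhs => rw [form_eq hP]
  rw [map_sum]
  unfold hf
  refine Finset.sum_congr rfl fun i hi => ?_
  rw [MvPolynomial.eval_monomial, Finsupp.prod_fintype _ _ (by intro j; exact pow_zero _),
    Fin.prod_univ_two, ex_zero, ex_one]
  rfl

lemma pderiv_form {P : MvPolynomial (Fin 2) L} {d : ℕ} (hP : P.IsHomogeneous d) (a : L × L) :
    MvPolynomial.eval ![a.1, a.2] (MvPolynomial.pderiv 0 P) = dx d (cf P d) a := by
  conv_lhs => rw [form_eq hP]
  rw [map_sum, map_sum]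
  unfold dx
  refine Finset.sum_congr rfl fun i hi => ?_
  rw [MvPolynomial.pderiv_monomial, MvPolynomial.eval_monomial,
    Finsupp.prod_fintype _ _ (by intro j; exact pow_zero _), Fin.prod_univ_two, ex_zero]
  have e1 : (ex d i - Finsupp.single 0 1 : Fin 2 →₀ ℕ) 0 = i - 1 := by
    rw [Finsupp.tsub_apply, ex_zero, Finsupp.single_eq_same]
  have e2 : (ex d i - Finsupp.single 0 1 : Fin 2 →₀ ℕ) 1 = d - i := by
    rw [Finsupp.tsub_apply, ex_one, Finsupp.single_apply]
    simp
  rw [e1, e2]
  change cf P d i * (i : L) * (a.1 ^ (i - 1) * a.2 ^ (d - i)) = _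
  ring

end

end Pool.Agent.PDR
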