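import Pool.Agent.PDR.Bad
import Pool.Agent.HMW.TargetsK
import Pool.Agent.HMW.SEL

set_option autoImplicit false

/-!
# PDR: the abstract setting
-/

open NumberField IsDedekindDomain
open scoped WithZero

noncomputable section

namespace Pool.Agent.PDR

open WithZero

section Lin

variable {K : Type} [Field K]

/-- the linear map with matrix rows `(α, β)`, `(γ, δ)` -/
def lin (α β γ δ : K) (a : K × K) : K × K := (α * a.1 + β * a.2, γ * a.1 + δ * a.2)

lemma dt_lin (α β γ δ : K) (a b : K × K) :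
    dt (lin α β γ δ a) (lin α β γ δ b) = (α * δ - β * γ) * dt a b := by
  unfold dt lin; ring

lemma lin_smul (α β γ δ s : K) (a : K × K) : lin α β γ δ (s • a) = s • lin α β γ δ a := by
  unfold lin
  refine Prod.ext ?_ ?_
  · simp only [Prod.smul_fst, Prod.smul_snd, smul_eq_mul]; ring
  · simp only [Prod.smul_fst, Prod.smul_snd, smul_eq_mul]; ring

lemma lin_ne {α β γ δ : K} (h : α * δ - β * γ ≠ 0) {a : K × K} (ha : a ≠ 0) :
    lin α β γ δ a ≠ 0 := by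
  intro h0
  have h1 : α * a.1 + β * a.2 = 0 := congrArg Prod.fst h0
  have h2 : γ * a.1 + δ * a.2 = 0 := congrArg Prod.snd h0
  apply ha
  refine Prod.ext ?_ ?_
  · have h3 : (α * δ - β * γ) * a.1 = 0 := by linear_combination δ * h1 - β * h2
    exact (mul_eq_zero.1 h3).resolve_left h
  · have h3 : (α * δ - β * γ) * a.2 = 0 := by linear_combination α * h2 - γ * h1
    exact (mul_eq_zero.1 h3).resolve_left h

end Lin

/-- the vector over the extension -/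
def em {K L : Type} [Field K] [Field L] (φ : K →+* L) (a : K × K) : L × L := (φ a.1, φ a.2)

lemma em_ne {K L : Type} [Field K] [Field L] (φ : K →+* L) {a : K × K} (ha : a ≠ 0) :
    em φ a ≠ 0 := by
  intro h0
  apply ha
  have h1 : φ a.1 = 0 := congrArg Prod.fst h0
  have h2 : φ a.2 = 0 := congrArg Prod.snd h0
  exact Prod.ext ((map_eq_zero φ).1 h1) ((map_eq_zero φ).1 h2)

lemma dt_em {K L : Type} [Field K] [Field L] (φ : K →+* L) (a b : K × K) :
    dt (em φ a) (em φ b) = φ (dt a b) := by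
  unfold dt em
  rw [map_sub, map_mul, map_mul]

lemma em_smul {K L : Type} [Field K] [Field L] (φ : K →+* L) (c : K) (a : K × K) :
    em φ (c • a) = φ c • em φ a := by
  refine Prod.ext ?_ ?_
  · change φ (c * a.1) = φ c * φ a.1
    rw [map_mul]
  · change φ (c * a.2) = φ c * φ a.2
    rw [map_mul]

/-- the map `f` is tame with exponent `M` at `w`, internal version -/
def TameV {K : Type} [Field K] (M : ℕ) (w : Valuation K ℤᵐ⁰) (d : ℕ) (f : K × K → K × K) :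
    Prop :=
  ∃ (L : Type) (_ : Field L) (u : Valuation L ℤᵐ⁰) (φ : K →+* L) (ε : ℕ) (α β γ δ s e : L)
    (p q : ℕ → L), ε ≠ 0 ∧ (∀ x, u (φ x) = w x ^ ε) ∧ α * δ - β * γ ≠ 0 ∧ s ≠ 0 ∧ e ≠ 0 ∧
    (∀ a, lin α β γ δ (em φ (f a)) =
      s • Ph d p (fun i => e * q i) (lin α β γ δ (em φ a))) ∧
    (∀ i, u (p i) ≤ 1) ∧ (∀ i, u (q i) ≤ 1) ∧
    (∀ a, nrm u a = 1 → nrm u (Ph d p q a) = 1) ∧ u e ≤ 1 ∧
    (u e < 1 → (M : ℤ) * ε ∣ log (u e) ∧ u (p d) = 1 ∧
      ∀ (a : K × K) (c : L), nrm u (c • lin α β γ δ (em φ a)) = 1 →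
        u (hf d p (c • lin α β γ δ (em φ a))) < 1 →
        u (dx d p (c • lin α β γ δ (em φ a))) = 1)

/-- distances with a multiplicative structure; `T` is the set of the points which are
considered -/
structure DD {K : Type} [Field K] (w : Valuation K ℤᵐ⁰) (f : K × K → K × K) (d : ℕ)
    (T : Set (K × K)) (ε : ℕ) (D : K × K → K × K → ℤᵐ⁰) (ρ : K × K → ℤᵐ⁰) (κ : ℤᵐ⁰) :
    Prop where
  eps : ε ≠ 0
  kap : κ ≠ 0
  rho : ∀ a, a ≠ 0 → ρ a ≠ 0
  eq : ∀ a b, a ≠ 0 → b ≠ 0 → w (dt a b) ^ ε = κ * ρ a * ρ b * D a b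
  img : ∃ c : ℤᵐ⁰, c ≠ 0 ∧ ∀ a ∈ T, ρ (f a) = c * ρ a ^ d
  hsm : ∀ (c : K) (a : K × K), ρ (c • a) = w c ^ ε * ρ a
  symm : ∀ a b, D a b = D b a

/-- the conclusions at a place of good reduction -/
structure GR {K : Type} [Field K] (w : Valuation K ℤᵐ⁰) (f : K × K → K × K) (d ε : ℕ)
    (D : K × K → K × K → ℤᵐ⁰) (ρ : K × K → ℤᵐ⁰) (κ : ℤᵐ⁰) : Prop where
  dd : DD w f d {a | a ≠ 0} ε D ρ κ
  smul : ∀ (c : K) (a b : K × K), c ≠ 0 → D (c • a) b = D a b
  le_one : ∀ a b, a ≠ 0 → b ≠ 0 → D a b ≤ 1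
  nonexp : ∀ a b, a ≠ 0 → b ≠ 0 → D (f a) (f b) ≤ D a b
  cyc : ∀ a, a ≠ 0 → ∀ n, 0 < n → dt (f^[n] a) a = 0 → ∀ i j : ℕ,
    D (f^[i] a) (f^[j] a) = D (f^[Nat.gcd (Int.natAbs ((i : ℤ) - j)) n] a) a
  tail : ∀ a, a ≠ 0 → ∀ t n δ : ℕ, 0 < n → dt (f^[n] (f^[t] a)) (f^[t] a) = 0 →
    (∀ m, dt (f^[m] (f^[t] a)) (f^[t] a) = 0 → n ∣ m) → (∀ m, 0 < m → dt (f^[m] a) a ≠ 0) →
    ¬ n ∣ δ → D a (f^[δ] a) = 1
  far : ∀ a b c, a ≠ 0 → b ≠ 0 → c ≠ 0 → dt b c ≠ 0 → dt (f b) (f c) = 0 → dt a b ≠ 0 →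
    D (f a) (f b) = D a b → D a c = 1

section DDlem

variable {K : Type} [Field K] {w : Valuation K ℤᵐ⁰} {f : K × K → K × K} {d : ℕ}
  {T : Set (K × K)} {ε : ℕ} {D : K × K → K × K → ℤᵐ⁰} {ρ : K × K → ℤᵐ⁰} {κ : ℤᵐ⁰}

lemma DD.ne (h : DD w f d T ε D ρ κ) {a b : K × K} (ha : a ≠ 0) (hb : b ≠ 0)
    (hab : dt a b ≠ 0) : D a b ≠ 0 := by
  intro h0
  have h1 := h.eq a b ha hb
  rw [h0, mul_zero] at h1
  exact hab ((Valuation.zero_iff w).1 (pow_eq_zero_iff h.eps |>.1 h1))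

/-- the logarithmic form of the formula for the distances -/
lemma DD.log_eq (h : DD w f d T ε D ρ κ) {a b : K × K}
    (ha : a ≠ 0) (hb : b ≠ 0) (hab : dt a b ≠ 0) :
    (ε : ℤ) * log (w (dt a b)) = log κ + log (ρ a) + log (ρ b) + log (D a b) := by
  have n1 := h.rho a ha
  have n2 := h.rho b hb
  have n3 := h.ne ha hb hab
  have h1 := congrArg log (h.eq a b ha hb)
  rw [log_pow, log_mul (mul_ne_zero (mul_ne_zero h.kap n1) n2) n3,
    log_mul (mul_ne_zero h.kap n1) n2, log_mul h.kap n1] at h1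
  rw [← h1, nsmul_eq_mul]

/-- cross ratios in terms of the distances -/
lemma DD.cr (h : DD w f d T ε D ρ κ)
    {a b c e : K × K} (ha : a ≠ 0) (hb : b ≠ 0) (hc : c ≠ 0) (he : e ≠ 0) (ac : dt a c ≠ 0)
    (be : dt b e ≠ 0) (ae : dt a e ≠ 0) (bc : dt b c ≠ 0) :
    (ε : ℤ) * (log (w (dt a c)) + log (w (dt b e)) - log (w (dt a e)) - log (w (dt b c))) =
      log (D a c) + log (D b e) - log (D a e) - log (D b c) := by
  have h1 := h.log_eq ha hc ac
  have h2 := h.log_eq hb he be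
  have h3 := h.log_eq ha he ae
  have h4 := h.log_eq hb hc bc
  linear_combination h1 + h2 - h3 - h4

/-- one step for the distance from a totally ramified fixed point -/
lemma DD.step (h : DD w f d T ε D ρ κ) (hfne : ∀ a, a ≠ 0 → f a ≠ 0) (hT0 : ∀ a ∈ T, a ≠ 0)
    {q : K × K} {g : K} (hq : q ≠ 0) (hg : g ≠ 0) (hfix : ∀ a, dt (f a) q = g * dt a q ^ d) :
    ∃ C : ℤ, ∀ a ∈ T, dt a q ≠ 0 → log (D (f a) q) = C + d * log (D a q) := by
  obtain ⟨c, hc, himg⟩ := h.img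
  refine ⟨ε * log (w g) + (d - 1 : ℤ) * log κ + (d - 1 : ℤ) * log (ρ q) - log c,
    fun a ha haq => ?_⟩
  have ha0 := hT0 a ha
  have h1 := h.log_eq ha0 hq haq
  have hfq : dt (f a) q ≠ 0 := by
    rw [hfix]
    exact mul_ne_zero hg (pow_ne_zero _ haq)
  have h2 := h.log_eq (hfne a ha0) hq hfq
  rw [hfix, map_mul, log_mul ((Valuation.ne_zero_iff w).2 hg)
    ((Valuation.ne_zero_iff w).2 (pow_ne_zero _ haq)), map_pow, log_pow, nsmul_eq_mul,
    himg a ha, log_mul hc (pow_ne_zero _ (h.rho a ha0)), log_pow, nsmul_eq_mul] at h2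
  linear_combination (d : ℤ) * h1 - h2

lemma DD.mono (h : DD w f d T ε D ρ κ) {T' : Set (K × K)} (hT : T' ⊆ T) :
    DD w f d T' ε D ρ κ := by
  obtain ⟨c, hc, h1⟩ := h.img
  exact ⟨h.eps, h.kap, h.rho, h.eq, ⟨c, hc, fun a ha => h1 a (hT ha)⟩, h.hsm, h.symm⟩

lemma DD.smul_log (h : DD w f d T ε D ρ κ) {c : K} (hc : c ≠ 0) {a b : K × K} (ha : a ≠ 0)
    (hb : b ≠ 0) (hab : dt a b ≠ 0) : log (D (c • a) b) = log (D a b) := by
  have hwc : w c ≠ 0 := (Valuation.ne_zero_iff w).2 hc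
  have h1 := h.log_eq ha hb hab
  have hab' : dt (c • a) b ≠ 0 := by
    rw [dt_smul_left]
    exact mul_ne_zero hc hab
  have h2 := h.log_eq (smul_ne_zero hc ha) hb hab'
  rw [dt_smul_left, map_mul, log_mul hwc ((Valuation.ne_zero_iff w).2 hab), h.hsm,
    log_mul (pow_ne_zero _ hwc) (h.rho a ha), log_pow, nsmul_eq_mul] at h2
  linear_combination h1 - h2

/-- the distance from a totally ramified fixed point is constant -/
lemma DD.q_const (h : DD w f d T ε D ρ κ) (hd : 2 ≤ d) (hfne : ∀ a, a ≠ 0 → f a ≠ 0)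
    (hT0 : ∀ a ∈ T, a ≠ 0) (hTm : ∀ a ∈ T, f a ∈ T)
    (hTc : ∀ a ∈ T, ∃ k n, 0 < n ∧ dt (f^[n] (f^[k] a)) (f^[k] a) = 0)
    {q : K × K} {g : K} (hq : q ≠ 0) (hg : g ≠ 0) (hfix : ∀ a, dt (f a) q = g * dt a q ^ d)
    (hTq : ∀ a ∈ T, dt a q ≠ 0) {a b : K × K} (ha : a ∈ T) (hb : b ∈ T) :
    log (D a q) = log (D b q) := by
  obtain ⟨C, hC⟩ := h.step hfne hT0 hq hg hfix
  have hTi : ∀ a ∈ T, ∀ k, f^[k] a ∈ T := by
    intro a ha k
    induction k with
    | zero => exact ha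
    | succ k ih =>
      rw [Function.iterate_succ_apply']
      exact hTm _ ih
  have hit : ∀ a ∈ T, ∀ k : ℕ, (d - 1 : ℤ) * log (D (f^[k] a) q) + C =
      (d : ℤ) ^ k * ((d - 1 : ℤ) * log (D a q) + C) := by
    intro a ha k
    induction k with
    | zero => rw [pow_zero, one_mul, Function.iterate_zero_apply]
    | succ k ih =>
      rw [Function.iterate_succ_apply', hC _ (hTi a ha k) (hTq _ (hTi a ha k)), pow_succ']
      linear_combination (d : ℤ) * ih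
  have hd2 : (2 : ℤ) ≤ d := by exact_mod_cast hd
  have hper : ∀ b ∈ T, ∀ n, 0 < n → dt (f^[n] b) b = 0 → (d - 1 : ℤ) * log (D b q) + C = 0 := by
    intro b hb n hn hbn
    obtain ⟨c, hc, e⟩ := par_of (hT0 b hb) (hT0 _ (hTi b hb n)) (by
      rw [dt_swap, hbn, neg_zero])
    have h1 := hit b hb n
    rw [e, h.smul_log hc (hT0 b hb) hq (hTq b hb)] at h1
    have h2 : ((d : ℤ) ^ n - 1) * ((d - 1 : ℤ) * log (D b q) + C) = 0 := by
      linear_combination -h1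
    have h3 : (1 : ℤ) < (d : ℤ) ^ n := one_lt_pow₀ (by omega) hn.ne'
    exact (mul_eq_zero.1 h2).resolve_left (by omega)
  have hall : ∀ a ∈ T, (d - 1 : ℤ) * log (D a q) + C = 0 := by
    intro a ha
    obtain ⟨k, n, hn, h1⟩ := hTc a ha
    have h2 := hper _ (hTi a ha k) n hn h1
    rw [hit a ha k] at h2
    exact (mul_eq_zero.1 h2).resolve_left (pow_ne_zero _ (by omega))
  have h1 := hall a ha
  have h2 := hall b hb
  have h3 : (d - 1 : ℤ) * (log (D a q) - log (D b q)) = 0 := by linear_combination h1 - h2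
  have h4 := (mul_eq_zero.1 h3).resolve_left (by omega)
  linarith

end DDlem

/-- `q` is a totally ramified fixed point of `f` -/
def TRam {K : Type} [Field K] (f : K × K → K × K) (d : ℕ) (q : K × K) (g : K) : Prop :=
  q ≠ 0 ∧ g ≠ 0 ∧ ∀ a, dt (f a) q = g * dt a q ^ d

section Conj

variable {K L : Type} [Field K] [Field L] {φ : K →+* L} {α β γ δ s : L} {f : K × K → K × K}
  {g : L × L → L × L} {d : ℕ}

lemma cj_it (hs : s ≠ 0) (hg : ∀ (c : L) (a : L × L), g (c • a) = c ^ d • g a)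
    (h : ∀ a, lin α β γ δ (em φ (f a)) = s • g (lin α β γ δ (em φ a))) (k : ℕ) (a : K × K) :
    ∃ c : L, c ≠ 0 ∧ lin α β γ δ (em φ (f^[k] a)) = c • g^[k] (lin α β γ δ (em φ a)) := by
  induction k with
  | zero => exact ⟨1, one_ne_zero, (one_smul _ _).symm⟩
  | succ k ih =>
    obtain ⟨c, hc, h1⟩ := ih
    refine ⟨s * c ^ d, mul_ne_zero hs (pow_ne_zero _ hc), ?_⟩
    rw [Function.iterate_succ_apply', Function.iterate_succ_apply', h, h1, hg, smul_smul]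

end Conj

/-- at a tame place either the conclusions of good reduction hold or the distances of points
whose cycle has length at least two are `M`-th powers -/
lemma tame_cases {K : Type} [Field K] {M : ℕ} {w : Valuation K ℤᵐ⁰} {d : ℕ} (hd : 1 ≤ d)
    {f : K × K → K × K} (h : TameV M w d f) {T : Set (K × K)} (hT0 : ∀ a ∈ T, a ≠ 0)
    (hTm : ∀ a ∈ T, f a ∈ T)
    (hTc : ∀ a ∈ T, ∃ k n, 0 < n ∧ dt (f^[n] (f^[k] a)) (f^[k] a) = 0 ∧
      dt (f (f^[k] a)) (f^[k] a) ≠ 0) :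
    (∃ ε D ρ κ, GR w f d ε D ρ κ) ∨ ∃ ε D ρ κ, DD w f d T ε D ρ κ ∧
      ∀ a ∈ T, ∀ b ∈ T, dt a b ≠ 0 → (ε : ℤ) * M ∣ log (D a b) := by
  obtain ⟨L, _, u, φ, ε, α, β, γ, δ, s, e, p, q, hε, hu, hdet, hs, he, hrel, hp, hq, hn1, he1,
    hbad⟩ := h
  set μ : K × K → L × L := fun a => lin α β γ δ (em φ a) with hμ
  have hwdet : u (α * δ - β * γ) ≠ 0 := (Valuation.ne_zero_iff u).2 hdet
  have hμdt : ∀ a b, dt (μ a) (μ b) = (α * δ - β * γ) * φ (dt a b) := by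
    intro a b
    rw [hμ, dt_lin, dt_em]
  have hφ0 : ∀ {x : K}, φ x = 0 ↔ x = 0 := map_eq_zero φ
  have hmne : ∀ a, a ≠ 0 → μ a ≠ 0 := fun a ha => lin_ne hdet (em_ne φ ha)
  have hμsm : ∀ (c : K) (a : K × K), μ (c • a) = φ c • μ a := by
    intro c a
    rw [hμ]
    dsimp only
    rw [em_smul, lin_smul]
  have heq : ∀ a b, a ≠ 0 → b ≠ 0 → w (dt a b) ^ ε =
      (u (α * δ - β * γ))⁻¹ * nrm u (μ a) * nrm u (μ b) * dl u (μ a) (μ b) := by
    intro a b ha hb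
    have na := nrm_ne (w := u) (hmne a ha)
    have nb := nrm_ne (w := u) (hmne b hb)
    unfold dl
    rw [mul_assoc (u (α * δ - β * γ))⁻¹, mul_assoc, mul_div_cancel₀ _ (mul_ne_zero na nb),
      hμdt, map_mul, ← mul_assoc, inv_mul_cancel₀ hwdet, one_mul, hu]
  have hhsm : ∀ (c : K) (a : K × K), nrm u (μ (c • a)) = w c ^ ε * nrm u (μ a) := by
    intro c a
    rw [hμsm, nrm_smul, hu]
  have hn : ∀ a, nrm u (Ph d p q a) = nrm u a ^ d := by
    intro a
    by_cases ha : a = 0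
    · subst ha
      have h1 : Ph d p q (0 : L × L) = 0 := by
        have h2 := Ph_smul d p q (0 : L) (0 : L × L)
        rw [zero_smul, zero_pow (by omega), zero_smul] at h2
        exact h2
      have h2 : nrm u (0 : L × L) = 0 := by
        unfold nrm
        rw [Prod.fst_zero, Prod.snd_zero, map_zero, max_self]
      rw [h1, h2, zero_pow (by omega)]
    · obtain ⟨c, hc, h1⟩ := exists_unit (w := u) ha
      have h2 := hn1 _ h1
      rw [Ph_smul, nrm_smul, map_pow] at h2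
      rw [nrm_smul] at h1
      have h3 := eq_inv_of_mul_eq_one_right h1
      have h4 := eq_inv_of_mul_eq_one_right h2
      rw [h4, h3, inv_pow]
  have hgd : GD u d p q := ⟨hp, hq, hn⟩
  rcases he1.lt_or_eq with hlt | heq1
  · right
    obtain ⟨hM, hlead, hsep⟩ := hbad hlt
    have hbd : BD u d p q e := ⟨hgd, hlead, he, hlt⟩
    set g := Ph d p (fun i => e * q i) with hg
    have hgs : ∀ (c : L) (a : L × L), g (c • a) = c ^ d • g a := fun c a => Ph_smul _ _ _ c a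
    set S : Set (L × L) := {x | ∃ a ∈ T, ∃ c : L, c ≠ 0 ∧ x = c • μ a} with hS
    have hS0 : ∀ x ∈ S, x ≠ 0 := by
      rintro x ⟨a, ha, c, hc, rfl⟩
      exact smul_ne_zero hc (hmne a (hT0 a ha))
    have hSm : ∀ x ∈ S, g x ∈ S := by
      rintro x ⟨a, ha, c, hc, rfl⟩
      refine ⟨f a, hTm a ha, c ^ d * s⁻¹, mul_ne_zero (pow_ne_zero _ hc) (inv_ne_zero hs), ?_⟩
      rw [hgs, hμ]
      dsimp only
      rw [hrel, smul_smul, mul_assoc, inv_mul_cancel₀ hs, mul_one]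
    have hSi : ∀ x ∈ S, ¬ u x.2 < u x.1 := by
      rintro x ⟨a, ha, c, hc, rfl⟩
      have h1 : ¬ u (μ a).2 < u (μ a).1 := by
        obtain ⟨k, n, hn, h2, h3⟩ := hTc a ha
        obtain ⟨c₁, hc₁, e₁⟩ := cj_it (d := d) hs hgs hrel k a
        obtain ⟨c₂, hc₂, e₂⟩ := cj_it (d := d) hs hgs hrel (n + k) a
        obtain ⟨c₃, hc₃, e₃⟩ := cj_it (d := d) hs hgs hrel (k + 1) a
        refine hbd.not_inf hd (x := μ a) (k := k) hn ?_ ?_
        · have h4 := hμdt (f^[n] (f^[k] a)) (f^[k] a)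
          rw [h2, map_zero, mul_zero, ← Function.iterate_add_apply, hμ] at h4
          dsimp only at h4
          rw [e₂, e₁, dt_smul_left, dt_smul_right, Function.iterate_add_apply] at h4
          exact (mul_eq_zero.1 ((mul_eq_zero.1 h4).resolve_left hc₂)).resolve_left hc₁
        · intro h5
          have h4 := hμdt (f (f^[k] a)) (f^[k] a)
          rw [← Function.iterate_succ_apply' f, hμ] at h4
          dsimp only at h4
          rw [e₃, e₁, dt_smul_left, dt_smul_right,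
            Function.iterate_succ_apply', h5, mul_zero, mul_zero] at h4
          rcases mul_eq_zero.1 h4.symm with h6 | h6
          · exact hdet h6
          · exact h3 (by rw [← Function.iterate_succ_apply' f]; exact hφ0.1 h6)
      rw [Prod.smul_fst, Prod.smul_snd, smul_eq_mul, smul_eq_mul, map_mul, map_mul]
      intro h2
      exact h1 (lt_of_mul_lt_mul_left h2 zero_le)
    have hSsep : ∀ y ∈ S, ∀ t : L, nrm u (t • y) = 1 → u (hf d p (t • y)) < 1 →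
        u (dx d p (t • y)) = 1 := by
      rintro x ⟨a, ha, c, hc, rfl⟩ t h1 h2
      rw [smul_smul] at h1 h2 ⊢
      exact hsep a (t * c) h1 h2
    have hmem : ∀ a ∈ T, μ a ∈ S := fun a ha => ⟨a, ha, 1, one_ne_zero, (one_smul _ _).symm⟩
    refine ⟨ε, fun a b => dl u (μ a) (μ b), fun a => nrm u (μ a), (u (α * δ - β * γ))⁻¹,
      ⟨hε, inv_ne_zero hwdet, fun a ha => nrm_ne (hmne a ha), heq,
        ⟨u s * u e, mul_ne_zero ((Valuation.ne_zero_iff u).2 hs)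
          ((Valuation.ne_zero_iff u).2 he), fun a ha => ?_⟩, hhsm, fun a b => dl_symm _ _⟩,
      fun a ha b hb hab => ?_⟩
    · have h1 : μ (f a) = s • g (μ a) := hrel a
      rw [h1, nrm_smul, hbd.nrmS hS0 hSm hSi (hmem a ha), mul_assoc]
    · have h1 : dt (μ a) (μ b) ≠ 0 := by
        rw [hμdt]
        exact mul_ne_zero hdet fun h => hab (hφ0.1 h)
      obtain ⟨j, hj⟩ := hbd.main hd hS0 hSsep hSm hSi (hmem a ha) (hmem b hb) h1
      dsimp only
      rw [hj, mul_comm (ε : ℤ)]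
      exact hM.mul_left _
  · left
    -- `e` is a unit
    have hgd' : GD u d p (fun i => e * q i) := by
      refine ⟨hp, fun i => by rw [map_mul, heq1, one_mul]; exact hq i, fun a => ?_⟩
      rw [← hn a]
      unfold nrm
      rw [psi_fst, psi_snd, map_mul, heq1, one_mul]
      rfl
    set g := Ph d p (fun i => e * q i) with hg
    have hgs : ∀ (c : L) (a : L × L), g (c • a) = c ^ d • g a := fun c a => Ph_smul _ _ _ c a
    have hit : ∀ (k : ℕ) (a : K × K), ∃ c : L, c ≠ 0 ∧ μ (f^[k] a) = c • g^[k] (μ a) :=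
      fun (k : ℕ) (a : K × K) => cj_it (d := d) hs hgs hrel k a
    have hDit : ∀ (i j : ℕ) (a b : K × K), dl u (μ (f^[i] a)) (μ (f^[j] b)) =
        dl u (g^[i] (μ a)) (g^[j] (μ b)) := by
      intro i j a b
      obtain ⟨c, hc, h1⟩ := hit i a
      obtain ⟨c', hc', h2⟩ := hit j b
      rw [h1, h2, dl_smul hc, dl_smul' hc']
    have hdtit : ∀ (i j : ℕ) (a b : K × K), dt (g^[i] (μ a)) (g^[j] (μ b)) = 0 ↔
        dt (f^[i] a) (f^[j] b) = 0 := by
      intro i j a b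
      obtain ⟨c, hc, h1⟩ := hit i a
      obtain ⟨c', hc', h2⟩ := hit j b
      have h3 := hμdt (f^[i] a) (f^[j] b)
      rw [h1, h2, dt_smul_left, dt_smul_right] at h3
      constructor
      · intro h4
        rw [h4, mul_zero, mul_zero] at h3
        exact hφ0.1 ((mul_eq_zero.1 h3.symm).resolve_left hdet)
      · intro h4
        rw [h4, map_zero, mul_zero] at h3
        exact (mul_eq_zero.1 ((mul_eq_zero.1 h3).resolve_left hc)).resolve_left hc'
    refine ⟨ε, fun a b => dl u (μ a) (μ b), fun a => nrm u (μ a), (u (α * δ - β * γ))⁻¹,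
      ⟨hε, inv_ne_zero hwdet, fun a ha => nrm_ne (hmne a ha), heq,
        ⟨u s, (Valuation.ne_zero_iff u).2 hs, fun a ha => ?_⟩, hhsm, fun a b => dl_symm _ _⟩,
      fun c a b hc => ?_, fun a b ha hb => dl_le_one (hmne a ha) (hmne b hb), ?_, ?_, ?_, ?_⟩
    · have h1 : μ (f a) = s • g (μ a) := hrel a
      rw [h1, nrm_smul, hgd'.hn]
    · rw [hμsm]
      exact dl_smul ((map_ne_zero φ).2 hc) _ _
    · intro a b ha hb
      have h1 := hDit 1 1 a b
      rw [Function.iterate_one, Function.iterate_one] at h1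
      rw [h1]
      exact hgd'.nonexp hd (hmne a ha) (hmne b hb)
    · intro a ha n hn0 h1 i j
      have h2 : dt (g^[n] (μ a)) (μ a) = 0 := (hdtit n 0 a a).2 h1
      rw [hDit, hgd'.cyc hd (hmne a ha) hn0 h2 i j]
      exact (hDit _ 0 a a).symm
    · intro a ha t n δ' hn0 h1 h2 h3 h4
      have k1 : dt (g^[n] (g^[t] (μ a))) (g^[t] (μ a)) = 0 := by
        rw [← Function.iterate_add_apply]
        refine (hdtit (n + t) t a a).2 ?_
        rwa [Function.iterate_add_apply]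
      have k2 : ∀ m, dt (g^[m] (g^[t] (μ a))) (g^[t] (μ a)) = 0 → n ∣ m := by
        intro m hm
        rw [← Function.iterate_add_apply] at hm
        have := (hdtit (m + t) t a a).1 hm
        rw [Function.iterate_add_apply] at this
        exact h2 m this
      have k3 : ∀ m, 0 < m → dt (g^[m] (μ a)) (μ a) ≠ 0 := fun m hm h5 =>
        h3 m hm ((hdtit m 0 a a).1 h5)
      have h5 := hgd'.tail hd (hmne a ha) hn0 k1 k2 k3 h4
      rw [← h5]
      exact hDit 0 δ' a a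
    · intro a b c ha hb hc h1 h2 h3 h4
      have k1 : dt (μ b) (μ c) ≠ 0 := fun h5 => h1 ((hdtit 0 0 b c).1 h5)
      have k2 : dt (g (μ b)) (g (μ c)) = 0 := (hdtit 1 1 b c).2 h2
      have k3 : dt (μ a) (μ b) ≠ 0 := fun h5 => h3 ((hdtit 0 0 a b).1 h5)
      refine hgd'.far hd (hmne a ha) (hmne b hb) (hmne c hc) k1 k2 k3 ?_
      have h5 := hDit 1 1 a b
      rw [Function.iterate_one, Function.iterate_one] at h5
      exact h5.symm.trans h4

/-- the abstract setting -/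
structure SysR {K : Type} [Field K] [NumberField K] (A : Finset K) (M N : ℕ)
    (f : K × K → K × K) (d : ℕ) (T : Set (K × K)) : Prop where
  ne : ∀ a ∈ T, a ≠ 0
  map : ∀ a ∈ T, f a ∈ T
  pow : ∀ a ∈ T, ∀ b ∈ T, ∀ c ∈ T, ∀ e ∈ T, dt a c ≠ 0 → dt b e ≠ 0 → dt a e ≠ 0 → dt b c ≠ 0 →
    (∀ v : HeightOneSpectrum (𝓞 K), (N : 𝓞 K) ∉ v.asIdeal → ∀ ε D ρ κ,
      GR (v.valuation K) f d ε D ρ κ →
      (ε : ℤ) * M ∣ log (D a c) + log (D b e) - log (D a e) - log (D b c)) →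
    ∃ x ∈ A, ∃ z : K, z ≠ 0 ∧ dt a c * dt b e = x * z ^ M * (dt a e * dt b c)
  tne : ∀ q g, TRam f d q g → ∀ a ∈ T, dt q a ≠ 0
  powq : ∀ q g, TRam f d q g → ∀ b ∈ T, ∀ c ∈ T, ∀ e ∈ T, dt b e ≠ 0 → dt b c ≠ 0 →
    (∀ v : HeightOneSpectrum (𝓞 K), (N : 𝓞 K) ∉ v.asIdeal → ∀ ε D ρ κ,
      GR (v.valuation K) f d ε D ρ κ → (ε : ℤ) * M ∣ log (D b e) - log (D b c)) →
    ∃ x ∈ A, ∃ z : K, z ≠ 0 ∧ dt q c * dt b e = x * z ^ M * (dt q e * dt b c)

lemma SysR.it {K : Type} [Field K] [NumberField K] {A : Finset K} {M N : ℕ}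
    {f : K × K → K × K} {d : ℕ} {T : Set (K × K)} (h : SysR A M N f d T) {x : K × K}
    (hx : x ∈ T) (k : ℕ) : f^[k] x ∈ T := by
  induction k with
  | zero => exact hx
  | succ k ih =>
    rw [Function.iterate_succ_apply']
    exact h.map _ ih

/-- points whose cycle has length at least two do not meet a totally ramified fixed point -/
lemma tram_ne {K : Type} [Field K] {f : K × K → K × K} {d : ℕ} (hd : 1 ≤ d)
    (hfne : ∀ a, a ≠ 0 → f a ≠ 0) {q : K × K} {g : K}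
    (hq : TRam f d q g) {a : K × K} (ha0 : a ≠ 0) (ha : ∃ k n, 0 < n ∧
      dt (f^[n] (f^[k] a)) (f^[k] a) = 0 ∧ dt (f (f^[k] a)) (f^[k] a) ≠ 0) : dt a q ≠ 0 := by
  intro h0
  obtain ⟨k, n, -, -, h1⟩ := ha
  have hz : ∀ k, f^[k] a ≠ 0 ∧ dt (f^[k] a) q = 0 := by
    intro k
    induction k with
    | zero => exact ⟨ha0, h0⟩
    | succ k ih =>
      rw [Function.iterate_succ_apply']
      refine ⟨hfne _ ih.1, ?_⟩
      rw [hq.2.2, ih.2, zero_pow (by omega), mul_zero]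
  apply h1
  have h2 := (hz (k + 1)).2
  rw [Function.iterate_succ_apply'] at h2
  exact par_trans hq.1 h2 (by rw [dt_swap, (hz k).2, neg_zero])

/-- tame maps give the abstract setting, for every divisor `M'` of the exponent -/
theorem sys_of_tame (K : Type) [Field K] [NumberField K] (M' N : ℕ) (hM' : 0 < M')
    (hN : N ≠ 0) : ∃ A : Finset K, (∀ a ∈ A, a ≠ 0) ∧ ∀ (M d : ℕ), M' ∣ M → 2 ≤ d →
    ∀ (f : K × K → K × K) (T : Set (K × K)), (∀ a, a ≠ 0 → f a ≠ 0) →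
    (∀ a ∈ T, a ≠ 0) → (∀ a ∈ T, f a ∈ T) →
    (∀ a ∈ T, ∃ k n, 0 < n ∧ dt (f^[n] (f^[k] a)) (f^[k] a) = 0 ∧
      dt (f (f^[k] a)) (f^[k] a) ≠ 0) →
    (T.Nonempty → ∀ v : HeightOneSpectrum (𝓞 K), (N : 𝓞 K) ∉ v.asIdeal →
      TameV M (v.valuation K) d f) →
    SysR A M' N f d T := by
  have hN' : ((N : ℕ) : 𝓞 K) ≠ 0 := by exact_mod_cast hN
  obtain ⟨A, hA0, hA⟩ := HMW.p_SEL K M' ((N : ℕ) : 𝓞 K) hM' hN'
  refine ⟨A, hA0, fun M d hMM hd f T hfne hT0 hTm hTc hf => ?_⟩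
  -- from local divisibility to powers
  have key : ∀ a b c e : K × K, T.Nonempty → a ≠ 0 → b ≠ 0 → c ≠ 0 → e ≠ 0 → dt a c ≠ 0 →
      dt b e ≠ 0 → dt a e ≠ 0 → dt b c ≠ 0 →
      (∀ v : HeightOneSpectrum (𝓞 K), (N : 𝓞 K) ∉ v.asIdeal → ∃ ε D ρ κ,
        DD (v.valuation K) f d T ε D ρ κ ∧
        (ε : ℤ) * M' ∣ log (D a c) + log (D b e) - log (D a e) - log (D b c)) →
      ∃ x ∈ A, ∃ z : K, z ≠ 0 ∧ dt a c * dt b e = x * z ^ M' * (dt a e * dt b c) := by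
    intro a b c e hT ha hb hc he h1 h2 h3 h4 hgood
    have hne : dt a e * dt b c ≠ 0 := mul_ne_zero h3 h4
    obtain ⟨x, hx, z, hz, hxz⟩ := hA ((dt a c * dt b e) / (dt a e * dt b c))
      (div_ne_zero (mul_ne_zero h1 h2) hne) fun v hv => by
      have k1 : v.valuation K (dt a c) ≠ 0 := ((v.valuation K).ne_zero_iff).mpr h1
      have k2 : v.valuation K (dt b e) ≠ 0 := ((v.valuation K).ne_zero_iff).mpr h2
      have k3 : v.valuation K (dt a e) ≠ 0 := ((v.valuation K).ne_zero_iff).mpr h3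
      have k4 : v.valuation K (dt b c) ≠ 0 := ((v.valuation K).ne_zero_iff).mpr h4
      have e0 : log (v.valuation K ((dt a c * dt b e) / (dt a e * dt b c))) =
          log (v.valuation K (dt a c)) + log (v.valuation K (dt b e)) -
          log (v.valuation K (dt a e)) - log (v.valuation K (dt b c)) := by
        rw [map_div₀, map_mul, map_mul, log_div (mul_ne_zero k1 k2) (mul_ne_zero k3 k4),
          log_mul k1 k2, log_mul k3 k4]
        ring
      rw [e0]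
      obtain ⟨ε, D, ρ, κ, hD, h6⟩ := hgood v hv
      rw [← hD.cr ha hb hc he h1 h2 h3 h4] at h6
      exact Int.dvd_of_mul_dvd_mul_left (by exact_mod_cast hD.eps) h6
    refine ⟨x, hx, z, hz, ?_⟩
    rw [← hxz, div_mul_cancel₀ _ hne]
  have hMM' : ∀ {ε : ℕ} {x : ℤ}, (ε : ℤ) * M ∣ x → (ε : ℤ) * M' ∣ x := fun {ε x} hx =>
    (mul_dvd_mul_left _ (Int.natCast_dvd_natCast.2 hMM)).trans hx
  have hsub : T ⊆ {a : K × K | a ≠ 0} := fun a ha => hT0 a ha
  refine ⟨hT0, hTm, ?_, fun q g hq a ha h0 => tram_ne (by omega) hfne hq (hT0 a ha) (hTc a ha)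
    (by rw [dt_swap, h0, neg_zero]), ?_⟩
  · intro a ha b hb c hc e he h1 h2 h3 h4 hgood
    refine key a b c e ⟨a, ha⟩ (hT0 a ha) (hT0 b hb) (hT0 c hc) (hT0 e he) h1 h2 h3 h4
      fun v hv => ?_
    rcases tame_cases (by omega) (hf ⟨a, ha⟩ v hv) hT0 hTm hTc with ⟨ε, D, ρ, κ, hD⟩ |
      ⟨ε, D, ρ, κ, hD, h5⟩
    · exact ⟨ε, D, ρ, κ, hD.dd.mono hsub, hgood v hv ε D ρ κ hD⟩
    · refine ⟨ε, D, ρ, κ, hD, ?_⟩
      exact dvd_sub (dvd_sub (dvd_add (hMM' (h5 a ha c hc h1)) (hMM' (h5 b hb e he h2)))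
        (hMM' (h5 a ha e he h3))) (hMM' (h5 b hb c hc h4))
  · intro q g hq b hb c hc e he h2 h4 hgood
    have hTq : ∀ a ∈ T, dt a q ≠ 0 := fun a ha =>
      tram_ne (by omega) hfne hq (hT0 a ha) (hTc a ha)
    have hTc' : ∀ a ∈ T, ∃ k n, 0 < n ∧ dt (f^[n] (f^[k] a)) (f^[k] a) = 0 := fun a ha => by
      obtain ⟨k, n, h1, h2, -⟩ := hTc a ha
      exact ⟨k, n, h1, h2⟩
    have hqT : ∀ a ∈ T, dt q a ≠ 0 := fun a ha h0 => hTq a ha (by rw [dt_swap, h0, neg_zero])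
    refine key q b c e ⟨b, hb⟩ hq.1 (hT0 b hb) (hT0 c hc) (hT0 e he) (hqT c hc) h2 (hqT e he) h4
      fun v hv => ?_
    have hcan : ∀ {ε : ℕ} {D : K × K → K × K → ℤᵐ⁰} {ρ : K × K → ℤᵐ⁰} {κ : ℤᵐ⁰},
        DD (v.valuation K) f d T ε D ρ κ →
        log (D q c) + log (D b e) - log (D q e) - log (D b c) = log (D b e) - log (D b c) := by
      intro ε D ρ κ hD
      rw [hD.symm q c, hD.symm q e,
        hD.q_const hd hfne hT0 hTm hTc' hq.1 hq.2.1 hq.2.2 hTq hc he]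
      ring
    rcases tame_cases (by omega) (hf ⟨b, hb⟩ v hv) hT0 hTm hTc with ⟨ε, D, ρ, κ, hD⟩ |
      ⟨ε, D, ρ, κ, hD, h5⟩
    · refine ⟨ε, D, ρ, κ, hD.dd.mono hsub, ?_⟩
      rw [hcan (hD.dd.mono hsub)]
      exact hgood v hv ε D ρ κ hD
    · refine ⟨ε, D, ρ, κ, hD, ?_⟩
      rw [hcan hD]
      exact dvd_sub (hMM' (h5 b hb e he h2)) (hMM' (h5 b hb c hc h4))

end Pool.Agent.PDR
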