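import Pool.Agent.PDR.Def
import Pool.Agent.PDR.Form
import Pool.Agent.PDR.Sys

set_option autoImplicit false

/-!
# PDR: from the definitions of the statements to the internal ones
-/

open scoped WithZero

noncomputable section

namespace Pool.Agent.PDR

open WithZero

section

variable {K : Type} [Field K] {F G : MvPolynomial (Fin 2) K} {d : ℕ}

/-- a vector as a pair -/
def tp (v : Fin 2 → K) : K × K := (v 0, v 1)

omit [Field K] in
lemma tp_eta (v : Fin 2 → K) : ![(tp v).1, (tp v).2] = v := by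
  funext i
  fin_cases i <;> rfl

omit [Field K] in
lemma tp_mk (a : K × K) : tp ![a.1, a.2] = a := rfl

lemma tp_inj {v v' : Fin 2 → K} (h : tp v = tp v') : v = v' := by
  rw [← tp_eta v, ← tp_eta v', h]

lemma tp_ne {v : Fin 2 → K} : tp v ≠ 0 ↔ v ≠ 0 := by
  constructor
  · rintro h rfl
    exact h rfl
  · intro h h0
    apply h
    exact tp_inj (h0.trans rfl)

lemma tp_smul (c : K) (v : Fin 2 → K) : tp (c • v) = c • tp v := rfl

lemma tp_val (v : Fin 2 → K) : tp (val F G v) = fm F G K (tp v) := by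
  unfold val fm
  rw [tp_eta]
  rfl

lemma tp_val_it (v : Fin 2 → K) (k : ℕ) : tp ((val F G)^[k] v) = (fm F G K)^[k] (tp v) := by
  induction k with
  | zero => rfl
  | succ k ih => rw [Function.iterate_succ_apply', Function.iterate_succ_apply', tp_val, ih]

lemma same_iff {a b : K × K} (ha : a ≠ 0) (hb : b ≠ 0) :
    dt a b = 0 ↔ ∃ c : K, c ≠ 0 ∧ a = c • b := by
  constructor
  · intro h
    exact par_of hb ha (dt_comm_zero h)
  · rintro ⟨c, -, rfl⟩
    rw [dt_smul_left, dt_self, mul_zero]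

/-- exact periods -/
lemma pp_of (hf : Pj (fm F G K)) {n : ℕ} {v : Fin 2 → K} (h : HasPeriod F G n v) :
    PP (fm F G K) (tp v) n := by
  obtain ⟨hv, hn, ⟨c, hc, h1⟩, h2⟩ := h
  have hv' : tp v ≠ 0 := tp_ne.2 hv
  have h3 : dt ((fm F G K)^[n] (tp v)) (tp v) = 0 := by
    rw [← tp_val_it, h1, tp_smul, dt_smul_left, dt_self, mul_zero]
  obtain ⟨n', hn'⟩ := exists_PP hf hv' hn h3
  have h4 := hn'.min n h3
  rcases (Nat.le_of_dvd hn h4).lt_or_eq with h5 | h5
  · obtain ⟨c', -, e⟩ := (same_iff (hf.it_ne n' hv') hv').1 hn'.per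
    rw [← tp_val_it, ← tp_smul] at e
    exact absurd (tp_inj e) (h2 n' hn'.pos h5 c')
  · rwa [h5] at hn'

lemma of_pp (hf : Pj (fm F G K)) {n : ℕ} {v : Fin 2 → K} (hv : v ≠ 0)
    (h : PP (fm F G K) (tp v) n) : HasPeriod F G n v := by
  have hv' : tp v ≠ 0 := tp_ne.2 hv
  refine ⟨hv, h.pos, ?_, fun m hm hmn c e => ?_⟩
  · obtain ⟨c, hc, e⟩ := (same_iff (hf.it_ne n hv') hv').1 h.per
    rw [← tp_val_it, ← tp_smul] at e
    exact ⟨c, hc, tp_inj e⟩
  · have h1 : dt ((fm F G K)^[m] (tp v)) (tp v) = 0 := by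
      rw [← tp_val_it, e, tp_smul, dt_smul_left, dt_self, mul_zero]
    have := Nat.le_of_dvd hm (h.min m h1)
    omega

lemma ncz_of (h : ∀ x : Fin 2 → AlgebraicClosure K, x ≠ 0 →
    ¬ (MvPolynomial.aeval x F = 0 ∧ MvPolynomial.aeval x G = 0)) : NCZ F G := by
  intro v hv h0
  refine h ![v.1, v.2] ?_ ⟨congrArg Prod.fst h0, congrArg Prod.snd h0⟩
  intro h1
  apply hv
  exact Prod.ext (congrFun h1 0) (congrFun h1 1)

end

/-- totally ramified fixed points -/
lemma tram_of {K : Type} [Field K] {F G : MvPolynomial (Fin 2) K} {d : ℕ} (h : TotRam F G d) :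
    ∃ o g, TRam (fm F G K) d o g := by
  obtain ⟨q, g, hq, hg, h1⟩ := h
  refine ⟨tp q, g, tp_ne.2 hq, hg, fun a => ?_⟩
  have h2 := h1 ![a.1, a.2]
  have h3 := tp_val (F := F) (G := G) ![a.1, a.2]
  rw [tp_mk] at h3
  unfold dt
  rw [← h3]
  exact h2

/-- the tameness of the statements implies the internal one -/
lemma tameV_of {K : Type} [Field K] {F G : MvPolynomial (Fin 2) K} {M d : ℕ}
    {w : Valuation K ℤᵐ⁰} (h : Tame M w d F G) : TameV M w d (fm F G K) := by
  obtain ⟨L, iL, u, φ, ε, μ, s, e, P, Q, hε, hu, hdet, hs, he, hP, hQ, hrel, hPc, hQc, hn, he1,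
    hbad⟩ := h
  have hlin : ∀ v : Fin 2 → K, tp (μ.mulVec fun i => φ (v i)) =
      lin (μ 0 0) (μ 0 1) (μ 1 0) (μ 1 1) (em φ (tp v)) := by
    intro v
    unfold tp lin em
    refine Prod.ext ?_ ?_ <;> simp [Matrix.mulVec, dotProduct, Fin.sum_univ_two]
  have hev : ∀ (R : MvPolynomial (Fin 2) L), R.IsHomogeneous d → ∀ a : Fin 2 → L,
      MvPolynomial.eval a R = hf d (cf R d) (tp a) := by
    intro R hR a
    rw [← eval_form hR, tp_eta]
  have hev' : ∀ (R : MvPolynomial (Fin 2) L), R.IsHomogeneous d → ∀ a : Fin 2 → L,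
      MvPolynomial.eval a (MvPolynomial.pderiv 0 R) = dx d (cf R d) (tp a) := by
    intro R hR a
    rw [← pderiv_form hR, tp_eta]
  refine ⟨L, iL, u, φ, ε, μ 0 0, μ 0 1, μ 1 0, μ 1 1, s, e, cf P d, cf Q d, hε, hu, ?_, hs, he,
    fun a => ?_, fun i => hPc _, fun i => hQc _, fun a ha => ?_, he1, fun hlt => ?_⟩
  · rw [Matrix.det_fin_two] at hdet
    exact hdet
  · have h1 := congrArg tp (hrel ![a.1, a.2])
    rw [tp_smul, hlin] at h1
    have e1 : (tp fun i => (val F G ![a.1, a.2]) i) = fm F G K a := tp_val _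
    rw [show (tp (val F G ![a.1, a.2])) = fm F G K a from tp_val _] at h1
    rw [h1]
    congr 1
    have h2 : tp (val P (MvPolynomial.C e * Q) (μ.mulVec fun i => φ (![a.1, a.2] i))) =
        (MvPolynomial.eval (μ.mulVec fun i => φ (![a.1, a.2] i)) P,
          e * MvPolynomial.eval (μ.mulVec fun i => φ (![a.1, a.2] i)) Q) := by
      unfold val
      rw [map_mul, MvPolynomial.eval_C]
      rfl
    rw [h2, hev P hP, hev Q hQ, hlin, tp_mk]
    refine Prod.ext rfl ?_
    dsimp only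
    rw [psi_snd]
  · have h1 := hn ![a.1, a.2] ha
    unfold size val at h1
    rw [hev P hP, hev Q hQ, tp_mk] at h1
    exact h1
  · obtain ⟨h1, h2, h3⟩ := hbad hlt
    refine ⟨h1, ?_, fun a c ha hc => ?_⟩
    · rw [hev P hP] at h2
      rw [← h2]
      congr 1
      unfold hf tp
      rw [Finset.sum_eq_single d]
      · simp
      · intro i hi hne
        rw [Finset.mem_range] at hi
        have : d - i ≠ 0 := by omega
        simp [this]
      · intro h
        simp at h
    · have h4 := h3 ![a.1, a.2] c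
      have e1 : tp (c • μ.mulVec fun i => φ (![a.1, a.2] i)) =
          c • lin (μ 0 0) (μ 0 1) (μ 1 0) (μ 1 1) (em φ a) := by
        rw [tp_smul, hlin, tp_mk]
      rw [hev P hP, hev' P hP, e1] at h4
      refine h4 ?_ hc
      rw [← e1] at ha
      exact ha

end Pool.Agent.PDR
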