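import Pool.Agent.PDR.Cyc

set_option autoImplicit false

/-!
# PDR: forms and the number of solutions of `f^(t+n) = f^t`
-/

noncomputable section

namespace Pool.Agent.PDR

/-- the map given by two binary forms over `K`, on pairs of elements of a `K`-algebra -/
def fm {K : Type} [Field K] (F G : MvPolynomial (Fin 2) K) (R : Type) [CommRing R] [Algebra K R]
    (v : R × R) : R × R := (MvPolynomial.aeval ![v.1, v.2] F, MvPolynomial.aeval ![v.1, v.2] G)

section Basic

variable {K : Type} [Field K] {F G : MvPolynomial (Fin 2) K} {d : ℕ}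

lemma fm_hom {R S : Type} [CommRing R] [Algebra K R] [CommRing S] [Algebra K S] (φ : R →ₐ[K] S)
    (v : R × R) : fm F G S (φ v.1, φ v.2) = (φ (fm F G R v).1, φ (fm F G R v).2) := by
  have h : ∀ H : MvPolynomial (Fin 2) K, MvPolynomial.aeval ![φ v.1, φ v.2] H =
      φ (MvPolynomial.aeval ![v.1, v.2] H) := by
    intro H
    rw [← AlgHom.comp_apply, MvPolynomial.comp_aeval]
    congr 2
    funext i
    fin_cases i <;> rfl
  unfold fm
  rw [h, h]

lemma fm_hom_it {R S : Type} [CommRing R] [Algebra K R] [CommRing S] [Algebra K S]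
    (φ : R →ₐ[K] S) (v : R × R) (k : ℕ) :
    (fm F G S)^[k] (φ v.1, φ v.2) = (φ ((fm F G R)^[k] v).1, φ ((fm F G R)^[k] v).2) := by
  induction k with
  | zero => rfl
  | succ k ih =>
    rw [Function.iterate_succ_apply', ih, fm_hom, ← Function.iterate_succ_apply' (fm F G R)]

lemma supp_sum (hF : F.IsHomogeneous d) {s : Fin 2 →₀ ℕ} (hs : s ∈ F.support) : s 0 + s 1 = d := by
  have h1 := hF (MvPolynomial.mem_support_iff.1 hs)
  rw [Finsupp.weight_apply, Finsupp.sum_fintype _ _ (by intro i; simp), Fin.sum_univ_two] at h1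
  simpa using h1

lemma aeval_eq {R : Type} [CommRing R] [Algebra K R] (F : MvPolynomial (Fin 2) K) (v : R × R) :
    MvPolynomial.aeval ![v.1, v.2] F =
      ∑ s ∈ F.support, algebraMap K R (F.coeff s) * (v.1 ^ s 0 * v.2 ^ s 1) := by
  rw [MvPolynomial.aeval_def, MvPolynomial.eval₂_eq']
  refine Finset.sum_congr rfl fun s _ => ?_
  rw [Fin.prod_univ_two]
  rfl

lemma aeval_smul (hF : F.IsHomogeneous d) {R : Type} [CommRing R] [Algebra K R] (c : R)
    (v : R × R) : MvPolynomial.aeval ![(c • v).1, (c • v).2] F =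
      c ^ d * MvPolynomial.aeval ![v.1, v.2] F := by
  rw [aeval_eq, aeval_eq, Finset.mul_sum]
  refine Finset.sum_congr rfl fun s hs => ?_
  rw [← supp_sum hF hs, Prod.smul_fst, Prod.smul_snd, smul_eq_mul, smul_eq_mul, mul_pow, mul_pow,
    pow_add]
  ring

lemma fm_smul (hF : F.IsHomogeneous d) (hG : G.IsHomogeneous d) {R : Type} [CommRing R]
    [Algebra K R] (c : R) (v : R × R) : fm F G R (c • v) = c ^ d • fm F G R v := by
  unfold fm
  rw [aeval_smul hF, aeval_smul hG]
  rfl

lemma fm_smul_it (hF : F.IsHomogeneous d) (hG : G.IsHomogeneous d) {R : Type} [CommRing R]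
    [Algebra K R] (c : R) (v : R × R) (k : ℕ) :
    (fm F G R)^[k] (c • v) = c ^ d ^ k • (fm F G R)^[k] v := by
  induction k with
  | zero => rw [Function.iterate_zero_apply, Function.iterate_zero_apply, pow_zero, pow_one]
  | succ k ih =>
    rw [Function.iterate_succ_apply', ih, fm_smul hF hG, Function.iterate_succ_apply', ← pow_mul,
      ← pow_succ]

/-- no common zero over the algebraic closure -/
def NCZ (F G : MvPolynomial (Fin 2) K) : Prop :=
  ∀ v : AlgebraicClosure K × AlgebraicClosure K, v ≠ 0 → fm F G (AlgebraicClosure K) v ≠ 0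

lemma NCZ.it (h : NCZ F G) (k : ℕ) {v : AlgebraicClosure K × AlgebraicClosure K} (hv : v ≠ 0) :
    (fm F G (AlgebraicClosure K))^[k] v ≠ 0 := by
  induction k with
  | zero => exact hv
  | succ k ih =>
    rw [Function.iterate_succ_apply']
    exact h _ ih

lemma NCZ.ne (h : NCZ F G) {v : K × K} (hv : v ≠ 0) : fm F G K v ≠ 0 := by
  intro h0
  have h1 := fm_hom (F := F) (G := G) (Algebra.ofId K (AlgebraicClosure K)) v
  rw [h0] at h1
  refine h (Algebra.ofId K (AlgebraicClosure K) v.1, Algebra.ofId K (AlgebraicClosure K) v.2) ?_ ?_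
  · intro h2
    apply hv
    have e1 := congrArg Prod.fst h2
    have e2 := congrArg Prod.snd h2
    exact Prod.ext ((map_eq_zero _).1 e1) ((map_eq_zero _).1 e2)
  · rw [h1, Prod.fst_zero, Prod.snd_zero, map_zero]
    rfl

lemma pj_fm (hF : F.IsHomogeneous d) (hG : G.IsHomogeneous d) (h : NCZ F G) : Pj (fm F G K) := by
  refine ⟨fun x y hxy => ?_, fun x hx => h.ne hx⟩
  by_cases hx : x = 0
  · subst hx
    by_cases hd : d = 0
    · subst hd
      have h1 := fm_smul hF hG (R := K) 0 y
      rw [zero_smul, pow_zero, one_smul] at h1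
      rw [h1, dt_self]
    · have h1 := fm_smul hF hG (R := K) 0 (0 : K × K)
      rw [zero_smul, zero_pow hd, zero_smul] at h1
      rw [h1]
      unfold dt
      simp
  by_cases hy : y = 0
  · subst hy
    by_cases hd : d = 0
    · subst hd
      have h1 := fm_smul hF hG (R := K) 0 x
      rw [zero_smul, pow_zero, one_smul] at h1
      rw [h1, dt_self]
    · have h1 := fm_smul hF hG (R := K) 0 (0 : K × K)
      rw [zero_smul, zero_pow hd, zero_smul] at h1
      rw [h1]
      unfold dt
      simp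
  obtain ⟨s, -, e⟩ := par_of hx hy hxy
  rw [e, fm_smul hF hG, dt_smul_right, dt_self, mul_zero]

end Basic

section Poly

open Polynomial

variable {K : Type} [Field K] {F G : MvPolynomial (Fin 2) K} {d : ℕ}

/-- the top coefficient of a form in two polynomials -/
lemma top_coeff (hF : F.IsHomogeneous d) {a b : K[X]} {D : ℕ} (ha : a.natDegree ≤ D)
    (hb : b.natDegree ≤ D) : (MvPolynomial.aeval ![a, b] F).natDegree ≤ D * d ∧
    (MvPolynomial.aeval ![a, b] F).coeff (D * d) =
      MvPolynomial.aeval ![a.coeff D, b.coeff D] F := by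
  have h1 := aeval_eq F (a, b)
  have h2 := aeval_eq F (a.coeff D, b.coeff D)
  dsimp only at h1 h2
  have key : ∀ s ∈ F.support, (a ^ s 0 * b ^ s 1).natDegree ≤ D * d ∧
      (a ^ s 0 * b ^ s 1).coeff (D * d) = a.coeff D ^ s 0 * b.coeff D ^ s 1 := by
    intro s hs
    have e1 : (a ^ s 0).natDegree ≤ D * s 0 := by
      rw [mul_comm]; exact natDegree_pow_le_of_le _ ha
    have e2 : (b ^ s 1).natDegree ≤ D * s 1 := by
      rw [mul_comm]; exact natDegree_pow_le_of_le _ hb
    rw [← supp_sum hF hs, mul_add]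
    refine ⟨natDegree_mul_le_of_le e1 e2, ?_⟩
    rw [coeff_mul_add_eq_of_natDegree_le e1 e2, mul_comm D (s 0), mul_comm D (s 1),
      coeff_pow_of_natDegree_le ha, coeff_pow_of_natDegree_le hb]
  rw [h1, h2]
  constructor
  · refine natDegree_sum_le_of_forall_le _ _ fun s hs => ?_
    exact (natDegree_C_mul_le _ _).trans (key s hs).1
  · rw [finsetSum_coeff]
    refine Finset.sum_congr rfl fun s hs => ?_
    rw [← Polynomial.C_eq_algebraMap, coeff_C_mul, (key s hs).2]
    rfl

/-- the two forms of the iterates, dehomogenised -/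
def pw (F G : MvPolynomial (Fin 2) K) (k : ℕ) : K[X] × K[X] := (fm F G K[X])^[k] (X, 1)

lemma pw_eval (x : K) (k : ℕ) :
    (fm F G K)^[k] (x, 1) = ((pw F G k).1.eval x, (pw F G k).2.eval x) := by
  have h := fm_hom_it (F := F) (G := G) (Polynomial.aeval (R := K) x) ((X : K[X]), (1 : K[X])) k
  dsimp only at h
  rw [Polynomial.aeval_X, map_one, Polynomial.coe_aeval_eq_eval] at h
  exact h

lemma pw_aeval (x : AlgebraicClosure K) (k : ℕ) :
    (fm F G (AlgebraicClosure K))^[k] (x, 1) =
      (Polynomial.aeval x (pw F G k).1, Polynomial.aeval x (pw F G k).2) := by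
  have h := fm_hom_it (F := F) (G := G) (Polynomial.aeval (R := K) x) ((X : K[X]), (1 : K[X])) k
  dsimp only at h
  rw [Polynomial.aeval_X, map_one] at h
  exact h

lemma pw_top (hF : F.IsHomogeneous d) (hG : G.IsHomogeneous d) (k : ℕ) :
    (pw F G k).1.natDegree ≤ d ^ k ∧ (pw F G k).2.natDegree ≤ d ^ k ∧
    (fm F G K)^[k] (1, 0) = ((pw F G k).1.coeff (d ^ k), (pw F G k).2.coeff (d ^ k)) := by
  induction k with
  | zero =>
    unfold pw
    rw [Function.iterate_zero_apply, pow_zero, Function.iterate_zero_apply]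
    refine ⟨natDegree_X_le, by rw [natDegree_one]; exact zero_le_one, ?_⟩
    rw [coeff_X_one]
    refine Prod.ext rfl ?_
    dsimp only
    rw [Polynomial.coeff_one]
    simp
  | succ k ih =>
    obtain ⟨i1, i2, i3⟩ := ih
    have e1 : pw F G (k + 1) = fm F G K[X] (pw F G k) := by
      unfold pw
      rw [Function.iterate_succ_apply']
    have t1 := top_coeff hF i1 i2
    have t2 := top_coeff hG i1 i2
    rw [e1, Function.iterate_succ_apply', i3, pow_succ]
    refine ⟨t1.1, t2.1, ?_⟩
    unfold fm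
    rw [← t1.2, ← t2.2]

lemma pw_coprime (h : NCZ F G) (k : ℕ) : IsCoprime (pw F G k).1 (pw F G k).2 := by
  refine (Polynomial.isCoprime_iff_aeval_ne_zero_of_isAlgClosed (k := K)
    (AlgebraicClosure K) _ _).2 fun x => ?_
  by_contra hcon
  push Not at hcon
  refine h.it k (v := (x, 1)) (fun h0 => one_ne_zero (congrArg Prod.snd h0)) ?_
  rw [pw_aeval, hcon.1, hcon.2]
  rfl

/-- the resulting polynomial does not vanish -/
lemma pw_cross_ne (hd : 2 ≤ d) (hF : F.IsHomogeneous d) (hG : G.IsHomogeneous d)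
    (h : NCZ F G) (t n : ℕ) (hn : 0 < n) :
    (pw F G (t + n)).1 * (pw F G t).2 - (pw F G (t + n)).2 * (pw F G t).1 ≠ 0 := by
  intro h0
  set p := (pw F G (t + n)).1
  set q := (pw F G (t + n)).2
  set p' := (pw F G t).1
  set q' := (pw F G t).2
  have h1 : p * q' = q * p' := sub_eq_zero.1 h0
  have c1 : IsCoprime p q := pw_coprime h _
  have c2 : IsCoprime p' q' := pw_coprime h _
  obtain ⟨d1, d2, d3⟩ := pw_top hF hG (F := F) (G := G) (t + n)
  obtain ⟨e1, e2, e3⟩ := pw_top hF hG (F := F) (G := G) t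
  have hlt : d ^ t < d ^ (t + n) := Nat.pow_lt_pow_right (by omega) (by omega)
  have hpp : p ∣ p' := c1.dvd_of_dvd_mul_left ⟨q', h1.symm⟩
  have hqq : q ∣ q' := c1.symm.dvd_of_dvd_mul_left ⟨p', h1⟩
  have hpp' : p' ∣ p := c2.dvd_of_dvd_mul_right ⟨q, by rw [h1, mul_comm]⟩
  have hqq' : q' ∣ q := c2.symm.dvd_of_dvd_mul_right ⟨p, by rw [← h1, mul_comm]⟩
  have hne : (fm F G K)^[t + n] ((1 : K), (0 : K)) ≠ 0 := by
    have : ∀ k, (fm F G K)^[k] ((1 : K), (0 : K)) ≠ 0 := by
      intro k
      induction k with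
      | zero => exact fun h0 => one_ne_zero (congrArg Prod.fst h0)
      | succ k ih =>
        rw [Function.iterate_succ_apply']
        exact h.ne ih
    exact this _
  rw [d3] at hne
  have key : ∀ x y : K[X], x ∣ y → y ∣ x → y.natDegree ≤ d ^ t → x.coeff (d ^ (t + n)) = 0 := by
    intro x y hxy hyx hy
    by_cases hy0 : y = 0
    · rw [hy0, zero_dvd_iff] at hyx
      rw [hyx, Polynomial.coeff_zero]
    · exact coeff_eq_zero_of_natDegree_lt
        (((natDegree_le_of_dvd hxy hy0).trans hy).trans_lt hlt)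
  refine hne (Prod.ext ?_ ?_)
  · exact key p p' hpp hpp' e1
  · exact key q q' hqq hqq' e2

/-- the number of points with `f^(t+n) = f^t` -/
theorem count_points (hd : 2 ≤ d) (hF : F.IsHomogeneous d) (hG : G.IsHomogeneous d)
    (h : NCZ F G) (t n : ℕ) (hn : 0 < n) (S : Finset (K × K))
    (hS : ∀ a ∈ S, ∀ b ∈ S, a ≠ b → dt a b ≠ 0)
    (hST : ∀ a ∈ S, dt ((fm F G K)^[t + n] a) ((fm F G K)^[t] a) = 0) :
    S.card ≤ d ^ (t + n + 1) := by
  classical
  set W : K[X] := (pw F G (t + n)).1 * (pw F G t).2 - (pw F G (t + n)).2 * (pw F G t).1 with hW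
  have hW0 : W ≠ 0 := pw_cross_ne hd hF hG h t n hn
  obtain ⟨d1, d2, -⟩ := pw_top hF hG (F := F) (G := G) (t + n)
  obtain ⟨e1, e2, -⟩ := pw_top hF hG (F := F) (G := G) t
  have hdeg : W.natDegree ≤ d ^ (t + n) + d ^ t :=
    (natDegree_sub_le_of_le (natDegree_mul_le_of_le d1 e2) (natDegree_mul_le_of_le d2 e1)).trans
      (max_self _).le
  have hlt : d ^ t < d ^ (t + n) := Nat.pow_lt_pow_right (by omega) (by omega)
  have h1 : (S.filter fun a => a.2 = 0).card ≤ 1 := by
    refine Finset.card_le_one.2 fun a ha b hb => ?_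
    rw [Finset.mem_filter] at ha hb
    by_contra hne
    refine hS a ha.1 b hb.1 hne ?_
    unfold dt
    rw [ha.2, hb.2]
    ring
  have h2 : (S.filter fun a => ¬ a.2 = 0).card ≤ W.natDegree := by
    refine le_trans ?_ (W.card_roots' )
    refine le_trans ?_ (Multiset.toFinset_card_le _)
    refine Finset.card_le_card_of_injOn (fun a => a.1 / a.2) (fun a ha => ?_)
      (fun a ha b hb hab => ?_)
    · rw [Finset.mem_coe, Finset.mem_filter] at ha
      rw [Finset.mem_coe, Multiset.mem_toFinset, mem_roots hW0, IsRoot.def]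
      have e : a = a.2 • (a.1 / a.2, (1 : K)) := by
        refine Prod.ext ?_ ?_
        · rw [Prod.smul_fst, smul_eq_mul, mul_div_cancel₀ _ ha.2]
        · rw [Prod.smul_snd, smul_eq_mul, mul_one]
      have h3 := hST a ha.1
      rw [e, fm_smul_it hF hG, fm_smul_it hF hG, dt_smul_left, dt_smul_right, pw_eval,
        pw_eval] at h3
      have h4 := (mul_eq_zero.1 ((mul_eq_zero.1 h3).resolve_left
        (pow_ne_zero _ ha.2))).resolve_left (pow_ne_zero _ ha.2)
      rw [hW, Polynomial.eval_sub, Polynomial.eval_mul, Polynomial.eval_mul]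
      exact h4
    · rw [Finset.mem_coe, Finset.mem_filter] at ha hb
      by_contra hne
      refine hS a ha.1 b hb.1 hne ?_
      dsimp only at hab
      rw [div_eq_div_iff ha.2 hb.2] at hab
      unfold dt
      linear_combination hab
  have h3 := Finset.card_filter_add_card_filter_not (s := S) (fun a => a.2 = 0)
  have h4 : 2 * d ^ (t + n) ≤ d ^ (t + n + 1) := by
    rw [pow_succ, mul_comm]
    exact Nat.mul_le_mul_left _ hd
  omega

end Poly

end Pool.Agent.PDR
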