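import Pool.Agent.PDR.Sys
import Pool.Agent.PDP.Cycle

set_option autoImplicit false

/-!
# PDR: lengths of cycles and of tails
-/

open NumberField IsDedekindDomain
open scoped WithZero

noncomputable section

namespace Pool.Agent.PDR

open WithZero
open Pool.Agent.PDP (Sg Sq wb wb2 gcd_mul_aux)

/-- the map respects proportional vectors and does not vanish -/
structure Pj {K : Type} [Field K] (f : K × K → K × K) : Prop where
  par : ∀ x y, dt x y = 0 → dt (f x) (f y) = 0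
  ne : ∀ x, x ≠ 0 → f x ≠ 0

/-- `a` is a periodic point of exact period `n` of the map of the projective line -/
structure PP {K : Type} [Field K] (f : K × K → K × K) (a : K × K) (n : ℕ) : Prop where
  pos : 0 < n
  per : dt (f^[n] a) a = 0
  min : ∀ m, dt (f^[m] a) a = 0 → n ∣ m

section Orb

variable {K : Type} [Field K] {f : K × K → K × K}

lemma Pj.it (h : Pj f) (k : ℕ) {x y : K × K} (hxy : dt x y = 0) :
    dt (f^[k] x) (f^[k] y) = 0 := by
  induction k with
  | zero => exact hxy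
  | succ k ih =>
    rw [Function.iterate_succ_apply', Function.iterate_succ_apply']
    exact h.par _ _ ih

lemma Pj.it_ne (h : Pj f) (k : ℕ) {x : K × K} (hx : x ≠ 0) : f^[k] x ≠ 0 := by
  induction k with
  | zero => exact hx
  | succ k ih =>
    rw [Function.iterate_succ_apply']
    exact h.ne _ ih

lemma dt_comm_zero {a b : K × K} (h : dt a b = 0) : dt b a = 0 := by
  rw [dt_swap, h, neg_zero]

lemma PP.ne (hf : Pj f) {a : K × K} (ha : a ≠ 0) {n : ℕ} (h : PP f a n) {i j : ℕ} (hi : i < n)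
    (hj : j < n) (hij : i ≠ j) : dt (f^[i] a) (f^[j] a) ≠ 0 := by
  have key : ∀ i j, i < j → j < n → dt (f^[i] a) (f^[j] a) ≠ 0 := by
    intro i j hij hj h0
    have h1 := hf.it (n - j) h0
    rw [← Function.iterate_add_apply, ← Function.iterate_add_apply, Nat.sub_add_cancel hj.le] at h1
    have h2 := par_trans (hf.it_ne n ha) h1 h.per
    have h3 := Nat.le_of_dvd (by omega) (h.min _ h2)
    omega
  rcases lt_or_gt_of_ne hij with h1 | h1
  · exact key i j h1 hj
  · intro h0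
    exact key j i h1 hi (dt_comm_zero h0)

/-- existence of the exact period -/
lemma exists_PP (hf : Pj f) {a : K × K} (ha : a ≠ 0) {m : ℕ} (hm : 0 < m)
    (h : dt (f^[m] a) a = 0) : ∃ n, PP f a n := by
  classical
  have hex : ∃ n, 0 < n ∧ dt (f^[n] a) a = 0 := ⟨m, hm, h⟩
  obtain ⟨n, ⟨hn, h1⟩, hmin⟩ : ∃ n, (0 < n ∧ dt (f^[n] a) a = 0) ∧
      ∀ k < n, ¬ (0 < k ∧ dt (f^[k] a) a = 0) :=
    ⟨Nat.find hex, Nat.find_spec hex, fun k hk => Nat.find_min hex hk⟩
  have hmul : ∀ k, dt (f^[k * n] a) a = 0 := by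
    intro k
    induction k with
    | zero => rw [Nat.zero_mul, Function.iterate_zero_apply, dt_self]
    | succ k ih =>
      have h2 := hf.it n ih
      rw [← Function.iterate_add_apply, show n + k * n = (k + 1) * n by ring] at h2
      exact par_trans (hf.it_ne n ha) h2 h1
  refine ⟨n, hn, h1, fun k hk => ?_⟩
  by_contra hcon
  have hr : 0 < k % n := Nat.pos_of_ne_zero fun h0 => hcon (Nat.dvd_of_mod_eq_zero h0)
  refine hmin (k % n) (Nat.mod_lt _ hn) ⟨hr, ?_⟩
  have h2 : dt (f^[k % n] (f^[k / n * n] a)) (f^[k % n] a) = 0 := hf.it _ (hmul _)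
  rw [← Function.iterate_add_apply, show k % n + k / n * n = k by
    rw [mul_comm]; exact Nat.mod_add_div k n] at h2
  exact par_trans (hf.it_ne k ha) (dt_comm_zero h2) hk

lemma PP.map (hf : Pj f) {a : K × K} (ha : a ≠ 0) {n : ℕ} (h : PP f a n) : PP f (f a) n := by
  have hn := h.pos
  refine ⟨hn, ?_, fun m hm => h.min m ?_⟩
  · rw [← Function.iterate_succ_apply, Function.iterate_succ_apply']
    exact hf.par _ _ h.per
  · have h1 := hf.it (n - 1) hm
    rw [← Function.iterate_succ_apply f, ← Function.iterate_add_apply,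
      ← Function.iterate_succ_apply f (n - 1), show n - 1 + (m + 1) = m + n by omega,
      show (n - 1).succ = n by omega, Function.iterate_add_apply] at h1
    have h2 : dt (f^[m] a) (f^[m] (f^[n] a)) = 0 := hf.it m (dt_comm_zero h.per)
    exact par_trans (hf.it_ne n ha) (par_trans (hf.it_ne m (hf.it_ne n ha)) h2 h1) h.per

end Orb

/-- two families of points whose quotients lie in a small set -/
lemma grid {K : Type} [Field K] {S : Set K} {B : ℕ}
    (hB : ∀ P Q : Finset K, (∀ p ∈ P, p ≠ 0) → (∀ q ∈ Q, q ≠ 0) →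
      (∀ p ∈ P, ∀ q ∈ Q, p / q ∈ S) → P.card ≤ B ∨ Q.card ≤ B)
    {x y : K × K} {ι ι' : Type} (I : Finset ι) (J : Finset ι') (u : ι → K × K)
    (u' : ι' → K × K) (hxy : dt x y ≠ 0)
    (hx : ∀ i ∈ I, dt x (u i) ≠ 0) (hy : ∀ i ∈ I, dt y (u i) ≠ 0)
    (hx' : ∀ i ∈ J, dt x (u' i) ≠ 0) (hy' : ∀ i ∈ J, dt y (u' i) ≠ 0)
    (hi : ∀ i ∈ I, ∀ j ∈ I, i ≠ j → dt (u i) (u j) ≠ 0)
    (hi' : ∀ i ∈ J, ∀ j ∈ J, i ≠ j → dt (u' i) (u' j) ≠ 0)
    (hS : ∀ i ∈ I, ∀ j ∈ J, dt x (u i) * dt y (u' j) / (dt x (u' j) * dt y (u i)) ∈ S) :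
    I.card ≤ B ∨ J.card ≤ B := by
  classical
  have h1 := hB (I.image fun i => dt x (u i) / dt y (u i))
    (J.image fun i => dt x (u' i) / dt y (u' i)) (by
      intro p hp
      obtain ⟨i, hi, rfl⟩ := Finset.mem_image.1 hp
      exact div_ne_zero (hx i hi) (hy i hi)) (by
      intro p hp
      obtain ⟨i, hi, rfl⟩ := Finset.mem_image.1 hp
      exact div_ne_zero (hx' i hi) (hy' i hi)) (by
      intro p hp q hq
      obtain ⟨i, hi, rfl⟩ := Finset.mem_image.1 hp
      obtain ⟨j, hj, rfl⟩ := Finset.mem_image.1 hq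
      have h2 := hS i hi j hj
      rw [div_div_div_eq, mul_comm (dt y (u i))]
      exact h2)
  have key : ∀ p q : K × K, dt y p ≠ 0 → dt y q ≠ 0 → dt x p / dt y p = dt x q / dt y q →
      dt p q = 0 := by
    intro p q hp hq h2
    rw [div_eq_div_iff hp hq] at h2
    have h3 := dt_pl x y p q
    have h4 : dt x y * dt p q = 0 := by linear_combination h3 + h2
    exact (mul_eq_zero.1 h4).resolve_left hxy
  rw [Finset.card_image_of_injOn, Finset.card_image_of_injOn] at h1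
  · exact h1
  · intro i h2 j h3 h4
    by_contra hne
    exact hi' i h2 j h3 hne (key _ _ (hy' i h2) (hy' j h3) h4)
  · intro i h2 j h3 h4
    by_contra hne
    exact hi i h2 j h3 hne (key _ _ (hy i h2) (hy j h3) h4)

/-- cross ratios in the set `Sg` -/
lemma sg_of {K : Type} [Field K] [NumberField K] {A : Finset K} {M N : ℕ}
    {f : K × K → K × K} {d : ℕ} {T : Set (K × K)} (h : SysR A M N f d T) {x y p q : K × K}
    (hx : x ∈ T) (hy : y ∈ T) (hp : p ∈ T) (hq : q ∈ T) (xy : dt x y ≠ 0) (xp : dt x p ≠ 0)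
    (xq : dt x q ≠ 0) (yp : dt y p ≠ 0) (yq : dt y q ≠ 0) (pq : dt p q ≠ 0)
    (h1 : ∀ v : HeightOneSpectrum (𝓞 K), (N : 𝓞 K) ∉ v.asIdeal → ∀ ε D ρ κ,
      GR (v.valuation K) f d ε D ρ κ →
      log (D x p) + log (D y q) - log (D x q) - log (D y p) = 0)
    (h2 : ∀ v : HeightOneSpectrum (𝓞 K), (N : 𝓞 K) ∉ v.asIdeal → ∀ ε D ρ κ,
      GR (v.valuation K) f d ε D ρ κ →
      log (D x y) + log (D p q) - log (D x q) - log (D y p) = 0) :
    dt x p * dt y q / (dt x q * dt y p) ∈ Sg K A M := by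
  have hne : dt x q * dt y p ≠ 0 := mul_ne_zero xq yp
  obtain ⟨α, hα, z, -, e1⟩ := h.pow x hx y hy p hp q hq xp yq xq yp
    (fun v hv ε D ρ κ hD => by rw [h1 v hv ε D ρ κ hD]; exact dvd_zero _)
  obtain ⟨β, hβ, z', -, e2⟩ := h.pow x hx p hp y hy q hq xy pq xq
    (by rw [dt_swap]; exact neg_ne_zero.2 yp) (fun v hv ε D ρ κ hD => by
      rw [hD.dd.symm p y, h2 v hv ε D ρ κ hD]
      exact dvd_zero _)
  refine ⟨⟨α, hα, z, ?_⟩, β, hβ, z', ?_⟩
  · rw [e1, mul_div_cancel_right₀ _ hne]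
  · have h3 := dt_pl x y p q
    have e3 : 1 - dt x p * dt y q / (dt x q * dt y p) =
        -(dt x y * dt p q) / (dt x q * dt y p) := by
      rw [eq_div_iff hne, sub_mul, div_mul_cancel₀ _ hne]
      linear_combination h3
    rw [e3, e2, dt_swap y p]
    have e4 : -(β * z' ^ M * (dt x q * -dt y p)) = β * z' ^ M * (dt x q * dt y p) := by ring
    rw [e4, mul_div_cancel_right₀ _ hne]

/-- cross ratios with a totally ramified fixed point in the set `Sg` -/
lemma sgq_of {K : Type} [Field K] [NumberField K] {A : Finset K} {M N : ℕ}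
    {f : K × K → K × K} {d : ℕ} {T : Set (K × K)} (h : SysR A M N f d T) {g : K}
    {o y p q : K × K} (ho : TRam f d o g)
    (hy : y ∈ T) (hp : p ∈ T) (hq : q ∈ T) (yp : dt y p ≠ 0) (yq : dt y q ≠ 0) (pq : dt p q ≠ 0)
    (h1 : ∀ v : HeightOneSpectrum (𝓞 K), (N : 𝓞 K) ∉ v.asIdeal → ∀ ε D ρ κ,
      GR (v.valuation K) f d ε D ρ κ → log (D y q) = log (D y p))
    (h2 : ∀ v : HeightOneSpectrum (𝓞 K), (N : 𝓞 K) ∉ v.asIdeal → ∀ ε D ρ κ,
      GR (v.valuation K) f d ε D ρ κ → log (D p q) = log (D y p)) :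
    dt o p * dt y q / (dt o q * dt y p) ∈ Sg K A M := by
  have oq := h.tne _ _ ho _ hq
  have hne : dt o q * dt y p ≠ 0 := mul_ne_zero oq yp
  obtain ⟨α, hα, z, -, e1⟩ := h.powq o g ho y hy p hp q hq yq yp
    (fun v hv ε D ρ κ hD => by rw [h1 v hv ε D ρ κ hD, sub_self]; exact dvd_zero _)
  obtain ⟨β, hβ, z', -, e2⟩ := h.powq o g ho p hp y hy q hq pq
    (by rw [dt_swap]; exact neg_ne_zero.2 yp) (fun v hv ε D ρ κ hD => by
      rw [hD.dd.symm p y, h2 v hv ε D ρ κ hD, sub_self]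
      exact dvd_zero _)
  refine ⟨⟨α, hα, z, ?_⟩, β, hβ, z', ?_⟩
  · rw [e1, mul_div_cancel_right₀ _ hne]
  · have h3 := dt_pl o y p q
    have e3 : 1 - dt o p * dt y q / (dt o q * dt y p) =
        -(dt o y * dt p q) / (dt o q * dt y p) := by
      rw [eq_div_iff hne, sub_mul, div_mul_cancel₀ _ hne]
      linear_combination h3
    rw [e3, e2, dt_swap y p]
    have e4 : -(β * z' ^ M * (dt o q * -dt y p)) = β * z' ^ M * (dt o q * dt y p) := by ring
    rw [e4, mul_div_cancel_right₀ _ hne]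

/-- cross ratios in the set `Sq` -/
lemma sq_of {K : Type} [Field K] [NumberField K] [DecidableEq K] {A A₂ : Finset K} {M N : ℕ}
    {f : K × K → K × K} {d : ℕ} {T : Set (K × K)} (h : SysR A M N f d T) (h' : SysR A₂ 2 N f d T)
    {x y p q : K × K}
    (hx : x ∈ T) (hy : y ∈ T) (hp : p ∈ T) (hq : q ∈ T) (xy : dt x y ≠ 0) (xp : dt x p ≠ 0)
    (xq : dt x q ≠ 0) (yp : dt y p ≠ 0) (yq : dt y q ≠ 0) (pq : dt p q ≠ 0)
    (h1 : ∀ v : HeightOneSpectrum (𝓞 K), (N : 𝓞 K) ∉ v.asIdeal → ∀ ε D ρ κ,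
      GR (v.valuation K) f d ε D ρ κ →
      log (D x p) + log (D y q) - log (D x q) - log (D y p) = 0)
    (h2 : ∀ v : HeightOneSpectrum (𝓞 K), (N : 𝓞 K) ∉ v.asIdeal → ∀ ε D ρ κ,
      GR (v.valuation K) f d ε D ρ κ →
      (ε : ℤ) * 2 ∣ log (D x y) + log (D p q) - log (D x q) - log (D y p)) :
    dt x p * dt y q / (dt x q * dt y p) ∈ Sq K (A ∪ A₂.image fun a => -a) M := by
  have hne : dt x q * dt y p ≠ 0 := mul_ne_zero xq yp
  obtain ⟨α, hα, z, -, e1⟩ := h.pow x hx y hy p hp q hq xp yq xq yp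
    (fun v hv ε D ρ κ hD => by rw [h1 v hv ε D ρ κ hD]; exact dvd_zero _)
  obtain ⟨β, hβ, z', -, e2⟩ := h'.pow x hx p hp y hy q hq xy pq xq
    (by rw [dt_swap]; exact neg_ne_zero.2 yp) (fun v hv ε D ρ κ hD => by
      rw [hD.dd.symm p y]
      exact_mod_cast h2 v hv ε D ρ κ hD)
  refine ⟨⟨α, Finset.mem_union_left _ hα, z, ?_⟩, -β,
    Finset.mem_union_right _ (Finset.mem_image_of_mem _ hβ), z', ?_⟩
  · rw [e1, mul_div_cancel_right₀ _ hne]
  · have h3 := dt_pl x y p q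
    have e3 : dt x p * dt y q / (dt x q * dt y p) - 1 =
        (dt x y * dt p q) / (dt x q * dt y p) := by
      rw [eq_div_iff hne, sub_mul, div_mul_cancel₀ _ hne]
      linear_combination -h3
    rw [e3, e2, dt_swap y p]
    have e4 : (β * z' ^ 2 * (dt x q * -dt y p)) = -β * z' ^ 2 * (dt x q * dt y p) := by ring
    rw [e4, mul_div_cancel_right₀ _ hne]

/-- odd prime powers dividing the length of a cycle of a map with a totally ramified fixed
point -/
theorem three_pow (hG : HMW.T_KGU) (K : Type) [Field K] [NumberField K] (A : Finset K)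
    (hA0 : ∀ a ∈ A, a ≠ 0) (M N : ℕ) (hM : 5 ≤ M) : ∃ B : ℕ, ∀ (f : K × K → K × K)
    (d : ℕ) (T : Set (K × K)), Pj f → SysR A M N f d T → ∀ (o : K × K) (g : K), TRam f d o g →
    ∀ (a : K × K) (n : ℕ), a ∈ T → PP f a n →
    ∀ l k : ℕ, l.Prime → l ≠ 2 → l ^ k ∣ n → l ^ k ≤ B := by
  classical
  obtain ⟨B, hB⟩ := wb hG K A hA0 M hM
  refine ⟨5 * B + 1, fun f d T hf h o g ho a n haT hPP l k hl hl2 hdvd => ?_⟩
  have ha := h.ne a haT
  have hn := hPP.pos
  rcases Nat.eq_zero_or_pos k with rfl | hk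
  · rw [pow_zero]; omega
  obtain ⟨k, rfl⟩ : ∃ j, k = j + 1 := ⟨k - 1, by omega⟩
  obtain ⟨m, hm⟩ := hdvd
  have hm0 : 0 < m := by
    rcases Nat.eq_zero_or_pos m with h0 | h0
    · rw [h0, mul_zero] at hm; omega
    · exact h0
  have hlodd : l % 2 = 1 := by
    rcases hl.eq_two_or_odd with h1 | h1
    · omega
    · exact h1
  have hl2' := hl.two_le
  obtain ⟨s, hs⟩ : ∃ s, l = 2 * s + 1 := ⟨(l - 1) / 2, by omega⟩
  have hs1 : 1 ≤ s := by omega
  have hcop : ∀ i j : ℕ, i % l ≠ j % l →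
      Nat.gcd (Int.natAbs ((i : ℤ) - j)) (l ^ (k + 1)) = 1 := by
    intro i j hij
    refine Nat.Coprime.pow_right _ (Nat.Coprime.symm ((Nat.Prime.coprime_iff_not_dvd hl).2 ?_))
    intro hdv
    apply hij
    have h1 : (l : ℤ) ∣ (i : ℤ) - j := Int.natCast_dvd.2 hdv
    have h2 : (j : ℤ) ≡ i [ZMOD l] := Int.modEq_iff_dvd.2 h1
    exact (Int.natCast_modEq_iff.1 h2).symm
  set u : ℕ → K × K := fun i => f^[i * m] a with hu
  have huT : ∀ i, u i ∈ T := fun i => h.it haT _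
  have hlt : ∀ i, i < l ^ (k + 1) → i * m < n := by
    intro i hi
    rw [hm]
    exact Nat.mul_lt_mul_of_pos_right hi hm0
  have hne : ∀ i j, i < l ^ (k + 1) → j < l ^ (k + 1) → i ≠ j → dt (u i) (u j) ≠ 0 := by
    intro i j hi hj hij
    exact hPP.ne hf ha (hlt i hi) (hlt j hj) fun he => hij (Nat.eq_of_mul_eq_mul_right hm0 he)
  have hD : ∀ {v : HeightOneSpectrum (𝓞 K)} {ε : ℕ} {D : K × K → K × K → ℤᵐ⁰}
      {ρ : K × K → ℤᵐ⁰} {κ : ℤᵐ⁰}, GR (v.valuation K) f d ε D ρ κ → ∀ i j, i % l ≠ j % l →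
      D (u i) (u j) = D (f^[m] a) a := by
    intro v ε D ρ κ hD i j hij
    rw [hu, hD.cyc a ha n hn hPP.per, hm, gcd_mul_aux (hcop i j hij), one_mul]
  have hidx : ∀ a b, a < l ^ k → b < l → l * a + b < l ^ (k + 1) := by
    intro a b ha hb
    calc l * a + b < l * a + l := by omega
      _ = l * (a + 1) := by ring
      _ ≤ l * l ^ k := Nat.mul_le_mul_left _ ha
      _ = l ^ (k + 1) := by rw [pow_succ]; ring
  have hmod : ∀ a b, b < l → (l * a + b) % l = b := by
    intro a b hb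
    rw [Nat.mul_add_mod, Nat.mod_eq_of_lt hb]
  have hpos : 0 < l ^ (k + 1) := pow_pos hl.pos _
  have m0 : 0 % l = 0 := Nat.zero_mod l
  have hinj : ∀ p p' : ℕ × ℕ, p.2 < l → p'.2 < l → l * p.1 + p.2 = l * p'.1 + p'.2 → p = p' := by
    rintro ⟨a, b⟩ ⟨a', b'⟩ hb hb' e1
    dsimp only at hb hb' e1
    have e2 : (l * a + b) % l = (l * a' + b') % l := by rw [e1]
    rw [hmod a b hb, hmod a' b' hb'] at e2
    have e3 : l * a = l * a' := by omega
    rw [Nat.eq_of_mul_eq_mul_left hl.pos e3, e2]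
  have h2 := grid (S := Sg K A M) hB (x := o) (y := u 0)
    (Finset.range (l ^ k) ×ˢ Finset.Icc 1 s)
    (Finset.range (l ^ k) ×ˢ Finset.Icc (s + 1) (2 * s))
    (fun p => u (l * p.1 + p.2)) (fun p => u (l * p.1 + p.2)) (h.tne _ _ ho _ (huT 0))
    (fun p _ => h.tne _ _ ho _ (huT _)) ?_ (fun p _ => h.tne _ _ ho _ (huT _)) ?_ ?_ ?_ ?_
  · rw [Finset.card_product, Finset.card_product, Finset.card_range, Nat.card_Icc,
      Nat.card_Icc, show s + 1 - 1 = s by omega,
      show 2 * s + 1 - (s + 1) = s by omega, or_self] at h2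
    calc l ^ (k + 1) = l ^ k * l := pow_succ _ _
      _ ≤ l ^ k * (5 * s) := Nat.mul_le_mul_left _ (by omega)
      _ = 5 * (l ^ k * s) := by ring
      _ ≤ 5 * B + 1 := by omega
  · rintro ⟨a, b⟩ hab
    rw [Finset.mem_product, Finset.mem_range, Finset.mem_Icc] at hab
    dsimp only at hab ⊢
    exact hne _ _ hpos (hidx a b hab.1 (by omega)) (by omega)
  · rintro ⟨a, b⟩ hab
    rw [Finset.mem_product, Finset.mem_range, Finset.mem_Icc] at hab
    dsimp only at hab ⊢
    exact hne _ _ hpos (hidx a b hab.1 (by omega)) (by omega)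
  · rintro p hp p' hp' hpp
    rw [Finset.mem_product, Finset.mem_range, Finset.mem_Icc] at hp hp'
    refine hne _ _ (hidx _ _ hp.1 (by omega)) (hidx _ _ hp'.1 (by omega)) fun he => hpp ?_
    exact hinj p p' (by omega) (by omega) he
  · rintro p hp p' hp' hpp
    rw [Finset.mem_product, Finset.mem_range, Finset.mem_Icc] at hp hp'
    refine hne _ _ (hidx _ _ hp.1 (by omega)) (hidx _ _ hp'.1 (by omega)) fun he => hpp ?_
    exact hinj p p' (by omega) (by omega) he
  · rintro ⟨a, b⟩ hab ⟨a', b'⟩ hab'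
    rw [Finset.mem_product, Finset.mem_range, Finset.mem_Icc] at hab hab'
    dsimp only at hab hab' ⊢
    have i1 := hidx a b hab.1 (by omega)
    have i2 := hidx a' b' hab'.1 (by omega)
    have r1 := hmod a b (by omega)
    have r2 := hmod a' b' (by omega)
    have hpq : l * a + b ≠ l * a' + b' := by
      intro he
      rw [he, r2] at r1
      omega
    refine sgq_of h ho (huT _) (huT _) (huT _) (hne _ _ hpos i1 (by omega))
      (hne _ _ hpos i2 (by omega)) (hne _ _ i1 i2 hpq) ?_ ?_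
    · intro v _ ε D ρ κ h3
      rw [hD h3 0 _ (by omega), hD h3 0 _ (by omega)]
    · intro v _ ε D ρ κ h3
      rw [hD h3 (l * a + b) _ (by omega), hD h3 0 _ (by omega)]

/-- prime powers (of primes at least five) dividing the length of a cycle -/
theorem five_pow (hG : HMW.T_KGU) (K : Type) [Field K] [NumberField K] (A : Finset K)
    (hA0 : ∀ a ∈ A, a ≠ 0) (M N : ℕ) (hM : 5 ≤ M) : ∃ B : ℕ, ∀ (f : K × K → K × K)
    (d : ℕ) (T : Set (K × K)), Pj f → SysR A M N f d T → ∀ (a : K × K) (n : ℕ), a ∈ T → PP f a n →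
    ∀ l k : ℕ, l.Prime → 5 ≤ l → l ^ k ∣ n → l ^ k ≤ B := by
  classical
  obtain ⟨B, hB⟩ := wb hG K A hA0 M hM
  refine ⟨5 * B + 1, fun f d T hf h a n haT hPP l k hl hl5 hdvd => ?_⟩
  have ha := h.ne a haT
  have hn := hPP.pos
  rcases Nat.eq_zero_or_pos k with rfl | hk
  · rw [pow_zero]; omega
  obtain ⟨k, rfl⟩ : ∃ j, k = j + 1 := ⟨k - 1, by omega⟩
  obtain ⟨m, hm⟩ := hdvd
  have hm0 : 0 < m := by
    rcases Nat.eq_zero_or_pos m with h0 | h0
    · rw [h0, mul_zero] at hm; omega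
    · exact h0
  have hlodd : l % 2 = 1 := by
    rcases hl.eq_two_or_odd with h1 | h1
    · omega
    · exact h1
  obtain ⟨s, hs⟩ : ∃ s, l = 2 * s + 3 := ⟨(l - 3) / 2, by omega⟩
  have hs1 : 1 ≤ s := by omega
  have hcop : ∀ i j : ℕ, i % l ≠ j % l →
      Nat.gcd (Int.natAbs ((i : ℤ) - j)) (l ^ (k + 1)) = 1 := by
    intro i j hij
    refine Nat.Coprime.pow_right _ (Nat.Coprime.symm ((Nat.Prime.coprime_iff_not_dvd hl).2 ?_))
    intro hdv
    apply hij
    have h1 : (l : ℤ) ∣ (i : ℤ) - j := Int.natCast_dvd.2 hdv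
    have h2 : (j : ℤ) ≡ i [ZMOD l] := Int.modEq_iff_dvd.2 h1
    exact (Int.natCast_modEq_iff.1 h2).symm
  set u : ℕ → K × K := fun i => f^[i * m] a with hu
  have huT : ∀ i, u i ∈ T := fun i => h.it haT _
  have hlt : ∀ i, i < l ^ (k + 1) → i * m < n := by
    intro i hi
    rw [hm]
    exact Nat.mul_lt_mul_of_pos_right hi hm0
  have hne : ∀ i j, i < l ^ (k + 1) → j < l ^ (k + 1) → i ≠ j → dt (u i) (u j) ≠ 0 := by
    intro i j hi hj hij
    exact hPP.ne hf ha (hlt i hi) (hlt j hj) fun he => hij (Nat.eq_of_mul_eq_mul_right hm0 he)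
  have hD : ∀ {v : HeightOneSpectrum (𝓞 K)} {ε : ℕ} {D : K × K → K × K → ℤᵐ⁰}
      {ρ : K × K → ℤᵐ⁰} {κ : ℤᵐ⁰}, GR (v.valuation K) f d ε D ρ κ → ∀ i j, i % l ≠ j % l →
      D (u i) (u j) = D (f^[m] a) a := by
    intro v ε D ρ κ hD i j hij
    rw [hu, hD.cyc a ha n hn hPP.per, hm, gcd_mul_aux (hcop i j hij), one_mul]
  have hidx : ∀ a b, a < l ^ k → b < l → l * a + b < l ^ (k + 1) := by
    intro a b ha hb
    calc l * a + b < l * a + l := by omega
      _ = l * (a + 1) := by ring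
      _ ≤ l * l ^ k := Nat.mul_le_mul_left _ ha
      _ = l ^ (k + 1) := by rw [pow_succ]; ring
  have hmod : ∀ a b, b < l → (l * a + b) % l = b := by
    intro a b hb
    rw [Nat.mul_add_mod, Nat.mod_eq_of_lt hb]
  have hpos : 0 < l ^ (k + 1) := pow_pos hl.pos _
  have hone : 1 < l ^ (k + 1) := Nat.one_lt_pow (by omega) hl.one_lt
  have m0 : 0 % l = 0 := Nat.zero_mod l
  have m1 : 1 % l = 1 := Nat.mod_eq_of_lt hl.one_lt
  have hinj : ∀ p p' : ℕ × ℕ, p.2 < l → p'.2 < l → l * p.1 + p.2 = l * p'.1 + p'.2 → p = p' := by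
    rintro ⟨a, b⟩ ⟨a', b'⟩ hb hb' e1
    dsimp only at hb hb' e1
    have e2 : (l * a + b) % l = (l * a' + b') % l := by rw [e1]
    rw [hmod a b hb, hmod a' b' hb'] at e2
    have e3 : l * a = l * a' := by omega
    rw [Nat.eq_of_mul_eq_mul_left hl.pos e3, e2]
  have h2 := grid (S := Sg K A M) hB (x := u 0) (y := u 1)
    (Finset.range (l ^ k) ×ˢ Finset.Icc 2 (s + 1))
    (Finset.range (l ^ k) ×ˢ Finset.Icc (s + 2) (2 * s + 2))
    (fun p => u (l * p.1 + p.2)) (fun p => u (l * p.1 + p.2)) (hne 0 1 hpos hone (by omega))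
    ?_ ?_ ?_ ?_ ?_ ?_ ?_
  · rw [Finset.card_product, Finset.card_product, Finset.card_range, Nat.card_Icc,
      Nat.card_Icc, show s + 1 + 1 - 2 = s by omega,
      show 2 * s + 2 + 1 - (s + 2) = s + 1 by omega] at h2
    have h1 : l ^ k * s ≤ B := by
      rcases h2 with h1 | h1
      · exact h1
      · exact (Nat.mul_le_mul_left _ (by omega)).trans h1
    calc l ^ (k + 1) = l ^ k * l := pow_succ _ _
      _ ≤ l ^ k * (5 * s) := Nat.mul_le_mul_left _ (by omega)
      _ = 5 * (l ^ k * s) := by ring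
      _ ≤ 5 * B + 1 := by omega
  · rintro ⟨a, b⟩ hab
    rw [Finset.mem_product, Finset.mem_range, Finset.mem_Icc] at hab
    dsimp only at hab ⊢
    exact hne _ _ hpos (hidx a b hab.1 (by omega)) (by omega)
  · rintro ⟨a, b⟩ hab
    rw [Finset.mem_product, Finset.mem_range, Finset.mem_Icc] at hab
    dsimp only at hab ⊢
    exact hne _ _ hone (hidx a b hab.1 (by omega)) (by omega)
  · rintro ⟨a, b⟩ hab
    rw [Finset.mem_product, Finset.mem_range, Finset.mem_Icc] at hab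
    dsimp only at hab ⊢
    exact hne _ _ hpos (hidx a b hab.1 (by omega)) (by omega)
  · rintro ⟨a, b⟩ hab
    rw [Finset.mem_product, Finset.mem_range, Finset.mem_Icc] at hab
    dsimp only at hab ⊢
    exact hne _ _ hone (hidx a b hab.1 (by omega)) (by omega)
  · rintro p hp p' hp' hpp
    rw [Finset.mem_product, Finset.mem_range, Finset.mem_Icc] at hp hp'
    refine hne _ _ (hidx _ _ hp.1 (by omega)) (hidx _ _ hp'.1 (by omega)) fun he => hpp ?_
    exact hinj p p' (by omega) (by omega) he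
  · rintro p hp p' hp' hpp
    rw [Finset.mem_product, Finset.mem_range, Finset.mem_Icc] at hp hp'
    refine hne _ _ (hidx _ _ hp.1 (by omega)) (hidx _ _ hp'.1 (by omega)) fun he => hpp ?_
    exact hinj p p' (by omega) (by omega) he
  · rintro ⟨a, b⟩ hab ⟨a', b'⟩ hab'
    rw [Finset.mem_product, Finset.mem_range, Finset.mem_Icc] at hab hab'
    dsimp only at hab hab' ⊢
    have i1 := hidx a b hab.1 (by omega)
    have i2 := hidx a' b' hab'.1 (by omega)
    have r1 := hmod a b (by omega)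
    have r2 := hmod a' b' (by omega)
    have hpq : l * a + b ≠ l * a' + b' := by
      intro he
      rw [he, r2] at r1
      omega
    refine sg_of h (huT _) (huT _) (huT _) (huT _) (hne 0 1 hpos hone (by omega))
      (hne _ _ hpos i1 (by omega)) (hne _ _ hpos i2 (by omega)) (hne _ _ hone i1 (by omega))
      (hne _ _ hone i2 (by omega)) (hne _ _ i1 i2 hpq) ?_ ?_
    · intro v _ ε D ρ κ h3
      rw [hD h3 0 _ (by omega), hD h3 1 _ (by omega), hD h3 0 _ (by omega), hD h3 1 _ (by omega)]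
      ring
    · intro v _ ε D ρ κ h3
      rw [hD h3 0 1 (by omega), hD h3 (l * a + b) _ (by omega), hD h3 0 _ (by omega),
        hD h3 1 _ (by omega)]
      ring

end Pool.Agent.PDR
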