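import Pool.Agent.PDR.Cyc

set_option autoImplicit false

/-!
# PDR: small primes and even exponents
-/

open NumberField IsDedekindDomain
open scoped WithZero

noncomputable section

namespace Pool.Agent.PDR

open WithZero
open Pool.Agent.PDP (Sg Sq wb wb2 gcd_mul_aux)

/-- greatest common divisors of integers in given classes -/
lemma gcd_cls {l K r : ℕ} {z : ℤ} (hl : l.Prime) (hr : r < K) (h1 : ((l ^ r : ℕ) : ℤ) ∣ z)
    (h2 : ¬ ((l ^ (r + 1) : ℕ) : ℤ) ∣ z) : Nat.gcd z.natAbs (l ^ K) = l ^ r := by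
  obtain ⟨j, hj, he⟩ := (Nat.dvd_prime_pow hl).1 (Nat.gcd_dvd_right z.natAbs (l ^ K))
  rw [he]
  congr 1
  have h3 : l ^ r ∣ Nat.gcd z.natAbs (l ^ K) :=
    Nat.dvd_gcd (Int.natCast_dvd.1 h1) (pow_dvd_pow l hr.le)
  rw [he] at h3
  have h4 : r ≤ j := (Nat.pow_dvd_pow_iff_le_right hl.one_lt).1 h3
  have h5 : ¬ r + 1 ≤ j := by
    intro h6
    apply h2
    rw [Int.natCast_dvd]
    exact ((pow_dvd_pow l h6).trans (he ▸ Nat.gcd_dvd_left _ _))
  omega

/-- powers of the small primes dividing the length of a cycle, for even exponents -/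
theorem small_pow (hG : HMW.T_KGU) (K : Type) [Field K] [NumberField K] (A A₂ : Finset K)
    (hA0 : ∀ a ∈ A, a ≠ 0) (hA2 : ∀ a ∈ A₂, a ≠ 0) (M N : ℕ) (hM : 5 ≤ M) :
    ∃ B : ℕ, ∀ (f : K × K → K × K)
    (d : ℕ) (T : Set (K × K)), Pj f → SysR A M N f d T → SysR A₂ 2 N f d T → ∀ (a : K × K) (n : ℕ), a ∈ T →
    PP f a n → ∀ l k : ℕ, l.Prime → l ≤ 3 → l ^ k ∣ n → l ^ k ≤ B := by
  classical
  obtain ⟨B, hB⟩ := wb2 hG K (A ∪ A₂.image fun a => -a) (by
    intro a ha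
    rcases Finset.mem_union.1 ha with h1 | h1
    · exact hA0 a h1
    · obtain ⟨b, hb, rfl⟩ := Finset.mem_image.1 h1
      exact neg_ne_zero.2 (hA2 b hb)) M hM
  refine ⟨27 * B + 27, fun f d T hf h h' a n haT hPP l k hl hl3 hdvd => ?_⟩
  have ha := h.ne a haT
  have hn := hPP.pos
  have hl2 : 2 ≤ l := hl.two_le
  by_cases hk : k ≤ 3
  · calc l ^ k ≤ 3 ^ 3 := (Nat.pow_le_pow_left hl3 k).trans (Nat.pow_le_pow_right (by omega) hk)
      _ ≤ 27 * B + 27 := by omega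
  obtain ⟨k, rfl⟩ : ∃ j, k = j + 3 := ⟨k - 3, by omega⟩
  have hk1 : 1 ≤ k := by omega
  obtain ⟨m, hm⟩ := hdvd
  have hm0 : 0 < m := by
    rcases Nat.eq_zero_or_pos m with h0 | h0
    · rw [h0, mul_zero] at hm; omega
    · exact h0
  set u : ℕ → K × K := fun i => f^[i * m] a with hu
  have huT : ∀ i, u i ∈ T := fun i => h.it haT _
  have hlt : ∀ i, i < l ^ (k + 3) → i * m < n := by
    intro i hi
    rw [hm]
    exact Nat.mul_lt_mul_of_pos_right hi hm0
  have hne : ∀ i j, i < l ^ (k + 3) → j < l ^ (k + 3) → i ≠ j → dt (u i) (u j) ≠ 0 := by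
    intro i j hi hj hij
    exact hPP.ne hf ha (hlt i hi) (hlt j hj) fun he => hij (Nat.eq_of_mul_eq_mul_right hm0 he)
  have hlz : (l : ℤ) ≠ 0 := by exact_mod_cast hl.pos.ne'
  have hlu : ∀ z : ℤ, (l : ℤ) ∣ 1 + l * z → False := by
    intro z hz
    have h1 : (l : ℤ) ∣ 1 := by
      have := Int.dvd_sub hz (Dvd.intro z rfl)
      rwa [add_sub_cancel_right] at this
    have h2 := Int.eq_one_of_dvd_one (by omega) h1
    omega
  have hlu' : ∀ z : ℤ, (l : ℤ) ∣ -1 + l * z → False := by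
    intro z hz
    refine hlu (-z) ?_
    have := (dvd_neg (α := ℤ)).2 hz
    rwa [show -(-1 + (l : ℤ) * z) = 1 + l * -z by ring] at this
  have hD : ∀ {v : HeightOneSpectrum (𝓞 K)} {ε : ℕ} {D : K × K → K × K → ℤᵐ⁰}
      {ρ : K × K → ℤᵐ⁰} {κ : ℤᵐ⁰}, GR (v.valuation K) f d ε D ρ κ → ∀ (r i j : ℕ), r < k + 3 →
      ∀ z : ℤ, (i : ℤ) - j = l ^ r * (1 + l * z) ∨ (i : ℤ) - j = l ^ r * (-1 + l * z) →
      D (u i) (u j) = D (f^[l ^ r * m] a) a := by
    intro v ε D ρ κ hD r i j hr z hz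
    have h1 : ((l ^ r : ℕ) : ℤ) ∣ (i : ℤ) - j := by
      push_cast
      rcases hz with hz | hz
      · rw [hz]; exact Dvd.intro _ rfl
      · rw [hz]; exact Dvd.intro _ rfl
    have h2 : ¬ ((l ^ (r + 1) : ℕ) : ℤ) ∣ (i : ℤ) - j := by
      push_cast
      rw [pow_succ]
      intro h3
      rcases hz with hz | hz
      · rw [hz] at h3
        exact hlu _ (Int.dvd_of_mul_dvd_mul_left (pow_ne_zero _ hlz) h3)
      · rw [hz] at h3
        exact hlu' _ (Int.dvd_of_mul_dvd_mul_left (pow_ne_zero _ hlz) h3)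
    rw [hu, hD.cyc a ha n hn hPP.per, hm, gcd_mul_aux (gcd_cls hl hr h1 h2)]
  -- the indices
  have hl3' : l ^ 3 = l * l * l := by ring
  have hl0 : 0 < l := hl.pos
  have hL : l ^ 3 ≤ l ^ (k + 3) := Nat.pow_le_pow_right hl0 (by omega)
  have hll : l < l ^ 2 := by nlinarith
  have hll3 : l ^ 2 < l ^ 3 := by
    rw [pow_succ l 2]
    nlinarith [Nat.pow_pos (n := 2) hl0]
  have hidx : ∀ b, b < l ^ k → l ^ 3 * b + l + l ^ 2 < l ^ (k + 3) := by
    intro b hb
    have h1 : l + l ^ 2 < l ^ 3 := by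
      rcases (show l = 2 ∨ l = 3 by omega) with rfl | rfl <;> norm_num
    calc l ^ 3 * b + l + l ^ 2 < l ^ 3 * b + l ^ 3 := by omega
      _ = l ^ 3 * (b + 1) := by ring
      _ ≤ l ^ 3 * l ^ k := Nat.mul_le_mul_left _ hb
      _ = l ^ (k + 3) := by rw [pow_add]; ring
  have i0 : 0 < l ^ (k + 3) := pow_pos hl0 _
  have i2 : l ^ 2 < l ^ (k + 3) := hll3.trans_le hL
  have i1 : l < l ^ (k + 3) := hll.trans i2
  have i11 : 1 < l ^ (k + 3) := by omega
  have hl1 : (1 : ℕ) ≠ l := by omega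
  have p1 : (l ^ 1 : ℕ) = l := pow_one l
  have hl23 : l = 2 ∨ l = 3 := by omega
  have f1 : ∀ b, l ^ 2 ≠ l ^ 3 * b + l := by
    intro b; rcases hl23 with h | h <;> rw [h] <;> omega
  have f2 : ∀ b b', l ^ 3 * b + l ≠ l ^ 3 * b' + l + l ^ 2 := by
    intro b b'; rcases hl23 with h | h <;> rw [h] <;> omega
  have f3 : ∀ b b', b ≠ b' → l ^ 3 * b ≠ l ^ 3 * b' := by
    intro b b' hb; rcases hl23 with h | h <;> rw [h] <;> omega
  have j1 : ∀ b, b < l ^ k → l ^ 3 * b + l < l ^ (k + 3) := fun b hb => by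
    have := hidx b hb
    omega
  have hfin := grid (S := Sq K (A ∪ A₂.image fun a => -a) M) hB (x := u 0) (y := u (l ^ 2))
    (Finset.range (l ^ k)) (Finset.range (l ^ k)) (fun b => u (l ^ 3 * b + l))
    (fun b => u (l ^ 3 * b + l + l ^ 2)) (hne _ _ i0 i2 (by positivity)) ?_ ?_ ?_ ?_ ?_ ?_ ?_
  · rw [Finset.card_range, or_self] at hfin
    calc l ^ (k + 3) = l ^ k * l ^ 3 := pow_add _ _ _
      _ ≤ B * 3 ^ 3 := Nat.mul_le_mul hfin (Nat.pow_le_pow_left hl3 3)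
      _ ≤ 27 * B + 27 := by omega
  · intro b hb
    exact hne _ _ i0 (j1 b (Finset.mem_range.1 hb)) (by omega)
  · intro b hb
    exact hne _ _ i2 (j1 b (Finset.mem_range.1 hb)) (f1 b)
  · intro b hb
    exact hne _ _ i0 (hidx b (Finset.mem_range.1 hb)) (by omega)
  · intro b hb
    exact hne _ _ i2 (hidx b (Finset.mem_range.1 hb)) (by omega)
  · intro b hb b' hb' hbb
    exact hne _ _ (j1 b (Finset.mem_range.1 hb)) (j1 b' (Finset.mem_range.1 hb'))
      fun he => f3 b b' hbb (by omega)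
  · intro b hb b' hb' hbb
    exact hne _ _ (hidx b (Finset.mem_range.1 hb)) (hidx b' (Finset.mem_range.1 hb'))
      fun he => f3 b b' hbb (by omega)
  · intro b hb b' hb'
    have g1 := j1 b (Finset.mem_range.1 hb)
    have g2 := hidx b' (Finset.mem_range.1 hb')
    refine sq_of h h' (huT _) (huT _) (huT _) (huT _) (hne _ _ i0 i2 (by positivity))
      (hne _ _ i0 g1 (by omega)) (hne _ _ i0 g2 (by omega)) (hne _ _ i2 g1 (f1 b))
      (hne _ _ i2 g2 (by omega)) (hne _ _ g1 g2 (f2 b b')) ?_ ?_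
    · intro v _ ε D ρ κ h3
      rw [hD h3 1 0 (l ^ 3 * b + l) (by omega) (-(l * b)) (Or.inr (by push_cast; ring)),
        hD h3 1 (l ^ 2) (l ^ 3 * b' + l + l ^ 2) (by omega) (-(l * b'))
          (Or.inr (by push_cast; ring)),
        hD h3 1 0 (l ^ 3 * b' + l + l ^ 2) (by omega) (-(l * b') - 1)
          (Or.inr (by push_cast; ring)),
        hD h3 1 (l ^ 2) (l ^ 3 * b + l) (by omega) (1 - l * b) (Or.inr (by push_cast; ring))]
      ring
    · intro v _ ε D ρ κ h3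
      have h4 := h3.dd.cr (h.ne _ (huT 0)) (h.ne _ (huT 1)) (h.ne _ (huT (l ^ 2)))
        (h.ne _ (huT l)) (hne _ _ i0 i2 (by positivity)) (hne _ _ i11 i1 hl1)
        (hne _ _ i0 i1 (by omega)) (hne _ _ i11 i2 (by omega))
      rw [hD h3 2 0 (l ^ 2) (by omega) 0 (Or.inr (by push_cast; ring)),
        hD h3 0 1 l (by omega) (-1) (Or.inl (by push_cast; ring)),
        hD h3 1 0 l (by omega) 0 (Or.inr (by push_cast; ring)),
        hD h3 0 1 (l ^ 2) (by omega) (-l) (Or.inl (by push_cast; ring))] at h4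
      rw [hD h3 2 0 (l ^ 2) (by omega) 0 (Or.inr (by push_cast; ring)),
        hD h3 2 (l ^ 3 * b + l) (l ^ 3 * b' + l + l ^ 2) (by omega) (b - b')
          (Or.inr (by push_cast; ring)),
        hD h3 1 0 (l ^ 3 * b' + l + l ^ 2) (by omega) (-(l * b') - 1)
          (Or.inr (by push_cast; ring)),
        hD h3 1 (l ^ 2) (l ^ 3 * b + l) (by omega) (1 - l * b) (Or.inr (by push_cast; ring))]
      refine Dvd.intro (log (v.valuation K (dt (u 0) (u (l ^ 2)))) +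
        log (v.valuation K (dt (u 1) (u l))) - log (v.valuation K (dt (u 0) (u l))) -
        log (v.valuation K (dt (u 1) (u (l ^ 2))))) ?_
      linear_combination 2 * h4

end Pool.Agent.PDR
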