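import Mathlib

set_option autoImplicit false

/-!
# PDR: the definitions used in the statements
-/

open scoped WithZero

noncomputable section

namespace Pool.Agent.PDR

open WithZero

/-- the map of `K²` whose components are the forms `F` and `G` -/
def val {K : Type} [Field K] (F G : MvPolynomial (Fin 2) K) (v : Fin 2 → K) : Fin 2 → K :=
  ![MvPolynomial.eval v F, MvPolynomial.eval v G]

/-- the point of the projective line represented by the vector `v` is periodic with exact
period `n` for the map `[F : G]` -/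
def HasPeriod {K : Type} [Field K] (F G : MvPolynomial (Fin 2) K) (n : ℕ) (v : Fin 2 → K) :
    Prop :=
  v ≠ 0 ∧ 0 < n ∧ (∃ c : K, c ≠ 0 ∧ (val F G)^[n] v = c • v) ∧
    ∀ m, 0 < m → m < n → ∀ c : K, (val F G)^[m] v ≠ c • v

/-- The map `[F : G]` of degree `d` has a totally ramified fixed point over `K`, that is, after a
linear coordinate change over `K` it is a polynomial: the point `[q]` is its own only preimage. The
formula says that `F q₁ - G q₀ = g (X q₁ - Y q₀) ^ d`. -/
def TotRam {K : Type} [Field K] (F G : MvPolynomial (Fin 2) K) (d : ℕ) : Prop :=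
  ∃ (q : Fin 2 → K) (g : K), q ≠ 0 ∧ g ≠ 0 ∧ ∀ v : Fin 2 → K,
    val F G v 0 * q 1 - val F G v 1 * q 0 = g * (v 0 * q 1 - v 1 * q 0) ^ d

/-- the maximum norm of a vector -/
def size {L : Type} [Field L] (u : Valuation L ℤᵐ⁰) (a : Fin 2 → L) : ℤᵐ⁰ :=
  max (u (a 0)) (u (a 1))

/-- The map `[F : G]` of degree `d` is tame with exponent `M` at the valuation `w` of `K`: over an
extension field `L` with a valuation `u` whose restriction to `K` is `w ^ ε`, there is a linear
coordinate change `μ` after which the map is `[P : e Q]`, where `P` and `Q` are integral forms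
without common zero modulo `u` (vectors of norm one are mapped to vectors of norm one) and `e` is
integral. If `e` is a unit (the map has potentially good reduction) nothing else is required. If
`e` is not a unit, then `M ε` divides the order of `e`, the point `[1 : 0]` is not a zero of `P`
modulo `u`, and the reduction of `P` has no multiple zero at the reduction of the coordinates of a
point over `K`. -/
def Tame {K : Type} [Field K] (M : ℕ) (w : Valuation K ℤᵐ⁰) (d : ℕ)
    (F G : MvPolynomial (Fin 2) K) : Prop :=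
  ∃ (L : Type) (_ : Field L) (u : Valuation L ℤᵐ⁰) (φ : K →+* L) (ε : ℕ)
    (μ : Matrix (Fin 2) (Fin 2) L) (s e : L) (P Q : MvPolynomial (Fin 2) L),
    ε ≠ 0 ∧ (∀ x, u (φ x) = w x ^ ε) ∧ μ.det ≠ 0 ∧ s ≠ 0 ∧ e ≠ 0 ∧
    P.IsHomogeneous d ∧ Q.IsHomogeneous d ∧
    (∀ v : Fin 2 → K, μ.mulVec (fun i => φ (val F G v i)) =
      s • val P (MvPolynomial.C e * Q) (μ.mulVec fun i => φ (v i))) ∧
    (∀ m, u (P.coeff m) ≤ 1) ∧ (∀ m, u (Q.coeff m) ≤ 1) ∧
    (∀ a : Fin 2 → L, size u a = 1 → size u (val P Q a) = 1) ∧ u e ≤ 1 ∧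
    (u e < 1 → (M : ℤ) * ε ∣ log (u e) ∧ u (MvPolynomial.eval ![1, 0] P) = 1 ∧
      ∀ (v : Fin 2 → K) (c : L), size u (c • μ.mulVec fun i => φ (v i)) = 1 →
        u (MvPolynomial.eval (c • μ.mulVec fun i => φ (v i)) P) < 1 →
        u (MvPolynomial.eval (c • μ.mulVec fun i => φ (v i)) (MvPolynomial.pderiv 0 P)) = 1)

end Pool.Agent.PDR
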