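import Pool.Agent.PDR.Vec

set_option autoImplicit false

/-!
# PDR: places of good reduction
-/

open scoped WithZero

noncomputable section

namespace Pool.Agent.PDR

open Pool.Agent.PDP (Si Si_mul Si_le)

section Abs

variable {X Γ : Type*} [LinearOrderedCommGroupWithZero Γ] {D : X → X → Γ} {f : X → X} {S : Set X}

/-- distances in a cycle of a map which does not increase distances -/
lemma abs_gcd (hS : ∀ x ∈ S, f x ∈ S) (h0 : ∀ x ∈ S, D x x = 0)
    (hs : ∀ x ∈ S, ∀ y ∈ S, D x y = D y x)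
    (ht : ∀ x ∈ S, ∀ y ∈ S, ∀ z ∈ S, D x z ≤ max (D x y) (D y z))
    (hf : ∀ x ∈ S, ∀ y ∈ S, D (f x) (f y) ≤ D x y) {x : X} (hx : x ∈ S) {n : ℕ} (hn : 0 < n)
    (hp : D (f^[n] x) x = 0) (i j : ℕ) :
    D (f^[i] x) (f^[j] x) = D (f^[Nat.gcd (Int.natAbs ((i : ℤ) - j)) n] x) x := by
  have hit : ∀ k, f^[k] x ∈ S := by
    intro k
    induction k with
    | zero => exact hx
    | succ k ih =>
      rw [Function.iterate_succ_apply']
      exact hS _ ih
  have hit' : ∀ (y : X), y ∈ S → ∀ k, f^[k] y ∈ S := by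
    intro y hy k
    induction k with
    | zero => exact hy
    | succ k ih =>
      rw [Function.iterate_succ_apply']
      exact hS _ ih
  have hfk : ∀ (k : ℕ) (y z : X), y ∈ S → z ∈ S → D (f^[k] y) (f^[k] z) ≤ D y z := by
    intro k y z hy hz
    induction k with
    | zero => exact le_rfl
    | succ k ih =>
      rw [Function.iterate_succ_apply', Function.iterate_succ_apply']
      exact (hf _ (hit' y hy k) _ (hit' z hz k)).trans ih
  have heq : ∀ a ∈ S, ∀ b ∈ S, ∀ c ∈ S, D a b = 0 → D a c = D b c := by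
    intro a ha b hb c hc hab
    refine le_antisymm ?_ ?_
    · have h1 := ht a ha b hb c hc
      rw [hab] at h1
      exact h1.trans (max_le zero_le le_rfl)
    · have h1 := ht b hb a ha c hc
      rw [hs b hb a ha, hab] at h1
      exact h1.trans (max_le zero_le le_rfl)
  have hper : ∀ i k, D (f^[i + k * n] x) (f^[i] x) = 0 := by
    intro i k
    induction k with
    | zero => rw [Nat.zero_mul, Nat.add_zero]; exact h0 _ (hit _)
    | succ k ih =>
      have h1 : D (f^[i + (k + 1) * n] x) (f^[i + k * n] x) = 0 := by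
        refine le_antisymm ?_ zero_le
        have h2 := hfk (i + k * n) (f^[n] x) x (hit n) hx
        rw [← Function.iterate_add_apply, hp] at h2
        rwa [show i + (k + 1) * n = i + k * n + n by ring]
      rw [heq _ (hit _) _ (hit _) _ (hit _) h1, ih]
  have h2 : ∀ j, Antitone fun i : ℕ => D (f^[i + j] x) (f^[i] x) := by
    intro j
    refine antitone_nat_of_succ_le fun i => ?_
    rw [show i + 1 + j = (i + j) + 1 by ring, Function.iterate_succ_apply',
      Function.iterate_succ_apply']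
    exact hf _ (hit _) _ (hit _)
  have hrep : ∀ a b i k, D (f^[a + k * n] x) (f^[b + i * n] x) = D (f^[a] x) (f^[b] x) := by
    intro a b i k
    rw [heq _ (hit _) _ (hit _) _ (hit _) (hper a k), hs _ (hit _) _ (hit _),
      heq _ (hit _) _ (hit _) _ (hit _) (hper b i), hs _ (hit _) _ (hit _)]
  have hconst : ∀ i j, D (f^[i + j] x) (f^[i] x) = D (f^[j] x) x := by
    intro i j
    refine le_antisymm ?_ ?_
    · have := h2 j (Nat.zero_le i)
      dsimp only at this
      rwa [Nat.zero_add] at this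
    · have h4 : i ≤ i * n := Nat.le_mul_of_pos_right i hn
      have h5 := h2 j h4
      dsimp only at h5
      refine le_trans (le_of_eq ?_) h5
      have h6 := hrep j 0 i i
      rw [Nat.zero_add, Function.iterate_zero_apply] at h6
      rw [add_comm (i * n) j]
      exact h6.symm
  have hmul : ∀ j t, D (f^[t * j] x) x ≤ D (f^[j] x) x := by
    intro j t
    induction t with
    | zero => rw [Nat.zero_mul, Function.iterate_zero_apply, h0 x hx]; exact zero_le
    | succ t ih =>
      refine (ht _ (hit _) _ (hit (t * j)) _ hx).trans (max_le ?_ ih)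
      rw [Nat.succ_mul]
      exact (hconst (t * j) j).le
  have hmod : ∀ a b : ℕ, a % n = b % n → D (f^[a] x) x = D (f^[b] x) x := by
    intro a b hab
    have e1 : a = a % n + (a / n) * n := by rw [mul_comm]; exact (Nat.mod_add_div a n).symm
    have e2 : b = b % n + (b / n) * n := by rw [mul_comm]; exact (Nat.mod_add_div b n).symm
    have h3 := hrep (a % n) 0 0 (a / n)
    have h4 := hrep (b % n) 0 0 (b / n)
    rw [← e1] at h3
    rw [← e2] at h4
    simp only [Nat.zero_mul, Nat.add_zero, Function.iterate_zero_apply] at h3 h4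
    rw [h3, h4, hab]
  have hgcd : ∀ j, D (f^[j] x) x = D (f^[Nat.gcd j n] x) x := by
    intro j
    apply le_antisymm
    · obtain ⟨t, ht⟩ := Nat.gcd_dvd_left j n
      have h1 := hmul (Nat.gcd j n) t
      rwa [mul_comm, ← ht] at h1
    · obtain ⟨t, ht⟩ : ∃ t : ℕ, (t * j) % n = Nat.gcd j n % n := by
        have h1 := Nat.gcd_eq_gcd_ab j n
        have hn' : (n : ℤ) ≠ 0 := by exact_mod_cast hn.ne'
        refine ⟨(Nat.gcdA j n % n).toNat, ?_⟩
        have h2 : (((Nat.gcdA j n % n).toNat : ℕ) : ℤ) = Nat.gcdA j n % n :=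
          Int.toNat_of_nonneg (Int.emod_nonneg _ hn')
        have h3 : (((Nat.gcdA j n % n).toNat * j : ℕ) : ℤ) ≡ (Nat.gcd j n : ℤ) [ZMOD n] := by
          rw [Nat.cast_mul, h2, h1]
          have h4 : Nat.gcdA j n % n ≡ Nat.gcdA j n [ZMOD n] := Int.mod_modEq _ _
          have h5 := h4.mul_right (j : ℤ)
          refine h5.trans ?_
          have h6 : (n : ℤ) * Nat.gcdB j n ≡ 0 [ZMOD n] := by
            rw [Int.modEq_zero_iff_dvd]
            exact dvd_mul_right _ _
          have h7 := h6.add_left ((j : ℤ) * Nat.gcdA j n)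
          rw [add_zero] at h7
          rw [mul_comm (Nat.gcdA j n)]
          exact h7.symm
        exact (Int.natCast_modEq_iff.1 h3)
      rw [← hmod _ _ ht]
      exact hmul j t
  rcases le_total i j with h | h
  · obtain ⟨k, rfl⟩ := Nat.exists_eq_add_of_le h
    have e : Int.natAbs ((i : ℤ) - ((i + k : ℕ) : ℤ)) = k := by omega
    rw [e, ← hgcd, hs _ (hit _) _ (hit _)]
    exact hconst i k
  · obtain ⟨k, rfl⟩ := Nat.exists_eq_add_of_le h
    have e : Int.natAbs (((j + k : ℕ) : ℤ) - (j : ℤ)) = k := by omega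
    rw [e, ← hgcd]
    exact hconst j k

end Abs

section Cong

variable {K Γ : Type} [Field K] [LinearOrderedCommGroupWithZero Γ] {w : Valuation K Γ}

lemma c_mul {x x' y y' : K} (h1 : w (x - x') < 1) (h2 : w (y - y') < 1) (hx : w x ≤ 1)
    (hy : w y' ≤ 1) : w (x * y - x' * y') < 1 := by
  have e : x * y - x' * y' = x * (y - y') + (x - x') * y' := by ring
  rw [e]
  refine Valuation.map_add_lt w ?_ ?_
  · rw [map_mul]
    calc w x * w (y - y') ≤ 1 * w (y - y') := mul_le_mul_left hx _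
      _ = w (y - y') := one_mul _
      _ < 1 := h2
  · rw [map_mul]
    calc w (x - x') * w y' ≤ w (x - x') * 1 := mul_le_mul_right hy _
      _ = w (x - x') := mul_one _
      _ < 1 := h1

lemma c_pow {x x' : K} (h1 : w (x - x') < 1) (hx : w x ≤ 1) (hx' : w x' ≤ 1) (n : ℕ) :
    w (x ^ n - x' ^ n) < 1 := by
  induction n with
  | zero => rw [pow_zero, pow_zero, sub_self, map_zero]; exact zero_lt_one
  | succ n ih =>
    rw [pow_succ, pow_succ]
    refine c_mul ih h1 ?_ hx'
    rw [map_pow]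
    exact pow_le_one' hx _

lemma c_sum {ι : Type*} {s : Finset ι} {f g : ι → K} (h : ∀ i ∈ s, w (f i - g i) < 1) :
    w (∑ i ∈ s, f i - ∑ i ∈ s, g i) < 1 := by
  rw [← Finset.sum_sub_distrib]
  exact Valuation.map_sum_lt w one_ne_zero h

lemma Si_cong {x x' y y' : K} (h1 : w (x - x') < 1) (h2 : w (y - y') < 1) (hx : w x ≤ 1)
    (hx' : w x' ≤ 1) (hy : w y ≤ 1) (hy' : w y' ≤ 1) (k : ℕ) :
    w (Si k x y - Si k x' y') < 1 := by
  unfold Si
  refine c_sum fun j _ => c_mul (c_pow h1 hx hx' _) (c_pow h2 hy hy' _) ?_ ?_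
  · rw [map_pow]; exact pow_le_one' hx _
  · rw [map_pow]; exact pow_le_one' hy' _

lemma Si_int {x y : K} (hx : w x ≤ 1) (hy : w y ≤ 1) (k : ℕ) : w (Si k x y) ≤ 1 := by
  unfold Si
  refine Valuation.map_sum_le w fun j _ => ?_
  rw [map_mul, map_pow, map_pow]
  exact mul_le_one' (pow_le_one' hx _) (pow_le_one' hy _)

lemma rr_cong {a a' b : K × K} (h1 : w (a.1 - a'.1) < 1) (h2 : w (a.2 - a'.2) < 1)
    (ha : nrm w a ≤ 1) (ha' : nrm w a' ≤ 1) (hb : nrm w b ≤ 1) (d i j : ℕ) :
    w (rr d i j a b - rr d i j a' b) < 1 := by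
  have a1 : w a.1 ≤ 1 := (le_max_left _ _).trans ha
  have a2 : w a.2 ≤ 1 := (le_max_right _ _).trans ha
  have a1' : w a'.1 ≤ 1 := (le_max_left _ _).trans ha'
  have a2' : w a'.2 ≤ 1 := (le_max_right _ _).trans ha'
  have b1 : w b.1 ≤ 1 := (le_max_left _ _).trans hb
  have b2 : w b.2 ≤ 1 := (le_max_right _ _).trans hb
  have hz : ∀ x : K, w (x - x) < 1 := fun x => by rw [sub_self, map_zero]; exact zero_lt_one
  have m : ∀ x y : K, w x ≤ 1 → w y ≤ 1 → w (x * y) ≤ 1 := fun x y hx hy => by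
    rw [map_mul]; exact mul_le_one' hx hy
  have pw : ∀ (x : K) (k : ℕ), w x ≤ 1 → w (x ^ k) ≤ 1 := fun x k hx => by
    rw [map_pow]; exact pow_le_one' hx _
  have c11 : w (a.1 * b.1 - a'.1 * b.1) < 1 := c_mul h1 (hz _) a1 b1
  have c22 : w (a.2 * b.2 - a'.2 * b.2) < 1 := c_mul h2 (hz _) a2 b2
  have c12 : w (a.1 * b.2 - a'.1 * b.2) < 1 := c_mul h1 (hz _) a1 b2
  have c21 : w (a.2 * b.1 - a'.2 * b.1) < 1 := c_mul h2 (hz _) a2 b1
  unfold rr
  split_ifs
  · refine c_mul (c_mul (c_pow c11 (m _ _ a1 b1) (m _ _ a1' b1) _)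
      (c_pow c22 (m _ _ a2 b2) (m _ _ a2' b2) _) (pw _ _ (m _ _ a1 b1))
      (pw _ _ (m _ _ a2' b2))) (Si_cong c12 c21 (m _ _ a1 b2) (m _ _ a1' b2) (m _ _ a2 b1)
      (m _ _ a2' b1) _) (m _ _ (pw _ _ (m _ _ a1 b1)) (pw _ _ (m _ _ a2 b2)))
      (Si_int (m _ _ a1' b2) (m _ _ a2' b1) _)
  · rw [neg_sub_neg, Valuation.map_sub_swap]
    refine c_mul (c_mul (c_pow c11 (m _ _ a1 b1) (m _ _ a1' b1) _)
      (c_pow c22 (m _ _ a2 b2) (m _ _ a2' b2) _) (pw _ _ (m _ _ a1 b1))
      (pw _ _ (m _ _ a2' b2))) (Si_cong c12 c21 (m _ _ a1 b2) (m _ _ a1' b2) (m _ _ a2 b1)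
      (m _ _ a2' b1) _) (m _ _ (pw _ _ (m _ _ a1 b1)) (pw _ _ (m _ _ a2 b2)))
      (Si_int (m _ _ a1' b2) (m _ _ a2' b1) _)

lemma RR_cong {d : ℕ} {p q : ℕ → K} (hp : ∀ i, w (p i) ≤ 1) (hq : ∀ i, w (q i) ≤ 1)
    {a a' b : K × K} (h1 : w (a.1 - a'.1) < 1) (h2 : w (a.2 - a'.2) < 1)
    (ha : nrm w a ≤ 1) (ha' : nrm w a' ≤ 1) (hb : nrm w b ≤ 1) :
    w (RR d p q a b - RR d p q a' b) < 1 := by
  unfold RR
  refine c_sum fun i _ => c_sum fun j _ => ?_
  rw [← mul_sub, map_mul, map_mul]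
  calc w (p i) * w (q j) * w (rr d i j a b - rr d i j a' b)
      ≤ 1 * w (rr d i j a b - rr d i j a' b) :=
        mul_le_mul_left (mul_le_one' (hp i) (hq j)) _
    _ = w (rr d i j a b - rr d i j a' b) := one_mul _
    _ < 1 := rr_cong h1 h2 ha ha' hb d i j

/-- normalisation -/
lemma exists_unit {a : K × K} (ha : a ≠ 0) : ∃ s : K, s ≠ 0 ∧ nrm w (s • a) = 1 := by
  rcases le_total (w a.1) (w a.2) with h | h
  · have h2 : a.2 ≠ 0 := by
      intro h2
      rw [h2, map_zero] at h
      exact ha (Prod.ext ((Valuation.zero_iff w).1 (le_antisymm h zero_le)) h2)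
    refine ⟨a.2⁻¹, inv_ne_zero h2, ?_⟩
    rw [nrm_smul, map_inv₀]
    unfold nrm
    rw [max_eq_right h, inv_mul_cancel₀ ((Valuation.ne_zero_iff w).2 h2)]
  · have h2 : a.1 ≠ 0 := by
      intro h2
      rw [h2, map_zero] at h
      exact ha (Prod.ext h2 ((Valuation.zero_iff w).1 (le_antisymm h zero_le)))
    refine ⟨a.1⁻¹, inv_ne_zero h2, ?_⟩
    rw [nrm_smul, map_inv₀]
    unfold nrm
    rw [max_eq_left h, inv_mul_cancel₀ ((Valuation.ne_zero_iff w).2 h2)]

/-- congruent normalised vectors -/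
lemma close_of {a a' : K × K} (ha : nrm w a = 1) (ha' : nrm w a' = 1) (h : w (dt a a') < 1) :
    ∃ t : K, w t = 1 ∧ w (a.1 - (t • a').1) < 1 ∧ w (a.2 - (t • a').2) < 1 := by
  have a1 : w a.1 ≤ 1 := (le_max_left _ _).trans ha.le
  have a2 : w a.2 ≤ 1 := (le_max_right _ _).trans ha.le
  have a1' : w a'.1 ≤ 1 := (le_max_left _ _).trans ha'.le
  have a2' : w a'.2 ≤ 1 := (le_max_right _ _).trans ha'.le
  have hz : w (0 : K) < 1 := by rw [map_zero]; exact zero_lt_one
  rcases a2'.lt_or_eq with h2 | h2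
  · have h1 : w a'.1 = 1 := by
      unfold nrm at ha'
      rcases max_choice (w a'.1) (w a'.2) with h3 | h3
      · rw [← h3, ha']
      · rw [h3] at ha'
        exact absurd ha' h2.ne
    have h0 : a'.1 ≠ 0 := (Valuation.ne_zero_iff w).1 (by rw [h1]; exact one_ne_zero)
    have e2 : a.2 - a.1 / a'.1 * a'.2 = -dt a a' / a'.1 := by
      unfold dt; field_simp; ring
    have k2 : w (a.2 - a.1 / a'.1 * a'.2) < 1 := by
      rw [e2, map_div₀, Valuation.map_neg, h1, div_one]; exact h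
    have k1 : w (a.1 - a.1 / a'.1 * a'.1) < 1 := by
      rw [div_mul_cancel₀ _ h0, sub_self]; exact hz
    refine ⟨a.1 / a'.1, ?_, k1, k2⟩
    rw [map_div₀, h1, div_one]
    by_contra hne
    have hlt : w a.1 < 1 := lt_of_le_of_ne a1 hne
    have h3 : w a.2 = 1 := by
      unfold nrm at ha
      rcases max_choice (w a.1) (w a.2) with h4 | h4
      · rw [h4] at ha
        exact absurd ha hlt.ne
      · rw [← h4, ha]
    have h5 : w (a.1 / a'.1 * a'.2) < 1 := by
      rw [map_mul, map_div₀, h1, div_one]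
      calc w a.1 * w a'.2 ≤ w a.1 * 1 := mul_le_mul_right a2' _
        _ = w a.1 := mul_one _
        _ < 1 := hlt
    have h6 : w a.2 < 1 := by
      have e : a.2 = a.2 - a.1 / a'.1 * a'.2 + a.1 / a'.1 * a'.2 := by ring
      rw [e]
      exact Valuation.map_add_lt w k2 h5
    rw [h3] at h6
    exact lt_irrefl _ h6
  · have h0 : a'.2 ≠ 0 := (Valuation.ne_zero_iff w).1 (by rw [h2]; exact one_ne_zero)
    have e2 : a.1 - a.2 / a'.2 * a'.1 = dt a a' / a'.2 := by
      unfold dt; field_simp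
    have k2 : w (a.1 - a.2 / a'.2 * a'.1) < 1 := by
      rw [e2, map_div₀, h2, div_one]; exact h
    have k1 : w (a.2 - a.2 / a'.2 * a'.2) < 1 := by
      rw [div_mul_cancel₀ _ h0, sub_self]; exact hz
    refine ⟨a.2 / a'.2, ?_, k2, k1⟩
    rw [map_div₀, h2, div_one]
    by_contra hne
    have hlt : w a.2 < 1 := lt_of_le_of_ne a2 hne
    have h3 : w a.1 = 1 := by
      unfold nrm at ha
      rcases max_choice (w a.1) (w a.2) with h4 | h4
      · rw [← h4, ha]
      · rw [h4] at ha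
        exact absurd ha hlt.ne
    have h5 : w (a.2 / a'.2 * a'.1) < 1 := by
      rw [map_mul, map_div₀, h2, div_one]
      calc w a.2 * w a'.1 ≤ w a.2 * 1 := mul_le_mul_right a1' _
        _ = w a.2 := mul_one _
        _ < 1 := hlt
    have h6 : w a.1 < 1 := by
      have e : a.1 = a.1 - a.2 / a'.2 * a'.1 + a.2 / a'.2 * a'.1 := by ring
      rw [e]
      exact Valuation.map_add_lt w k2 h5
    rw [h3] at h6
    exact lt_irrefl _ h6

/-- `RR` has the same absolute value at congruent vectors, as far as it is a unit -/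
lemma RR_close {d : ℕ} {p q : ℕ → K} (hp : ∀ i, w (p i) ≤ 1) (hq : ∀ i, w (q i) ≤ 1)
    {a a' b : K × K} (ha : a ≠ 0) (ha' : a' ≠ 0) (hb : b ≠ 0) (h : dl w a a' < 1)
    (hR : w (RR d p q a' b) = (nrm w a' * nrm w b) ^ (d - 1)) :
    w (RR d p q a b) = (nrm w a * nrm w b) ^ (d - 1) := by
  obtain ⟨s, hs, hsa⟩ := exists_unit (w := w) ha
  obtain ⟨s', hs', hsa'⟩ := exists_unit (w := w) ha'
  obtain ⟨r, hr, hrb⟩ := exists_unit (w := w) hb
  have hsw : w s ≠ 0 := (Valuation.ne_zero_iff w).2 hs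
  have hsw' : w s' ≠ 0 := (Valuation.ne_zero_iff w).2 hs'
  have hrw : w r ≠ 0 := (Valuation.ne_zero_iff w).2 hr
  have h1 : w (dt (s • a) (s' • a')) < 1 := by
    have h2 : dl w (s • a) (s' • a') < 1 := by rwa [dl_smul hs, dl_smul' hs']
    unfold dl at h2
    rwa [hsa, hsa', one_mul, div_one] at h2
  obtain ⟨t, ht, c1, c2⟩ := close_of hsa hsa' h1
  have hta : nrm w (t • s' • a') = 1 := by rw [nrm_smul, ht, hsa', one_mul]
  have h3 := RR_cong (d := d) hp hq c1 c2 hsa.le hta.le hrb.le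
  have h4 : w (RR d p q (t • s' • a') (r • b)) = 1 := by
    rw [RR_smul, RR_smul, RR_smul_right, map_mul, map_mul, map_mul, map_pow, map_pow, map_pow, ht, hR,
      one_pow, one_mul, ← mul_pow, ← mul_pow]
    have e : w s' * (w r * (nrm w a' * nrm w b)) = (w s' * nrm w a') * (w r * nrm w b) := by
      ac_rfl
    rw [e, ← nrm_smul, ← nrm_smul, hsa', hrb, one_mul, one_pow]
  have h5 : w (RR d p q (s • a) (r • b)) = 1 := by
    rw [← h4]
    refine Valuation.map_eq_of_sub_lt w ?_
    rw [h4]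
    exact h3
  rw [RR_smul, RR_smul_right, map_mul, map_mul, map_pow, map_pow, ← mul_assoc, ← mul_pow] at h5
  have e : nrm w a * nrm w b = (w s * w r)⁻¹ := by
    rw [nrm_smul] at hsa hrb
    rw [eq_inv_of_mul_eq_one_right hsa, eq_inv_of_mul_eq_one_right hrb, mul_inv]
  rw [e, inv_pow]
  exact eq_inv_of_mul_eq_one_right h5

end Cong

section GD

variable {K Γ : Type} [Field K] [LinearOrderedCommGroupWithZero Γ] {w : Valuation K Γ}
  {d : ℕ} {p q : ℕ → K}

/-- good reduction -/
structure GD (w : Valuation K Γ) (d : ℕ) (p q : ℕ → K) : Prop where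
  hp : ∀ i, w (p i) ≤ 1
  hq : ∀ i, w (q i) ≤ 1
  hn : ∀ a, nrm w (Ph d p q a) = nrm w a ^ d

lemma GD.ne (h : GD w d p q) {a : K × K} (ha : a ≠ 0) : Ph d p q a ≠ 0 := by
  intro h0
  have h1 := h.hn a
  rw [h0] at h1
  have h2 : nrm w (0 : K × K) = 0 := by
    unfold nrm
    rw [Prod.fst_zero, Prod.snd_zero, map_zero, max_self]
  rw [h2] at h1
  exact pow_ne_zero d (nrm_ne ha) h1.symm

lemma GD.it_ne (h : GD w d p q) {a : K × K} (ha : a ≠ 0) (k : ℕ) : (Ph d p q)^[k] a ≠ 0 := by
  induction k with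
  | zero => exact ha
  | succ k ih =>
    rw [Function.iterate_succ_apply']
    exact h.ne ih

/-- the exact change of distances -/
lemma GD.dl_eq (h : GD w d p q) (hd : 1 ≤ d) {a b : K × K} (ha : a ≠ 0) (hb : b ≠ 0) :
    dl w (Ph d p q a) (Ph d p q b) * (nrm w a * nrm w b) ^ (d - 1) =
      w (RR d p q a b) * dl w a b := by
  obtain ⟨k, rfl⟩ : ∃ k, d = k + 1 := ⟨d - 1, by omega⟩
  have hn : nrm w a * nrm w b ≠ 0 := mul_ne_zero (nrm_ne ha) (nrm_ne hb)
  unfold dl
  rw [← RR_mul, map_mul, h.hn, h.hn, ← mul_pow, Nat.add_sub_cancel, pow_succ]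
  rw [div_mul_eq_mul_div, mul_comm ((nrm w a * nrm w b) ^ k) (nrm w a * nrm w b),
    mul_div_mul_right _ _ (pow_ne_zero _ hn), mul_div_assoc]

lemma GD.nonexp (h : GD w d p q) (hd : 1 ≤ d) {a b : K × K} (ha : a ≠ 0) (hb : b ≠ 0) :
    dl w (Ph d p q a) (Ph d p q b) ≤ dl w a b := by
  have hn : 0 < (nrm w a * nrm w b) ^ (d - 1) :=
    zero_lt_iff.2 (pow_ne_zero _ (mul_ne_zero (nrm_ne ha) (nrm_ne hb)))
  have h1 := h.dl_eq hd ha hb
  refine le_of_mul_le_mul_right ?_ hn
  rw [h1, mul_comm]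
  exact mul_le_mul_right (RR_le h.hp h.hq a b) _

lemma GD.nonexp_it (h : GD w d p q) (hd : 1 ≤ d) {a b : K × K} (ha : a ≠ 0) (hb : b ≠ 0)
    (k : ℕ) : dl w ((Ph d p q)^[k] a) ((Ph d p q)^[k] b) ≤ dl w a b := by
  induction k with
  | zero => exact le_rfl
  | succ k ih =>
    rw [Function.iterate_succ_apply', Function.iterate_succ_apply']
    exact (h.nonexp hd (h.it_ne ha k) (h.it_ne hb k)).trans ih

/-- where the distance is preserved `RR` is a unit -/
lemma GD.unit_of (h : GD w d p q) (hd : 1 ≤ d) {a b : K × K} (ha : a ≠ 0) (hb : b ≠ 0)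
    (hab : dt a b ≠ 0) (he : dl w (Ph d p q a) (Ph d p q b) = dl w a b) :
    w (RR d p q a b) = (nrm w a * nrm w b) ^ (d - 1) := by
  have h1 := h.dl_eq hd ha hb
  have h2 : dl w a b ≠ 0 := fun h3 => hab ((dl_eq_zero ha hb).1 h3)
  rw [he, mul_comm] at h1
  exact (mul_right_cancel₀ h2 h1).symm

/-- a point which is mapped to the image of `b` is far from `a` if the distance of `a` and `b`
is preserved -/
lemma GD.far (h : GD w d p q) (hd : 1 ≤ d) {a b c : K × K} (ha : a ≠ 0) (hb : b ≠ 0)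
    (hc : c ≠ 0) (hbc : dt b c ≠ 0) (hf : dt (Ph d p q b) (Ph d p q c) = 0) (hab : dt a b ≠ 0)
    (he : dl w (Ph d p q a) (Ph d p q b) = dl w a b) : dl w a c = 1 := by
  refine le_antisymm (dl_le_one ha hc) ?_
  by_contra hlt
  push Not at hlt
  have h1 := h.unit_of hd ha hb hab he
  have h2 := RR_close h.hp h.hq hc ha hb (by rw [dl_symm]; exact hlt) h1
  have h3 : RR d p q c b * dt c b = 0 := by
    rw [RR_mul, dt_swap, hf, neg_zero]
  have h4 : RR d p q c b = 0 := by
    refine (mul_eq_zero.1 h3).resolve_right ?_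
    rw [dt_swap]
    exact neg_ne_zero.2 hbc
  rw [h4, map_zero] at h2
  exact pow_ne_zero _ (mul_ne_zero (nrm_ne hc) (nrm_ne hb)) h2.symm

/-- distances in a cycle -/
lemma GD.cyc (h : GD w d p q) (hd : 1 ≤ d) {a : K × K} (ha : a ≠ 0) {n : ℕ} (hn : 0 < n)
    (hp : dt ((Ph d p q)^[n] a) a = 0) (i j : ℕ) :
    dl w ((Ph d p q)^[i] a) ((Ph d p q)^[j] a) =
      dl w ((Ph d p q)^[Nat.gcd (Int.natAbs ((i : ℤ) - j)) n] a) a := by
  refine abs_gcd (D := dl w) (f := Ph d p q) (S := {a | a ≠ 0}) (fun x hx => h.ne hx)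
    (fun x _ => dl_self x) (fun x _ y _ => dl_symm x y)
    (fun x hx y hy z hz => dl_tri hx hy hz) (fun x hx y hy => h.nonexp hd hx hy) ha hn ?_ i j
  exact (dl_eq_zero (h.it_ne ha n) ha).2 hp

/-- a nonperiodic point congruent to a periodic one never meets a second one -/
lemma GD.never (h : GD w d p q) (hd : 1 ≤ d) {a y y' : K × K} (ha : a ≠ 0) (hy : y ≠ 0)
    (hy' : y' ≠ 0) {n : ℕ} (hn : 0 < n) (py : dt ((Ph d p q)^[n] y) y = 0)
    (py' : dt ((Ph d p q)^[n] y') y' = 0) (hne : dt y' y ≠ 0) (hcl : dl w a y' < 1)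
    (hay : dt a y ≠ 0) (k : ℕ) : dt ((Ph d p q)^[k] a) ((Ph d p q)^[k] y) ≠ 0 := by
  -- distances of `y` and `y'` are preserved
  have hstep : ∀ k, dl w ((Ph d p q)^[k] y') ((Ph d p q)^[k] y) = dl w y' y := by
    intro k
    refine le_antisymm (h.nonexp_it hd hy' hy k) ?_
    have h1 := h.nonexp_it hd (h.it_ne hy' k) (h.it_ne hy k) (k * n - k)
    rw [← Function.iterate_add_apply, ← Function.iterate_add_apply,
      Nat.sub_add_cancel (Nat.le_mul_of_pos_right k hn)] at h1
    have key : ∀ z : K × K, z ≠ 0 → dt ((Ph d p q)^[n] z) z = 0 → ∀ k : ℕ,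
        dt ((Ph d p q)^[k * n] z) z = 0 := by
      intro z hz hz1 k
      induction k with
      | zero => rw [Nat.zero_mul, Function.iterate_zero_apply, dt_self]
      | succ k ih =>
        have h2 : dt ((Ph d p q)^[(k + 1) * n] z) ((Ph d p q)^[n] z) = 0 := by
          have h3 : ∀ m (x x' : K × K), dt x x' = 0 →
              dt ((Ph d p q)^[m] x) ((Ph d p q)^[m] x') = 0 := by
            intro m x x' hx
            induction m with
            | zero => exact hx
            | succ m ihm =>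
              rw [Function.iterate_succ_apply', Function.iterate_succ_apply']
              exact dt_zero_of ihm
          have h4 := h3 n _ _ ih
          rwa [← Function.iterate_add_apply, show n + k * n = (k + 1) * n by ring] at h4
        exact par_trans (h.it_ne hz n) h2 hz1
    have e1 := key y hy py k
    have e2 := key y' hy' py' k
    obtain ⟨s, hs, h5⟩ := par_of (h.it_ne hy (k * n)) hy e1
    obtain ⟨s', hs', h6⟩ := par_of (h.it_ne hy' (k * n)) hy' e2
    calc dl w y' y = dl w (s' • (Ph d p q)^[k * n] y') (s • (Ph d p q)^[k * n] y) := by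
          rw [← h5, ← h6]
      _ = dl w ((Ph d p q)^[k * n] y') ((Ph d p q)^[k * n] y) := by
          rw [dl_smul hs', dl_smul' hs]
      _ ≤ _ := h1
  have hw0 : dl w y' y ≠ 0 := fun h0 => hne ((dl_eq_zero hy' hy).1 h0)
  induction k with
  | zero => exact hay
  | succ k ih =>
    intro h0
    rw [Function.iterate_succ_apply', Function.iterate_succ_apply'] at h0
    have nA := h.it_ne ha k
    have nY := h.it_ne hy k
    have nY' := h.it_ne hy' k
    have h1 : RR d p q ((Ph d p q)^[k] a) ((Ph d p q)^[k] y) = 0 := by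
      have h2 := RR_mul d p q ((Ph d p q)^[k] a) ((Ph d p q)^[k] y)
      rw [h0] at h2
      exact (mul_eq_zero.1 h2).resolve_right ih
    have h3 := h.unit_of hd nY' nY (fun h4 => hw0 (by
      rw [← hstep k]; exact (dl_eq_zero nY' nY).2 h4)) (by
      rw [← Function.iterate_succ_apply' (Ph d p q), ← Function.iterate_succ_apply' (Ph d p q),
        hstep, hstep])
    have h4 := RR_close h.hp h.hq nA nY' nY ((h.nonexp_it hd ha hy' k).trans_lt hcl) h3
    rw [h1, map_zero] at h4
    exact pow_ne_zero _ (mul_ne_zero (nrm_ne nA) (nrm_ne nY)) h4.symm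

lemma it_zero_of {d : ℕ} {p q : ℕ → K} (m : ℕ) {x x' : K × K} (h : dt x x' = 0) :
    dt ((Ph d p q)^[m] x) ((Ph d p q)^[m] x') = 0 := by
  induction m with
  | zero => exact h
  | succ m ihm =>
    rw [Function.iterate_succ_apply', Function.iterate_succ_apply']
    exact dt_zero_of ihm

/-- points of a tail with different classes modulo the length of the cycle are at distance one -/
lemma GD.tail (h : GD w d p q) (hd : 1 ≤ d) {a : K × K} (ha : a ≠ 0) {t n δ : ℕ} (hn : 0 < n)
    (hper : dt ((Ph d p q)^[n] ((Ph d p q)^[t] a)) ((Ph d p q)^[t] a) = 0)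
    (hex : ∀ m, dt ((Ph d p q)^[m] ((Ph d p q)^[t] a)) ((Ph d p q)^[t] a) = 0 → n ∣ m)
    (hu : ∀ m, 0 < m → dt ((Ph d p q)^[m] a) a ≠ 0) (hδ : ¬ n ∣ δ) :
    dl w a ((Ph d p q)^[δ] a) = 1 := by
  set f := Ph d p q with hf
  have hle : dl w a (f^[δ] a) ≤ 1 := dl_le_one ha (h.it_ne ha δ)
  refine le_antisymm hle ?_
  by_contra hlt
  push Not at hlt
  have hδ0 : 0 < δ := by
    rcases Nat.eq_zero_or_pos δ with h0 | h0
    · exact absurd (h0 ▸ dvd_zero n) hδ
    · exact h0
  have hit : ∀ k, f^[k] a ≠ 0 := h.it_ne ha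
  -- all `f^(k δ) a` are congruent to `a`
  have hcong : ∀ k, dl w a (f^[k * δ] a) < 1 := by
    intro k
    induction k with
    | zero => rw [Nat.zero_mul, Function.iterate_zero_apply, dl_self]; exact zero_lt_one
    | succ k ih =>
      refine (dl_tri ha (hit (k * δ)) (hit _)).trans_lt (max_lt ih ?_)
      have h1 := h.nonexp_it hd ha (hit δ) (k * δ)
      rw [← hf, ← Function.iterate_add_apply, show k * δ + δ = (k + 1) * δ by ring] at h1
      exact h1.trans_lt hlt
  -- the periodic point `y`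
  obtain ⟨K', hK⟩ : ∃ K, K = n * t := ⟨_, rfl⟩
  set y := f^[K' * δ] a with hy
  have hKt : t ≤ K' * δ := by
    rw [hK]
    calc t = 1 * t * 1 := by ring
      _ ≤ n * t * δ := Nat.mul_le_mul (Nat.mul_le_mul hn le_rfl) hδ0
  obtain ⟨s, hs⟩ := Nat.exists_eq_add_of_le hKt
  have hy2 : y = f^[s] (f^[t] a) := by
    rw [hy, hs, add_comm t s, Function.iterate_add_apply]
  have y0 : y ≠ 0 := hit _
  have hyn : dt (f^[n] y) y = 0 := by
    rw [hy2, ← Function.iterate_add_apply, add_comm n s, Function.iterate_add_apply]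
    exact it_zero_of s hper
  have hper' : ∀ k, dt (f^[k * n] (f^[t] a)) (f^[t] a) = 0 := by
    intro k
    induction k with
    | zero => rw [Nat.zero_mul, Function.iterate_zero_apply, dt_self]
    | succ k ih =>
      have h4 := it_zero_of (d := d) (p := p) (q := q) n ih
      rw [← hf, ← Function.iterate_add_apply, show n + k * n = (k + 1) * n by ring] at h4
      exact par_trans (h.it_ne (hit t) n) h4 hper
  have hymin : ∀ m, dt (f^[m] y) y = 0 → n ∣ m := by
    intro m hm
    apply hex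
    -- go on to a multiple of `n`
    have h1 : dt (f^[s * n - s] (f^[m] y)) (f^[s * n - s] y) = 0 := it_zero_of _ hm
    have hsn : s ≤ s * n := Nat.le_mul_of_pos_right s hn
    have e1 : f^[s * n - s] (f^[m] y) = f^[m] (f^[s * n] (f^[t] a)) := by
      rw [hy2, ← Function.iterate_add_apply f _ t a, ← Function.iterate_add_apply f m _ a,
        ← Function.iterate_add_apply f _ _ a, ← Function.iterate_add_apply f (s * n) t a,
        ← Function.iterate_add_apply f m _ a,
        show s * n - s + (m + (s + t)) = m + (s * n + t) by omega]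
    have e2 : f^[s * n - s] y = f^[s * n] (f^[t] a) := by
      rw [hy2, ← Function.iterate_add_apply f (s * n - s) s, Nat.sub_add_cancel hsn]
    rw [e1, e2] at h1
    have h2 : dt (f^[m] (f^[s * n] (f^[t] a))) (f^[m] (f^[t] a)) = 0 := it_zero_of m (hper' s)
    have h3 : dt (f^[m] (f^[t] a)) (f^[m] (f^[s * n] (f^[t] a))) = 0 := by
      rw [dt_swap, h2, neg_zero]
    exact par_trans (h.it_ne (h.it_ne (hit t) _) _) h3
      (par_trans (h.it_ne (hit t) _) h1 (hper' s))
  have hye : dt (f^[K' * δ] y) y = 0 := by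
    have e : K' * δ = (t * δ) * n := by rw [hK]; ring
    rw [e, hy2, ← Function.iterate_add_apply, add_comm, Function.iterate_add_apply]
    exact it_zero_of s (hper' _)
  have hy' : dt (f^[n] (f^[δ] y)) (f^[δ] y) = 0 := by
    rw [← Function.iterate_add_apply, add_comm n δ, Function.iterate_add_apply]
    exact it_zero_of δ hyn
  have hyne : dt (f^[δ] y) y ≠ 0 := fun h1 => hδ (hymin δ h1)
  have hpos : 0 < K' * δ := by
    rcases Nat.eq_zero_or_pos (K' * δ) with h0 | h0
    · exfalso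
      -- then `t = 0` and `a` is periodic
      have ht0 : t = 0 := by omega
      rw [ht0, Function.iterate_zero_apply] at hper
      exact hu n hn hper
    · exact h0
  have huy : dt a y ≠ 0 := by
    intro h1
    refine hu (K' * δ) hpos ?_
    rw [dt_swap, ← hy, h1, neg_zero]
  have hclose : dl w a (f^[δ] y) < 1 := by
    have h1 := hcong (K' + 1)
    have e : f^[(K' + 1) * δ] a = f^[δ] y := by
      rw [hy, ← Function.iterate_add_apply]
      congr 1
      ring
    rwa [e] at h1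
  have h1 := h.never hd ha y0 (h.it_ne y0 δ) hn hyn hy' hyne hclose huy (K' * δ)
  apply h1
  rw [← hf, ← hy, dt_swap, hye, neg_zero]

end GD

end Pool.Agent.PDR
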