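import Pool.Agent.PDR.Omega

set_option autoImplicit false

/-!
# PDR: the trace of a symmetry
-/

open NumberField IsDedekindDomain
open scoped WithZero

noncomputable section

namespace Pool.Agent.PDR

/-- the coefficients of the powers of a linear map -/
def useq {K : Type} [Field K] (τ D : K) : ℕ → K
  | 0 => 0
  | 1 => 1
  | n + 2 => τ * useq τ D (n + 1) - D * useq τ D n

lemma useq_dt {K : Type} [Field K] {α β γ δ : K} (v : K × K) (n : ℕ) :
    dt ((lin α β γ δ)^[n] v) v = useq (α + δ) (α * δ - β * γ) n * dt (lin α β γ δ v) v ∧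
    dt ((lin α β γ δ)^[n + 1] v) v =
      useq (α + δ) (α * δ - β * γ) (n + 1) * dt (lin α β γ δ v) v := by
  induction n with
  | zero =>
    rw [Function.iterate_zero_apply, dt_self]
    refine ⟨by unfold useq; ring, ?_⟩
    rw [zero_add, Function.iterate_one]
    unfold useq
    ring
  | succ n ih =>
    refine ⟨ih.2, ?_⟩
    have h1 : ∀ u : K × K, dt (lin α β γ δ (lin α β γ δ u)) v =
        (α + δ) * dt (lin α β γ δ u) v - (α * δ - β * γ) * dt u v := by
      intro u
      unfold dt lin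
      ring
    rw [Function.iterate_succ_apply', Function.iterate_succ_apply', h1,
      ← Function.iterate_succ_apply' (lin α β γ δ) n v, ih.1, ih.2, useq]
    ring

lemma useq_eig {K L : Type} [Field K] [Field L] (φ : K →+* L) {τ D : K} {x y : L}
    (h1 : φ τ = x + y) (h2 : φ D = x * y) (n : ℕ) :
    (x - y) * φ (useq τ D n) = x ^ n - y ^ n ∧
    (x - y) * φ (useq τ D (n + 1)) = x ^ (n + 1) - y ^ (n + 1) := by
  induction n with
  | zero =>
    refine ⟨by unfold useq; rw [map_zero]; ring, ?_⟩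
    unfold useq
    rw [map_one]
    ring
  | succ n ih =>
    refine ⟨ih.2, ?_⟩
    rw [useq, map_sub, map_mul, map_mul, h1, h2]
    linear_combination (x + y) * ih.2 - x * y * ih.1

/-- the invariants of the maps of finite order -/
lemma omega_mem {K : Type} [Field K] [NumberField K] {α β γ δ : K} (hdet : α * δ - β * γ ≠ 0)
    {k : ℕ} (hk : 0 < k) (h : ∀ v, dt ((lin α β γ δ)^[k] v) v = 0) :
    IsIntegral ℤ ((α + δ) ^ 2 / (α * δ - β * γ) - 2) ∧
      ∀ ψ : K →+* ℂ, ‖ψ ((α + δ) ^ 2 / (α * δ - β * γ) - 2)‖ ≤ 2 := by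
  set φ := algebraMap K (AlgebraicClosure K) with hφ
  -- the eigenvalues
  obtain ⟨x, hx⟩ : ∃ x : AlgebraicClosure K,
      x * x - φ (α + δ) * x + φ (α * δ - β * γ) = 0 := by
    have h1 : (Polynomial.C (1 : AlgebraicClosure K) * Polynomial.X ^ 2 +
        Polynomial.C (-φ (α + δ)) * Polynomial.X +
        Polynomial.C (φ (α * δ - β * γ))).degree ≠ 0 := by
      rw [Polynomial.degree_quadratic one_ne_zero]
      decide
    obtain ⟨x, hx⟩ := IsAlgClosed.exists_root _ h1
    refine ⟨x, ?_⟩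
    simp only [Polynomial.IsRoot.def, Polynomial.eval_add, Polynomial.eval_mul,
      Polynomial.eval_pow, Polynomial.eval_X, Polynomial.eval_C] at hx
    linear_combination hx
  obtain ⟨y, hy⟩ : ∃ y, y = φ (α + δ) - x := ⟨_, rfl⟩
  have e1 : φ (α + δ) = x + y := by rw [hy]; ring
  have e2 : φ (α * δ - β * γ) = x * y := by
    rw [hy]
    linear_combination hx
  have hφd : φ (α * δ - β * γ) ≠ 0 := (map_ne_zero φ).2 hdet
  have hx0 : x ≠ 0 := fun h0 => hφd (by rw [e2, h0, zero_mul])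
  have hy0 : y ≠ 0 := fun h0 => hφd (by rw [e2, h0, mul_zero])
  -- their quotient is a root of unity
  have hz : (x / y) ^ k = 1 := by
    by_cases hxy : x = y
    · rw [hxy, div_self hy0, one_pow]
    have hu : useq (α + δ) (α * δ - β * γ) k = 0 := by
      by_contra hcon
      have h2 : ∀ v, dt (lin α β γ δ v) v = 0 := by
        intro v
        have h3 := (useq_dt (α := α) (β := β) (γ := γ) (δ := δ) v k).1
        rw [h v] at h3
        exact (mul_eq_zero.1 h3.symm).resolve_left hcon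
      have q1 := h2 (1, 0)
      have q2 := h2 (0, 1)
      have q3 := h2 (1, 1)
      unfold dt lin at q1 q2 q3
      dsimp only at q1 q2 q3
      have g0 : γ = 0 := by linear_combination -q1
      have b0 : β = 0 := by linear_combination q2
      have ad : α = δ := by rw [g0, b0] at q3; linear_combination q3
      apply hxy
      have h3 : (x - y) ^ 2 = 0 := by
        have h4 : (x - y) ^ 2 = φ ((α + δ) ^ 2 - 4 * (α * δ - β * γ)) := by
          rw [map_sub, map_pow, map_mul, e1, e2, map_ofNat]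
          ring
        rw [h4, ad, g0, b0, map_eq_zero]
        ring
      exact sub_eq_zero.1 (pow_eq_zero_iff two_ne_zero |>.1 h3)
    have h4 := (useq_eig φ e1 e2 k).1
    rw [hu, map_zero, mul_zero] at h4
    rw [div_pow, sub_eq_zero.1 h4.symm, div_self (pow_ne_zero _ hy0)]
  set z := x / y with hzd
  have hz0 : z ≠ 0 := div_ne_zero hx0 hy0
  have e3 : φ ((α + δ) ^ 2 / (α * δ - β * γ) - 2) = z + z⁻¹ := by
    rw [map_sub, map_div₀, map_pow, e1, e2, map_ofNat, hzd]
    field_simp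
    ring
  have hzi : z⁻¹ ^ k = 1 := by rw [inv_pow, hz, inv_one]
  constructor
  · have i1 : IsIntegral ℤ z := IsIntegral.of_pow hk (by rw [hz]; exact isIntegral_one)
    have i2 : IsIntegral ℤ z⁻¹ := IsIntegral.of_pow hk (by rw [hzi]; exact isIntegral_one)
    have i3 := i1.add i2
    rw [← e3] at i3
    exact (isIntegral_algebraMap_iff (FaithfulSMul.algebraMap_injective K _)).1 i3
  · intro ψ
    letI := ψ.toAlgebra
    have hΨ : ∀ a : K, (IsAlgClosed.lift : AlgebraicClosure K →ₐ[K] ℂ) (φ a) = ψ a := fun a =>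
      (IsAlgClosed.lift : AlgebraicClosure K →ₐ[K] ℂ).commutes a
    rw [← hΨ, e3, map_add, map_inv₀]
    set Z : ℂ := (IsAlgClosed.lift : AlgebraicClosure K →ₐ[K] ℂ) z with hZ
    have h5 : Z ^ k = 1 := by rw [hZ, ← map_pow, hz, map_one]
    have h6 : ‖Z‖ = 1 := Complex.norm_eq_one_of_pow_eq_one h5 hk.ne'
    calc ‖Z + Z⁻¹‖ ≤ ‖Z‖ + ‖Z⁻¹‖ := norm_add_le _ _
      _ = 2 := by rw [norm_inv, h6]; norm_num

/-- finitely many invariants -/
lemma omega_fin (K : Type) [Field K] [NumberField K] : ∃ Ω : Finset K, ∀ α β γ δ : K,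
    α * δ - β * γ ≠ 0 → (∃ k, 0 < k ∧ ∀ v, dt ((lin α β γ δ)^[k] v) v = 0) →
    (α + δ) ^ 2 / (α * δ - β * γ) ∈ Ω := by
  classical
  have h1 := NumberField.Embeddings.finite_of_norm_le K ℂ (2 : ℝ)
  refine ⟨h1.toFinset.image fun x => x + 2, fun α β γ δ hdet ⟨k, hk, h⟩ => ?_⟩
  refine Finset.mem_image.2 ⟨(α + δ) ^ 2 / (α * δ - β * γ) - 2, ?_, sub_add_cancel _ _⟩
  rw [Set.Finite.mem_toFinset]
  exact omega_mem hdet hk h

/-- a nonzero number is a unit outside finitely many primes -/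
lemma unit_out (K : Type) [Field K] [NumberField K] (x : K) (hx : x ≠ 0) : ∃ N : ℕ, N ≠ 0 ∧
    ∀ v : HeightOneSpectrum (𝓞 K), (N : 𝓞 K) ∉ v.asIdeal → v.valuation K x = 1 := by
  obtain ⟨a, b, hb, rfl⟩ := IsFractionRing.div_surjective (A := 𝓞 K) x
  have hb0 : b ≠ 0 := nonZeroDivisors.ne_zero hb
  have ha0 : a ≠ 0 := by
    rintro rfl
    rw [map_zero, zero_div] at hx
    exact hx rfl
  have key : ∀ c : 𝓞 K, c ≠ 0 → ∃ N : ℕ, N ≠ 0 ∧
      ∀ v : HeightOneSpectrum (𝓞 K), (N : 𝓞 K) ∉ v.asIdeal → c ∉ v.asIdeal := by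
    intro c hc
    refine ⟨Ideal.absNorm (Ideal.span {c}), ?_, fun v hv hcv => hv ?_⟩
    · rw [Ne, Ideal.absNorm_eq_zero_iff, Ideal.span_singleton_eq_bot]
      exact hc
    · exact (Ideal.span_singleton_le_iff_mem _).2 hcv (Ideal.absNorm_mem _)
  obtain ⟨N, hN, h1⟩ := key a ha0
  obtain ⟨N', hN', h2⟩ := key b hb0
  refine ⟨N * N', Nat.mul_ne_zero hN hN', fun v hv => ?_⟩
  rw [Nat.cast_mul] at hv
  have h3 : ∀ c : 𝓞 K, c ∉ v.asIdeal → v.valuation K (algebraMap (𝓞 K) K c) = 1 := by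
    intro c hc
    exact le_antisymm (v.valuation_le_one _) (not_lt.1 fun h =>
      hc ((v.valuation_lt_one_iff_mem _).1 h))
  rw [map_div₀, h3 a (h1 v fun h => hv (v.asIdeal.mul_mem_right _ h)),
    h3 b (h2 v fun h => hv (v.asIdeal.mul_mem_left _ h)), div_one]

end Pool.Agent.PDR
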