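import Pool.Agent.PDR.Conv
import Pool.Agent.PDR.Omega2
import Pool.Agent.PDQ.Inst

set_option autoImplicit false

/-!
# PDR: examples of tame maps
-/

open NumberField IsDedekindDomain
open scoped WithZero

noncomputable section

namespace Pool.Agent.PDR

open WithZero

section Hom

variable {L : Type} [Field L]

/-- the form of degree `d` with coefficients `c` -/
def hg (d : ℕ) (c : ℕ → L) : MvPolynomial (Fin 2) L :=
  ∑ i ∈ Finset.range (d + 1), MvPolynomial.monomial (ex d i) (c i)

lemma hg_hom (d : ℕ) (c : ℕ → L) : (hg d c).IsHomogeneous d := by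
  unfold hg
  refine MvPolynomial.IsHomogeneous.sum _ _ _ fun i hi => ?_
  rw [Finset.mem_range] at hi
  refine MvPolynomial.isHomogeneous_monomial _ ?_
  rw [Finsupp.degree_eq_sum, Fin.sum_univ_two, ex_zero, ex_one]
  omega

lemma ex_inj {d i j : ℕ} (h : ex d i = ex d j) : i = j := by
  rw [← ex_zero d i, h, ex_zero]

lemma hg_cf {d : ℕ} {c : ℕ → L} {i : ℕ} (hi : i ≤ d) : cf (hg d c) d i = c i := by
  classical
  unfold cf hg
  rw [MvPolynomial.coeff_sum, Finset.sum_eq_single i]
  · rw [MvPolynomial.coeff_monomial, if_pos rfl]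
  · intro j _ hj
    rw [MvPolynomial.coeff_monomial, if_neg fun h => hj (ex_inj h)]
  · intro h
    exact absurd (Finset.mem_range.2 (by omega)) h

lemma hg_coeff_le {u : Valuation L ℤᵐ⁰} {d : ℕ} {c : ℕ → L} (hc : ∀ i, i ≤ d → u (c i) ≤ 1)
    (m : Fin 2 →₀ ℕ) : u ((hg d c).coeff m) ≤ 1 := by
  classical
  unfold hg
  rw [MvPolynomial.coeff_sum]
  refine Valuation.map_sum_le u fun i hi => ?_
  rw [Finset.mem_range] at hi
  rw [MvPolynomial.coeff_monomial]
  split_ifs
  · exact hc i (by omega)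
  · rw [map_zero]
    exact zero_le

lemma hf_congr {d : ℕ} {c c' : ℕ → L} (h : ∀ i, i ≤ d → c i = c' i) (a : L × L) :
    hf d c a = hf d c' a := by
  unfold hf
  refine Finset.sum_congr rfl fun i hi => ?_
  rw [Finset.mem_range] at hi
  rw [h i (by omega)]

lemma dx_congr {d : ℕ} {c c' : ℕ → L} (h : ∀ i, i ≤ d → c i = c' i) (a : L × L) :
    dx d c a = dx d c' a := by
  unfold dx
  refine Finset.sum_congr rfl fun i hi => ?_
  rw [Finset.mem_range] at hi
  rw [h i (by omega)]

lemma hg_eval (d : ℕ) (c : ℕ → L) (v : Fin 2 → L) :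
    MvPolynomial.eval v (hg d c) = hf d c (tp v) := by
  have h1 := eval_form (hg_hom d c) (tp v)
  rw [tp_eta] at h1
  rw [h1, hf_congr fun i hi => hg_cf hi]

lemma hg_pderiv (d : ℕ) (c : ℕ → L) (v : Fin 2 → L) :
    MvPolynomial.eval v (MvPolynomial.pderiv 0 (hg d c)) = dx d c (tp v) := by
  have h1 := pderiv_form (hg_hom d c) (tp v)
  rw [tp_eta] at h1
  rw [h1, dx_congr fun i hi => hg_cf hi]

end Hom

/-- tame maps given by sequences of coefficients, over the field itself -/
lemma tame_seq {K : Type} [Field K] {M d : ℕ} {w : Valuation K ℤᵐ⁰} {f g p q : ℕ → K}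
    {μ : Matrix (Fin 2) (Fin 2) K} {s e : K} (hμ : μ.det ≠ 0) (hs : s ≠ 0) (he : e ≠ 0)
    (hrel : ∀ v : Fin 2 → K, μ.mulVec ![hf d f (tp v), hf d g (tp v)] =
      s • ![hf d p (tp (μ.mulVec v)), e * hf d q (tp (μ.mulVec v))])
    (hp : ∀ i, i ≤ d → w (p i) ≤ 1) (hq : ∀ i, i ≤ d → w (q i) ≤ 1)
    (hn : ∀ a : K × K, nrm w a = 1 → max (w (hf d p a)) (w (hf d q a)) = 1)
    (he1 : w e ≤ 1)
    (hbad : w e < 1 → (M : ℤ) ∣ log (w e) ∧ w (p d) = 1 ∧
      ∀ a : K × K, nrm w a = 1 → w (hf d p a) < 1 → w (dx d p a) = 1) :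
    Tame M w d (hg d f) (hg d g) := by
  refine ⟨K, inferInstance, w, RingHom.id K, 1, μ, s, e, hg d p, hg d q, one_ne_zero,
    fun x => ?_, hμ, hs, he, hg_hom d p, hg_hom d q, fun v => ?_, hg_coeff_le hp, hg_coeff_le hq,
    fun a ha => ?_, he1, fun h => ?_⟩
  · rw [RingHom.id_apply, pow_one]
  · have h1 := hrel v
    have e1 : (fun i => (RingHom.id K) (val (hg d f) (hg d g) v i)) =
        ![hf d f (tp v), hf d g (tp v)] := by
      unfold val
      rw [hg_eval, hg_eval]
      rfl
    have e2 : (fun i => (RingHom.id K) (v i)) = v := rfl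
    rw [e1, e2, h1]
    unfold val
    rw [map_mul, MvPolynomial.eval_C, hg_eval, hg_eval]
  · unfold size val
    rw [hg_eval, hg_eval]
    exact hn (tp a) ha
  · obtain ⟨h1, h2, h3⟩ := hbad h
    refine ⟨by rw [Nat.cast_one, mul_one]; exact h1, ?_, fun v c hc1 hc2 => ?_⟩
    · rw [hg_eval]
      have h4 : hf d p (tp ![1, 0]) = p d := by
        unfold hf tp
        rw [Finset.sum_eq_single d]
        · simp
        · intro i hi hne
          rw [Finset.mem_range] at hi
          have : d - i ≠ 0 := by omega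
          simp [this]
        · intro h
          simp at h
      rw [h4]
      exact h2
    · rw [hg_eval] at hc2
      rw [hg_pderiv]
      exact h3 _ hc1 hc2

section Twist

open Polynomial

variable {K : Type} [Field K]

/-- the polynomial `P(X, 1)` -/
def dh (d : ℕ) (p : ℕ → K) : K[X] := ∑ i ∈ Finset.range (d + 1), C (p i) * X ^ i

lemma dh_eval (d : ℕ) (p : ℕ → K) {a : K × K} (ha : a.2 ≠ 0) :
    hf d p a = a.2 ^ d * (dh d p).eval (a.1 / a.2) := by
  unfold hf dh
  rw [eval_finsetSum, Finset.mul_sum]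
  refine Finset.sum_congr rfl fun i hi => ?_
  rw [Finset.mem_range] at hi
  obtain ⟨k, rfl⟩ := Nat.exists_eq_add_of_le (show i ≤ d by omega)
  rw [eval_mul, eval_C, eval_pow, eval_X, Nat.add_sub_cancel_left, div_pow, pow_add]
  field_simp

lemma dh_deriv (d : ℕ) (p : ℕ → K) {a : K × K} (ha : a.2 ≠ 0) :
    dx d p a * a.2 = a.2 ^ d * (derivative (dh d p)).eval (a.1 / a.2) := by
  unfold dx dh
  rw [derivative_sum, eval_finsetSum, Finset.mul_sum, Finset.sum_mul]
  refine Finset.sum_congr rfl fun i hi => ?_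
  rw [Finset.mem_range] at hi
  obtain ⟨k, rfl⟩ := Nat.exists_eq_add_of_le (show i ≤ d by omega)
  rw [Nat.add_sub_cancel_left]
  rcases i with _ | i
  · simp
  · rw [derivative_mul, derivative_C, zero_mul, zero_add, derivative_X_pow, eval_mul, eval_C,
      eval_mul, eval_C, eval_pow, eval_X, Nat.add_sub_cancel, div_pow]
    have h1 : a.2 ^ (i + 1 + k) = a.2 ^ i * a.2 ^ k * a.2 := by ring
    rw [h1]
    field_simp

/-- all elements of a finite set are integral outside finitely many primes -/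
lemma int_out (K : Type) [Field K] [NumberField K] (S : Finset K) : ∃ N : ℕ, N ≠ 0 ∧
    ∀ v : HeightOneSpectrum (𝓞 K), (N : 𝓞 K) ∉ v.asIdeal → ∀ x ∈ S, v.valuation K x ≤ 1 := by
  classical
  induction S using Finset.induction_on with
  | empty => exact ⟨1, one_ne_zero, fun v _ x hx => absurd hx (Finset.notMem_empty x)⟩
  | insert a S _ ih =>
    obtain ⟨N, hN, h1⟩ := ih
    obtain ⟨N', hN', h2⟩ : ∃ N : ℕ, N ≠ 0 ∧
        ∀ v : HeightOneSpectrum (𝓞 K), (N : 𝓞 K) ∉ v.asIdeal → v.valuation K a ≤ 1 := by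
      by_cases ha : a = 0
      · exact ⟨1, one_ne_zero, fun v _ => by rw [ha, map_zero]; exact zero_le⟩
      · obtain ⟨N, hN, h3⟩ := unit_out K a ha
        exact ⟨N, hN, fun v hv => (h3 v hv).le⟩
    refine ⟨N * N', Nat.mul_ne_zero hN hN', fun v hv x hx => ?_⟩
    rw [Nat.cast_mul] at hv
    rcases Finset.mem_insert.1 hx with rfl | hx
    · exact h2 v fun h => hv (v.asIdeal.mul_mem_left _ h)
    · exact h1 v (fun h => hv (v.asIdeal.mul_mem_right _ h)) x hx

lemma eval_le {w : Valuation K ℤᵐ⁰} {f : K[X]} (hf : ∀ x ∈ f.coeffs, w x ≤ 1) {z : K}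
    (hz : w z ≤ 1) : w (f.eval z) ≤ 1 := by
  rw [eval_eq_sum_range]
  refine Valuation.map_sum_le w fun i _ => ?_
  rw [map_mul, map_pow]
  refine mul_le_one' ?_ (pow_le_one' hz _)
  by_cases h : f.coeff i = 0
  · rw [h, map_zero]; exact zero_le
  · exact hf _ (coeff_mem_coeffs h)

/-- the conditions on a pair of sequences at a place -/
structure Pl (w : Valuation K ℤᵐ⁰) (d : ℕ) (p q : ℕ → K) : Prop where
  hp : ∀ i, i ≤ d → w (p i) ≤ 1
  hq : ∀ i, i ≤ d → w (q i) ≤ 1
  top : w (p d) = 1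
  res : ∀ z : K, w z ≤ 1 → 1 ≤ max (w ((dh d p).eval z)) (w ((dh d q).eval z))
  sep : ∀ z : K, w z ≤ 1 → w ((dh d p).eval z) < 1 →
    w ((derivative (dh d p)).eval z) = 1

/-- coprimality gives integral identities outside finitely many primes -/
lemma pl_out (K : Type) [Field K] [NumberField K] (d : ℕ) (p q : ℕ → K) (hpd : p d ≠ 0)
    (h1 : IsCoprime (dh d p) (dh d q)) (h2 : (dh d p).Separable) : ∃ N : ℕ, N ≠ 0 ∧
    ∀ v : HeightOneSpectrum (𝓞 K), (N : 𝓞 K) ∉ v.asIdeal → Pl (v.valuation K) d p q := by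
  classical
  obtain ⟨a, b, hab⟩ := h1
  obtain ⟨a', b', hab'⟩ := h2
  obtain ⟨N₁, hN₁, hu⟩ := unit_out K (p d) hpd
  obtain ⟨N₂, hN₂, hi⟩ := int_out K (a.coeffs ∪ b.coeffs ∪ a'.coeffs ∪ b'.coeffs ∪
    (derivative (dh d p)).coeffs ∪ (Finset.range (d + 1)).image p ∪
    (Finset.range (d + 1)).image q)
  refine ⟨N₁ * N₂, Nat.mul_ne_zero hN₁ hN₂, fun v hv => ?_⟩
  rw [Nat.cast_mul] at hv
  have hu' := hu v fun h => hv (v.asIdeal.mul_mem_right _ h)
  have hi' := hi v fun h => hv (v.asIdeal.mul_mem_left _ h)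
  simp only [Finset.mem_union] at hi'
  have ha : ∀ x ∈ a.coeffs, v.valuation K x ≤ 1 := fun x hx => hi' x (by tauto)
  have hb : ∀ x ∈ b.coeffs, v.valuation K x ≤ 1 := fun x hx => hi' x (by tauto)
  have ha' : ∀ x ∈ a'.coeffs, v.valuation K x ≤ 1 := fun x hx => hi' x (by tauto)
  have hb' : ∀ x ∈ b'.coeffs, v.valuation K x ≤ 1 := fun x hx => hi' x (by tauto)
  have hd' : ∀ x ∈ (derivative (dh d p)).coeffs, v.valuation K x ≤ 1 := fun x hx =>
    hi' x (by tauto)
  have hp : ∀ i, i ≤ d → v.valuation K (p i) ≤ 1 := fun i hid => hi' _ (by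
    have : p i ∈ (Finset.range (d + 1)).image p :=
      Finset.mem_image_of_mem _ (Finset.mem_range.2 (by omega))
    tauto)
  have hq : ∀ i, i ≤ d → v.valuation K (q i) ≤ 1 := fun i hid => hi' _ (by
    have : q i ∈ (Finset.range (d + 1)).image q :=
      Finset.mem_image_of_mem _ (Finset.mem_range.2 (by omega))
    tauto)
  refine ⟨hp, hq, hu', fun z hz => ?_, fun z hz hlt => ?_⟩
  · by_contra hcon
    push Not at hcon
    obtain ⟨c1, c2⟩ := max_lt_iff.1 hcon
    have e1 := congrArg (fun f => v.valuation K (f.eval z)) hab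
    simp only [eval_add, eval_mul, eval_one, map_one] at e1
    have e2 : v.valuation K (a.eval z * (dh d p).eval z + b.eval z * (dh d q).eval z) < 1 := by
      refine (Valuation.map_add _ _ _).trans_lt (max_lt ?_ ?_)
      · rw [map_mul]
        exact (mul_le_of_le_one_left' (eval_le ha hz)).trans_lt c1
      · rw [map_mul]
        exact (mul_le_of_le_one_left' (eval_le hb hz)).trans_lt c2
    rw [e1] at e2
    exact lt_irrefl _ e2
  · refine le_antisymm (eval_le hd' hz) ?_
    by_contra hcon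
    push Not at hcon
    have e1 := congrArg (fun f => v.valuation K (f.eval z)) hab'
    simp only [eval_add, eval_mul, eval_one, map_one] at e1
    have e2 : v.valuation K (a'.eval z * (dh d p).eval z +
        b'.eval z * (derivative (dh d p)).eval z) < 1 := by
      refine (Valuation.map_add _ _ _).trans_lt (max_lt ?_ ?_)
      · rw [map_mul]
        exact (mul_le_of_le_one_left' (eval_le ha' hz)).trans_lt hlt
      · rw [map_mul]
        exact (mul_le_of_le_one_left' (eval_le hb' hz)).trans_lt hcon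
    rw [e1] at e2
    exact lt_irrefl _ e2

variable {w : Valuation K ℤᵐ⁰} {d : ℕ} {p q : ℕ → K}

/-- a form in a vector with small second component -/
lemma hf_top (hp : ∀ i, i ≤ d → w (p i) ≤ 1) (htop : w (p d) = 1) {a : K × K} (h1 : w a.1 = 1)
    (h2 : w a.2 < 1) : w (hf d p a) = 1 := by
  unfold hf
  rw [Finset.sum_range_succ]
  have e1 : w (p d * (a.1 ^ d * a.2 ^ (d - d))) = 1 := by
    rw [map_mul, htop, one_mul, Nat.sub_self, pow_zero, mul_one, map_pow, h1, one_pow]
  rw [Valuation.map_add_eq_of_lt_right, e1]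
  rw [e1]
  refine Valuation.map_sum_lt w one_ne_zero fun i hi => ?_
  rw [Finset.mem_range] at hi
  rw [map_mul, map_mul, map_pow, map_pow, h1, one_pow, one_mul]
  exact (mul_le_of_le_one_left' (hp i (by omega))).trans_lt (pow_lt_one₀ zero_le h2 (by omega))

lemma hf_le' (hp : ∀ i, i ≤ d → w (p i) ≤ 1) {a : K × K} (ha : nrm w a = 1) :
    w (hf d p a) ≤ 1 := by
  have h1 : w a.1 ≤ 1 := (le_max_left _ _).trans ha.le
  have h2 : w a.2 ≤ 1 := (le_max_right _ _).trans ha.le
  unfold hf
  refine Valuation.map_sum_le w fun i hi => ?_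
  rw [Finset.mem_range] at hi
  rw [map_mul, map_mul, map_pow, map_pow]
  exact mul_le_one' (hp i (by omega)) (mul_le_one' (pow_le_one' h1 _) (pow_le_one' h2 _))

lemma Pl.norm (h : Pl w d p q) {a : K × K} (ha : nrm w a = 1) :
    max (w (hf d p a)) (w (hf d q a)) = 1 := by
  refine le_antisymm (max_le (hf_le' h.hp ha) (hf_le' h.hq ha)) ?_
  have h2 : w a.2 ≤ 1 := (le_max_right _ _).trans ha.le
  rcases h2.lt_or_eq with h2 | h2
  · have h1 : w a.1 = 1 := by
      have h3 := ha
      unfold nrm at h3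
      rcases max_choice (w a.1) (w a.2) with h4 | h4
      · rw [h4] at h3; exact h3
      · rw [h4] at h3; exact absurd h3 h2.ne
    rw [hf_top h.hp h.top h1 h2]
    exact le_max_left _ _
  · have h0 : a.2 ≠ 0 := fun h0 => by
      rw [h0, map_zero] at h2
      exact zero_ne_one h2
    rw [dh_eval d p h0, dh_eval d q h0, map_mul, map_mul, map_pow, h2, one_pow, one_mul, one_mul]
    refine h.res _ ?_
    rw [map_div₀, h2, div_one]
    exact (le_max_left _ _).trans ha.le

lemma Pl.simple (h : Pl w d p q) {a : K × K} (ha : nrm w a = 1) (hlt : w (hf d p a) < 1) :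
    w (dx d p a) = 1 := by
  have h2 : w a.2 ≤ 1 := (le_max_right _ _).trans ha.le
  rcases h2.lt_or_eq with h2 | h2
  · have h1 : w a.1 = 1 := by
      have h3 := ha
      unfold nrm at h3
      rcases max_choice (w a.1) (w a.2) with h4 | h4
      · rw [h4] at h3; exact h3
      · rw [h4] at h3; exact absurd h3 h2.ne
    rw [hf_top h.hp h.top h1 h2] at hlt
    exact absurd hlt (lt_irrefl _)
  · have h0 : a.2 ≠ 0 := fun h0 => by
      rw [h0, map_zero] at h2
      exact zero_ne_one h2
    have h3 := congrArg w (dh_deriv d p h0)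
    rw [map_mul, map_mul, map_pow, h2, one_pow, one_mul, mul_one] at h3
    rw [h3]
    rw [dh_eval d p h0, map_mul, map_pow, h2, one_pow, one_mul] at hlt
    refine h.sep _ ?_ hlt
    rw [map_div₀, h2, div_one]
    exact (le_max_left _ _).trans ha.le

/-- the map `t^M P / Q` is tame for all nonzero `t`, outside finitely many primes which do not
depend on `t`, if `P / Q` is a rational function of degree `d` with simple zeros and simple poles
for which infinity is not a zero and zero is not a pole -/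
theorem tame_twist (K : Type) [Field K] [NumberField K] (M d : ℕ) (p q : ℕ → K)
    (hp : p d ≠ 0) (hq : q 0 ≠ 0) (h1 : IsCoprime (dh d p) (dh d q))
    (h1' : IsCoprime (dh d fun i => q (d - i)) (dh d fun i => p (d - i)))
    (h2 : (dh d p).Separable) (h3 : (dh d fun i => q (d - i)).Separable) :
    ∃ N : ℕ, N ≠ 0 ∧ ∀ t : K, t ≠ 0 → ∀ v : HeightOneSpectrum (𝓞 K), (N : 𝓞 K) ∉ v.asIdeal →
      Tame M (v.valuation K) d (hg d fun i => t ^ M * p i) (hg d q) := by
  obtain ⟨N₁, hN₁, k1⟩ := pl_out K d p q hp h1 h2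
  obtain ⟨N₂, hN₂, k2⟩ := pl_out K d (fun i => q (d - i)) (fun i => p (d - i)) (by
    rw [Nat.sub_self]; exact hq) h1' h3
  refine ⟨N₁ * N₂, Nat.mul_ne_zero hN₁ hN₂, fun t ht v hv => ?_⟩
  rw [Nat.cast_mul] at hv
  have g1 := k1 v fun h => hv (v.asIdeal.mul_mem_right _ h)
  have g2 := k2 v fun h => hv (v.asIdeal.mul_mem_left _ h)
  have htM : t ^ M ≠ 0 := pow_ne_zero _ ht
  have hc : ∀ v : Fin 2 → K, hf d (fun i => t ^ M * p i) (tp v) = t ^ M * hf d p (tp v) :=
    fun v => hf_const_mul d p (t ^ M) (tp v)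
  rcases le_total (v.valuation K t) 1 with hle | hle
  · refine tame_seq (μ := !![0, 1; 1, 0]) (s := 1) (e := t ^ M) (p := fun i => q (d - i))
      (q := fun i => p (d - i)) (by rw [Matrix.det_fin_two]; simp) one_ne_zero htM (fun v => ?_)
      g2.hp g2.hq (fun a ha => g2.norm ha) ?_ fun h => ⟨?_, g2.top, fun a ha hlt =>
        g2.simple ha hlt⟩
    · have hsw : ∀ r : ℕ → K, hf d (fun i => r (d - i)) (tp ((!![0, 1; 1, 0] :
          Matrix (Fin 2) (Fin 2) K).mulVec v)) = hf d r (tp v) := by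
        intro r
        have e1 : tp ((!![0, 1; 1, 0] : Matrix (Fin 2) (Fin 2) K).mulVec v) = (v 1, v 0) := by
          unfold tp
          simp [Matrix.mulVec, dotProduct, Fin.sum_univ_two]
        rw [e1]
        unfold hf tp
        rw [← Finset.sum_range_reflect]
        refine Finset.sum_congr rfl fun i hi => ?_
        rw [Finset.mem_range] at hi
        have e2 : d - (d - i) = i := by omega
        rw [show d + 1 - 1 - i = d - i by omega]
        dsimp only
        rw [e2]
        ring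
      rw [hsw, hsw, one_smul, hc]
      funext i
      fin_cases i <;> simp [Matrix.mulVec, dotProduct, Fin.sum_univ_two]
    · rw [map_pow]
      exact pow_le_one' hle _
    · rw [map_pow, log_pow, nsmul_eq_mul]
      exact dvd_mul_right _ _
  · refine tame_seq (μ := 1) (s := t ^ M) (e := (t ^ M)⁻¹) (p := p) (q := q)
      (by rw [Matrix.det_one]; exact one_ne_zero) htM (inv_ne_zero htM) (fun v => ?_)
      g1.hp g1.hq (fun a ha => g1.norm ha) ?_ fun h => ⟨?_, g1.top, fun a ha hlt =>
        g1.simple ha hlt⟩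
    · rw [Matrix.one_mulVec, Matrix.one_mulVec, hc]
      funext i
      fin_cases i
      · simp
      · simp [htM]
    · rw [map_inv₀, map_pow]
      exact inv_le_one_of_one_le₀ (one_le_pow₀ hle)
    · rw [map_inv₀, map_pow, log_inv, log_pow, nsmul_eq_mul, dvd_neg]
      exact dvd_mul_right _ _

end Twist

end Pool.Agent.PDR
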