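import Pool.Agent.PDR.Inst

set_option autoImplicit false

/-!
# PDR: polynomials
-/

open Polynomial NumberField IsDedekindDomain
open scoped WithZero

noncomputable section

namespace Pool.Agent.PDR

open WithZero
open Pool.Agent.PDP (IG Pre fg lip pre_eq)

/-- the coefficients of the form `Y ^ d` -/
def yc {K : Type} [Field K] (i : ℕ) : K := if i = 0 then 1 else 0

lemma hf_yc {K : Type} [Field K] (d : ℕ) (a : K × K) : hf d yc a = a.2 ^ d := by
  unfold hf yc
  rw [Finset.sum_eq_single 0]
  · rw [if_pos rfl, pow_zero, one_mul, one_mul, Nat.sub_zero]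
  · intro i _ hi
    rw [if_neg hi, zero_mul]
  · intro h
    exact absurd (Finset.mem_range.2 (Nat.succ_pos d)) h

lemma dh_coeff {K : Type} [Field K] {f : K[X]} {d : ℕ} (hf : f.natDegree ≤ d) :
    dh d f.coeff = f := by
  unfold dh
  exact (as_sum_range_C_mul_X_pow' f (by omega)).symm

lemma hf_map {K L : Type} [Field K] [Field L] (φ : K →+* L) (d : ℕ) (c : ℕ → K) (a : K × K) :
    φ (hf d c a) = hf d (fun i => φ (c i)) (em φ a) := by
  unfold hf em
  rw [map_sum]
  refine Finset.sum_congr rfl fun i _ => ?_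
  rw [map_mul, map_mul, map_pow, map_pow]

lemma hf_coeff0 {K : Type} [Field K] {f : K[X]} {d : ℕ} (hd : f.natDegree = d) {a : K × K}
    (h : a.2 = 0) : hf d f.coeff a = f.leadingCoeff * a.1 ^ d := by
  unfold hf
  rw [Finset.sum_eq_single d]
  · rw [Nat.sub_self, pow_zero, mul_one, leadingCoeff, hd]
  · intro i hi hne
    rw [Finset.mem_range] at hi
    rw [h, zero_pow (by omega), mul_zero, mul_zero]
  · intro h
    exact absurd (Finset.mem_range.2 (Nat.lt_succ_self d)) h

lemma hf_coeff1 {K : Type} [Field K] {f : K[X]} {d : ℕ} (hd : f.natDegree = d) {a : K × K}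
    (h : a.2 ≠ 0) : hf d f.coeff a = a.2 ^ d * f.eval (a.1 / a.2) := by
  rw [dh_eval d _ h, dh_coeff hd.le]

/-- a polynomial which is `F(X) / e` in a coordinate `X = t x + b` over an extension is tame -/
lemma poly_tame {K : Type} [Field K] {M d : ℕ} {w : Valuation K ℤᵐ⁰} {f : K[X]} (hd : 1 ≤ d)
    (hfd : f.natDegree = d) {L : Type} [Field L] {u : Valuation L ℤᵐ⁰} {φ : K →+* L} {ε : ℕ}
    {t b e : L} {F : L[X]} (hε : ε ≠ 0) (hu : ∀ x, u (φ x) = w x ^ ε) (ht : t ≠ 0) (he : e ≠ 0)
    (hrel : F.comp (C t * X + C b) = C e * (C t * f.map φ + C b))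
    (hF : ∀ i, u (F.coeff i) ≤ 1) (hlead : u F.leadingCoeff = 1) (he1 : u e ≤ 1)
    (hbad : u e < 1 → (M : ℤ) * ε ∣ log (u e) ∧
      ∀ x : K, u (t * φ x + b) ≤ 1 → u (F.eval (t * φ x + b)) < 1 →
        u (F.derivative.eval (t * φ x + b)) = 1) :
    Tame M w d (hg d f.coeff) (hg d yc) := by
  have hlin1 : (C t * X + C b : L[X]).natDegree = 1 := natDegree_linear ht
  have hlinl : (C t * X + C b : L[X]).leadingCoeff = t := leadingCoeff_linear ht
  have hmapd : (f.map φ).natDegree = d := by rw [natDegree_map, hfd]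
  have hrd : (C t * f.map φ + C b).natDegree = d := by
    rw [natDegree_add_C, natDegree_C_mul ht, hmapd]
  have hFd : F.natDegree = d := by
    have h1 := congrArg natDegree hrel
    rwa [natDegree_comp, hlin1, mul_one, natDegree_C_mul he, hrd] at h1
  have hFl : F.leadingCoeff * t ^ d = e * (t * φ f.leadingCoeff) := by
    have h1 := congrArg leadingCoeff hrel
    rw [leadingCoeff_comp (by rw [hlin1]; exact one_ne_zero), hlinl, hFd, leadingCoeff_mul,
      leadingCoeff_C] at h1
    rw [h1]
    congr 1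
    rw [leadingCoeff, hrd, coeff_add, coeff_C_mul, coeff_C_of_ne_zero (by omega), add_zero,
      coeff_map, leadingCoeff, hfd]
  have hFe : ∀ z : L, F.eval (t * z + b) = e * (t * (f.map φ).eval z + b) := by
    intro z
    have h1 := congrArg (eval z) hrel
    simp only [eval_comp, eval_add, eval_mul, eval_C, eval_X] at h1
    exact h1
  have hcF : ∀ i, i ≤ d → u (F.coeff i) ≤ 1 := fun i _ => hF i
  have htop : u (F.coeff d) = 1 := by rwa [leadingCoeff, hFd] at hlead
  have hcy : ∀ i, i ≤ d → u (yc i : L) ≤ 1 := by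
    intro i _
    unfold yc
    split_ifs
    · rw [map_one]
    · rw [map_zero]; exact zero_le
  have hsmall : ∀ a : L × L, nrm u a = 1 → u (hf d F.coeff a) < 1 → u a.2 = 1 := by
    intro a ha hlt
    have h2 : u a.2 ≤ 1 := (le_max_right _ _).trans ha.le
    rcases h2.lt_or_eq with h2 | h2
    · have h1 : u a.1 = 1 := by
        have h3 := ha
        unfold nrm at h3
        rcases max_choice (u a.1) (u a.2) with h4 | h4
        · rw [h4] at h3; exact h3
        · rw [h4] at h3; exact absurd h3 h2.ne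
      rw [hf_top hcF htop h1 h2] at hlt
      exact absurd hlt (lt_irrefl _)
    · exact h2
  have htp : ∀ v : Fin 2 → K, tp ((!![t, b; 0, 1] : Matrix (Fin 2) (Fin 2) L).mulVec
      fun i => φ (v i)) = (t * φ (v 0) + b * φ (v 1), φ (v 1)) := by
    intro v
    unfold tp
    simp [Matrix.mulVec, dotProduct, Fin.sum_univ_two]
  refine ⟨L, inferInstance, u, φ, ε, !![t, b; 0, 1], e⁻¹, e, hg d F.coeff, hg d yc, hε, hu, ?_,
    inv_ne_zero he, he, hg_hom _ _, hg_hom _ _, fun v => ?_, hg_coeff_le hcF, hg_coeff_le hcy,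
    fun a ha => ?_, he1, fun h => ?_⟩
  · rw [Matrix.det_fin_two]
    simpa using ht
  · have e1 : (fun i => φ (val (hg d f.coeff) (hg d yc) v i)) =
        ![φ (hf d f.coeff (tp v)), φ (v 1) ^ d] := by
      unfold val
      rw [hg_eval, hg_eval, hf_yc]
      funext i
      fin_cases i
      · rfl
      · simp [tp]
    have e2 : e * (t * φ (hf d f.coeff (tp v)) + b * φ (v 1) ^ d) =
        hf d F.coeff (t * φ (v 0) + b * φ (v 1), φ (v 1)) := by
      by_cases h0 : v 1 = 0
      · rw [h0, map_zero, mul_zero, add_zero, hf_coeff0 hFd rfl, hf_coeff0 hfd (a := tp v) h0,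
          zero_pow (by omega), mul_zero, add_zero, map_mul, map_pow, mul_pow]
        change e * (t * (φ f.leadingCoeff * φ (v 0) ^ d)) = _
        linear_combination -(φ (v 0) ^ d) * hFl
      · have h1 : φ (v 1) ≠ 0 := (map_ne_zero φ).2 h0
        rw [hf_coeff1 hFd h1, hf_coeff1 hfd (a := tp v) h0]
        dsimp only
        have e3 : (t * φ (v 0) + b * φ (v 1)) / φ (v 1) = t * (φ (v 0) / φ (v 1)) + b := by
          field_simp
        rw [e3, hFe, map_mul, map_pow]
        have e4 : (f.map φ).eval (φ (v 0) / φ (v 1)) = φ (f.eval (v 0 / v 1)) := by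
          rw [← map_div₀, eval_map, eval₂_at_apply]
        rw [e4]
        change e * (t * (φ (v 1) ^ d * φ (f.eval (v 0 / v 1))) + b * φ (v 1) ^ d) = _
        ring
    rw [e1]
    unfold val
    rw [map_mul, MvPolynomial.eval_C, hg_eval, hg_eval, htp, hf_yc, ← e2]
    funext i
    fin_cases i
    · simp [Matrix.mulVec, dotProduct, Fin.sum_univ_two, he]
    · simp [Matrix.mulVec, dotProduct, Fin.sum_univ_two, he]
  · have ha' : nrm u (tp a) = 1 := ha
    unfold size val
    rw [hg_eval, hg_eval, hf_yc]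
    change max (u (hf d F.coeff (tp a))) (u ((tp a).2 ^ d)) = 1
    refine le_antisymm (max_le (hf_le' hcF ha') ?_) ?_
    · rw [map_pow]
      exact pow_le_one' ((le_max_right _ _).trans ha'.le) _
    · by_contra hcon
      push Not at hcon
      obtain ⟨c1, c2⟩ := max_lt_iff.1 hcon
      rw [map_pow, hsmall _ ha' c1, one_pow] at c2
      exact lt_irrefl _ c2
  · obtain ⟨h1, h2⟩ := hbad h
    refine ⟨h1, ?_, fun v c hc1 hc2 => ?_⟩
    · rw [hg_eval]
      have h4 : hf d F.coeff (tp ![1, 0]) = F.coeff d := by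
        rw [hf_coeff0 hFd (a := tp ![(1 : L), 0]) rfl, leadingCoeff, hFd]
        change F.coeff d * 1 ^ d = _
        rw [one_pow, mul_one]
      rw [h4]
      exact htop
    · rw [hg_eval] at hc2
      rw [hg_pderiv]
      have hc1' : nrm u (tp (c • (!![t, b; 0, 1] : Matrix (Fin 2) (Fin 2) L).mulVec
        fun i => φ (v i))) = 1 := hc1
      have h3 := hsmall _ hc1' hc2
      set a := tp (c • (!![t, b; 0, 1] : Matrix (Fin 2) (Fin 2) L).mulVec
        fun i => φ (v i)) with ha
      have h0 : a.2 ≠ 0 := fun h0 => by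
        rw [h0, map_zero] at h3
        exact zero_ne_one h3
      have e1 : a = (c * (t * φ (v 0) + b * φ (v 1)), c * φ (v 1)) := by
        rw [ha, tp_smul, htp]
        rfl
      have hc0 : c ≠ 0 := by
        rintro rfl
        apply h0
        rw [e1]
        exact zero_mul _
      have hv0 : φ (v 1) ≠ 0 := by
        intro h5
        apply h0
        rw [e1]
        change c * φ (v 1) = 0
        rw [h5, mul_zero]
      have e2 : a.1 / a.2 = t * φ (v 0 / v 1) + b := by
        rw [e1, map_div₀]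
        field_simp
      have h4 : u (a.1 / a.2) ≤ 1 := by
        rw [map_div₀, h3, div_one]
        exact (le_max_left _ _).trans hc1'.le
      rw [hf_coeff1 hFd h0, map_mul, map_pow, h3, one_pow, one_mul, e2] at hc2
      have h5 := congrArg u (dh_deriv d F.coeff h0)
      rw [map_mul, map_mul, map_pow, h3, one_pow, one_mul, mul_one, dh_coeff hFd.le, e2] at h5
      rw [h5]
      rw [e2] at h4
      exact h2 _ h4 hc2

/-- good reduction is tame -/
lemma tame_good {K : Type} [Field K] {w : Valuation K ℤᵐ⁰} {f : K[X]} (M : ℕ)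
    (hd : 1 ≤ f.natDegree)
    (h1 : ∀ i, w (f.coeff i) ≤ 1) (h2 : w f.leadingCoeff = 1) :
    Tame M w f.natDegree (hg f.natDegree f.coeff) (hg f.natDegree yc) := by
  refine poly_tame (L := K) (u := w) (φ := RingHom.id K) (ε := 1) (t := 1) (b := 0) (e := 1)
    (F := f) hd rfl one_ne_zero (fun x => ?_)
    one_ne_zero one_ne_zero ?_ h1 h2 ?_ (fun h => ?_)
  · rw [RingHom.id_apply, pow_one]
  · rw [C_1, C_0, one_mul, add_zero, comp_X, map_id, one_mul, one_mul, add_zero]
  · rw [map_one]
  · rw [map_one] at h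
    exact absurd h (lt_irrefl _)

/-- `F / D ^ M` is tame if all zeros of the reduction of `F` are simple at the places dividing
`D` -/
lemma tame_frac {K : Type} [Field K] {w : Valuation K ℤᵐ⁰} {F : K[X]} {D : K} (M : ℕ)
    (hd : 1 ≤ F.natDegree)
    (h1 : ∀ i, w (F.coeff i) ≤ 1) (h2 : w F.leadingCoeff = 1) (hD : D ≠ 0) (hD1 : w D ≤ 1)
    (h3 : w D < 1 → ∀ x, w x ≤ 1 → w (F.eval x) < 1 → w (F.derivative.eval x) = 1) :
    Tame M w F.natDegree (hg F.natDegree (C (D ^ M)⁻¹ * F).coeff) (hg F.natDegree yc) := by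
  have hDM : D ^ M ≠ 0 := pow_ne_zero _ hD
  refine poly_tame (L := K) (u := w) (φ := RingHom.id K) (ε := 1) (t := 1) (b := 0)
    (e := D ^ M) (F := F) hd (natDegree_C_mul (inv_ne_zero hDM)) one_ne_zero (fun x => ?_)
    one_ne_zero hDM ?_ h1 h2 ?_ (fun h => ⟨?_, fun x => ?_⟩)
  · rw [RingHom.id_apply, pow_one]
  · rw [C_1, C_0, one_mul, add_zero, comp_X, map_id, one_mul, add_zero, ← mul_assoc, ← C_mul,
      mul_inv_cancel₀ hDM, C_1, one_mul]
  · rw [map_pow]
    exact pow_le_one' hD1 _
  · rw [map_pow, log_pow, nsmul_eq_mul, Nat.cast_one, mul_one]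
    exact dvd_mul_right _ _
  · rw [RingHom.id_apply, one_mul, add_zero]
    refine h3 ?_ x
    refine hD1.lt_of_ne fun h4 => ?_
    rw [map_pow, h4, one_pow] at h
    exact absurd h (lt_irrefl _)

/-- `g(x) + c` is tame outside the degree of `g` and the places where `g` is not integral or its
leading coefficient is not a unit -/
lemma tame_const {K : Type} [Field K] {w : Valuation K ℤᵐ⁰} {g : K[X]} {c x₀ : K} (ν : ℕ)
    (hd : 2 ≤ g.natDegree) (hwd : w ((g.natDegree : ℕ) : K) = 1)
    (h1 : ∀ i, w (g.coeff i) ≤ 1) (h2 : w g.leadingCoeff = 1)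
    (h3 : ∀ k : ℤ, 0 < k → log (w c) = g.natDegree * k → (ν : ℤ) ∣ k)
    (h0 : Pre g c x₀) : Tame (ν * (g.natDegree - 1)) w g.natDegree (hg g.natDegree (g + C c).coeff)
      (hg g.natDegree yc) := by
  have hg : IG w g := ⟨h1, h2⟩
  have hdeg : (g + C c).natDegree = g.natDegree := natDegree_add_C
  have hlead : (g + C c).leadingCoeff = g.leadingCoeff := by
    rw [leadingCoeff, hdeg, coeff_add, coeff_C_of_ne_zero (by omega), add_zero, leadingCoeff]
  rcases le_or_gt (w c) 1 with hc | hc
  · have h5 := tame_good (w := w) (f := g + C c) (ν * (g.natDegree - 1)) (by rw [hdeg]; omega)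
      (fun i => ?_) (by rw [hlead]; exact h2)
    · rwa [hdeg] at h5
    rw [coeff_add]
    refine (Valuation.map_add w _ _).trans (max_le (h1 i) ?_)
    rw [coeff_C]
    split_ifs
    · exact hc
    · rw [map_zero]; exact zero_le
  · -- the absolute value of the point
    have hV := pre_eq hg hd hc h0
    have hV1 : 1 < w x₀ := by
      by_contra hle
      push Not at hle
      have h2 : w x₀ ^ g.natDegree ≤ 1 := pow_le_one' hle _
      rw [hV] at h2
      exact absurd hc (not_lt.2 h2)
    have hV0 : w x₀ ≠ 0 := (zero_lt_one.trans hV1).ne'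
    have hx0 : x₀ ≠ 0 := (Valuation.ne_zero_iff w).1 hV0
    have hk : 0 < log (w x₀) := by
      have h2 : log (1 : ℤᵐ⁰) < log (w x₀) := (log_lt_log one_ne_zero hV0).2 hV1
      rwa [log_one] at h2
    have hν : (ν : ℤ) ∣ log (w x₀) := by
      refine h3 _ hk ?_
      rw [← hV, log_pow, nsmul_eq_mul]
    set d := g.natDegree with hdd
    set t : K := x₀⁻¹ with ht
    have ht0 : t ≠ 0 := inv_ne_zero hx0
    have hwt : w t = (w x₀)⁻¹ := map_inv₀ w x₀
    have hwt1 : w t < 1 := by
      rw [hwt]
      exact inv_lt_one_of_one_lt₀ hV1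
    -- the polynomial in the new coordinate
    set F : K[X] := C (t ^ d) * (g + C c).comp (C x₀ * X) with hF
    have hFc : ∀ i, i ≤ d → F.coeff i = t ^ (d - i) * (g + C c).coeff i := by
      intro i hi
      rw [hF, coeff_C_mul, comp_C_mul_X_coeff]
      have e : t ^ d = t ^ (d - i) * t ^ i := by rw [← pow_add, Nat.sub_add_cancel hi]
      rw [e, ht]
      have e2 : x₀⁻¹ ^ i * x₀ ^ i = 1 := by rw [← mul_pow, inv_mul_cancel₀ hx0, one_pow]
      linear_combination (x₀⁻¹ ^ (d - i) * (g + C c).coeff i) * e2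
    have hFd : F.natDegree = d := by
      rw [hF, natDegree_C_mul (pow_ne_zero _ ht0), natDegree_comp, natDegree_C_mul_X _ hx0,
        mul_one, hdeg]
    have hFint : ∀ i, w (F.coeff i) ≤ 1 := by
      intro i
      rcases le_or_gt i d with hi | hi
      · rw [hFc i hi]
        rcases Nat.eq_zero_or_pos i with rfl | hi0
        · rw [coeff_add, coeff_C_zero, Nat.sub_zero, mul_add]
          refine (Valuation.map_add w _ _).trans (max_le ?_ ?_)
          · rw [map_mul, map_pow]
            exact mul_le_one' (pow_le_one' hwt1.le _) (h1 0)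
          · rw [map_mul, map_pow, hwt, ← hV, ← mul_pow, inv_mul_cancel₀ hV0, one_pow]
        · rw [coeff_add, coeff_C_of_ne_zero (by omega), add_zero, map_mul, map_pow]
          exact mul_le_one' (pow_le_one' hwt1.le _) (h1 i)
      · rw [coeff_eq_zero_of_natDegree_lt (by rw [hFd]; exact hi), map_zero]
        exact zero_le
    have hFlead : F.leadingCoeff = g.leadingCoeff := by
      rw [leadingCoeff, hFd, hFc d le_rfl, Nat.sub_self, pow_zero, one_mul, ← hdeg,
        coeff_natDegree, hlead]
    have hF0 : ∀ x : K, w x ≤ 1 → w (F.eval x) < 1 → w x = 1 := by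
      intro x hx hFx
      by_contra hne
      have hlt : w x < 1 := lt_of_le_of_ne hx hne
      have h5 : w (F.coeff 0) = 1 := by
        rw [hFc 0 (Nat.zero_le _), coeff_add, coeff_C_zero, Nat.sub_zero, mul_add]
        have h6 : w (t ^ d * c) = 1 := by
          rw [map_mul, map_pow, hwt, ← hV, ← mul_pow, inv_mul_cancel₀ hV0, one_pow]
        rw [Valuation.map_add_eq_of_lt_right, h6]
        rw [h6, map_mul, map_pow]
        calc w t ^ d * w (g.coeff 0) ≤ w t ^ d * 1 := mul_le_mul_right (h1 0) _
          _ = w t ^ d := mul_one _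
          _ < 1 := pow_lt_one₀ zero_le hwt1 (by omega)
      have h7 : w (F.eval x - F.eval 0) ≤ w (x - 0) := by
        have hIF : IG w F := ⟨hFint, by rw [hFlead]; exact h2⟩
        have h8 := lip (c := (0 : K)) hIF hx (y := 0) (by rw [map_zero]; exact zero_le)
        rwa [fg, fg, add_zero, add_zero] at h8
      rw [sub_zero, ← coeff_zero_eq_eval_zero] at h7
      have h9 : F.coeff 0 = F.eval x - (F.eval x - F.coeff 0) := by ring
      have h10 : w (F.coeff 0) < 1 := by
        rw [h9]
        exact (Valuation.map_sub w _ _).trans_lt (max_lt hFx (h7.trans_lt hlt))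
      rw [h5] at h10
      exact lt_irrefl _ h10
    refine poly_tame (L := K) (u := w) (φ := RingHom.id K) (ε := 1) (t := t) (b := 0)
      (e := t ^ (d - 1)) (F := F) (by omega) hdeg one_ne_zero
      (fun x => ?_) ht0 (pow_ne_zero _ ht0) ?_ hFint (by rw [hFlead]; exact h2) ?_
      (fun h => ⟨?_, fun x hx hFx => ?_⟩)
    · rw [RingHom.id_apply, pow_one]
    · rw [C_0, add_zero, add_zero, map_id, hF, mul_comp, C_comp, comp_assoc, mul_comp, C_comp,
        X_comp, ← mul_assoc, ← C_mul, ht, mul_inv_cancel₀ hx0, C_1, one_mul, comp_X, ← mul_assoc,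
        ← C_mul, ← pow_succ, Nat.sub_add_cancel (by omega)]
    · rw [map_pow]
      exact pow_le_one' hwt1.le _
    · rw [map_pow, log_pow, hwt, log_inv, nsmul_eq_mul, Nat.cast_one, mul_one, Nat.cast_mul,
        mul_comm (ν : ℤ), mul_neg]
      exact (mul_dvd_mul_left _ hν).neg_right
    · rw [RingHom.id_apply, add_zero] at hx hFx ⊢
      set y := t * x with hy
      have hy1 := hF0 y hx hFx
      rw [derivative_eval, sum_over_range' _ (by intro n; ring) (d + 1) (by rw [hFd]; omega),
        Finset.sum_range_succ]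
      have h11 : w (F.coeff d * (d : K) * y ^ (d - 1)) = 1 := by
        rw [map_mul, map_mul, map_pow, hy1, one_pow, hwd, hFc d le_rfl, Nat.sub_self, pow_zero,
          one_mul, ← hdeg, coeff_natDegree, hlead, h2, one_mul, one_mul]
      rw [Valuation.map_add_eq_of_lt_right, h11]
      rw [h11]
      refine Valuation.map_sum_lt w one_ne_zero fun i hi => ?_
      rw [Finset.mem_range] at hi
      have hcast : w ((i : ℕ) : K) ≤ 1 := by
        clear hi
        induction i with
        | zero => rw [Nat.cast_zero, map_zero]; exact zero_le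
        | succ n ih =>
          rw [Nat.cast_succ]
          exact (Valuation.map_add w _ _).trans (max_le ih (by rw [map_one]))
      rcases Nat.eq_zero_or_pos i with rfl | hi0
      · rw [Nat.cast_zero, mul_zero, zero_mul, map_zero]
        exact zero_lt_one
      · rw [map_mul, map_mul, map_pow, hy1, one_pow, mul_one, hFc i hi.le, coeff_add,
          coeff_C_of_ne_zero (by omega), add_zero, map_mul, map_pow]
        calc w t ^ (d - i) * w (g.coeff i) * w ((i : ℕ) : K) ≤ w t ^ (d - i) * 1 * 1 :=
              mul_le_mul' (mul_le_mul_right (h1 i) _) hcast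
          _ = w t ^ (d - i) := by rw [mul_one, mul_one]
          _ < 1 := pow_lt_one₀ zero_le hwt1 (by omega)

end Pool.Agent.PDR
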