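import Pool.Agent.PDR.Sym

set_option autoImplicit false

/-!
# PDR: periodic points of maps with a symmetry
-/

open NumberField IsDedekindDomain
open scoped WithZero

noncomputable section

namespace Pool.Agent.PDR

open WithZero
open Pool.Agent.PDP (Sg Sq wb wb2 gcd_mul_aux)

/-- the number of fixed lines -/
lemma fix_card {K : Type} [Field K] {α β γ δ : K} {i : ℕ}
    (hv : ∃ v, dt ((lin α β γ δ)^[i] v) v ≠ 0) (S : Finset (K × K))
    (hS : ∀ a ∈ S, ∀ b ∈ S, a ≠ b → dt a b ≠ 0)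
    (hfix : ∀ b ∈ S, dt ((lin α β γ δ)^[i] b) b = 0) : S.card ≤ 2 := by
  by_contra hcon
  push Not at hcon
  obtain ⟨b, c, e, hb, hc, he, h1, h2, h3⟩ := Finset.two_lt_card_iff.1 hcon
  obtain ⟨α', β', γ', δ', hl⟩ := lin_it α β γ δ i
  obtain ⟨v, hv⟩ := hv
  apply hv
  rw [hl]
  refine three_fix (b := b) (c := c) (e := e) ?_ ?_ ?_ (hS b hb c hc h1) (hS b hb e he h2)
    (hS c hc e he h3)
  · rw [← hl]; exact hfix b hb
  · rw [← hl]; exact hfix c hc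
  · rw [← hl]; exact hfix e he

lemma Pj.back {K : Type} [Field K] {f : K × K → K × K} (hf : Pj f) {a b : K × K} (ha : a ≠ 0)
    (hb : b ≠ 0) {n m : ℕ} (hn : 0 < n) (hm : 0 < m) (pa : dt (f^[n] a) a = 0)
    (pb : dt (f^[m] b) b = 0) (h : dt (f a) (f b) = 0) : dt a b = 0 := by
  have hmul : ∀ {x : K × K} {l : ℕ}, x ≠ 0 → dt (f^[l] x) x = 0 → ∀ k, dt (f^[k * l] x) x = 0 := by
    intro x l hx hl k
    induction k with
    | zero => rw [Nat.zero_mul, Function.iterate_zero_apply, dt_self]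
    | succ k ih =>
      have h2 := hf.it l ih
      rw [← Function.iterate_add_apply, show l + k * l = (k + 1) * l by ring] at h2
      exact par_trans (hf.it_ne l hx) h2 hl
  have hL : 0 < m * n := Nat.mul_pos hm hn
  have e1 := hmul ha pa m
  have e2 := hmul hb pb n
  rw [mul_comm n m] at e2
  have e3 : dt (f^[m * n] a) (f^[m * n] b) = 0 := by
    have h1 := hf.it (m * n - 1) h
    rwa [← Function.iterate_succ_apply f, ← Function.iterate_succ_apply f,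
      show (m * n - 1).succ = m * n by omega] at h1
  exact par_trans (hf.it_ne _ ha) (dt_comm_zero e1) (par_trans (hf.it_ne _ hb) e3 e2)

/-- the number of periodic points -/
theorem sym_cyc (hG : HMW.T_KGU) (K : Type) [Field K] [NumberField K] (A : Finset K)
    (hA0 : ∀ a ∈ A, a ≠ 0) (M N : ℕ) (hM : 5 ≤ M) : ∃ B : ℕ, ∀ (f : K × K → K × K)
    (d : ℕ) (T : Set (K × K)), Pj f → (∃ d : ℕ, ∀ (c : K) a, f (c • a) = c ^ d • f a) → d ≠ 0 →
    SysR A M N f d T → ∀ α β γ δ χ : K, Sy f α β γ δ χ → (∀ a ∈ T, lin α β γ δ a ∈ T) →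
    (∀ i, 1 ≤ i → i ≤ 3 → ∃ v, dt ((lin α β γ δ)^[i] v) v ≠ 0) → ∀ S : Finset (K × K),
    (∀ a ∈ S, a ∈ T ∧ ∃ n, 0 < n ∧ dt (f^[n] a) a = 0) →
    (∀ a ∈ S, ∀ b ∈ S, a ≠ b → dt a b ≠ 0) → S.card ≤ B := by
  classical
  obtain ⟨B, hB⟩ := wb hG K A hA0 M hM
  refine ⟨2 * B + 10, fun f d T hf hsm hd0 h α β γ δ χ hs hT hord S hS hSS => ?_⟩
  set σ := lin α β γ δ with hσ
  have hsub : S ⊆ (S.filter fun b => ∀ i, 1 ≤ i → i ≤ 3 → dt (σ^[i] b) b ≠ 0) ∪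
      ((S.filter fun b => dt (σ^[1] b) b = 0) ∪ ((S.filter fun b => dt (σ^[2] b) b = 0) ∪
        (S.filter fun b => dt (σ^[3] b) b = 0))) := by
    intro b hb
    simp only [Finset.mem_union, Finset.mem_filter]
    by_cases h1 : dt (σ^[1] b) b = 0
    · exact Or.inr (Or.inl ⟨hb, h1⟩)
    by_cases h2 : dt (σ^[2] b) b = 0
    · exact Or.inr (Or.inr (Or.inl ⟨hb, h2⟩))
    by_cases h3 : dt (σ^[3] b) b = 0
    · exact Or.inr (Or.inr (Or.inr ⟨hb, h3⟩))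
    refine Or.inl ⟨hb, fun i hi hi' => ?_⟩
    rcases (show i = 1 ∨ i = 2 ∨ i = 3 by omega) with rfl | rfl | rfl
    · exact h1
    · exact h2
    · exact h3
  have hbad : ∀ i, 1 ≤ i → i ≤ 3 → (S.filter fun b => dt (σ^[i] b) b = 0).card ≤ 2 := by
    intro i h1 h2
    refine fix_card (hord i h1 h2) _ (fun a ha b hb => hSS a (Finset.mem_filter.1 ha).1 b
      (Finset.mem_filter.1 hb).1) fun b hb => (Finset.mem_filter.1 hb).2
  have hcard := (Finset.card_le_card hsub).trans (Finset.card_union_le _ _)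
  have hc1 := Finset.card_union_le (S.filter fun b => dt (σ^[1] b) b = 0)
    ((S.filter fun b => dt (σ^[2] b) b = 0) ∪ (S.filter fun b => dt (σ^[3] b) b = 0))
  have hc2 := Finset.card_union_le (S.filter fun b => dt (σ^[2] b) b = 0)
    (S.filter fun b => dt (σ^[3] b) b = 0)
  have b1 := hbad 1 (by omega) (by omega)
  have b2 := hbad 2 (by omega) (by omega)
  have b3 := hbad 3 (by omega) (by omega)
  set S' := S.filter fun b => ∀ i, 1 ≤ i → i ≤ 3 → dt (σ^[i] b) b ≠ 0 with hS'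
  suffices hmain : S'.card ≤ 2 * B + 4 by omega
  by_contra hcon
  push Not at hcon
  have hmem : ∀ a ∈ S', a ∈ S ∧ ∀ i, 1 ≤ i → i ≤ 3 → dt (σ^[i] a) a ≠ 0 := by
    intro a ha
    rw [hS'] at ha
    simpa only [Finset.mem_filter] using ha
  obtain ⟨a₀, ha₀⟩ : S'.Nonempty := Finset.card_pos.1 (by omega)
  have c0 : (S'.erase a₀).card = S'.card - 1 := Finset.card_erase_of_mem ha₀
  obtain ⟨a₁, ha₁⟩ : (S'.erase a₀).Nonempty := Finset.card_pos.1 (by omega)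
  have c1 : ((S'.erase a₀).erase a₁).card = S'.card - 1 - 1 := by
    rw [Finset.card_erase_of_mem ha₁, c0]
  obtain ⟨P, hPs, hPc⟩ := Finset.exists_subset_card_eq (s := (S'.erase a₀).erase a₁)
    (n := B + 1) (by omega)
  have c2 : (((S'.erase a₀).erase a₁) \ P).card = S'.card - 1 - 1 - (B + 1) := by
    rw [Finset.card_sdiff_of_subset hPs, c1, hPc]
  obtain ⟨Q, hQs, hQc⟩ := Finset.exists_subset_card_eq (s := ((S'.erase a₀).erase a₁) \ P)
    (n := B + 1) (by omega)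
  rw [Finset.mem_erase] at ha₁
  have hP : ∀ p ∈ P, p ∈ S' ∧ p ≠ a₀ ∧ p ≠ a₁ := by
    intro p hp
    have h1 := hPs hp
    rw [Finset.mem_erase, Finset.mem_erase] at h1
    exact ⟨h1.2.2, h1.2.1, h1.1⟩
  have hQ : ∀ q ∈ Q, q ∈ S' ∧ q ≠ a₀ ∧ q ≠ a₁ ∧ q ∉ P := by
    intro q hq
    have h1 := hQs hq
    rw [Finset.mem_sdiff, Finset.mem_erase, Finset.mem_erase] at h1
    exact ⟨h1.1.2.2, h1.1.2.1, h1.1.1, h1.2⟩
  have hT0 : ∀ a ∈ S', a ≠ 0 := fun a ha => h.ne a (hS a (hmem a ha).1).1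
  have hTi : ∀ a ∈ S', ∀ i, σ^[i] a ∈ T := by
    intro a ha i
    induction i with
    | zero => exact (hS a (hmem a ha).1).1
    | succ i ih =>
      rw [Function.iterate_succ_apply']
      exact hT _ ih
  have hne : ∀ a ∈ S', ∀ b ∈ S', a ≠ b → ∀ i j, dt (σ^[i] a) (σ^[j] b) ≠ 0 := by
    intro a ha b hb hab i j h0
    have h1 := hf.par _ _ h0
    rw [hσ, hs.it, hs.it, dt_smul_left, dt_smul_right] at h1
    have h2 := (mul_eq_zero.1 ((mul_eq_zero.1 h1).resolve_left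
      (pow_ne_zero _ hs.chi))).resolve_left (pow_ne_zero _ hs.chi)
    obtain ⟨-, n, hn, pa⟩ := hS a (hmem a ha).1
    obtain ⟨-, m, hm, pb⟩ := hS b (hmem b hb).1
    exact hSS a (hmem a ha).1 b (hmem b hb).1 hab
      (hf.back (hT0 a ha) (hT0 b hb) hn hm pa pb h2)
  have hD : ∀ {v : HeightOneSpectrum (𝓞 K)} {ε : ℕ} {D : K × K → K × K → ℤᵐ⁰}
      {ρ : K × K → ℤᵐ⁰} {κ : ℤᵐ⁰}, GR (v.valuation K) f d ε D ρ κ → ∀ a ∈ S', ∀ b ∈ S', a ≠ b →
      ∀ i j, i ≠ j → i ≤ 3 → j ≤ 3 → D (σ^[i] a) (σ^[j] b) = 1 := by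
    intro v ε D ρ κ hD
    have key : ∀ a ∈ S', ∀ b ∈ S', a ≠ b → ∀ i j, i < j → j ≤ 3 →
        D (σ^[i] a) (σ^[j] b) = 1 := by
      intro a ha b hb hab i j hij hj
      obtain ⟨-, n, hn, pa⟩ := hS a (hmem a ha).1
      obtain ⟨-, m, hm, pb⟩ := hS b (hmem b hb).1
      obtain ⟨k, rfl⟩ := Nat.exists_eq_add_of_lt hij
      have h1 := hD.far_sym' hd0 hf hs hsm (hT0 a ha) (hT0 b hb) hn hm pa pb
        (hSS a (hmem a ha).1 b (hmem b hb).1 hab) (i := i) (k := k + 1)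
        ((hmem b hb).2 (k + 1) (by omega) (by omega)) (hne a ha b hb hab 0 (k + 1))
      rwa [← add_assoc] at h1
    intro a ha b hb hab i j hij hi hj
    rcases lt_or_gt_of_ne hij with h1 | h1
    · exact key a ha b hb hab i j h1 hj
    · rw [hD.dd.symm]
      exact key b hb a ha hab.symm j i h1 hi
  have hfin := grid (S := Sg K A M) hB (x := σ^[0] a₀) (y := σ^[1] a₁) P Q
    (fun p => σ^[2] p) (fun q => σ^[3] q) (hne _ ha₀ _ ha₁.2 ha₁.1.symm 0 1)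
    (fun p hp => hne _ ha₀ _ (hP p hp).1 (hP p hp).2.1.symm 0 2)
    (fun p hp => hne _ ha₁.2 _ (hP p hp).1 (hP p hp).2.2.symm 1 2)
    (fun q hq => hne _ ha₀ _ (hQ q hq).1 (hQ q hq).2.1.symm 0 3)
    (fun q hq => hne _ ha₁.2 _ (hQ q hq).1 (hQ q hq).2.2.1.symm 1 3)
    (fun p hp p' hp' hpp => hne _ (hP p hp).1 _ (hP p' hp').1 hpp 2 2)
    (fun q hq q' hq' hqq => hne _ (hQ q hq).1 _ (hQ q' hq').1 hqq 3 3) (by
      intro p hp q hq
      have hpq : p ≠ q := fun he => (hQ q hq).2.2.2 (he ▸ hp)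
      refine sg_of h (hTi _ ha₀ 0) (hTi _ ha₁.2 1) (hTi _ (hP p hp).1 2) (hTi _ (hQ q hq).1 3)
        (hne _ ha₀ _ ha₁.2 ha₁.1.symm 0 1) (hne _ ha₀ _ (hP p hp).1 (hP p hp).2.1.symm 0 2)
        (hne _ ha₀ _ (hQ q hq).1 (hQ q hq).2.1.symm 0 3)
        (hne _ ha₁.2 _ (hP p hp).1 (hP p hp).2.2.symm 1 2)
        (hne _ ha₁.2 _ (hQ q hq).1 (hQ q hq).2.2.1.symm 1 3)
        (hne _ (hP p hp).1 _ (hQ q hq).1 hpq 2 3) ?_ ?_
      · intro v _ ε D ρ κ h3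
        rw [hD h3 _ ha₀ _ (hP p hp).1 (hP p hp).2.1.symm 0 2 (by omega) (by omega) (by omega),
          hD h3 _ ha₁.2 _ (hQ q hq).1 (hQ q hq).2.2.1.symm 1 3 (by omega) (by omega) (by omega),
          hD h3 _ ha₀ _ (hQ q hq).1 (hQ q hq).2.1.symm 0 3 (by omega) (by omega) (by omega),
          hD h3 _ ha₁.2 _ (hP p hp).1 (hP p hp).2.2.symm 1 2 (by omega) (by omega) (by omega),
          log_one]
        ring
      · intro v _ ε D ρ κ h3
        rw [hD h3 _ ha₀ _ ha₁.2 ha₁.1.symm 0 1 (by omega) (by omega) (by omega),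
          hD h3 _ (hP p hp).1 _ (hQ q hq).1 hpq 2 3 (by omega) (by omega) (by omega),
          hD h3 _ ha₀ _ (hQ q hq).1 (hQ q hq).2.1.symm 0 3 (by omega) (by omega) (by omega),
          hD h3 _ ha₁.2 _ (hP p hp).1 (hP p hp).2.2.symm 1 2 (by omega) (by omega) (by omega),
          log_one]
        ring)
  rw [hPc, hQc] at hfin
  omega

/-- the number of periodic points, with a totally ramified fixed point -/
theorem sym_cycq (hG : HMW.T_KGU) (K : Type) [Field K] [NumberField K] (A : Finset K)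
    (hA0 : ∀ a ∈ A, a ≠ 0) (M N : ℕ) (hM : 5 ≤ M) : ∃ B : ℕ, ∀ (f : K × K → K × K)
    (d : ℕ) (T : Set (K × K)), Pj f → (∃ d : ℕ, ∀ (c : K) a, f (c • a) = c ^ d • f a) → d ≠ 0 →
    SysR A M N f d T → ∀ (o : K × K) (g : K), TRam f d o g →
    ∀ α β γ δ χ : K, Sy f α β γ δ χ → (∀ a ∈ T, lin α β γ δ a ∈ T) →
    (∀ i, 1 ≤ i → i ≤ 2 → ∃ v, dt ((lin α β γ δ)^[i] v) v ≠ 0) → ∀ S : Finset (K × K),
    (∀ a ∈ S, a ∈ T ∧ ∃ n, 0 < n ∧ dt (f^[n] a) a = 0) →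
    (∀ a ∈ S, ∀ b ∈ S, a ≠ b → dt a b ≠ 0) → S.card ≤ B := by
  classical
  obtain ⟨B, hB⟩ := wb hG K A hA0 M hM
  refine ⟨2 * B + 10, fun f d T hf hsm hd0 h o g ho α β γ δ χ hs hT hord S hS hSS => ?_⟩
  set σ := lin α β γ δ with hσ
  have hsub : S ⊆ (S.filter fun b => ∀ i, 1 ≤ i → i ≤ 2 → dt (σ^[i] b) b ≠ 0) ∪
      ((S.filter fun b => dt (σ^[1] b) b = 0) ∪ (S.filter fun b => dt (σ^[2] b) b = 0)) := by
    intro b hb
    simp only [Finset.mem_union, Finset.mem_filter]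
    by_cases h1 : dt (σ^[1] b) b = 0
    · exact Or.inr (Or.inl ⟨hb, h1⟩)
    by_cases h2 : dt (σ^[2] b) b = 0
    · exact Or.inr (Or.inr ⟨hb, h2⟩)
    refine Or.inl ⟨hb, fun i hi hi' => ?_⟩
    rcases (show i = 1 ∨ i = 2 by omega) with rfl | rfl
    · exact h1
    · exact h2
  have hbad : ∀ i, 1 ≤ i → i ≤ 2 → (S.filter fun b => dt (σ^[i] b) b = 0).card ≤ 2 := by
    intro i h1 h2
    refine fix_card (hord i h1 h2) _ (fun a ha b hb => hSS a (Finset.mem_filter.1 ha).1 b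
      (Finset.mem_filter.1 hb).1) fun b hb => (Finset.mem_filter.1 hb).2
  have hcard := (Finset.card_le_card hsub).trans (Finset.card_union_le _ _)
  have hc1 := Finset.card_union_le (S.filter fun b => dt (σ^[1] b) b = 0)
    (S.filter fun b => dt (σ^[2] b) b = 0)
  have b1 := hbad 1 (by omega) (by omega)
  have b2 := hbad 2 (by omega) (by omega)
  set S' := S.filter fun b => ∀ i, 1 ≤ i → i ≤ 2 → dt (σ^[i] b) b ≠ 0 with hS'
  suffices hmain : S'.card ≤ 2 * B + 4 by omega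
  by_contra hcon
  push Not at hcon
  have hmem : ∀ a ∈ S', a ∈ S ∧ ∀ i, 1 ≤ i → i ≤ 2 → dt (σ^[i] a) a ≠ 0 := by
    intro a ha
    rw [hS'] at ha
    simpa only [Finset.mem_filter] using ha
  obtain ⟨a₀, ha₀⟩ : S'.Nonempty := Finset.card_pos.1 (by omega)
  have c0 : (S'.erase a₀).card = S'.card - 1 := Finset.card_erase_of_mem ha₀
  obtain ⟨P, hPs, hPc⟩ := Finset.exists_subset_card_eq (s := S'.erase a₀)
    (n := B + 1) (by omega)
  have c2 : ((S'.erase a₀) \ P).card = S'.card - 1 - (B + 1) := by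
    rw [Finset.card_sdiff_of_subset hPs, c0, hPc]
  obtain ⟨Q, hQs, hQc⟩ := Finset.exists_subset_card_eq (s := (S'.erase a₀) \ P)
    (n := B + 1) (by omega)
  have hP : ∀ p ∈ P, p ∈ S' ∧ p ≠ a₀ := by
    intro p hp
    have h1 := hPs hp
    rw [Finset.mem_erase] at h1
    exact ⟨h1.2, h1.1⟩
  have hQ : ∀ q ∈ Q, q ∈ S' ∧ q ≠ a₀ ∧ q ∉ P := by
    intro q hq
    have h1 := hQs hq
    rw [Finset.mem_sdiff, Finset.mem_erase] at h1
    exact ⟨h1.1.2, h1.1.1, h1.2⟩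
  have hT0 : ∀ a ∈ S', a ≠ 0 := fun a ha => h.ne a (hS a (hmem a ha).1).1
  have hTi : ∀ a ∈ S', ∀ i, σ^[i] a ∈ T := by
    intro a ha i
    induction i with
    | zero => exact (hS a (hmem a ha).1).1
    | succ i ih =>
      rw [Function.iterate_succ_apply']
      exact hT _ ih
  have hne : ∀ a ∈ S', ∀ b ∈ S', a ≠ b → ∀ i j, dt (σ^[i] a) (σ^[j] b) ≠ 0 := by
    intro a ha b hb hab i j h0
    have h1 := hf.par _ _ h0
    rw [hσ, hs.it, hs.it, dt_smul_left, dt_smul_right] at h1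
    have h2 := (mul_eq_zero.1 ((mul_eq_zero.1 h1).resolve_left
      (pow_ne_zero _ hs.chi))).resolve_left (pow_ne_zero _ hs.chi)
    obtain ⟨-, n, hn, pa⟩ := hS a (hmem a ha).1
    obtain ⟨-, m, hm, pb⟩ := hS b (hmem b hb).1
    exact hSS a (hmem a ha).1 b (hmem b hb).1 hab
      (hf.back (hT0 a ha) (hT0 b hb) hn hm pa pb h2)
  have hD : ∀ {v : HeightOneSpectrum (𝓞 K)} {ε : ℕ} {D : K × K → K × K → ℤᵐ⁰}
      {ρ : K × K → ℤᵐ⁰} {κ : ℤᵐ⁰}, GR (v.valuation K) f d ε D ρ κ → ∀ a ∈ S', ∀ b ∈ S', a ≠ b →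
      ∀ i j, i ≠ j → i ≤ 2 → j ≤ 2 → D (σ^[i] a) (σ^[j] b) = 1 := by
    intro v ε D ρ κ hD
    have key : ∀ a ∈ S', ∀ b ∈ S', a ≠ b → ∀ i j, i < j → j ≤ 2 →
        D (σ^[i] a) (σ^[j] b) = 1 := by
      intro a ha b hb hab i j hij hj
      obtain ⟨-, n, hn, pa⟩ := hS a (hmem a ha).1
      obtain ⟨-, m, hm, pb⟩ := hS b (hmem b hb).1
      obtain ⟨k, rfl⟩ := Nat.exists_eq_add_of_lt hij
      have h1 := hD.far_sym' hd0 hf hs hsm (hT0 a ha) (hT0 b hb) hn hm pa pb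
        (hSS a (hmem a ha).1 b (hmem b hb).1 hab) (i := i) (k := k + 1)
        ((hmem b hb).2 (k + 1) (by omega) (by omega)) (hne a ha b hb hab 0 (k + 1))
      rwa [← add_assoc] at h1
    intro a ha b hb hab i j hij hi hj
    rcases lt_or_gt_of_ne hij with h1 | h1
    · exact key a ha b hb hab i j h1 hj
    · rw [hD.dd.symm]
      exact key b hb a ha hab.symm j i h1 hi
  have hfin := grid (S := Sg K A M) hB (x := o) (y := σ^[0] a₀) P Q
    (fun p => σ^[1] p) (fun q => σ^[2] q) (h.tne _ _ ho _ (hTi _ ha₀ 0))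
    (fun p hp => h.tne _ _ ho _ (hTi _ (hP p hp).1 1))
    (fun p hp => hne _ ha₀ _ (hP p hp).1 (hP p hp).2.symm 0 1)
    (fun q hq => h.tne _ _ ho _ (hTi _ (hQ q hq).1 2))
    (fun q hq => hne _ ha₀ _ (hQ q hq).1 (hQ q hq).2.1.symm 0 2)
    (fun p hp p' hp' hpp => hne _ (hP p hp).1 _ (hP p' hp').1 hpp 1 1)
    (fun q hq q' hq' hqq => hne _ (hQ q hq).1 _ (hQ q' hq').1 hqq 2 2) (by
      intro p hp q hq
      have hpq : p ≠ q := fun he => (hQ q hq).2.2 (he ▸ hp)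
      refine sgq_of h ho (hTi _ ha₀ 0) (hTi _ (hP p hp).1 1) (hTi _ (hQ q hq).1 2)
        (hne _ ha₀ _ (hP p hp).1 (hP p hp).2.symm 0 1)
        (hne _ ha₀ _ (hQ q hq).1 (hQ q hq).2.1.symm 0 2)
        (hne _ (hP p hp).1 _ (hQ q hq).1 hpq 1 2) ?_ ?_
      · intro v _ ε D ρ κ h3
        rw [hD h3 _ ha₀ _ (hQ q hq).1 (hQ q hq).2.1.symm 0 2 (by omega) (by omega) (by omega),
          hD h3 _ ha₀ _ (hP p hp).1 (hP p hp).2.symm 0 1 (by omega) (by omega) (by omega)]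
      · intro v _ ε D ρ κ h3
        rw [hD h3 _ (hP p hp).1 _ (hQ q hq).1 hpq 1 2 (by omega) (by omega) (by omega),
          hD h3 _ ha₀ _ (hP p hp).1 (hP p hp).2.symm 0 1 (by omega) (by omega) (by omega)])
  rw [hPc, hQc] at hfin
  omega

end Pool.Agent.PDR
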