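import Pool.Agent.PDR.Sym
import Pool.Agent.PDQ.SymTame

set_option autoImplicit false

/-!
# PDR: tails for maps of `x^m`
-/

open NumberField IsDedekindDomain
open scoped WithZero

noncomputable section

namespace Pool.Agent.PDR

open WithZero
open Pool.Agent.PDP (Sg Sq wb wb2 gcd_mul_aux mo win_mo)

/-- the rotation of the first coordinate -/
def rot {K : Type} [Field K] (z : K) (a : K × K) : K × K := (z * a.1, a.2)

section

variable {K : Type} [Field K]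

lemma rot_ne {z : K} (hz : z ≠ 0) {a : K × K} (ha : a ≠ 0) : rot z a ≠ 0 := by
  intro h0
  apply ha
  have h1 : z * a.1 = 0 := congrArg Prod.fst h0
  have h2 : a.2 = 0 := congrArg Prod.snd h0
  exact Prod.ext ((mul_eq_zero.1 h1).resolve_left hz) h2

lemma dt_rot (z z' : K) (b : K × K) : dt (rot z b) (rot z' b) = (z - z') * (b.1 * b.2) := by
  unfold dt rot
  ring

lemma rot_one (a : K × K) : rot 1 a = a := by
  unfold rot
  rw [one_mul]

/-- the distances of the conjugates of a point -/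
lemma GR.rot_const {f : K × K → K × K} {w : Valuation K ℤᵐ⁰} {d ε : ℕ}
    {D : K × K → K × K → ℤᵐ⁰} {ρ : K × K → ℤᵐ⁰} {κ : ℤᵐ⁰} (h : GR w f d ε D ρ κ) (hd0 : d ≠ 0)
    {m : ℕ} (hm : 0 < m) (hwm : w (m : K) = 1) (hinv : ∀ z : K, z ^ m = 1 → ∀ a, f (rot z a) = f a)
    {b : K × K} (h1 : b.1 ≠ 0) (h2 : b.2 ≠ 0) {z z' y y' : K} (hz : z ^ m = 1) (hz' : z' ^ m = 1)
    (hy : y ^ m = 1) (hy' : y' ^ m = 1) (hzz : z ≠ z') (hyy : y ≠ y') :
    log (D (rot z b) (rot z' b)) = log (D (rot y b) (rot y' b)) := by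
  have hb : b ≠ 0 := by
    rintro rfl
    exact h1 rfl
  have hz0 : ∀ {z : K}, z ^ m = 1 → z ≠ 0 := by
    rintro z hz rfl
    rw [zero_pow (by omega)] at hz
    exact zero_ne_one hz
  have hρ : ∀ {z : K}, z ^ m = 1 → log (ρ (rot z b)) = log (ρ b) := by
    intro z hz
    have e1 := h.fib (c := 1) (rot_ne (hz0 hz) hb) hb (by rw [hinv z hz, one_smul])
    rw [map_one, one_pow, one_mul] at e1
    rw [(pow_left_inj₀ zero_le zero_le hd0).1 e1]
  have hw : ∀ {z z' : K}, z ^ m = 1 → z' ^ m = 1 → z ≠ z' → w (z - z') = 1 := by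
    intro z z' hz hz' hne
    have e1 : (z' / z) ^ m = 1 := by rw [div_pow, hz, hz', div_one]
    have e2 : z' / z ≠ 1 := by
      intro h0
      rw [div_eq_one_iff_eq (hz0 hz)] at h0
      exact hne h0.symm
    have e3 := PDQ.root_unit e1 e2 hm hwm
    have e4 : z - z' = z * (1 - z' / z) := by
      rw [mul_sub, mul_one, mul_div_cancel₀ _ (hz0 hz)]
    have e5 : w z = 1 := by
      have := congrArg w hz
      rw [map_pow, map_one] at this
      exact (pow_eq_one_iff_of_nonneg zero_le hm.ne').1 this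
    rw [e4, map_mul, e3, e5, mul_one]
  have hbb : b.1 * b.2 ≠ 0 := mul_ne_zero h1 h2
  have key : ∀ {z z' : K}, z ^ m = 1 → z' ^ m = 1 → z ≠ z' →
      (ε : ℤ) * log (w (b.1 * b.2)) = log κ + log (ρ b) + log (ρ b) +
        log (D (rot z b) (rot z' b)) := by
    intro z z' hz hz' hne
    have e1 := h.dd.log_eq (rot_ne (hz0 hz) hb) (rot_ne (hz0 hz') hb) (by
      rw [dt_rot]
      exact mul_ne_zero (sub_ne_zero.2 hne) hbb)
    rwa [dt_rot, map_mul, hw hz hz' hne, one_mul, hρ hz, hρ hz'] at e1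
  have e1 := key hz hz' hzz
  have e2 := key hy hy' hyy
  linear_combination e2 - e1

/-- the algebra -/
lemma mo_alg {M : ℕ} {ζ x s : K} {a b : K × K} (ha : a.2 ≠ 0) (h1 : b.1 ≠ 0) (h2 : b.2 ≠ 0)
    (hζ0 : ζ ≠ 0) (hζ1 : ζ - 1 ≠ 0) (hζ2 : 1 + ζ ≠ 0) (hne : dt a (rot ζ b) ≠ 0) :
    (a.1 / a.2) / (b.1 / b.2) - ζ ≠ 0 ∧
    (dt a (rot 1 b) * dt (rot (ζ ^ 2) b) (rot ζ b) =
      x * s ^ M * (dt a (rot ζ b) * dt (rot (ζ ^ 2) b) (rot 1 b)) →
      mo ζ ((a.1 / a.2) / (b.1 / b.2)) = x * s ^ M) ∧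
    (dt a (rot (ζ ^ 2) b) * dt (rot 1 b) (rot ζ b) =
      x * s ^ M * (dt a (rot ζ b) * dt (rot 1 b) (rot (ζ ^ 2) b)) →
      1 - mo ζ ((a.1 / a.2) / (b.1 / b.2)) = x * s ^ M) := by
  have e1 : ∀ z : K, (a.1 / a.2) / (b.1 / b.2) - z = dt a (rot z b) / (a.2 * b.1) := by
    intro z
    unfold dt rot
    field_simp
  have hab : a.2 * b.1 ≠ 0 := mul_ne_zero ha h1
  have hbb : b.1 * b.2 ≠ 0 := mul_ne_zero h1 h2
  have hq : (a.1 / a.2) / (b.1 / b.2) - ζ ≠ 0 := by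
    rw [e1]
    exact div_ne_zero hne hab
  have e2 : mo ζ ((a.1 / a.2) / (b.1 / b.2)) =
      ζ * dt a (rot 1 b) / ((1 + ζ) * dt a (rot ζ b)) := by
    unfold mo
    rw [e1, e1]
    field_simp
  have e3 : 1 - mo ζ ((a.1 / a.2) / (b.1 / b.2)) =
      dt a (rot (ζ ^ 2) b) / ((1 + ζ) * dt a (rot ζ b)) := by
    rw [e2, eq_div_iff (mul_ne_zero hζ2 hne), sub_mul,
      div_mul_cancel₀ _ (mul_ne_zero hζ2 hne)]
    unfold dt rot
    ring
  refine ⟨hq, fun h => ?_, fun h => ?_⟩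
  · rw [dt_rot, dt_rot] at h
    rw [e2, div_eq_iff (mul_ne_zero hζ2 hne)]
    have h3 : (ζ * dt a (rot 1 b) - x * s ^ M * ((1 + ζ) * dt a (rot ζ b))) *
        ((ζ - 1) * (b.1 * b.2)) = 0 := by
      linear_combination h
    exact sub_eq_zero.1 ((mul_eq_zero.1 h3).resolve_right (mul_ne_zero hζ1 hbb))
  · rw [dt_rot, dt_rot] at h
    rw [e3, div_eq_iff (mul_ne_zero hζ2 hne)]
    have h3 : (dt a (rot (ζ ^ 2) b) - x * s ^ M * ((1 + ζ) * dt a (rot ζ b))) *
        ((ζ - 1) * (b.1 * b.2)) = 0 := by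
      linear_combination -h
    exact sub_eq_zero.1 ((mul_eq_zero.1 h3).resolve_right (mul_ne_zero hζ1 hbb))

lemma axis_card {ι : Type} [DecidableEq ι] (R : Finset ι) (u : ι → K × K)
    (hu : ∀ i ∈ R, ∀ j ∈ R, i ≠ j → dt (u i) (u j) ≠ 0) [DecidablePred fun i => (u i).1 = 0]
    [DecidablePred fun i => (u i).2 = 0] :
    R.card ≤ (R.filter fun i => ¬ (u i).1 = 0 ∧ ¬ (u i).2 = 0).card + 2 := by
  have hsub : R ⊆ (R.filter fun i => ¬ (u i).1 = 0 ∧ ¬ (u i).2 = 0) ∪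
      ((R.filter fun i => (u i).1 = 0) ∪ (R.filter fun i => (u i).2 = 0)) := by
    intro b hb
    simp only [Finset.mem_union, Finset.mem_filter]
    tauto
  have h1 := (Finset.card_le_card hsub).trans (Finset.card_union_le _ _)
  have h2 := Finset.card_union_le (R.filter fun i => (u i).1 = 0) (R.filter fun i => (u i).2 = 0)
  have h3 : (R.filter fun i => (u i).1 = 0).card ≤ 1 := by
    refine Finset.card_le_one.2 fun i hi j hj => ?_
    rw [Finset.mem_filter] at hi hj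
    by_contra hne
    refine hu i hi.1 j hj.1 hne ?_
    unfold dt
    rw [hi.2, hj.2]
    ring
  have h4 : (R.filter fun i => (u i).2 = 0).card ≤ 1 := by
    refine Finset.card_le_one.2 fun i hi j hj => ?_
    rw [Finset.mem_filter] at hi hj
    by_contra hne
    refine hu i hi.1 j hj.1 hne ?_
    unfold dt
    rw [hi.2, hj.2]
    ring
  omega

lemma quot_inj {a b : K × K} (ha : a.2 ≠ 0) (hb : b.2 ≠ 0) (h : a.1 / a.2 = b.1 / b.2) :
    dt a b = 0 := by
  rw [div_eq_div_iff ha hb] at h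
  unfold dt
  linear_combination h

end

/-- tails of cycles of length at least two -/
theorem sym_tail (hG : HMW.T_KGU) (K : Type) [Field K] [NumberField K] (A : Finset K)
    (hA0 : ∀ a ∈ A, a ≠ 0) (M N m : ℕ) (hM : 5 ≤ M) (hm : 3 ≤ m) (ζ : K)
    (hζ : IsPrimitiveRoot ζ m) : ∃ B : ℕ, ∀ (f : K × K → K × K)
    (d : ℕ) (T : Set (K × K)), Pj f → d ≠ 0 → SysR A M (N * m) f d T →
    (∀ z : K, z ^ m = 1 → ∀ a, f (rot z a) = f a) →
    (∀ z : K, z ^ m = 1 → ∀ a ∈ T, rot z a ∈ T) → ∀ (a : K × K) (n t : ℕ), a ∈ T → 2 ≤ n →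
    PP f (f^[t + 1] a) n → NPer f (f^[t] a) → t + 1 ≤ B * n := by
  classical
  have hζ0 : ζ ≠ 0 := hζ.ne_zero (by omega)
  have hζm : ζ ^ m = 1 := hζ.pow_eq_one
  have hζ1 : ζ ≠ 1 := hζ.ne_one (by omega)
  have hζ2 : ζ ^ 2 ≠ 1 := hζ.pow_ne_one_of_pos_of_lt (by omega) (by omega)
  have hζ2m : (ζ ^ 2) ^ m = 1 := by rw [← pow_mul, mul_comm, pow_mul, hζm, one_pow]
  have h1ζ : 1 + ζ ≠ 0 := by
    intro h0
    apply hζ2
    linear_combination (ζ - 1) * h0
  have hζζ : ζ ^ 2 ≠ ζ := by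
    intro h0
    apply hζ1
    have h1 : ζ * (ζ - 1) = 0 := by linear_combination h0
    exact sub_eq_zero.1 ((mul_eq_zero.1 h1).resolve_left hζ0)
  obtain ⟨B, hB⟩ := win_mo hG K A hA0 M hM ζ hζ0 h1ζ (sub_ne_zero.2 hζ1)
  refine ⟨B + 4, fun f d T hf hd0 h hinv hrot a n t haT hn2 hPP hnp => ?_⟩
  have ha := h.ne a haT
  have huT : ∀ i, f^[i] a ∈ T := fun i => h.it haT _
  have hu0 : ∀ i, f^[i] a ≠ 0 := fun i => hf.it_ne i ha
  have hz0 : ∀ {z : K}, z ^ m = 1 → z ≠ 0 := by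
    rintro z hz rfl
    rw [zero_pow (by omega)] at hz
    exact zero_ne_one hz
  obtain ⟨s, hs⟩ : ∃ s, s = t / n := ⟨_, rfl⟩
  have hst : n * s ≤ t := by rw [hs]; exact Nat.mul_div_le t n
  have hst' : t < n * s + n := by
    rw [hs]
    have := Nat.lt_mul_div_succ t (show 0 < n by omega)
    rwa [Nat.mul_succ] at this
  have hidx : ∀ b r, b < s → r < 2 → n * b + r < t := by
    intro b r hb hr
    calc n * b + r < n * b + n := by omega
      _ = n * (b + 1) := by ring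
      _ ≤ n * s := Nat.mul_le_mul_left _ hb
      _ ≤ t := hst
  -- distances
  have hD : ∀ {v : HeightOneSpectrum (𝓞 K)} {ε : ℕ} {D : K × K → K × K → ℤᵐ⁰}
      {ρ : K × K → ℤᵐ⁰} {κ : ℤᵐ⁰}, GR (v.valuation K) f d ε D ρ κ → ∀ (i j : ℕ), i < t → j < t →
      ¬ (n : ℤ) ∣ (i : ℤ) - j → ∀ z : K, z ^ m = 1 → D (f^[i] a) (rot z (f^[j] a)) = 1 := by
    intro v ε D ρ κ hD i j hi hj hij z hz
    have hr0 := rot_ne (hz0 hz) (hu0 j)
    refine le_antisymm (hD.le_one _ _ (hu0 i) hr0) ?_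
    have h1 := hD.nonexp _ _ (hu0 i) hr0
    rw [hinv z hz, ← Function.iterate_succ_apply' f, ← Function.iterate_succ_apply' f] at h1
    have h2 := hD.tl hf ha hPP hnp (i := i + 1) (j := j + 1) (by omega) (by omega) (by
      push_cast
      rwa [add_sub_add_right_eq_sub])
    rw [show i.succ = i + 1 from rfl, show j.succ = j + 1 from rfl, h2] at h1
    exact h1
  have hne : ∀ i j, i < t → j < t → i ≠ j → ∀ z : K, z ^ m = 1 →
      dt (f^[i] a) (rot z (f^[j] a)) ≠ 0 := by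
    intro i j hi hj hij z hz h0
    have h1 := hf.par _ _ h0
    rw [hinv z hz, ← Function.iterate_succ_apply' f, ← Function.iterate_succ_apply' f] at h1
    exact hnp.ne hf (i := i + 1) (j := j + 1) (by omega) (by omega) (by omega) h1
  have hres : ∀ b b' : ℕ, ¬ (n : ℤ) ∣ ((n * b + 0 : ℕ) : ℤ) - ((n * b' + 1 : ℕ) : ℤ) := by
    intro b b' h1
    have h2 : ((n * b + 0 : ℕ) : ℤ) - ((n * b' + 1 : ℕ) : ℤ) = n * ((b : ℤ) - b') + (-1) := by
      push_cast
      ring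
    rw [h2] at h1
    have h3 : (n : ℤ) ∣ -1 := (Int.dvd_add_right (Dvd.intro _ rfl)).1 h1
    have h4 := Int.le_of_dvd (by norm_num) ((dvd_neg).2 h3)
    omega
  have hnn : ∀ b b' : ℕ, n * b + 0 ≠ n * b' + 1 := by
    intro b b' he
    refine hres b b' ?_
    rw [he, sub_self]
    exact dvd_zero _
  have hinj : ∀ r, r < 2 → ∀ b ∈ Finset.range s, ∀ b' ∈ Finset.range s, b ≠ b' →
      dt (f^[n * b + r] a) (f^[n * b' + r] a) ≠ 0 := by
    intro r hr b hb b' hb' hbb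
    refine hnp.ne hf (hidx b r (Finset.mem_range.1 hb) hr).le
      (hidx b' r (Finset.mem_range.1 hb') hr).le fun he => hbb ?_
    exact Nat.eq_of_mul_eq_mul_left (by omega) (Nat.add_right_cancel he)
  set I : ℕ → Finset ℕ := fun r => (Finset.range s).filter fun b =>
    ¬ (f^[n * b + r] a).1 = 0 ∧ ¬ (f^[n * b + r] a).2 = 0 with hI
  have hIm : ∀ r b, b ∈ I r → b < s ∧ (f^[n * b + r] a).1 ≠ 0 ∧ (f^[n * b + r] a).2 ≠ 0 := by
    intro r b hb
    rw [hI] at hb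
    simp only [Finset.mem_filter, Finset.mem_range] at hb
    exact hb
  have hIc : ∀ r, r < 2 → s ≤ (I r).card + 2 := by
    intro r hr
    have h1 := axis_card (Finset.range s) (fun b => f^[n * b + r] a) (hinj r hr)
    rwa [Finset.card_range] at h1
  have hfin := hB ((I 0).image fun b => (f^[n * b + 0] a).1 / (f^[n * b + 0] a).2)
    ((I 1).image fun b => (f^[n * b + 1] a).1 / (f^[n * b + 1] a).2) (by
      intro p hp
      obtain ⟨b, hb, rfl⟩ := Finset.mem_image.1 hp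
      obtain ⟨-, h1, h2⟩ := hIm 0 b hb
      exact div_ne_zero h1 h2) (by
      intro p hp
      obtain ⟨b, hb, rfl⟩ := Finset.mem_image.1 hp
      obtain ⟨-, h1, h2⟩ := hIm 1 b hb
      exact div_ne_zero h1 h2) (by
      intro p hp q hq
      obtain ⟨b, hb, rfl⟩ := Finset.mem_image.1 hp
      obtain ⟨b', hb', rfl⟩ := Finset.mem_image.1 hq
      obtain ⟨bs, b1, b2⟩ := hIm 0 b hb
      obtain ⟨bs', b1', b2'⟩ := hIm 1 b' hb'
      have i1 := hidx b 0 bs (by omega)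
      have i2 := hidx b' 1 bs' (by omega)
      have hd : ∀ z : K, z ^ m = 1 → dt (f^[n * b + 0] a) (rot z (f^[n * b' + 1] a)) ≠ 0 :=
        hne _ _ i1 i2 (hnn b b')
      have hbb : (f^[n * b' + 1] a).1 * (f^[n * b' + 1] a).2 ≠ 0 := mul_ne_zero b1' b2'
      have hrr : ∀ {z z' : K}, z ≠ z' →
          dt (rot z (f^[n * b' + 1] a)) (rot z' (f^[n * b' + 1] a)) ≠ 0 := by
        intro z z' hzz
        rw [dt_rot]
        exact mul_ne_zero (sub_ne_zero.2 hzz) hbb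
      have hvm : ∀ v : HeightOneSpectrum (𝓞 K), ((N * m : ℕ) : 𝓞 K) ∉ v.asIdeal →
          v.valuation K (m : K) = 1 := by
        intro v hv
        refine PDP.val_one v m fun hmem => hv ?_
        rw [Nat.cast_mul]
        exact v.asIdeal.mul_mem_left _ hmem
      have hpow : ∀ {z z' y : K}, z ^ m = 1 → z' ^ m = 1 → y ^ m = 1 → y ≠ z' → y ≠ z →
          ∃ x ∈ A, ∃ r : K, r ≠ 0 ∧ dt (f^[n * b + 0] a) (rot z (f^[n * b' + 1] a)) *
            dt (rot y (f^[n * b' + 1] a)) (rot z' (f^[n * b' + 1] a)) =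
            x * r ^ M * (dt (f^[n * b + 0] a) (rot z' (f^[n * b' + 1] a)) *
              dt (rot y (f^[n * b' + 1] a)) (rot z (f^[n * b' + 1] a))) := by
        intro z z' y hz hz' hy hyz' hyz
        refine h.pow _ (huT _) _ (hrot y hy _ (huT _)) _ (hrot z hz _ (huT _)) _
          (hrot z' hz' _ (huT _)) (hd z hz) (hrr hyz') (hd z' hz') (hrr hyz) ?_
        intro v hv ε D ρ κ h3
        rw [hD h3 _ _ i1 i2 (hres b b') z hz, hD h3 _ _ i1 i2 (hres b b') z' hz',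
          h3.rot_const hd0 (by omega) (hvm v hv) hinv b1' b2' hy hz' hy hz hyz' hyz]
        rw [log_one, zero_add, sub_zero, sub_self]
        exact dvd_zero _
      obtain ⟨q0, q1, q2⟩ := mo_alg (M := M) (x := 1) (s := 1) b2 b1' b2' hζ0 (sub_ne_zero.2 hζ1)
        h1ζ (hd ζ hζm)
      obtain ⟨x, hx, r, -, e1⟩ := hpow (one_pow m) hζm hζ2m hζζ hζ2
      obtain ⟨x', hx', r', -, e2⟩ := hpow hζ2m hζm (one_pow m) hζ1.symm hζ2.symm
      refine ⟨q0, ⟨x, hx, r, ?_⟩, x', hx', r', ?_⟩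
      · exact (mo_alg b2 b1' b2' hζ0 (sub_ne_zero.2 hζ1) h1ζ (hd ζ hζm)).2.1 e1
      · exact (mo_alg b2 b1' b2' hζ0 (sub_ne_zero.2 hζ1) h1ζ (hd ζ hζm)).2.2 e2)
  have hcI : ∀ r, r < 2 → ((I r).image fun b => (f^[n * b + r] a).1 / (f^[n * b + r] a).2).card =
      (I r).card := by
    intro r hr
    refine Finset.card_image_of_injOn fun b hb b' hb' he => ?_
    obtain ⟨bs, b1, b2⟩ := hIm r b hb
    obtain ⟨bs', b1', b2'⟩ := hIm r b' hb'
    by_contra hcon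
    exact hinj r hr b (Finset.mem_range.2 bs) b' (Finset.mem_range.2 bs') hcon
      (quot_inj b2 b2' he)
  rw [hcI 0 (by omega), hcI 1 (by omega)] at hfin
  have c0 := hIc 0 (by omega)
  have c1 := hIc 1 (by omega)
  have hs3 : s ≤ B + 2 := by omega
  calc t + 1 ≤ n * s + n := hst'
    _ ≤ n * (B + 2) + n := Nat.add_le_add_right (Nat.mul_le_mul_left _ hs3) _
    _ = (B + 3) * n := by ring
    _ ≤ (B + 4) * n := Nat.mul_le_mul_right _ (by omega)

end Pool.Agent.PDR
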