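import Pool.Agent.PDR.Conv
import Pool.Agent.PDR.Cyc2
import Pool.Agent.PDR.SymCyc
import Pool.Agent.PDR.SymTail

set_option autoImplicit false

/-!
# PDR: the theorems
-/

open NumberField IsDedekindDomain
open scoped WithZero Nat LinearAlgebra.Projectivization

noncomputable section

namespace Pool.Agent.PDR

open WithZero

section Proj

variable {K : Type} [Field K]

/-- from points of the projective line to pairs -/
lemma proj_pairs {S : Finset (ℙ K (Fin 2 → K))} {R : (Fin 2 → K) → Prop} {B : ℕ}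
    (hS : ∀ P ∈ S, ∃ (v : Fin 2 → K) (hv : v ≠ 0), Projectivization.mk K v hv = P ∧ R v)
    (h : ∀ S' : Finset (K × K), (∀ a ∈ S', ∃ v : Fin 2 → K, v ≠ 0 ∧ tp v = a ∧ R v) →
      (∀ a ∈ S', ∀ b ∈ S', a ≠ b → dt a b ≠ 0) → S'.card ≤ B) : S.card ≤ B := by
  classical
  choose! g hg0 hg1 hg2 using hS
  have hinj : Set.InjOn (fun P => tp (g P)) S := by
    intro P hP P' hP' he
    have he' : g P = g P' := tp_inj he
    rw [← hg1 P hP, ← hg1 P' hP']
    simp only [he']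
  rw [← Finset.card_image_of_injOn hinj]
  refine h _ (fun a ha => ?_) (fun a ha b hb hab h0 => ?_)
  · obtain ⟨P, hP, rfl⟩ := Finset.mem_image.1 ha
    exact ⟨g P, hg0 P hP, rfl, hg2 P hP⟩
  · obtain ⟨P, hP, rfl⟩ := Finset.mem_image.1 ha
    obtain ⟨P', hP', rfl⟩ := Finset.mem_image.1 hb
    apply hab
    obtain ⟨c, hc, e⟩ := (same_iff (tp_ne.2 (hg0 P hP)) (tp_ne.2 (hg0 P' hP'))).1 h0
    have e' : c • g P' = g P := (tp_inj (e.trans rfl)).symm
    have e2 : P = P' := by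
      rw [← hg1 P hP, ← hg1 P' hP', Projectivization.mk_eq_mk_iff']
      exact ⟨c, e'⟩
    rw [e2]

end Proj

/-- the vectors whose cycle has length at least two -/
def TT {K : Type} [Field K] (f : K × K → K × K) : Set (K × K) :=
  {a | a ≠ 0 ∧ ∃ k n, 2 ≤ n ∧ PP f (f^[k] a) n}

section TT

variable {K : Type} [Field K] {f : K × K → K × K}

lemma tt_map (hf : Pj f) {a : K × K} (ha : a ∈ TT f) : f a ∈ TT f := by
  obtain ⟨h0, k, n, hn, h1⟩ := ha
  refine ⟨hf.ne _ h0, k, n, hn, ?_⟩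
  rw [← Function.iterate_succ_apply f, Function.iterate_succ_apply']
  exact h1.map hf (hf.it_ne k h0)

lemma pp_two {a : K × K} {n : ℕ} (hn : 2 ≤ n) (h : PP f a n) : dt (f a) a ≠ 0 := by
  intro h0
  have := Nat.le_of_dvd (by omega) (h.min 1 h0)
  omega

lemma tt_cyc {a : K × K} (ha : a ∈ TT f) : ∃ k n, 0 < n ∧ dt (f^[n] (f^[k] a)) (f^[k] a) = 0 ∧
    dt (f (f^[k] a)) (f^[k] a) ≠ 0 := by
  obtain ⟨-, k, n, hn, h1⟩ := ha
  exact ⟨k, n, h1.pos, h1.per, pp_two hn h1⟩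

lemma PP.mapi (hf : Pj f) {a : K × K} (ha : a ≠ 0) {n : ℕ} (h : PP f a n) (i : ℕ) :
    PP f (f^[i] a) n := by
  induction i with
  | zero => exact h
  | succ i ih =>
    rw [Function.iterate_succ_apply']
    exact ih.map hf (hf.it_ne i ha)

lemma PP.uniq {a : K × K} {n m : ℕ} (h : PP f a n) (h' : PP f a m) : n = m :=
  Nat.dvd_antisymm (h.min m h'.per) (h'.min n h.per)

/-- the first periodic point of an orbit -/
lemma first_per (hf : Pj f) {a : K × K} (ha : a ≠ 0) {k n : ℕ} (h : PP f (f^[k] a) n) :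
    PP f a n ∨ ∃ t, PP f (f^[t + 1] a) n ∧ NPer f (f^[t] a) := by
  classical
  have hex : ∃ k, ∃ m, PP f (f^[k] a) m := ⟨k, n, h⟩
  obtain ⟨j, ⟨m, hm⟩, hmin⟩ : ∃ j, (∃ m, PP f (f^[j] a) m) ∧ ∀ i < j, ¬ ∃ m, PP f (f^[i] a) m :=
    ⟨Nat.find hex, Nat.find_spec hex, fun i hi => Nat.find_min hex hi⟩
  have hmn : m = n := by
    rcases le_total j k with h1 | h1
    · obtain ⟨i, rfl⟩ := Nat.exists_eq_add_of_le h1
      have h2 := hm.mapi hf (hf.it_ne j ha) i
      rw [← Function.iterate_add_apply, add_comm i j] at h2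
      exact h2.uniq h
    · obtain ⟨i, rfl⟩ := Nat.exists_eq_add_of_le h1
      have h2 := h.mapi hf (hf.it_ne k ha) i
      rw [← Function.iterate_add_apply, add_comm i k] at h2
      exact hm.uniq h2
  subst hmn
  rcases Nat.eq_zero_or_pos j with h0 | h0
  · subst h0
    exact Or.inl hm
  · obtain ⟨t, rfl⟩ : ∃ t, j = t + 1 := ⟨j - 1, by omega⟩
    refine Or.inr ⟨t, hm, fun i hi h1 => ?_⟩
    obtain ⟨p, hp⟩ := exists_PP hf (hf.it_ne t ha) hi h1
    exact hmin t (by omega) ⟨p, hp⟩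

end TT

/-- few points with short cycles and short tails -/
lemma few {K : Type} [Field K] {F G : MvPolynomial (Fin 2) K} {d : ℕ} (hd : 2 ≤ d)
    (hF : F.IsHomogeneous d) (hG : G.IsHomogeneous d) (h : NCZ F G) {C r : ℕ} (hr : 1 ≤ r)
    (S : Finset (K × K)) (hS0 : ∀ a ∈ S, a ≠ 0)
    (hS : ∀ a ∈ S, ∀ b ∈ S, a ≠ b → dt a b ≠ 0)
    (hST : ∀ a ∈ S, ∃ k n, PP (fm F G K) ((fm F G K)^[k] a) n ∧ n ≤ r ∧
      ∀ t, PP (fm F G K) ((fm F G K)^[t + 1] a) n → NPer (fm F G K) ((fm F G K)^[t] a) →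
        t + 1 ≤ C * n) : S.card ≤ d ^ ((C + 3) * r) := by
  classical
  have hf := pj_fm hF hG h
  have hsub : S ⊆ (Finset.Icc 1 r).biUnion fun n => S.filter fun a =>
      dt ((fm F G K)^[C * n + n] a) ((fm F G K)^[C * n] a) = 0 := by
    intro a ha
    obtain ⟨k, n, h1, h2, h3⟩ := hST a ha
    rw [Finset.mem_biUnion]
    refine ⟨n, Finset.mem_Icc.2 ⟨h1.pos, h2⟩, Finset.mem_filter.2 ⟨ha, ?_⟩⟩
    have ha0 := hS0 a ha
    have key : ∀ j, j ≤ C * n → PP (fm F G K) ((fm F G K)^[j] a) n →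
        dt ((fm F G K)^[C * n + n] a) ((fm F G K)^[C * n] a) = 0 := by
      intro j hj hp
      obtain ⟨i, hi⟩ := Nat.exists_eq_add_of_le hj
      have h4 := (hp.mapi hf (hf.it_ne j ha0) i).per
      rw [← Function.iterate_add_apply _ i j, ← Function.iterate_add_apply _ n] at h4
      rw [hi, show j + i + n = n + (i + j) by ring, show j + i = i + j by ring]
      exact h4
    rcases first_per hf ha0 h1 with h4 | ⟨t, h4, h5⟩
    · exact key 0 (Nat.zero_le _) h4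
    · exact key (t + 1) (h3 t h4 h5) h4
  have hcard : ∀ n ∈ Finset.Icc 1 r, (S.filter fun a =>
      dt ((fm F G K)^[C * n + n] a) ((fm F G K)^[C * n] a) = 0).card ≤ d ^ ((C + 1) * r + 1) := by
    intro n hn
    rw [Finset.mem_Icc] at hn
    have h1 := count_points hd hF hG h (C * n) n hn.1 (S.filter fun a =>
      dt ((fm F G K)^[C * n + n] a) ((fm F G K)^[C * n] a) = 0)
      (fun a ha b hb => hS a (Finset.mem_filter.1 ha).1 b (Finset.mem_filter.1 hb).1)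
      fun a ha => (Finset.mem_filter.1 ha).2
    refine h1.trans (Nat.pow_le_pow_right (by omega) ?_)
    have h2 : (C + 1) * n ≤ (C + 1) * r := Nat.mul_le_mul_left _ hn.2
    have h3 : C * n + n = (C + 1) * n := by ring
    omega
  have h1 := (Finset.card_le_card hsub).trans (Finset.card_biUnion_le_card_mul _ _ _ hcard)
  rw [Nat.card_Icc, Nat.add_sub_cancel] at h1
  have h2 : r ≤ d ^ r := (Nat.lt_pow_self (by omega)).le
  calc S.card ≤ r * d ^ ((C + 1) * r + 1) := h1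
    _ ≤ d ^ r * d ^ ((C + 1) * r + 1) := Nat.mul_le_mul_right _ h2
    _ = d ^ (r + ((C + 1) * r + 1)) := (pow_add _ _ _).symm
    _ ≤ d ^ ((C + 3) * r) := by
      refine Nat.pow_le_pow_right (by omega) ?_
      have : (C + 3) * r = r + ((C + 1) * r) + r := by ring
      omega

/-- the abstract setting for a tame map -/
lemma sysr_of {K : Type} [Field K] [NumberField K] {A : Finset K} {M M' N N' d : ℕ}
    {F G : MvPolynomial (Fin 2) K} (hMM : M' ∣ M) (hd : 2 ≤ d) (hF : F.IsHomogeneous d)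
    (hG : G.IsHomogeneous d) (h : NCZ F G)
    (hA : ∀ (M d : ℕ), M' ∣ M → 2 ≤ d →
    ∀ (f : K × K → K × K) (T : Set (K × K)), (∀ a, a ≠ 0 → f a ≠ 0) →
    (∀ a ∈ T, a ≠ 0) → (∀ a ∈ T, f a ∈ T) →
    (∀ a ∈ T, ∃ k n, 0 < n ∧ dt (f^[n] (f^[k] a)) (f^[k] a) = 0 ∧
      dt (f (f^[k] a)) (f^[k] a) ≠ 0) →
    (T.Nonempty → ∀ v : HeightOneSpectrum (𝓞 K), (N' : 𝓞 K) ∉ v.asIdeal →
      TameV M (v.valuation K) d f) →
    SysR A M' N' f d T)
    (hNN : ∀ v : HeightOneSpectrum (𝓞 K), (N' : 𝓞 K) ∉ v.asIdeal → (N : 𝓞 K) ∉ v.asIdeal)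
    (ht : (∃ (v : Fin 2 → K) (n : ℕ), 2 ≤ n ∧ HasPeriod F G n v) →
      ∀ w : HeightOneSpectrum (𝓞 K), (N : 𝓞 K) ∉ w.asIdeal → Tame M (w.valuation K) d F G) :
    SysR A M' N' (fm F G K) d (TT (fm F G K)) := by
  have hf := pj_fm hF hG h
  refine hA M d hMM hd _ _ (fun a ha => h.ne ha) (fun a ha => ha.1) (fun a ha => tt_map hf ha)
    (fun a ha => tt_cyc ha) fun hT v hv => tameV_of (ht ?_ v (hNN v hv))
  obtain ⟨a, ha, k, n, hn, hp⟩ := hT
  refine ⟨![((fm F G K)^[k] a).1, ((fm F G K)^[k] a).2], n, hn, of_pp hf ?_ hp⟩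
  exact tp_ne.1 (hf.it_ne k ha)

/-- the theorem on tame rational maps -/
theorem thmR (hG' : HMW.T_KGU) (K : Type) [Field K] [NumberField K] (M N : ℕ) (hM : 5 ≤ M)
    (hN : N ≠ 0) : ∃ B : ℕ, ∀ (d : ℕ) (F G : MvPolynomial (Fin 2) K), 2 ≤ d →
    F.IsHomogeneous d → G.IsHomogeneous d →
    (∀ x : Fin 2 → AlgebraicClosure K, x ≠ 0 →
      ¬ (MvPolynomial.aeval x F = 0 ∧ MvPolynomial.aeval x G = 0)) →
    ((∃ (v : Fin 2 → K) (n : ℕ), 2 ≤ n ∧ HasPeriod F G n v) →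
      ∀ w : HeightOneSpectrum (𝓞 K), (N : 𝓞 K) ∉ w.asIdeal → Tame M (w.valuation K) d F G) →
    (∀ (v : Fin 2 → K) (n q : ℕ), HasPeriod F G n v → q ∣ n →
      (q.Coprime 6 ∨ (Odd q ∧ TotRam F G d) ∨ 2 ∣ M) → q ≤ B) ∧
    ∀ r : ℕ, 1 ≤ r → ∀ S : Finset (ℙ K (Fin 2 → K)),
      (∀ P ∈ S, ∃ (v : Fin 2 → K) (hv : v ≠ 0), Projectivization.mk K v hv = P ∧
        ∃ k n : ℕ, HasPeriod F G n ((val F G)^[k] v) ∧
          (k = 0 ∨ 4 ≤ n ∨ (n = 3 ∧ TotRam F G d)) ∧ (n ≤ r ∨ 2 ∣ M)) →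
      S.card ≤ d ^ (B * r) := by
  classical
  obtain ⟨A, hA0, hA⟩ := sys_of_tame K M N (by omega) hN
  obtain ⟨A₂, hA20, hA2⟩ := sys_of_tame K 2 N (by omega) hN
  obtain ⟨B₁, hB₁⟩ := five_pow hG' K A hA0 M N hM
  obtain ⟨B₂, hB₂⟩ := small_pow hG' K A A₂ hA0 hA20 M N hM
  obtain ⟨B₃, hB₃⟩ := tail_le hG' K A hA0 M N hM
  obtain ⟨B₄, hB₄⟩ := three_pow hG' K A hA0 M N hM
  obtain ⟨B₅, hB₅⟩ := tail_leq hG' K A hA0 M N hM
  set E : ℕ := (B₁ + B₂ + B₄)! with hE
  have hE1 : 1 ≤ E := Nat.factorial_pos _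
  refine ⟨(B₃ + B₅ + 4) * E, fun d F G hd hF hG hncz ht => ?_⟩
  have h := ncz_of hncz
  have hf := pj_fm hF hG h
  have hsys : SysR A M N (fm F G K) d (TT (fm F G K)) :=
    sysr_of dvd_rfl hd hF hG h hA (fun v hv => hv) ht
  have hEB : E ≤ (B₃ + B₅ + 4) * E := Nat.le_mul_of_pos_left _ (by omega)
  have hone : ∀ (a : K × K) (n q : ℕ), a ≠ 0 → PP (fm F G K) a n → q ∣ n →
      (q.Coprime 6 ∨ (Odd q ∧ TotRam F G d) ∨ 2 ∣ M) → q ≤ E := by
    intro a n q ha hp hqn hc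
    rcases Nat.lt_or_ge n 2 with h1 | h1
    · have := Nat.le_of_dvd hp.pos hqn
      omega
    have haT : a ∈ TT (fm F G K) := ⟨ha, 0, n, h1, hp⟩
    have h2 : q ∣ (B₁ + B₂ + B₄)! := PDQ.dvd_fac fun p j hpp hj hpj => by
      have hpq : p ∣ q := (dvd_pow_self p hj.ne').trans hpj
      by_cases h5 : 5 ≤ p
      · exact (hB₁ _ _ _ hf hsys a n haT hp p j hpp h5 (hpj.trans hqn)).trans (by omega)
      have h6 : p = 2 ∨ p = 3 := by
        have h4 := hpp.two_le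
        rcases (show p = 2 ∨ p = 3 ∨ p = 4 by omega) with h7 | h7 | h7
        · exact Or.inl h7
        · exact Or.inr h7
        · rw [h7] at hpp
          exact absurd hpp (by norm_num)
      rcases hc with hc | ⟨hc, hc'⟩ | hc
      · have h7 : p ∣ 6 := by
          rcases h6 with rfl | rfl
          · norm_num
          · norm_num
        exact absurd (Nat.eq_one_of_dvd_coprimes hc hpq h7) hpp.one_lt.ne'
      · obtain ⟨o, g, ho⟩ := tram_of hc'
        have h7 : p ≠ 2 := by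
          rintro rfl
          exact (Nat.not_even_iff_odd.2 hc) (even_iff_two_dvd.2 hpq)
        exact (hB₄ _ _ _ hf hsys o g ho a n haT hp p j hpp h7 (hpj.trans hqn)).trans (by omega)
      · have hsys2 : SysR A₂ 2 N (fm F G K) d (TT (fm F G K)) :=
          sysr_of hc hd hF hG h hA2 (fun v hv => hv) ht
        exact (hB₂ _ _ _ hf hsys hsys2 a n haT hp p j hpp (by omega) (hpj.trans hqn)).trans
          (by omega)
    exact Nat.le_of_dvd (Nat.factorial_pos _) h2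
  refine ⟨fun v n q hp hqn hc => ?_, fun r hr S hS => ?_⟩
  · exact (hone _ n q (tp_ne.2 hp.1) (pp_of hf hp) hqn hc).trans hEB
  · refine proj_pairs hS fun S' hS' hSS => ?_
    have hrE : 1 ≤ r * E := Nat.mul_pos hr hE1
    have h1 := few hd hF hG h (C := B₃ + B₅ + 1) (r := r * E) hrE S' (fun a ha => by
      obtain ⟨v, hv, rfl, -⟩ := hS' a ha
      exact tp_ne.2 hv) hSS (fun a ha => by
      obtain ⟨v, hv, rfl, k, n, hp, hk, hn⟩ := hS' a ha
      have hp' := pp_of hf hp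
      rw [tp_val_it] at hp'
      have hv' := tp_ne.2 hv
      refine ⟨k, n, hp', ?_, fun t h2 h3 => ?_⟩
      · rcases hn with h4 | h4
        · calc n ≤ r * 1 := by omega
            _ ≤ r * E := Nat.mul_le_mul_left _ hE1
        · calc n ≤ 1 * E := by
                rw [one_mul]
                exact hone _ n n (hf.it_ne k hv') hp' dvd_rfl (Or.inr (Or.inr h4))
            _ ≤ r * E := Nat.mul_le_mul_right _ hr
      · rcases hk with hk | hk | ⟨hk, hk'⟩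
        · subst hk
          have h4 := (hp'.mapi hf hv' t).per
          exact absurd h4 (h3 n hp'.pos)
        · refine (hB₃ _ _ _ hf hsys _ n t ⟨hv', t + 1, n, by omega, h2⟩ hk h2 h3).trans ?_
          exact Nat.mul_le_mul_right _ (by omega)
        · obtain ⟨o, g, ho⟩ := tram_of hk'
          refine (hB₅ _ _ _ hf hsys o g ho _ n t ⟨hv', t + 1, n, by omega, h2⟩ (by omega)
            h2 h3).trans ?_
          exact Nat.mul_le_mul_right _ (by omega))
    refine h1.trans (Nat.pow_le_pow_right (by omega) ?_)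
    calc (B₃ + B₅ + 1 + 3) * (r * E) = (B₃ + B₅ + 4) * E * r := by ring
      _ ≤ (B₃ + B₅ + 4) * E * r := le_rfl

end Pool.Agent.PDR
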