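import Pool.Agent.PDR.SymCyc
import Pool.Agent.PDR.SymTail

set_option autoImplicit false

/-!
# PDR: tails of maps with a symmetry
-/

open NumberField IsDedekindDomain
open scoped WithZero

noncomputable section

namespace Pool.Agent.PDR

open WithZero
open Pool.Agent.PDP (Sg Sq wb wb2 gcd_mul_aux mo win_mo)

/-- coordinates in which a linear map with eigenvalues of quotient `ζ` is a rotation -/
lemma eig {K L : Type} [Field K] [Field L] (φ : K →+* L) {α β γ δ : K} {ζ : L}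
    (h1 : 1 + ζ ≠ 0) (h2 : ζ - 1 ≠ 0) (htr : α + δ ≠ 0)
    (hω : φ (α + δ) ^ 2 * ζ = (1 + ζ) ^ 2 * φ (α * δ - β * γ))
    (hv : ∃ v, dt (lin α β γ δ v) v ≠ 0) : ∃ (Λ : K × K → L × L) (C c : L), C ≠ 0 ∧ c ≠ 0 ∧
      (∀ a b, dt (Λ a) (Λ b) = C * φ (dt a b)) ∧
      ∀ a, Λ (lin α β γ δ a) = c • rot ζ (Λ a) := by
  obtain ⟨v, hv⟩ := hv
  have hτ : φ (α + δ) ≠ 0 := (map_ne_zero φ).2 htr
  obtain ⟨l, hl⟩ : ∃ l : L, l = φ (α + δ) / (1 + ζ) := ⟨_, rfl⟩
  have hl' : l * (1 + ζ) = φ (α + δ) := by rw [hl, div_mul_cancel₀ _ h1]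
  have hl0 : l ≠ 0 := by rw [hl]; exact div_ne_zero hτ h1
  have hdet : l ^ 2 * ζ = φ (α * δ - β * γ) := by
    have h3 : (1 + ζ) ^ 2 * (l ^ 2 * ζ - φ (α * δ - β * γ)) = 0 := by
      rw [← hl'] at hω
      linear_combination hω
    exact sub_eq_zero.1 ((mul_eq_zero.1 h3).resolve_left (pow_ne_zero _ h1))
  have hφ1 : φ α + φ δ = l * (1 + ζ) := by rw [hl', map_add]
  have hφ2 : φ α * φ δ - φ β * φ γ = l ^ 2 * ζ := by rw [hdet, map_sub, map_mul, map_mul]
  set V : L × L := em φ v with hV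
  set W : L × L := em φ (lin α β γ δ v) with hW
  have hW1 : W.1 = φ α * V.1 + φ β * V.2 := by
    rw [hW, hV]
    unfold em lin
    dsimp only
    rw [map_add, map_mul, map_mul]
  have hW2 : W.2 = φ γ * V.1 + φ δ * V.2 := by
    rw [hW, hV]
    unfold em lin
    dsimp only
    rw [map_add, map_mul, map_mul]
  have hWV : dt W V ≠ 0 := by
    rw [hW, hV, dt_em]
    exact (map_ne_zero φ).2 hv
  have hWV' : dt W V = W.1 * V.2 - W.2 * V.1 := rfl
  refine ⟨fun a => (dt (em φ a) (W - (l * ζ) • V), dt (em φ a) (W - l • V)),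
    (l - l * ζ) * dt V W, l, ?_, hl0, fun a b => ?_, fun a => ?_⟩
  · rw [dt_swap]
    refine mul_ne_zero ?_ (neg_ne_zero.2 hWV)
    have : l - l * ζ = -(l * (ζ - 1)) := by ring
    rw [this]
    exact neg_ne_zero.2 (mul_ne_zero hl0 h2)
  · rw [← dt_em]
    unfold dt
    simp only [Prod.fst_sub, Prod.snd_sub, Prod.smul_fst, Prod.smul_snd, smul_eq_mul]
    ring
  · have ea1 : (em φ (lin α β γ δ a)).1 = φ α * (em φ a).1 + φ β * (em φ a).2 := by
      unfold em lin
      dsimp only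
      rw [map_add, map_mul, map_mul]
    have ea2 : (em φ (lin α β γ δ a)).2 = φ γ * (em φ a).1 + φ δ * (em φ a).2 := by
      unfold em lin
      dsimp only
      rw [map_add, map_mul, map_mul]
    unfold rot
    refine Prod.ext ?_ ?_
    · simp only [Prod.smul_mk, smul_eq_mul]
      unfold dt
      simp only [Prod.fst_sub, Prod.snd_sub, Prod.smul_fst, Prod.smul_snd, smul_eq_mul]
      rw [ea1, ea2, hW1, hW2]
      have hδ : φ δ = l * (1 + ζ) - φ α := by rw [← hφ1]; ring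
      rw [hδ] at hφ2 ⊢
      linear_combination ((em φ a).1 * V.2 - (em φ a).2 * V.1) * hφ2
    · simp only [Prod.smul_mk, smul_eq_mul]
      unfold dt
      simp only [Prod.fst_sub, Prod.snd_sub, Prod.smul_fst, Prod.smul_snd, smul_eq_mul]
      rw [ea1, ea2, hW1, hW2]
      have hδ : φ δ = l * (1 + ζ) - φ α := by rw [← hφ1]; ring
      rw [hδ] at hφ2 ⊢
      linear_combination ((em φ a).1 * V.2 - (em φ a).2 * V.1) * hφ2

section

variable {K : Type} [Field K]

/-- the distances of the conjugates of a point -/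
lemma GR.sq_const {f : K × K → K × K} {w : Valuation K ℤᵐ⁰} {d ε : ℕ}
    {D : K × K → K × K → ℤᵐ⁰} {ρ : K × K → ℤᵐ⁰} {κ : ℤᵐ⁰} (h : GR w f d ε D ρ κ) (hd0 : d ≠ 0)
    (hsm : ∃ d : ℕ, ∀ (c : K) a, f (c • a) = c ^ d • f a) {α β γ δ χ ω : K}
    (hs : Sy f α β γ δ χ) (htr : α + δ ≠ 0) (hω : (α + δ) ^ 2 = ω * (α * δ - β * γ))
    (hωw : w ω = 1) {b : K × K} (hb : b ≠ 0) (hbb : dt (lin α β γ δ b) b ≠ 0) :
    log (D ((lin α β γ δ)^[2] b) ((lin α β γ δ)^[1] b)) =
      log (D ((lin α β γ δ)^[2] b) b) ∧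
    log (D b ((lin α β γ δ)^[1] b)) = log (D b ((lin α β γ δ)^[2] b)) := by
  set σ := lin α β γ δ with hσ
  have hσ1 : σ^[1] b = σ b := rfl
  have hσ2 : σ^[2] b = σ (σ b) := rfl
  have hb1 : σ b ≠ 0 := lin_ne hs.det hb
  have hb2 : σ (σ b) ≠ 0 := lin_ne hs.det hb1
  have e1 : D (σ (σ b)) (σ b) = D (σ b) b := h.sym hd0 hs hsm hb1 hb hbb
  have hwd : w (α * δ - β * γ) ≠ 0 := (Valuation.ne_zero_iff w).2 hs.det
  have hwt : w (α + δ) ≠ 0 := (Valuation.ne_zero_iff w).2 htr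
  have hwχ : w χ ≠ 0 := (Valuation.ne_zero_iff w).2 hs.chi
  have e2 : dt (σ (σ b)) b = (α + δ) * dt (σ b) b := by
    rw [hσ]
    unfold dt lin
    ring
  have e3 : dt (σ (σ b)) b ≠ 0 := by
    rw [e2]
    exact mul_ne_zero htr hbb
  have hd' : (d : ℤ) ≠ 0 := by exact_mod_cast hd0
  -- the change of the norm
  have key : ∀ {a a' : K × K}, a ≠ 0 → a' ≠ 0 → log (ρ (σ a)) - log (ρ a) =
      log (ρ (σ a')) - log (ρ a') := by
    have h1 : ∀ {a : K × K}, a ≠ 0 → (d : ℤ) * (log (ρ (σ a)) - log (ρ a)) =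
        ε * log (w χ) := by
      intro a ha
      have h2 := congrArg log (h.fib (lin_ne hs.det ha) ha (hs.inv a))
      rw [log_pow, log_mul (pow_ne_zero _ hwχ) (pow_ne_zero _ (h.dd.rho a ha)), log_pow, log_pow,
        nsmul_eq_mul, nsmul_eq_mul, nsmul_eq_mul] at h2
      linear_combination h2
    intro a a' ha ha'
    exact mul_left_cancel₀ hd' ((h1 ha).trans (h1 ha').symm)
  have k1 := key hb1 hb
  have l1 := h.dd.log_eq hb1 hb hbb
  have l2 := h.dd.log_eq hb2 hb e3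
  have hne : dt (σ (σ b)) (σ b) ≠ 0 := by
    rw [hσ, dt_lin]
    exact mul_ne_zero hs.det hbb
  have l3 := h.dd.log_eq hb2 hb1 hne
  rw [e1, hσ, dt_lin, map_mul, log_mul hwd ((Valuation.ne_zero_iff w).2 hbb), ← hσ] at l3
  rw [e2, map_mul, log_mul hwt ((Valuation.ne_zero_iff w).2 hbb)] at l2
  have l4 := congrArg (fun x => log (w x)) hω
  rw [map_pow, map_mul, hωw, one_mul, log_pow, nsmul_eq_mul] at l4
  have hmain : log (D (σ (σ b)) b) = log (D (σ b) b) := by
    have h5 : (2 : ℤ) * (log (D (σ (σ b)) b) - log (D (σ b) b)) = 0 := by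
      push_cast at l4
      linear_combination -2 * l2 + 2 * l1 + ε * l4 + l3 - l1 - k1
    have h6 := (mul_eq_zero.1 h5).resolve_left two_ne_zero
    linarith
  rw [hσ1, hσ2, e1, h.dd.symm b (σ b), h.dd.symm b (σ (σ b)), hmain]
  exact ⟨rfl, rfl⟩

end

/-- tails of cycles of length at least two of maps with a symmetry of order at least three -/
theorem sym_tailg (hG : HMW.T_KGU) (K : Type) [Field K] [NumberField K] (A : Finset K)
    (hA0 : ∀ a ∈ A, a ≠ 0) (M N : ℕ) (hM : 5 ≤ M) (ω : K) (hω0 : ω ≠ 0) (hω4 : ω ≠ 4)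
    (hωN : ∀ v : HeightOneSpectrum (𝓞 K), (N : 𝓞 K) ∉ v.asIdeal → v.valuation K ω = 1) :
    ∃ B : ℕ, ∀ (f : K × K → K × K) (d : ℕ) (T : Set (K × K)), Pj f → d ≠ 0 →
    (∃ d : ℕ, ∀ (c : K) a, f (c • a) = c ^ d • f a) →
    SysR A M N f d T → ∀ α β γ δ χ : K, Sy f α β γ δ χ →
    (α + δ) ^ 2 = ω * (α * δ - β * γ) → (∃ v, dt (lin α β γ δ v) v ≠ 0) →
    (∀ a ∈ T, lin α β γ δ a ∈ T) → ∀ (a : K × K) (n t : ℕ), a ∈ T → 2 ≤ n →
    PP f (f^[t + 1] a) n → NPer f (f^[t] a) → t + 1 ≤ B * n := by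
  classical
  -- the extension
  let pol : Polynomial K := Polynomial.X ^ 2 - Polynomial.C (ω - 2) * Polynomial.X + 1
  have hdeg : pol.degree = 2 := by
    have h1 : pol = Polynomial.C 1 * Polynomial.X ^ 2 + Polynomial.C (-(ω - 2)) * Polynomial.X +
        Polynomial.C 1 := by
      simp only [pol, map_neg, map_one, one_mul]
      ring
    rw [h1]
    exact Polynomial.degree_quadratic one_ne_zero
  let L := pol.SplittingField
  haveI : NumberField L := NumberField.of_module_finite K L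
  have hsp : (pol.map (algebraMap K L)).Splits := Polynomial.SplittingField.splits pol
  obtain ⟨ζ, hζ⟩ := hsp.exists_eval_eq_zero (by
    rw [Polynomial.degree_map, hdeg]
    decide)
  set φ := algebraMap K L with hφ
  have hζ' : ζ ^ 2 - φ (ω - 2) * ζ + 1 = 0 := by
    have h1 := hζ
    simp only [pol, Polynomial.map_add, Polynomial.map_sub, Polynomial.map_mul,
      Polynomial.map_pow, Polynomial.map_X, Polynomial.map_C, Polynomial.map_one,
      Polynomial.eval_add, Polynomial.eval_sub, Polynomial.eval_mul, Polynomial.eval_pow,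
      Polynomial.eval_X, Polynomial.eval_C, Polynomial.eval_one] at h1
    exact h1
  have hφ0 : ∀ {x : K}, φ x = 0 ↔ x = 0 := map_eq_zero φ
  have hζ2 : (1 + ζ) ^ 2 = φ ω * ζ := by
    rw [map_sub, map_ofNat] at hζ'
    linear_combination hζ'
  have hζ0 : ζ ≠ 0 := by
    rintro rfl
    rw [mul_zero, add_zero, one_pow] at hζ2
    exact one_ne_zero hζ2
  have h1ζ : 1 + ζ ≠ 0 := by
    intro h0
    rw [h0, zero_pow two_ne_zero] at hζ2
    exact mul_ne_zero (fun h => hω0 (hφ0.1 h)) hζ0 hζ2.symm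
  have hζ1 : ζ - 1 ≠ 0 := by
    intro h0
    have h1 : ζ = 1 := sub_eq_zero.1 h0
    rw [h1, mul_one] at hζ2
    apply hω4
    have h2 : φ (ω - 4) = 0 := by
      rw [map_sub, ← hζ2, map_ofNat]
      norm_num
    exact sub_eq_zero.1 (hφ0.1 h2)
  obtain ⟨B, hB⟩ := win_mo hG L (A.image φ) (by
    intro x hx
    obtain ⟨y, hy, rfl⟩ := Finset.mem_image.1 hx
    exact (map_ne_zero φ).2 (hA0 y hy)) M hM ζ hζ0 h1ζ hζ1
  refine ⟨B + 4, fun f d T hf hd0 hsm h α β γ δ χ hs hω hv hTσ a n t haT hn2 hPP hnp => ?_⟩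
  set σ := lin α β γ δ with hσ
  have htr : α + δ ≠ 0 := by
    intro h0
    rw [h0, zero_pow two_ne_zero] at hω
    exact mul_ne_zero hω0 hs.det hω.symm
  obtain ⟨Λ, C, c, hC, hc, hΛ, hΛσ⟩ := eig φ h1ζ hζ1 htr (by
    rw [hζ2, ← map_pow, hω, map_mul]
    ring) hv
  rw [← hσ] at hΛσ
  have ha := h.ne a haT
  have huT : ∀ i, f^[i] a ∈ T := fun i => h.it haT _
  have hu0 : ∀ i, f^[i] a ≠ 0 := fun i => hf.it_ne i ha
  have hσT : ∀ (k : ℕ) (b : K × K), b ∈ T → σ^[k] b ∈ T := by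
    intro k b hb
    induction k with
    | zero => exact hb
    | succ k ih =>
      rw [Function.iterate_succ_apply']
      exact hTσ _ ih
  obtain ⟨s, hs'⟩ : ∃ s, s = t / n := ⟨_, rfl⟩
  have hst : n * s ≤ t := by rw [hs']; exact Nat.mul_div_le t n
  have hst' : t < n * s + n := by
    rw [hs']
    have := Nat.lt_mul_div_succ t (show 0 < n by omega)
    rwa [Nat.mul_succ] at this
  have hidx : ∀ b r, b < s → r < 2 → n * b + r < t := by
    intro b r hb hr
    calc n * b + r < n * b + n := by omega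
      _ = n * (b + 1) := by ring
      _ ≤ n * s := Nat.mul_le_mul_left _ hb
      _ ≤ t := hst
  -- distances
  have hD : ∀ {v : HeightOneSpectrum (𝓞 K)} {ε : ℕ} {D : K × K → K × K → ℤᵐ⁰}
      {ρ : K × K → ℤᵐ⁰} {κ : ℤᵐ⁰}, GR (v.valuation K) f d ε D ρ κ → ∀ (i j : ℕ), i < t → j < t →
      ¬ (n : ℤ) ∣ (i : ℤ) - j → ∀ k : ℕ, D (f^[i] a) (σ^[k] (f^[j] a)) = 1 := by
    intro v ε D ρ κ hD i j hi hj hij k
    have hr0 := hs.it_ne k (hu0 j)
    refine le_antisymm (hD.le_one _ _ (hu0 i) hr0) ?_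
    have h1 := hD.nonexp _ _ (hu0 i) hr0
    rw [hs.it, hD.dd.symm, hD.smul _ _ _ (pow_ne_zero _ hs.chi), hD.dd.symm,
      ← Function.iterate_succ_apply' f, ← Function.iterate_succ_apply' f] at h1
    have h2 := hD.tl hf ha hPP hnp (i := i + 1) (j := j + 1) (by omega) (by omega) (by
      push_cast
      rwa [add_sub_add_right_eq_sub])
    rw [show i.succ = i + 1 from rfl, show j.succ = j + 1 from rfl, h2] at h1
    exact h1
  have hne : ∀ i j, i < t → j < t → i ≠ j → ∀ k : ℕ,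
      dt (f^[i] a) (σ^[k] (f^[j] a)) ≠ 0 := by
    intro i j hi hj hij k h0
    have h1 := hf.par _ _ h0
    rw [hs.it, dt_smul_right, ← Function.iterate_succ_apply' f,
      ← Function.iterate_succ_apply' f] at h1
    exact hnp.ne hf (i := i + 1) (j := j + 1) (by omega) (by omega) (by omega)
      ((mul_eq_zero.1 h1).resolve_left (pow_ne_zero _ hs.chi))
  have hres : ∀ b b' : ℕ, ¬ (n : ℤ) ∣ ((n * b + 0 : ℕ) : ℤ) - ((n * b' + 1 : ℕ) : ℤ) := by
    intro b b' h1
    have h2 : ((n * b + 0 : ℕ) : ℤ) - ((n * b' + 1 : ℕ) : ℤ) = n * ((b : ℤ) - b') + (-1) := by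
      push_cast
      ring
    rw [h2] at h1
    have h3 : (n : ℤ) ∣ -1 := (Int.dvd_add_right (Dvd.intro _ rfl)).1 h1
    have h4 := Int.le_of_dvd (by norm_num) ((dvd_neg).2 h3)
    omega
  have hnn : ∀ b b' : ℕ, n * b + 0 ≠ n * b' + 1 := by
    intro b b' he
    refine hres b b' ?_
    rw [he, sub_self]
    exact dvd_zero _
  have hinj : ∀ r, r < 2 → ∀ b ∈ Finset.range s, ∀ b' ∈ Finset.range s, b ≠ b' →
      dt (Λ (f^[n * b + r] a)) (Λ (f^[n * b' + r] a)) ≠ 0 := by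
    intro r hr b hb b' hb' hbb
    rw [hΛ]
    refine mul_ne_zero hC fun h0 => hnp.ne hf (hidx b r (Finset.mem_range.1 hb) hr).le
      (hidx b' r (Finset.mem_range.1 hb') hr).le (fun he => hbb ?_) (hφ0.1 h0)
    exact Nat.eq_of_mul_eq_mul_left (by omega) (Nat.add_right_cancel he)
  set I : ℕ → Finset ℕ := fun r => (Finset.range s).filter fun b =>
    ¬ (Λ (f^[n * b + r] a)).1 = 0 ∧ ¬ (Λ (f^[n * b + r] a)).2 = 0 with hI
  have hIm : ∀ r b, b ∈ I r → b < s ∧ (Λ (f^[n * b + r] a)).1 ≠ 0 ∧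
      (Λ (f^[n * b + r] a)).2 ≠ 0 := by
    intro r b hb
    rw [hI] at hb
    simp only [Finset.mem_filter, Finset.mem_range] at hb
    exact hb
  have hIc : ∀ r, r < 2 → s ≤ (I r).card + 2 := by
    intro r hr
    have h1 := axis_card (Finset.range s) (fun b => Λ (f^[n * b + r] a)) (hinj r hr)
    rwa [Finset.card_range] at h1
  have hfin := hB
    ((I 0).image fun b => (Λ (f^[n * b + 0] a)).1 / (Λ (f^[n * b + 0] a)).2)
    ((I 1).image fun b => (Λ (f^[n * b + 1] a)).1 / (Λ (f^[n * b + 1] a)).2) (by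
      intro p hp
      obtain ⟨b, hb, rfl⟩ := Finset.mem_image.1 hp
      obtain ⟨-, h1, h2⟩ := hIm 0 b hb
      exact div_ne_zero h1 h2) (by
      intro p hp
      obtain ⟨b, hb, rfl⟩ := Finset.mem_image.1 hp
      obtain ⟨-, h1, h2⟩ := hIm 1 b hb
      exact div_ne_zero h1 h2) (by
      intro p hp q hq
      obtain ⟨b, hb, rfl⟩ := Finset.mem_image.1 hp
      obtain ⟨b', hb', rfl⟩ := Finset.mem_image.1 hq
      obtain ⟨bs, b1, b2⟩ := hIm 0 b hb
      obtain ⟨bs', b1', b2'⟩ := hIm 1 b' hb'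
      have i1 := hidx b 0 bs (by omega)
      have i2 := hidx b' 1 bs' (by omega)
      set x := f^[n * b + 0] a with hx
      set y := f^[n * b' + 1] a with hy
      have hy0 : y ≠ 0 := hu0 _
      have hd : ∀ k : ℕ, dt x (σ^[k] y) ≠ 0 := hne _ _ i1 i2 (hnn b b')
      have hΛ1 : Λ (σ^[1] y) = c • rot ζ (Λ y) := hΛσ y
      have hΛ2 : Λ (σ^[2] y) = c ^ 2 • rot (ζ ^ 2) (Λ y) := by
        have e1 : σ^[2] y = σ (σ y) := rfl
        rw [e1, hΛσ, hΛσ]
        unfold rot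
        refine Prod.ext ?_ ?_
        · simp only [Prod.smul_mk, smul_eq_mul]; ring
        · simp only [Prod.smul_mk, smul_eq_mul]; ring
      have hyy : dt (σ y) y ≠ 0 := by
        intro h0
        have h1 := hΛ (σ y) y
        rw [h0, map_zero, mul_zero, hΛσ, dt_smul_left] at h1
        have h2 := (mul_eq_zero.1 h1).resolve_left hc
        have h3 := dt_rot ζ 1 (Λ y)
        rw [rot_one, h2] at h3
        exact mul_ne_zero hζ1 (mul_ne_zero b1' b2') h3.symm
      have hyy1 : dt (σ^[2] y) (σ^[1] y) ≠ 0 := by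
        change dt (σ (σ y)) (σ y) ≠ 0
        rw [hσ, dt_lin]
        exact mul_ne_zero hs.det hyy
      have hyy2 : dt (σ^[2] y) (σ^[0] y) ≠ 0 := by
        change dt (σ (σ y)) y ≠ 0
        have e2 : dt (σ (σ y)) y = (α + δ) * dt (σ y) y := by
          rw [hσ]
          unfold dt lin
          ring
        rw [e2]
        exact mul_ne_zero htr hyy
      obtain ⟨u, hu, r, -, e1⟩ := h.pow x (huT _) _ (hσT 2 y (huT _)) _ (hσT 0 y (huT _)) _
        (hσT 1 y (huT _)) (hd 0) hyy1 (hd 1) hyy2 (by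
          intro v hv' ε D ρ κ h3
          rw [hD h3 _ _ i1 i2 (hres b b') 0, hD h3 _ _ i1 i2 (hres b b') 1,
            (h3.sq_const hd0 hsm hs htr hω (hωN v hv') hy0 hyy).1]
          rw [log_one, zero_add, sub_zero, Function.iterate_zero_apply, sub_self]
          exact dvd_zero _)
      obtain ⟨u', hu', r', -, e2⟩ := h.pow x (huT _) _ (hσT 0 y (huT _)) _ (hσT 2 y (huT _)) _
        (hσT 1 y (huT _)) (hd 2) (fun h0 => hyy (dt_comm_zero h0)) (hd 1)
        (fun h0 => hyy2 (dt_comm_zero h0)) (by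
          intro v hv' ε D ρ κ h3
          rw [hD h3 _ _ i1 i2 (hres b b') 2, hD h3 _ _ i1 i2 (hres b b') 1,
            Function.iterate_zero_apply,
            (h3.sq_const hd0 hsm hs htr hω (hωN v hv') hy0 hyy).2]
          rw [log_one, zero_add, sub_zero, sub_self]
          exact dvd_zero _)
      have hdΛ : dt (Λ x) (rot ζ (Λ y)) ≠ 0 := by
        have h1 := hΛ x (σ^[1] y)
        rw [hΛ1, dt_smul_right] at h1
        intro h0
        rw [h0, mul_zero] at h1
        exact mul_ne_zero hC (fun h => hd 1 (hφ0.1 h)) h1.symm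
      obtain ⟨q0, q1, q2⟩ := mo_alg (M := M) (x := φ u) (s := φ r) b2 b1' b2' hζ0 hζ1 h1ζ hdΛ
      obtain ⟨-, -, q2'⟩ := mo_alg (M := M) (x := φ u') (s := φ r') b2 b1' b2' hζ0 hζ1 h1ζ hdΛ
      have hCc : C ^ 2 * c ^ 3 ≠ 0 := mul_ne_zero (pow_ne_zero _ hC) (pow_ne_zero _ hc)
      have g1 : ∀ x y : K × K, C * φ (dt x y) = dt (Λ x) (Λ y) := fun x y => (hΛ x y).symm
      refine ⟨q0, ⟨φ u, Finset.mem_image_of_mem _ hu, φ r, q1 ?_⟩, φ u',
        Finset.mem_image_of_mem _ hu', φ r', q2' ?_⟩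
      · have e3 := congrArg (fun z => C ^ 2 * φ z) e1
        simp only [map_mul, map_pow] at e3
        have e4 : (C * φ (dt x (σ^[0] y))) * (C * φ (dt (σ^[2] y) (σ^[1] y))) =
            φ u * φ r ^ M * ((C * φ (dt x (σ^[1] y))) * (C * φ (dt (σ^[2] y) (σ^[0] y)))) := by
          linear_combination e3
        rw [g1, g1, g1, g1, hΛ1, hΛ2, Function.iterate_zero_apply] at e4
        simp only [dt_smul_left, dt_smul_right] at e4
        rw [rot_one]
        have hc3 : c ^ 3 ≠ 0 := pow_ne_zero _ hc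
        refine mul_left_cancel₀ hc3 ?_
        linear_combination e4
      · have e3 := congrArg (fun z => C ^ 2 * φ z) e2
        simp only [map_mul, map_pow] at e3
        have e4 : (C * φ (dt x (σ^[2] y))) * (C * φ (dt (σ^[0] y) (σ^[1] y))) =
            φ u' * φ r' ^ M *
              ((C * φ (dt x (σ^[1] y))) * (C * φ (dt (σ^[0] y) (σ^[2] y)))) := by
          linear_combination e3
        rw [g1, g1, g1, g1, hΛ1, hΛ2, Function.iterate_zero_apply] at e4
        simp only [dt_smul_left, dt_smul_right] at e4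
        rw [rot_one]
        have hc3 : c ^ 3 ≠ 0 := pow_ne_zero _ hc
        refine mul_left_cancel₀ hc3 ?_
        linear_combination e4)
  have hcI : ∀ r, r < 2 →
      ((I r).image fun b => (Λ (f^[n * b + r] a)).1 / (Λ (f^[n * b + r] a)).2).card =
      (I r).card := by
    intro r hr
    refine Finset.card_image_of_injOn fun b hb b' hb' he => ?_
    obtain ⟨bs, b1, b2⟩ := hIm r b hb
    obtain ⟨bs', b1', b2'⟩ := hIm r b' hb'
    by_contra hcon
    exact hinj r hr b (Finset.mem_range.2 bs) b' (Finset.mem_range.2 bs') hcon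
      (quot_inj b2 b2' he)
  rw [hcI 0 (by omega), hcI 1 (by omega)] at hfin
  have c0 := hIc 0 (by omega)
  have c1 := hIc 1 (by omega)
  have hs3 : s ≤ B + 2 := by omega
  calc t + 1 ≤ n * s + n := hst'
    _ ≤ n * (B + 2) + n := Nat.add_le_add_right (Nat.mul_le_mul_left _ hs3) _
    _ = (B + 3) * n := by ring
    _ ≤ (B + 4) * n := Nat.mul_le_mul_right _ (by omega)

end Pool.Agent.PDR
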