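import Pool.Agent.PDR.Main
import Pool.Agent.PDR.Omega2
import Pool.Agent.PDR.SymT

set_option autoImplicit false

/-!
# PDR: the theorem on rational maps with a symmetry
-/

open NumberField IsDedekindDomain
open scoped WithZero Nat LinearAlgebra.Projectivization

noncomputable section

namespace Pool.Agent.PDR

open WithZero

/-- the sequence of the coefficients for a double eigenvalue -/
lemma useq_dbl {K : Type} [Field K] {τ D : K} (h : τ ^ 2 = 4 * D) (n : ℕ) :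
    2 ^ n * useq τ D (n + 1) = (n + 1 : K) * τ ^ n ∧
    2 ^ (n + 1) * useq τ D (n + 2) = (n + 2 : K) * τ ^ (n + 1) := by
  induction n with
  | zero =>
    constructor
    · rw [zero_add, useq]
      norm_num
    · rw [zero_add, useq, useq, zero_add, useq]
      norm_num
  | succ n ih =>
    refine ⟨?_, ?_⟩
    · rw [ih.2]
      push_cast
      ring
    · rw [useq]
      push_cast
      linear_combination 2 * τ * ih.2 - 4 * D * ih.1 + (n + 1) * τ ^ n * h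

/-- maps of finite order do not have a double eigenvalue -/
lemma omega_ne_four {K : Type} [Field K] [CharZero K] {α β γ δ : K}
    (hv : ∃ v, dt (lin α β γ δ v) v ≠ 0) (htr : α + δ ≠ 0) {k : ℕ} (hk : 0 < k)
    (h : ∀ v, dt ((lin α β γ δ)^[k] v) v = 0) : (α + δ) ^ 2 ≠ 4 * (α * δ - β * γ) := by
  intro h4
  obtain ⟨v, hv⟩ := hv
  obtain ⟨j, rfl⟩ : ∃ j, k = j + 1 := ⟨k - 1, by omega⟩
  have h1 := (useq_dt (α := α) (β := β) (γ := γ) (δ := δ) v (j + 1)).1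
  rw [h v] at h1
  have h2 := (mul_eq_zero.1 h1.symm).resolve_right hv
  have h3 := (useq_dbl h4 j).1
  rw [h2, mul_zero] at h3
  have h5 : ((j : K) + 1) ≠ 0 := by exact_mod_cast j.succ_ne_zero
  exact mul_ne_zero h5 (pow_ne_zero _ htr) h3.symm

/-- the hypotheses of the theorems -/
structure Hy (K : Type) [Field K] [NumberField K] (M N d : ℕ) (F G : MvPolynomial (Fin 2) K) :
    Prop where
  hd : 2 ≤ d
  hF : F.IsHomogeneous d
  hG : G.IsHomogeneous d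
  hn : ∀ x : Fin 2 → AlgebraicClosure K, x ≠ 0 →
      ¬ (MvPolynomial.aeval x F = 0 ∧ MvPolynomial.aeval x G = 0)
  ht : (∃ (v : Fin 2 → K) (n : ℕ), 2 ≤ n ∧ HasPeriod F G n v) →
      ∀ w : HeightOneSpectrum (𝓞 K), (N : 𝓞 K) ∉ w.asIdeal → Tame M (w.valuation K) d F G

lemma tt_sym {K : Type} [Field K] {F G : MvPolynomial (Fin 2) K} {d : ℕ}
    (hF : F.IsHomogeneous d) (hG : G.IsHomogeneous d) (h : NCZ F G) {α β γ δ χ : K}
    (hs : Sy (fm F G K) α β γ δ χ) {a : K × K} (ha : a ∈ TT (fm F G K)) :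
    lin α β γ δ a ∈ TT (fm F G K) := by
  have hf := pj_fm hF hG h
  obtain ⟨ha0, k, n, hn, hp⟩ := ha
  refine ⟨lin_ne hs.det ha0, k + 1, n, hn, ?_⟩
  have h1 : PP (fm F G K) ((fm F G K)^[k + 1] a) n := by
    rw [Function.iterate_succ_apply']
    exact hp.map hf (hf.it_ne k ha0)
  rw [Function.iterate_succ_apply, hs.inv]
  have h2 : (fm F G K)^[k] (χ • fm F G K a) = χ ^ d ^ k • (fm F G K)^[k + 1] a := by
    rw [fm_smul_it hF hG, Function.iterate_succ_apply]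
  rw [h2]
  have hχ : χ ^ d ^ k ≠ 0 := pow_ne_zero _ hs.chi
  refine ⟨h1.pos, ?_, fun m hm => h1.min m ?_⟩
  · rw [fm_smul_it hF hG, dt_smul_left, dt_smul_right, h1.per, mul_zero, mul_zero]
  · rw [fm_smul_it hF hG, dt_smul_left, dt_smul_right] at hm
    exact (mul_eq_zero.1 ((mul_eq_zero.1 hm).resolve_left
      (pow_ne_zero _ hχ))).resolve_left hχ

/-- tails for symmetries with a given invariant -/
lemma tail_om (hG' : HMW.T_KGU) (K : Type) [Field K] [NumberField K] (M N : ℕ) (hM : 5 ≤ M)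
    (hN : N ≠ 0) (ω : K) (hω0 : ω ≠ 0) (hω4 : ω ≠ 4) : ∃ B : ℕ, ∀ (d : ℕ)
    (F G : MvPolynomial (Fin 2) K), Hy K M N d F G → ∀ α β γ δ χ : K,
    Sy (fm F G K) α β γ δ χ → (α + δ) ^ 2 = ω * (α * δ - β * γ) →
    (∃ v, dt (lin α β γ δ v) v ≠ 0) → ∀ (a : K × K) (n t : ℕ), a ∈ TT (fm F G K) → 2 ≤ n →
    PP (fm F G K) ((fm F G K)^[t + 1] a) n → NPer (fm F G K) ((fm F G K)^[t] a) →
    t + 1 ≤ B * n := by
  classical
  obtain ⟨N', hN', hu⟩ := unit_out K ω hω0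
  obtain ⟨A, hA0, hA⟩ := sys_of_tame K M (N * N') (by omega) (Nat.mul_ne_zero hN hN')
  obtain ⟨B, hB⟩ := sym_tailg hG' K A hA0 M (N * N') hM ω hω0 hω4 fun v hv => hu v fun h => hv (by
    rw [Nat.cast_mul]
    exact v.asIdeal.mul_mem_left _ h)
  refine ⟨B, fun d F G hy α β γ δ χ hs hω hv => ?_⟩
  have h := ncz_of hy.hn
  have hd := hy.hd
  exact hB _ d _ (pj_fm hy.hF hy.hG h) (by omega) ⟨d, fun c a => fm_smul hy.hF hy.hG c a⟩
    (sysr_of dvd_rfl hy.hd hy.hF hy.hG h hA (fun v hv hmem => hv (by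
      rw [Nat.cast_mul]
      exact v.asIdeal.mul_mem_right _ hmem)) hy.ht) α β γ δ χ hs hω hv
    fun a ha => tt_sym hy.hF hy.hG h hs ha

/-- tails for all symmetries of order at least three -/
lemma tail_sy (hG' : HMW.T_KGU) (K : Type) [Field K] [NumberField K] (M N : ℕ) (hM : 5 ≤ M)
    (hN : N ≠ 0) : ∃ B : ℕ, ∀ (d : ℕ)
    (F G : MvPolynomial (Fin 2) K), Hy K M N d F G → ∀ α β γ δ χ : K,
    Sy (fm F G K) α β γ δ χ → (∃ v, dt ((lin α β γ δ)^[1] v) v ≠ 0) →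
    (∃ v, dt ((lin α β γ δ)^[2] v) v ≠ 0) → ∀ (a : K × K) (n t : ℕ), a ∈ TT (fm F G K) → 2 ≤ n →
    PP (fm F G K) ((fm F G K)^[t + 1] a) n → NPer (fm F G K) ((fm F G K)^[t] a) →
    t + 1 ≤ B * n := by
  classical
  obtain ⟨Ω, hΩ⟩ := omega_fin K
  have h1 : ∀ ω : K, ∃ B : ℕ, ω ≠ 0 → ω ≠ 4 → ∀ (d : ℕ)
      (F G : MvPolynomial (Fin 2) K), Hy K M N d F G → ∀ α β γ δ χ : K,
      Sy (fm F G K) α β γ δ χ → (α + δ) ^ 2 = ω * (α * δ - β * γ) →
      (∃ v, dt (lin α β γ δ v) v ≠ 0) → ∀ (a : K × K) (n t : ℕ), a ∈ TT (fm F G K) → 2 ≤ n →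
      PP (fm F G K) ((fm F G K)^[t + 1] a) n → NPer (fm F G K) ((fm F G K)^[t] a) →
      t + 1 ≤ B * n := by
    intro ω
    by_cases hω0 : ω = 0
    · exact ⟨0, fun h => absurd hω0 h⟩
    by_cases hω4 : ω = 4
    · exact ⟨0, fun _ h => absurd hω4 h⟩
    obtain ⟨B, hB⟩ := tail_om hG' K M N hM hN ω hω0 hω4
    exact ⟨B, fun _ _ => hB⟩
  choose B hB using h1
  refine ⟨∑ ω ∈ Ω, B ω, fun d F G hy α β γ δ χ hs hv1 hv2 a n t ha hn h2 h3 => ?_⟩
  have h := ncz_of hy.hn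
  have hd := hy.hd
  obtain ⟨k, hk, hkv⟩ := fin_ord (by omega) hy.hF hy.hG h hs
  have hmem := hΩ α β γ δ hs.det ⟨k, hk, hkv⟩
  have htr : α + δ ≠ 0 := by
    intro h0
    obtain ⟨v, hv⟩ := hv2
    apply hv
    have h4 := (useq_dt (α := α) (β := β) (γ := γ) (δ := δ) v 2).1
    rw [h4, useq, useq, h0]
    ring
  have h4 := omega_ne_four hv1 htr hk hkv
  refine (hB _ (div_ne_zero (pow_ne_zero _ htr) hs.det) (fun h5 => h4 ?_) d F G hy α β γ δ χ hs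
    (div_mul_cancel₀ _ hs.det).symm hv1 a n t ha hn h2 h3).trans
    (Nat.mul_le_mul_right _ (Finset.single_le_sum (fun _ _ => Nat.zero_le _) hmem))
  rw [div_eq_iff hs.det] at h5
  exact h5

/-- the points in the cycles of length at least two and their preimages, for pairs -/
theorem symP (hG' : HMW.T_KGU) (K : Type) [Field K] [NumberField K] (M N : ℕ) (hM : 5 ≤ M)
    (hN : N ≠ 0) : ∃ B : ℕ, ∀ (d : ℕ) (F G : MvPolynomial (Fin 2) K), Hy K M N d F G →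
    ∀ α β γ δ χ : K, Sy (fm F G K) α β γ δ χ → (∃ v, dt ((lin α β γ δ)^[1] v) v ≠ 0) →
    (∃ v, dt ((lin α β γ δ)^[2] v) v ≠ 0) →
    (((∃ v, dt ((lin α β γ δ)^[3] v) v ≠ 0) ∨ TotRam F G d) →
      ∀ S : Finset (K × K), (∀ a ∈ S, a ∈ TT (fm F G K) ∧ ∃ n, 0 < n ∧
        dt ((fm F G K)^[n] a) a = 0) → (∀ a ∈ S, ∀ b ∈ S, a ≠ b → dt a b ≠ 0) → S.card ≤ B) ∧
    (((∃ v, dt ((lin α β γ δ)^[3] v) v ≠ 0) ∨ TotRam F G d ∨ 2 ∣ M) →
      ∀ S : Finset (K × K), (∀ a ∈ S, a ∈ TT (fm F G K)) →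
      (∀ a ∈ S, ∀ b ∈ S, a ≠ b → dt a b ≠ 0) → S.card ≤ d ^ B) := by
  classical
  obtain ⟨A₀, hA0, hA⟩ := sys_of_tame K M N (by omega) hN
  obtain ⟨B₁, hB₁⟩ := thmR hG' K M N hM hN
  obtain ⟨B₂, hB₂⟩ := tail_sy hG' K M N hM hN
  obtain ⟨B₃, hB₃⟩ := sym_cyc hG' K A₀ hA0 M N hM
  obtain ⟨B₄, hB₄⟩ := sym_cycq hG' K A₀ hA0 M N hM
  refine ⟨(B₂ + 3) * (B₁ + B₃ + B₄ + 1), fun d F G hy α β γ δ χ hs hv1 hv2 => ?_⟩
  have h := ncz_of hy.hn
  have hf := pj_fm hy.hF hy.hG h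
  have hd := hy.hd
  have hsys : SysR A₀ M N (fm F G K) d (TT (fm F G K)) :=
    sysr_of dvd_rfl hy.hd hy.hF hy.hG h hA (fun v hv => hv) hy.ht
  set σ := lin α β γ δ with hσ
  have hord' : ∀ i, 1 ≤ i → i ≤ 2 → ∃ v, dt (σ^[i] v) v ≠ 0 := by
    intro i h1 h2
    rcases (show i = 1 ∨ i = 2 by omega) with rfl | rfl
    · exact hv1
    · exact hv2
  -- periodic points
  have hper : ((∃ v, dt (σ^[3] v) v ≠ 0) ∨ TotRam F G d) →
      ∀ S : Finset (K × K), (∀ a ∈ S, a ∈ TT (fm F G K) ∧ ∃ n, 0 < n ∧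
        dt ((fm F G K)^[n] a) a = 0) →
      (∀ a ∈ S, ∀ b ∈ S, a ≠ b → dt a b ≠ 0) → S.card ≤ B₃ + B₄ := by
    rintro (h3 | h3) S hS hSS
    · refine (hB₃ _ d _ hf ⟨d, fun c a => fm_smul hy.hF hy.hG c a⟩ (by omega) hsys _ _ _ _ χ hs
        (fun a ha => tt_sym hy.hF hy.hG h hs ha) (fun i h1 h2 => ?_) S hS hSS).trans
        (Nat.le_add_right _ _)
      by_cases h4 : i = 3
      · rw [h4]; exact h3
      · exact hord' i h1 (by omega)
    · obtain ⟨o, g, ho⟩ := tram_of h3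
      exact (hB₄ _ d _ hf ⟨d, fun c a => fm_smul hy.hF hy.hG c a⟩ (by omega) hsys o g ho _ _ _ _
        χ hs (fun a ha => tt_sym hy.hF hy.hG h hs ha) hord' S hS hSS).trans
        (Nat.le_add_left _ _)
  have hBB : B₃ + B₄ ≤ (B₂ + 3) * (B₁ + B₃ + B₄ + 1) := by
    calc B₃ + B₄ ≤ 1 * (B₁ + B₃ + B₄ + 1) := by omega
      _ ≤ (B₂ + 3) * (B₁ + B₃ + B₄ + 1) := Nat.mul_le_mul_right _ (by omega)
  refine ⟨fun h3 S hS hSS => (hper h3 S hS hSS).trans hBB, fun h3 S hS hSS => ?_⟩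
  -- lengths of cycles
  have hlen : ∀ (a : K × K) (n : ℕ), a ≠ 0 → 2 ≤ n → PP (fm F G K) a n →
      n ≤ B₁ + B₃ + B₄ := by
    intro a n ha hn hp
    have hv : (![a.1, a.2] : Fin 2 → K) ≠ 0 := tp_ne.1 ha
    rw [← or_assoc] at h3
    rcases h3 with h3 | hM2
    swap
    · exact ((hB₁ d F G hy.hd hy.hF hy.hG hy.hn hy.ht).1 ![a.1, a.2] n n (of_pp hf hv hp)
        dvd_rfl (Or.inr (Or.inr hM2))).trans (by omega)
    have h1 := hper h3 ((Finset.range n).image fun i => (fm F G K)^[i] a) (fun b hb => by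
      obtain ⟨i, -, rfl⟩ := Finset.mem_image.1 hb
      have hp' := hp.mapi hf ha i
      exact ⟨⟨hf.it_ne i ha, 0, n, hn, hp'⟩, n, hp'.pos, hp'.per⟩) (fun b hb c hc hbc => by
      obtain ⟨i, hi', rfl⟩ := Finset.mem_image.1 hb
      obtain ⟨j, hj, rfl⟩ := Finset.mem_image.1 hc
      rw [Finset.mem_range] at hi' hj
      exact hp.ne hf ha hi' hj fun he => hbc (by rw [he]))
    rw [Finset.card_image_of_injOn, Finset.card_range] at h1
    · omega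
    · intro i hi' j hj hij
      rw [Finset.mem_coe, Finset.mem_range] at hi' hj
      by_contra hne
      refine hp.ne hf ha hi' hj hne ?_
      dsimp only at hij
      rw [hij, dt_self]
  exact few hd hy.hF hy.hG h (C := B₂) (r := B₁ + B₃ + B₄ + 1) (by omega) S
    (fun a ha => (hS a ha).1) hSS (fun a ha => by
    obtain ⟨ha0, k, n, hn, hp⟩ := hS a ha
    refine ⟨k, n, hp, (hlen _ n (hf.it_ne k ha0) hn hp).trans (by omega),
      fun t h4 h5 => ?_⟩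
    exact hB₂ d F G hy _ _ _ _ χ hs hv1 hv2 _ n t ⟨ha0, t + 1, n, hn, h4⟩ hn h4 h5)

/-- the theorem on tame rational maps with a symmetry -/
theorem thmS (hG' : HMW.T_KGU) (K : Type) [Field K] [NumberField K] (M N : ℕ) (hM : 5 ≤ M)
    (hN : N ≠ 0) : ∃ B : ℕ, ∀ (d : ℕ) (F G : MvPolynomial (Fin 2) K), 2 ≤ d →
    F.IsHomogeneous d → G.IsHomogeneous d →
    (∀ x : Fin 2 → AlgebraicClosure K, x ≠ 0 →
      ¬ (MvPolynomial.aeval x F = 0 ∧ MvPolynomial.aeval x G = 0)) →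
    ((∃ (v : Fin 2 → K) (n : ℕ), 2 ≤ n ∧ HasPeriod F G n v) →
      ∀ w : HeightOneSpectrum (𝓞 K), (N : 𝓞 K) ∉ w.asIdeal → Tame M (w.valuation K) d F G) →
    ∀ (A : Matrix (Fin 2) (Fin 2) K) (χ : K), A.det ≠ 0 →
    (∀ v : Fin 2 → K, val F G (A.mulVec v) = χ • val F G v) →
    (∀ i, 1 ≤ i → i ≤ 2 → ∃ v : Fin 2 → K, ∀ c : K, (A ^ i).mulVec v ≠ c • v) →
    (((∃ v : Fin 2 → K, ∀ c : K, (A ^ 3).mulVec v ≠ c • v) ∨ TotRam F G d) →
      ∀ S : Finset (ℙ K (Fin 2 → K)),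
      (∀ P ∈ S, ∃ (v : Fin 2 → K) (hv : v ≠ 0), Projectivization.mk K v hv = P ∧
        ∃ n : ℕ, 2 ≤ n ∧ HasPeriod F G n v) → S.card ≤ B) ∧
    (((∃ v : Fin 2 → K, ∀ c : K, (A ^ 3).mulVec v ≠ c • v) ∨ TotRam F G d ∨ 2 ∣ M) →
      ∀ S : Finset (ℙ K (Fin 2 → K)),
      (∀ P ∈ S, ∃ (v : Fin 2 → K) (hv : v ≠ 0), Projectivization.mk K v hv = P ∧
        ∃ k n : ℕ, 2 ≤ n ∧ HasPeriod F G n ((val F G)^[k] v)) → S.card ≤ d ^ B) := by
  classical
  obtain ⟨B, hB⟩ := symP hG' K M N hM hN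
  refine ⟨B, fun d F G hd hF hG hncz ht Am χ hdet hinv hord => ?_⟩
  have h := ncz_of hncz
  have hf := pj_fm hF hG h
  have hy : Hy K M N d F G := ⟨hd, hF, hG, hncz, ht⟩
  set σ := lin (Am 0 0) (Am 0 1) (Am 1 0) (Am 1 1) with hσ
  have hlin : ∀ v : Fin 2 → K, tp (Am.mulVec v) = σ (tp v) := by
    intro v
    rw [hσ]
    unfold tp lin
    refine Prod.ext ?_ ?_ <;> simp [Matrix.mulVec, dotProduct, Fin.sum_univ_two]
  have hlini : ∀ (i : ℕ) (v : Fin 2 → K), tp ((Am ^ i).mulVec v) = σ^[i] (tp v) := by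
    intro i
    induction i with
    | zero => intro v; rw [pow_zero, Matrix.one_mulVec, Function.iterate_zero_apply]
    | succ i ih =>
      intro v
      rw [pow_succ, ← Matrix.mulVec_mulVec, ih, hlin, ← Function.iterate_succ_apply]
  have hdet' : Am 0 0 * Am 1 1 - Am 0 1 * Am 1 0 ≠ 0 := by
    rw [Matrix.det_fin_two] at hdet
    exact hdet
  have hi : ∀ a : K × K, fm F G K (σ a) = χ • fm F G K a := by
    intro a
    have h1 := congrArg tp (hinv ![a.1, a.2])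
    rw [tp_val, hlin, tp_smul, tp_val, tp_mk] at h1
    exact h1
  have hs : Sy (fm F G K) (Am 0 0) (Am 0 1) (Am 1 0) (Am 1 1) χ := by
    refine ⟨hdet', ?_, hi⟩
    rintro rfl
    have h10 : ((1 : K), (0 : K)) ≠ 0 := fun h0 => one_ne_zero (congrArg Prod.fst h0)
    refine h.ne (lin_ne hdet' h10) ?_
    have h1 := hi (1, 0)
    rw [zero_smul] at h1
    exact h1
  have hnsc : ∀ i, (∃ v : Fin 2 → K, ∀ c : K, (Am ^ i).mulVec v ≠ c • v) →
      ∃ v, dt (σ^[i] v) v ≠ 0 := by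
    rintro i ⟨v, hv⟩
    refine ⟨tp v, fun h0 => ?_⟩
    by_cases hv0 : v = 0
    · apply hv 0
      rw [hv0, Matrix.mulVec_zero, smul_zero]
    · obtain ⟨c, -, e⟩ := (same_iff (hs.it_ne i (tp_ne.2 hv0)) (tp_ne.2 hv0)).1 h0
      rw [← hlini] at e
      exact hv c (tp_inj e)
  obtain ⟨k1, k2⟩ := hB d F G hy _ _ _ _ χ hs (hnsc 1 (hord 1 le_rfl one_le_two))
    (hnsc 2 (hord 2 one_le_two le_rfl))
  refine ⟨fun h3 S hS => ?_, fun h3 S hS => ?_⟩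
  · refine proj_pairs hS fun S' hS' hSS => ?_
    refine k1 (h3.imp_left (hnsc 3)) S' (fun a ha => ?_) hSS
    obtain ⟨v, hv, rfl, n, hn, hp⟩ := hS' a ha
    have hp' := pp_of hf hp
    exact ⟨⟨tp_ne.2 hv, 0, n, hn, hp'⟩, n, hp'.pos, hp'.per⟩
  · refine proj_pairs hS fun S' hS' hSS => ?_
    refine k2 (h3.imp_left (hnsc 3)) S' (fun a ha => ?_) hSS
    obtain ⟨v, hv, rfl, k, n, hn, hp⟩ := hS' a ha
    have hp' := pp_of hf hp
    rw [tp_val_it] at hp'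
    exact ⟨tp_ne.2 hv, k, n, hn, hp'⟩

end Pool.Agent.PDR
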