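import Pool.Agent.PDR.MainS
import Pool.Agent.PDR.InstP

set_option autoImplicit false

/-!
# PDR: the maps `a z ^ (-d) + c`, local part
-/

open NumberField IsDedekindDomain
open scoped WithZero

noncomputable section

namespace Pool.Agent.PDR

open WithZero
open Pool.Agent.PDP (Si Si_mul Si_le Si_eq)

section Local

variable {K : Type} [Field K] {w : Valuation K ℤᵐ⁰} {d : ℕ} {a c : K}

/-- the map `z ↦ a z ^ (-d) + c` on pairs -/
def nm (d : ℕ) (a c : K) (v : K × K) : K × K := (a * v.2 ^ d + c * v.1 ^ d, v.1 ^ d)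

lemma nm_dt (u v : K × K) : dt (nm d a c u) (nm d a c v) =
    a * ((u.2 * v.1) ^ d - (u.1 * v.2) ^ d) := by
  unfold dt nm
  rw [mul_pow, mul_pow]
  ring

lemma nm_ne (hd : d ≠ 0) (ha : a ≠ 0) {v : K × K} (hv : v ≠ 0) : nm d a c v ≠ 0 := by
  intro h0
  have h2 : v.1 ^ d = 0 := congrArg Prod.snd h0
  have h1 : a * v.2 ^ d + c * v.1 ^ d = 0 := congrArg Prod.fst h0
  rw [h2, mul_zero, add_zero] at h1
  exact hv (Prod.ext (pow_eq_zero_iff hd |>.1 h2)
    (pow_eq_zero_iff hd |>.1 ((mul_eq_zero.1 h1).resolve_left ha)))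

lemma pj_nm (hd : d ≠ 0) (ha : a ≠ 0) : Pj (nm d a c) := by
  refine ⟨fun x y hxy => ?_, fun x hx => nm_ne hd ha hx⟩
  have h1 : x.2 * y.1 = x.1 * y.2 := by
    unfold dt at hxy
    linear_combination -hxy
  rw [nm_dt, h1, sub_self, mul_zero]

/-- a place of bad reduction -/
structure BP (w : Valuation K ℤᵐ⁰) (d : ℕ) (a c : K) : Prop where
  hd : 2 ≤ d
  ha : w a = 1
  hc : 1 < w c
  hwd : w (d : K) = 1

/-- absolute values larger than in the periodic set -/
def InfR (w : Valuation K ℤᵐ⁰) (d : ℕ) (c : K) (v : K × K) : Prop :=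
  w v.2 ^ d < w c * w v.1 ^ d

/-- absolute values as for the attracting fixed point -/
def NearA (w : Valuation K ℤᵐ⁰) (c : K) (v : K × K) : Prop := v.2 ≠ 0 ∧ w v.1 = w c * w v.2

/-- absolute values as in the periodic set -/
def Mid (w : Valuation K ℤᵐ⁰) (d : ℕ) (c : K) (v : K × K) : Prop :=
  w c * w v.1 ^ d = w v.2 ^ d

lemma BP.c0 (h : BP w d a c) : w c ≠ 0 := (zero_lt_one.trans h.hc).ne'

lemma BP.inf_near (h : BP w d a c) {v : K × K} (hv : InfR w d c v) :
    NearA w c (nm d a c v) := by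
  have hd := h.hd
  unfold InfR at hv
  have h1 : v.1 ≠ 0 := by
    intro h0
    rw [h0, map_zero, zero_pow (by omega), mul_zero] at hv
    exact not_lt_zero hv
  refine ⟨pow_ne_zero _ h1, ?_⟩
  unfold nm
  dsimp only
  rw [Valuation.map_add_eq_of_lt_right, map_mul, map_pow]
  rw [map_mul, map_mul, map_pow, map_pow, h.ha, one_mul]
  exact hv

lemma BP.near_inf (h : BP w d a c) {v : K × K} (hv : NearA w c v) : InfR w d c v := by
  obtain ⟨h1, h2⟩ := hv
  have h3 : w v.2 ≠ 0 := (Valuation.ne_zero_iff w).2 h1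
  unfold InfR
  rw [h2, mul_pow, ← mul_assoc, ← pow_succ']
  have h4 : 1 < w c ^ (d + 1) := one_lt_pow₀ h.hc (by omega)
  calc w v.2 ^ d = 1 * w v.2 ^ d := (one_mul _).symm
    _ < w c ^ (d + 1) * w v.2 ^ d := mul_lt_mul_of_pos_right h4 (pow_pos (zero_lt_iff.2 h3) _)

/-- points of small absolute value -/
lemma BP.small (h : BP w d a c) {v : K × K} (hv : w c * w v.1 ^ d < w v.2 ^ d) :
    InfR w d c (nm d a c v) ∧ w c * w (nm d a c v).2 < w (nm d a c v).1 := by
  have hd := h.hd
  have e1 : w (nm d a c v).1 = w v.2 ^ d := by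
    unfold nm
    dsimp only
    rw [Valuation.map_add_eq_of_lt_left, map_mul, map_pow, h.ha, one_mul]
    rw [map_mul, map_mul, map_pow, map_pow, h.ha, one_mul]
    exact hv
  have e2 : w (nm d a c v).2 = w v.1 ^ d := map_pow w _ _
  refine ⟨?_, by rw [e1, e2]; exact hv⟩
  unfold InfR
  rw [e1, e2]
  have h1 : w v.1 ^ d < w v.2 ^ d := by
    refine lt_of_le_of_lt ?_ hv
    calc w v.1 ^ d = 1 * w v.1 ^ d := (one_mul _).symm
      _ ≤ w c * w v.1 ^ d := mul_le_mul_left h.hc.le _
  calc (w v.1 ^ d) ^ d < (w v.2 ^ d) ^ d := pow_lt_pow_left₀ h1 zero_le (by omega)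
    _ = 1 * (w v.2 ^ d) ^ d := (one_mul _).symm
    _ ≤ w c * (w v.2 ^ d) ^ d := mul_le_mul_left h.hc.le _

/-- the affine map -/
def gm (d : ℕ) (a c z : K) : K := a * (z ^ d)⁻¹ + c

lemma gm_of (hd : d ≠ 0) {v : K × K} (h1 : v.1 ≠ 0) :
    (nm d a c v).1 / (nm d a c v).2 = gm d a c (v.1 / v.2) := by
  unfold nm gm
  dsimp only
  have h2 : v.1 ^ d ≠ 0 := pow_ne_zero _ h1
  rw [add_div, mul_div_cancel_right₀ _ h2, div_pow, inv_div, mul_div_assoc]

/-- the difference of two values -/
lemma gm_sub {z z' : K} (hz : z ≠ 0) (hz' : z' ≠ 0) : gm d a c z - gm d a c z' =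
    a * (Si d z' z * (z' - z)) / (z ^ d * z' ^ d) := by
  rw [Si_mul]
  unfold gm
  have h1 : z ^ d ≠ 0 := pow_ne_zero _ hz
  have h2 : z' ^ d ≠ 0 := pow_ne_zero _ hz'
  field_simp
  ring

/-- contraction near the attracting fixed point -/
lemma BP.contr (h : BP w d a c) {z z' : K} (hz : w z = w c) (hz' : w z' = w c) (hne : z ≠ z') :
    w (gm d a c z - gm d a c z') < w (z - z') := by
  have hd := h.hd
  have hc0 := h.c0
  have z0 : z ≠ 0 := fun h0 => hc0 (by rw [← hz, h0, map_zero])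
  have z0' : z' ≠ 0 := fun h0 => hc0 (by rw [← hz', h0, map_zero])
  obtain ⟨k, rfl⟩ : ∃ k, d = k + 1 := ⟨d - 1, by omega⟩
  have h0 : w (z - z') ≠ 0 := (Valuation.ne_zero_iff w).2 (sub_ne_zero.2 hne)
  rw [gm_sub z0 z0', map_div₀, map_mul, map_mul, map_mul, map_pow, map_pow, h.ha, one_mul, hz, hz',
    div_lt_iff₀ (mul_pos (pow_pos (zero_lt_iff.2 hc0) _) (pow_pos (zero_lt_iff.2 hc0) _)),
    Valuation.map_sub_swap w z' z, mul_comm]
  refine mul_lt_mul_of_pos_left ?_ (zero_lt_iff.2 h0)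
  calc w (Si (k + 1) z' z) ≤ w c ^ k := Si_le hz'.le hz.le k
    _ = w c ^ k * 1 := (mul_one _).symm
    _ < w c ^ k * w c ^ (k + 2) :=
        mul_lt_mul_of_pos_left (one_lt_pow₀ h.hc (by omega)) (pow_pos (zero_lt_iff.2 hc0) _)
    _ = w c ^ (k + 1) * w c ^ (k + 1) := by rw [← pow_add, ← pow_add]; congr 1; ring

lemma near_val {v : K × K} (hv : NearA w c v) : w (v.1 / v.2) = w c := by
  have h3 : w v.2 ≠ 0 := (Valuation.ne_zero_iff w).2 hv.1
  rw [map_div₀, hv.2, mul_div_cancel_right₀ _ h3]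

lemma BP.near_ne (h : BP w d a c) {v : K × K} (hv : NearA w c v) : v.1 ≠ 0 := by
  intro h0
  have h1 := hv.2
  rw [h0, map_zero] at h1
  exact mul_ne_zero h.c0 ((Valuation.ne_zero_iff w).2 hv.1) h1.symm

lemma dt_aff {u v : K × K} (hu : u.2 ≠ 0) (hv : v.2 ≠ 0) :
    dt u v = u.2 * v.2 * (u.1 / u.2 - v.1 / v.2) := by
  unfold dt
  field_simp

/-- cycles near the attracting fixed point are trivial -/
lemma BP.near_fix (h : BP w d a c) {v : K × K} (hv : NearA w c v) {n : ℕ} (hn : 0 < n)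
    (hp : dt ((nm d a c)^[n] v) v = 0) : dt (nm d a c v) v = 0 := by
  have hd := h.hd
  have hd0 : d ≠ 0 := by omega
  by_contra hcon
  have hN : ∀ k, NearA w c ((nm d a c)^[k] v) := by
    intro k
    induction k with
    | zero => exact hv
    | succ k ih =>
      rw [Function.iterate_succ_apply']
      exact h.inf_near (h.near_inf ih)
  set z : ℕ → K := fun k => ((nm d a c)^[k] v).1 / ((nm d a c)^[k] v).2 with hz
  have hz1 : ∀ k, z (k + 1) = gm d a c (z k) := by
    intro k
    rw [hz]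
    dsimp only
    rw [Function.iterate_succ_apply', gm_of hd0 (h.near_ne (hN k))]
  have hzV : ∀ k, w (z k) = w c := fun k => near_val (hN k)
  have hzn : z n = z 0 := by
    have h1 := hp
    rw [dt_aff (hN n).1 hv.1] at h1
    exact sub_eq_zero.1 ((mul_eq_zero.1 h1).resolve_left (mul_ne_zero (hN n).1 hv.1))
  have hne : z 1 ≠ z 0 := by
    intro h0
    apply hcon
    have h1 : dt (nm d a c v) v = _ := dt_aff (hN 1).1 hv.1
    rw [h1]
    have h2 : (nm d a c v).1 / (nm d a c v).2 = v.1 / v.2 := h0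
    rw [h2, sub_self, mul_zero]
  have key : ∀ k, w (z (k + 1) - z k) < w (z 1 - z 0) ∨ k = 0 := by
    intro k
    induction k with
    | zero => exact Or.inr rfl
    | succ k ih =>
      left
      by_cases h0 : z (k + 1) = z k
      · have h3 : z (k + 1 + 1) = z (k + 1) := by
          rw [hz1 (k + 1), h0, ← hz1 k]
          exact h0
        rw [h3, sub_self, map_zero]
        exact zero_lt_iff.2 ((Valuation.ne_zero_iff w).2 (sub_ne_zero.2 hne))
      · have h1 := h.contr (hzV (k + 1)) (hzV k) h0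
        rw [← hz1, ← hz1] at h1
        rcases ih with h2 | h2
        · exact h1.trans h2
        · rw [h2] at h1 ⊢
          exact h1
  have hzn1 : z (n + 1) = z 1 := by rw [hz1 n, hzn, ← hz1 0]
  rcases key n with h1 | h1
  · rw [hzn1, hzn] at h1
    exact lt_irrefl _ h1
  · omega

/-- periodic points of period at least two -/
lemma BP.per_mid (h : BP w d a c) {v : K × K} {n : ℕ} (hn : 0 < n)
    (hp : dt ((nm d a c)^[n] v) v = 0) (h1 : dt (nm d a c v) v ≠ 0) : Mid w d c v := by
  have hd := h.hd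
  have hd0 : d ≠ 0 := by omega
  have ha : a ≠ 0 := fun h0 => zero_ne_one (by rw [← h.ha, h0, map_zero])
  have hv : v ≠ 0 := by
    rintro rfl
    apply h1
    unfold dt
    simp
  have hf : Pj (nm d a c) := pj_nm hd0 ha
  -- no point of the cycle is near the attracting fixed point
  have hno : ∀ k, ¬ NearA w c ((nm d a c)^[k] v) := by
    intro k hk
    have h2 : dt ((nm d a c)^[n] ((nm d a c)^[k] v)) ((nm d a c)^[k] v) = 0 := by
      rw [← Function.iterate_add_apply, add_comm, Function.iterate_add_apply]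
      exact hf.it k hp
    have h3 := h.near_fix hk hn h2
    -- go around the cycle
    have hmul : ∀ j, dt ((nm d a c)^[j * n] v) v = 0 := by
      intro j
      induction j with
      | zero => rw [Nat.zero_mul, Function.iterate_zero_apply, dt_self]
      | succ j ih =>
        have h2 := hf.it n ih
        rw [← Function.iterate_add_apply, show n + j * n = (j + 1) * n by ring] at h2
        exact par_trans (hf.it_ne n hv) h2 hp
    have hk1 : k ≤ k * n := Nat.le_mul_of_pos_right k hn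
    have h4 := hf.it (k * n - k) h3
    rw [← Function.iterate_succ_apply' (nm d a c) k v, ← Function.iterate_add_apply,
      ← Function.iterate_add_apply, Nat.sub_add_cancel hk1,
      show k * n - k + k.succ = k * n + 1 by omega, Function.iterate_succ_apply'] at h4
    apply h1
    have h5 := hmul k
    have h6 : dt (nm d a c v) (nm d a c ((nm d a c)^[k * n] v)) = 0 :=
      hf.par _ _ (dt_comm_zero h5)
    exact par_trans (hf.it_ne (k * n) hv)
      (par_trans (hf.ne _ (hf.it_ne (k * n) hv)) h6 h4) h5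
  rcases lt_trichotomy (w c * w v.1 ^ d) (w v.2 ^ d) with h2 | h2 | h2
  · exact absurd (h.inf_near (h.small h2).1) (hno 2)
  · exact h2
  · exact absurd (h.inf_near h2) (hno 1)

end Local

end Pool.Agent.PDR
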