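import Pool.Agent.PDR.Neg

set_option autoImplicit false

/-!
# PDR: the maps `a z ^ (-d) + c`, tails of fixed points at places of bad reduction
-/

open NumberField IsDedekindDomain
open scoped WithZero

noncomputable section

namespace Pool.Agent.PDR

open WithZero
open Pool.Agent.PDP (Si Si_mul Si_le Si_eq)

/-- the orbit of `v` reaches a fixed point exactly after `s + 1` steps -/
structure FT {K : Type} [Field K] (f : K × K → K × K) (v : K × K) (s : ℕ) : Prop where
  v0 : v ≠ 0
  fix : dt (f^[s + 2] v) (f^[s + 1] v) = 0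
  ne : dt (f^[s + 1] v) (f^[s] v) ≠ 0

section Local

variable {K : Type} [Field K] {w : Valuation K ℤᵐ⁰} {d : ℕ} {a c : K}

lemma FT.nper {f : K × K → K × K} (hf : Pj f) {v : K × K} {s : ℕ} (h : FT f v s) :
    NPer f (f^[s] v) := by
  have key : ∀ m, dt (f^[m + 1] (f^[s] v)) (f^[s + 1] v) = 0 := by
    intro m
    induction m with
    | zero =>
      rw [zero_add, Function.iterate_one, ← Function.iterate_succ_apply' f, dt_self]
    | succ m ih =>
      have h1 := hf.par _ _ ih
      rw [← Function.iterate_succ_apply' f, ← Function.iterate_succ_apply' f (s + 1)] at h1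
      exact par_trans (hf.it_ne (s + 2) h.v0) h1 h.fix
  intro m hm h0
  obtain ⟨k, rfl⟩ : ∃ k, m = k + 1 := ⟨m - 1, by omega⟩
  apply h.ne
  exact par_trans (hf.it_ne (k + 1) (hf.it_ne s h.v0)) (dt_comm_zero (key k)) h0

/-- points with the same image -/
lemma BP.sim (h : BP w d a c) {u v : K × K} (h0 : dt (nm d a c u) (nm d a c v) = 0) :
    (u.2 * v.1) ^ d = (u.1 * v.2) ^ d ∧ w u.2 * w v.1 = w u.1 * w v.2 := by
  have hd := h.hd
  have ha : a ≠ 0 := fun h0 => zero_ne_one (by rw [← h.ha, h0, map_zero])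
  rw [nm_dt] at h0
  have h1 := sub_eq_zero.1 ((mul_eq_zero.1 h0).resolve_left ha)
  refine ⟨h1, ?_⟩
  have h2 := congrArg w h1
  rw [map_pow, map_pow, map_mul, map_mul] at h2
  exact (pow_left_inj₀ zero_le zero_le (by omega)).1 h2

lemma BP.pj (h : BP w d a c) : Pj (nm d a c) := by
  have hd := h.hd
  exact pj_nm (by omega) fun h0 => zero_ne_one (by rw [← h.ha, h0, map_zero])

/-- the value is close to `c` -/
lemma BP.near_c (h : BP w d a c) {v : K × K} (hv : InfR w d c v) :
    w ((nm d a c v).1 / (nm d a c v).2 - c) < w c := by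
  have hd := h.hd
  have h1 : v.1 ≠ 0 := by
    intro h0
    unfold InfR at hv
    rw [h0, map_zero, zero_pow (by omega), mul_zero] at hv
    exact not_lt_zero hv
  have h2 : w v.1 ^ d ≠ 0 := pow_ne_zero _ ((Valuation.ne_zero_iff w).2 h1)
  have e1 : (nm d a c v).1 / (nm d a c v).2 - c = a * v.2 ^ d / v.1 ^ d := by
    unfold nm
    dsimp only
    have h3 : v.1 ^ d ≠ 0 := pow_ne_zero _ h1
    field_simp
    ring
  rw [e1, map_div₀, map_mul, map_pow, map_pow, h.ha, one_mul,
    div_lt_iff₀ (zero_lt_iff.2 h2)]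
  exact hv

lemma BP.inf_no (h : BP w d a c) {v : K × K} {s : ℕ} (hv : FT (nm d a c) v s) {i : ℕ}
    (hi : i < s) : ¬ InfR w d c ((nm d a c)^[i] v) := by
  intro hI
  have hd := h.hd
  have hN : ∀ k, NearA w c ((nm d a c)^[i + 1 + k] v) := by
    intro k
    induction k with
    | zero =>
      rw [Nat.add_zero, Function.iterate_succ_apply']
      exact h.inf_near hI
    | succ k ih =>
      rw [← add_assoc, Function.iterate_succ_apply']
      exact h.inf_near (h.near_inf ih)
  have hIn : ∀ k, InfR w d c ((nm d a c)^[i + k] v) := by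
    intro k
    rcases k with _ | k
    · exact hI
    · have := h.near_inf (hN k)
      rwa [show i + 1 + k = i + (k + 1) by ring] at this
  obtain ⟨k, rfl⟩ := Nat.exists_eq_add_of_lt hi
  have n1 : NearA w c ((nm d a c)^[i + k + 1] v) := by
    have := hN k
    rwa [show i + 1 + k = i + k + 1 by ring] at this
  have n2 : NearA w c ((nm d a c)^[i + k + 1 + 1] v) := by
    have := hN (k + 1)
    rwa [show i + 1 + (k + 1) = i + k + 1 + 1 by ring] at this
  have c1 := h.near_c (hIn k)
  rw [← Function.iterate_succ_apply' (nm d a c)] at c1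
  have c2 := h.near_c (hIn (k + 1))
  rw [← Function.iterate_succ_apply' (nm d a c)] at c2
  set x := (nm d a c)^[i + k + 1] v with hx
  set y := (nm d a c)^[i + k + 1 + 1] v with hy
  have hxy : w (x.1 / x.2 - y.1 / y.2) < w c := by
    have e1 : x.1 / x.2 - y.1 / y.2 = (x.1 / x.2 - c) - (y.1 / y.2 - c) := by ring
    rw [e1]
    exact (Valuation.map_sub w _ _).trans_lt (max_lt c1 c2)
  have e0 : dt (nm d a c x) (nm d a c y) = 0 := by
    have h1 := hv.fix
    rw [hx, hy, ← Function.iterate_succ_apply' (nm d a c),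
      ← Function.iterate_succ_apply' (nm d a c)]
    exact dt_comm_zero h1
  obtain ⟨e1, -⟩ := h.sim e0
  have x1 := h.near_ne n1
  have y1 := h.near_ne n2
  have hz : ((x.1 / x.2) / (y.1 / y.2)) ^ d = 1 := by
    rw [div_div_div_eq, div_pow, ← e1, mul_comm x.2 y.1, div_self]
    exact pow_ne_zero _ (mul_ne_zero y1 n1.1)
  have hz1 : (x.1 / x.2) / (y.1 / y.2) ≠ 1 := by
    intro h1
    apply hv.ne
    have h2 : dt y x = 0 := by
      rw [dt_aff n2.1 n1.1, (div_eq_one_iff_eq (div_ne_zero y1 n2.1)).1 h1, sub_self, mul_zero]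
    exact h2
  have hu := PDQ.root_unit hz hz1 (by omega) h.hwd
  have e2 : x.1 / x.2 - y.1 / y.2 = -(y.1 / y.2 * (1 - (x.1 / x.2) / (y.1 / y.2))) := by
    have h3 : y.1 / y.2 ≠ 0 := div_ne_zero y1 n2.1
    rw [mul_sub, mul_one, mul_div_cancel₀ _ h3]
    ring
  rw [e2, Valuation.map_neg, map_mul, hu, mul_one, near_val n2] at hxy
  exact lt_irrefl _ hxy

/-- the absolute values of the points of the tail -/
lemma BP.tail_mid (h : BP w d a c) {v : K × K} {s : ℕ} (hv : FT (nm d a c) v s) {i : ℕ}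
    (hi : i < s) : Mid w d c ((nm d a c)^[i] v) := by
  rcases lt_trichotomy (w c * w ((nm d a c)^[i] v).1 ^ d) (w ((nm d a c)^[i] v).2 ^ d) with
    h2 | h2 | h2
  · obtain ⟨h3, h4⟩ := h.small h2
    rw [← Function.iterate_succ_apply' (nm d a c)] at h3 h4
    rcases Nat.lt_or_ge (i + 1) s with h5 | h5
    · exact absurd h3 (h.inf_no hv h5)
    · have h6 : i + 1 = s := by omega
      rw [show i.succ = s by omega] at h3 h4
      have n1 := h.inf_near h3
      rw [← Function.iterate_succ_apply' (nm d a c)] at n1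
      have e0 : dt (nm d a c ((nm d a c)^[s] v)) (nm d a c ((nm d a c)^[s + 1] v)) = 0 := by
        rw [← Function.iterate_succ_apply' (nm d a c),
          ← Function.iterate_succ_apply' (nm d a c)]
        exact dt_comm_zero hv.fix
      obtain ⟨-, e1⟩ := h.sim e0
      have n2 := n1.2
      change w ((nm d a c)^[s + 1] v).1 = _ at n2
      rw [n2, mul_left_comm, ← mul_assoc] at e1
      have h7 : w ((nm d a c)^[s + 1] v).2 ≠ 0 := (Valuation.ne_zero_iff w).2 n1.1
      have e2 := mul_right_cancel₀ h7 e1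
      rw [e2] at h4
      exact absurd h4 (lt_irrefl _)
  · exact h2
  · exact absurd h2 (h.inf_no hv hi)

/-- differences in a set of points which is stable where the map expands -/
lemma BP.pow (h : BP w d a c) {r : ℤᵐ⁰} (hrd : w c * r ^ d = 1) (S : Set K)
    (hS : ∀ z ∈ S, w z = r)
    (hstep : ∀ z ∈ S, ∀ z' ∈ S, z ≠ z' → w (z - z') < r →
      w (gm d a c z - gm d a c z') * r ^ (d + 1) = w (z - z') →
      gm d a c z ∈ S ∧ gm d a c z' ∈ S) :
    ∀ z ∈ S, ∀ z' ∈ S, z ≠ z' → ∃ k : ℤ, log (w (z - z')) = log r + k * ((d + 1) * log r) := by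
  have hd := h.hd
  have hr0 : r ≠ 0 := by
    rintro rfl
    rw [zero_pow (by omega), mul_zero] at hrd
    exact zero_ne_one hrd
  have hr1 : r < 1 := by
    by_contra hcon
    push Not at hcon
    have h1 : 1 < w c * r ^ d := lt_of_lt_of_le h.hc (le_mul_of_one_le_right' (one_le_pow₀ hcon))
    rw [hrd] at h1
    exact lt_irrefl _ h1
  have hlr : log r < 0 := by
    have := (log_lt_log hr0 one_ne_zero).2 hr1
    rwa [log_one] at this
  have hexp : ∀ z ∈ S, ∀ z' ∈ S, z ≠ z' → w (z - z') < r →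
      w (gm d a c z - gm d a c z') * r ^ (d + 1) = w (z - z') := by
    intro z hz z' hz' hne hlt
    have z0 : z ≠ 0 := fun h0 => hr0 (by rw [← hS z hz, h0, map_zero])
    have z0' : z' ≠ 0 := fun h0 => hr0 (by rw [← hS z' hz', h0, map_zero])
    obtain ⟨k, rfl⟩ : ∃ k, d = k + 1 := ⟨d - 1, by omega⟩
    rw [gm_sub z0 z0', map_div₀, map_mul, map_mul, map_mul, map_pow, map_pow, h.ha, one_mul,
      hS z hz, hS z' hz', Si_eq hr0 (hS z' hz') (hS z hz)
        (by rwa [Valuation.map_sub_swap]) k h.hwd, Valuation.map_sub_swap w z' z]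
    have h1 : r ^ (k + 1) * r ^ (k + 1) ≠ 0 :=
      mul_ne_zero (pow_ne_zero _ hr0) (pow_ne_zero _ hr0)
    rw [div_mul_eq_mul_div, div_eq_iff h1]
    have e1 : r ^ k * r ^ (k + 1 + 1) = r ^ (k + 1) * r ^ (k + 1) := by
      rw [← pow_add, ← pow_add]; congr 1; ring
    calc r ^ k * w (z - z') * r ^ (k + 1 + 1) = w (z - z') * (r ^ k * r ^ (k + 1 + 1)) := by
          ac_rfl
      _ = w (z - z') * (r ^ (k + 1) * r ^ (k + 1)) := by rw [e1]
  have hle : ∀ z ∈ S, ∀ z' ∈ S, w (z - z') ≤ r := by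
    intro z hz z' hz'
    refine (Valuation.map_sub w _ _).trans (max_le (hS z hz).le (hS z' hz').le)
  have claim : ∀ n : ℕ, ∀ z ∈ S, ∀ z' ∈ S, z ≠ z' → log r - log (w (z - z')) = n →
      ∃ k : ℤ, log (w (z - z')) = log r + k * ((d + 1) * log r) := by
    intro n
    induction n using Nat.strong_induction_on with
    | _ n ih =>
      intro z hz z' hz' hne hn
      rcases (hle z hz z' hz').lt_or_eq with hlt | heq
      · have h1 := hexp z hz z' hz' hne hlt
        obtain ⟨g1, g2⟩ := hstep z hz z' hz' hne hlt h1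
        have h0 : w (z - z') ≠ 0 := (Valuation.ne_zero_iff w).2 (sub_ne_zero.2 hne)
        have hg0 : w (gm d a c z - gm d a c z') ≠ 0 := by
          intro h2
          rw [h2, zero_mul] at h1
          exact h0 h1.symm
        have hgne : gm d a c z ≠ gm d a c z' := fun h2 => hg0 (by rw [h2, sub_self, map_zero])
        have h3 := congrArg log h1
        rw [log_mul hg0 (pow_ne_zero _ hr0), log_pow, nsmul_eq_mul] at h3
        push_cast at h3
        have h4 : log (w (gm d a c z - gm d a c z')) ≤ log r :=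
          (log_le_log hg0 hr0).2 (hle _ g1 _ g2)
        have h6 : ((d : ℤ) + 1) * log r < 0 := mul_neg_of_pos_of_neg (by positivity) hlr
        obtain ⟨k, hk⟩ := ih
          (log r - log (w (gm d a c z - gm d a c z'))).toNat (by omega) _ g1 _ g2 hgne
          (by rw [Int.toNat_of_nonneg (by omega)])
        refine ⟨k + 1, ?_⟩
        rw [← h3, hk]
        ring
      · exact ⟨0, by rw [heq]; ring⟩
  intro z hz z' hz' hne
  have h0 : w (z - z') ≠ 0 := (Valuation.ne_zero_iff w).2 (sub_ne_zero.2 hne)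
  have h1 : log (w (z - z')) ≤ log r := (log_le_log h0 hr0).2 (hle z hz z' hz')
  exact claim (log r - log (w (z - z'))).toNat z hz z' hz' hne
    (by rw [Int.toNat_of_nonneg (by omega)])

lemma Mid.ne (h : BP w d a c) {v : K × K} (hv0 : v ≠ 0) (hv : Mid w d c v) :
    v.1 ≠ 0 ∧ v.2 ≠ 0 := by
  have hd := h.hd
  unfold Mid at hv
  have key : v.1 = 0 ↔ v.2 = 0 := by
    constructor
    · intro h1
      rw [h1, map_zero, zero_pow (by omega), mul_zero] at hv
      exact (Valuation.zero_iff w).1 (pow_eq_zero_iff (by omega) |>.1 hv.symm)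
    · intro h1
      rw [h1, map_zero, zero_pow (by omega)] at hv
      exact (Valuation.zero_iff w).1 (pow_eq_zero_iff (by omega) |>.1
        ((mul_eq_zero.1 hv).resolve_left h.c0))
  constructor
  · intro h1
    exact hv0 (Prod.ext h1 (key.1 h1))
  · intro h1
    exact hv0 (Prod.ext (key.2 h1) h1)

lemma Mid.val (h : BP w d a c) {v : K × K} (hv0 : v ≠ 0) (hv : Mid w d c v) :
    w c * w (v.1 / v.2) ^ d = 1 := by
  obtain ⟨h1, h2⟩ := hv.ne h hv0
  have h3 : w v.2 ^ d ≠ 0 := pow_ne_zero _ ((Valuation.ne_zero_iff w).2 h2)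
  rw [map_div₀, div_pow, ← mul_div_assoc, div_eq_one_iff_eq h3]
  exact hv

/-- the differences of the points of the tail -/
lemma BP.tail_pow (h : BP w d a c) {v : K × K} {s : ℕ} (hv : FT (nm d a c) v s) (hs : 0 < s) :
    ∃ l : ℤ, ∀ i j, i < s → j < s → i ≠ j → ∃ k : ℤ,
      log (w (dt ((nm d a c)^[i] v) ((nm d a c)^[j] v))) =
        log (w ((nm d a c)^[i] v).2) + log (w ((nm d a c)^[j] v).2) + l +
        k * ((d + 1) * l) := by
  have hd := h.hd
  have hd0 : d ≠ 0 := by omega
  have hf := h.pj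
  set y : ℕ → K × K := fun i => (nm d a c)^[i] v with hy
  have hy0 : ∀ i, y i ≠ 0 := fun i => hf.it_ne i hv.v0
  have hys : ∀ i, y (i + 1) = nm d a c (y i) := fun i => Function.iterate_succ_apply' _ _ _
  set z : ℕ → K := fun i => (y i).1 / (y i).2 with hz
  have hzs : ∀ i, (y i).1 ≠ 0 → z (i + 1) = gm d a c (z i) := by
    intro i hi
    rw [hz]
    dsimp only
    rw [hys, gm_of hd0 hi]
  obtain ⟨r, hr⟩ : ∃ r, r = w (z 0) := ⟨_, rfl⟩
  have hrd : w c * r ^ d = 1 := by
    rw [hr]
    exact Mid.val h (hy0 0) (h.tail_mid hv hs)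
  have hc0 := h.c0
  have hrr : ∀ i, Mid w d c (y i) → w (z i) = r := by
    intro i hi
    have h1 := Mid.val h (hy0 i) hi
    have h2 : w (z i) ^ d = r ^ d := mul_left_cancel₀ hc0 (h1.trans hrd.symm)
    exact (pow_left_inj₀ zero_le zero_le hd0).1 h2
  have hmid : ∀ i, i < s → Mid w d c (y i) := fun i hi => h.tail_mid hv hi
  have hr0 : r ≠ 0 := by
    rintro rfl
    rw [zero_pow hd0, mul_zero] at hrd
    exact zero_ne_one hrd
  have hr1 : r < 1 := by
    by_contra hcon
    push Not at hcon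
    have h1 : 1 < w c * r ^ d := lt_of_lt_of_le h.hc (le_mul_of_one_le_right' (one_le_pow₀ hcon))
    rw [hrd] at h1
    exact lt_irrefl _ h1
  -- the last two points
  have e0 : dt (nm d a c (y s)) (nm d a c (y (s + 1))) = 0 := by
    rw [← hys, ← hys]
    exact dt_comm_zero hv.fix
  obtain ⟨-, e1⟩ := h.sim e0
  -- it is enough to treat the affine coordinates
  suffices hmain : ∀ i j, i < s → j < s → z i ≠ z j → ∃ k : ℤ,
      log (w (z i - z j)) = log r + k * ((d + 1) * log r) by
    refine ⟨log r, fun i j hi hj hij => ?_⟩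
    have hi2 := (Mid.ne h (hy0 i) (hmid i hi)).2
    have hj2 := (Mid.ne h (hy0 j) (hmid j hj)).2
    have hne : dt (y i) (y j) ≠ 0 := (hv.nper hf).ne hf hi.le hj.le hij
    have hzz : z i ≠ z j := by
      intro h1
      apply hne
      rw [dt_aff hi2 hj2]
      change (y i).2 * (y j).2 * (z i - z j) = 0
      rw [h1, sub_self, mul_zero]
    obtain ⟨k, hk⟩ := hmain i j hi hj hzz
    refine ⟨k, ?_⟩
    have e2 : dt (y i) (y j) = (y i).2 * (y j).2 * (z i - z j) := dt_aff hi2 hj2
    change log (w (dt (y i) (y j))) = _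
    rw [e2, map_mul, map_mul, log_mul (mul_ne_zero ((Valuation.ne_zero_iff w).2 hi2)
      ((Valuation.ne_zero_iff w).2 hj2)) ((Valuation.ne_zero_iff w).2 (sub_ne_zero.2 hzz)),
      log_mul ((Valuation.ne_zero_iff w).2 hi2) ((Valuation.ne_zero_iff w).2 hj2), hk]
    ring
  by_cases hatt : NearA w c (y (s + 1))
  · -- the attracting fixed point
    have hs2 : (y s).2 ≠ 0 := by
      intro h1
      rw [h1, map_zero, zero_mul] at e1
      have h2 := (mul_eq_zero.1 e1.symm).resolve_right ((Valuation.ne_zero_iff w).2 hatt.1)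
      exact hy0 s (Prod.ext ((Valuation.zero_iff w).1 h2) h1)
    have hsN : w (z s) = w c := by
      have h1 := hatt.2
      rw [h1, mul_left_comm, ← mul_assoc] at e1
      have e2 := mul_right_cancel₀ ((Valuation.ne_zero_iff w).2 hatt.1) e1
      rw [hz]
      dsimp only
      rw [map_div₀, ← e2, mul_div_cancel_right₀ _ ((Valuation.ne_zero_iff w).2 hs2)]
    intro i j hi hj hij
    refine h.pow hrd {x | ∃ i, i < s ∧ z i = x} ?_ ?_ _ ⟨i, hi, rfl⟩ _ ⟨j, hj, rfl⟩ hij
    · rintro x ⟨i, hi, rfl⟩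
      exact hrr i (hmid i hi)
    · have key : ∀ i j, i < s → j < s → z i ≠ z j → w (z i - z j) < r →
          w (gm d a c (z i) - gm d a c (z j)) * r ^ (d + 1) = w (z i - z j) → j + 1 ≠ s := by
        intro i j hi hj hij hlt heq hjs
        rw [← hzs i (Mid.ne h (hy0 i) (hmid i hi)).1,
          ← hzs j (Mid.ne h (hy0 j) (hmid j hj)).1, hjs] at heq
        have hi1 : i + 1 ≠ s := by
          intro h1
          apply hij
          congr 1
          omega
        have h1 : w (z (i + 1)) = r := hrr _ (hmid _ (by omega))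
        have h2 : w (z (i + 1) - z s) = w c := by
          rw [Valuation.map_sub_eq_of_lt_right, hsN]
          rw [h1, hsN]
          exact hr1.trans h.hc
        rw [h2, pow_succ, ← mul_assoc, hrd, one_mul] at heq
        rw [← heq] at hlt
        exact lt_irrefl _ hlt
      rintro x ⟨i, hi, rfl⟩ x' ⟨j, hj, rfl⟩ hne hlt heq
      have g1 := key i j hi hj hne hlt heq
      have g2 := key j i hj hi hne.symm (by rwa [Valuation.map_sub_swap]) (by
        rwa [Valuation.map_sub_swap, Valuation.map_sub_swap w (z j)])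
      exact ⟨⟨i + 1, by omega, hzs i (Mid.ne h (hy0 i) (hmid i hi)).1⟩,
        ⟨j + 1, by omega, hzs j (Mid.ne h (hy0 j) (hmid j hj)).1⟩⟩
  · -- the other fixed points
    have hpar : dt (nm d a c (y (s + 1))) (y (s + 1)) = 0 := by
      rw [← hys]
      exact hv.fix
    obtain ⟨b, hb, e2⟩ := par_of (hy0 (s + 1)) (hf.ne _ (hy0 (s + 1))) (dt_comm_zero hpar)
    have hm1 : Mid w d c (y (s + 1)) := by
      rcases lt_trichotomy (w c * w (y (s + 1)).1 ^ d) (w (y (s + 1)).2 ^ d) with h2 | h2 | h2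
      · have h3 := (h.small h2).1
        rw [e2] at h3
        unfold InfR at h3
        rw [Prod.smul_fst, Prod.smul_snd, smul_eq_mul, smul_eq_mul, map_mul, map_mul, mul_pow,
          mul_pow, mul_left_comm] at h3
        exact absurd (lt_of_mul_lt_mul_left h3 zero_le) (not_lt.2 h2.le)
      · exact h2
      · exfalso
        apply hatt
        have h3 := h.inf_near h2
        rw [e2] at h3
        obtain ⟨h4, h5⟩ := h3
        rw [Prod.smul_snd, smul_eq_mul] at h4 h5
        rw [Prod.smul_fst, smul_eq_mul, map_mul, map_mul, mul_left_comm] at h5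
        exact ⟨fun h6 => h4 (by rw [h6, mul_zero]),
          mul_left_cancel₀ ((Valuation.ne_zero_iff w).2 hb) h5⟩
    have hm0 : Mid w d c (y s) := by
      have h3 := (Mid.ne h (hy0 _) hm1).2
      have h4 : w (y (s + 1)).2 ^ d ≠ 0 := pow_ne_zero _ ((Valuation.ne_zero_iff w).2 h3)
      unfold Mid at hm1 ⊢
      refine mul_right_cancel₀ h4 ?_
      have e3 := congrArg (fun x => x ^ d) e1
      rw [mul_pow, mul_pow] at e3
      calc w c * w (y s).1 ^ d * w (y (s + 1)).2 ^ d
          = w c * (w (y s).1 ^ d * w (y (s + 1)).2 ^ d) := by ac_rfl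
        _ = w c * (w (y s).2 ^ d * w (y (s + 1)).1 ^ d) := by rw [e3]
        _ = w (y s).2 ^ d * (w c * w (y (s + 1)).1 ^ d) := by ac_rfl
        _ = w (y s).2 ^ d * w (y (s + 1)).2 ^ d := by rw [hm1]
    have hmall : ∀ i, i ≤ s + 1 → Mid w d c (y i) := by
      intro i hi
      rcases (show i < s ∨ i = s ∨ i = s + 1 by omega) with h1 | h1 | h1
      · exact hmid i h1
      · rw [h1]; exact hm0
      · rw [h1]; exact hm1
    have hfixz : gm d a c (z (s + 1)) = z (s + 1) := by
      have h1 := (Mid.ne h (hy0 _) hm1)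
      rw [← hzs (s + 1) h1.1]
      rw [hz]
      dsimp only
      rw [hys, e2, Prod.smul_fst, Prod.smul_snd, smul_eq_mul, smul_eq_mul,
        mul_div_mul_left _ _ hb]
    intro i j hi hj hij
    refine h.pow hrd {x | ∃ i, i ≤ s + 1 ∧ z i = x} ?_ ?_ _ ⟨i, by omega, rfl⟩ _
      ⟨j, by omega, rfl⟩ hij
    · rintro x ⟨i, hi, rfl⟩
      exact hrr i (hmall i hi)
    · have key : ∀ i, i ≤ s + 1 → ∃ j, j ≤ s + 1 ∧ z j = gm d a c (z i) := by
        intro i hi
        rcases Nat.lt_or_ge i (s + 1) with h1 | h1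
        · exact ⟨i + 1, by omega, hzs i (Mid.ne h (hy0 i) (hmall i hi)).1⟩
        · have h2 : i = s + 1 := by omega
          rw [h2]
          exact ⟨s + 1, le_rfl, hfixz.symm⟩
      rintro x ⟨i, hi, rfl⟩ x' ⟨j, hj, rfl⟩ - - -
      exact ⟨key i hi, key j hj⟩

end Local

end Pool.Agent.PDR
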