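import Pool.Agent.PDR.Neg2

set_option autoImplicit false

/-!
# PDR: the maps `a z ^ (-d) + c`, lengths of tails of fixed points
-/

open NumberField IsDedekindDomain
open scoped WithZero

noncomputable section

namespace Pool.Agent.PDR

open WithZero
open Pool.Agent.PDP (Sg wb)

section Good

variable {K : Type} [Field K] {w : Valuation K ℤᵐ⁰} {d : ℕ} {a c : K}

/-- the coefficients of the form `a Y ^ d + c X ^ d` -/
def nf (d : ℕ) (a c : K) (i : ℕ) : K := if i = 0 then a else if i = d then c else 0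

/-- the coefficients of the form `X ^ d` -/
def ng (d : ℕ) (i : ℕ) : K := if i = d then 1 else 0

lemma hf_nf (hd : d ≠ 0) (v : K × K) : hf d (nf d a c) v = a * v.2 ^ d + c * v.1 ^ d := by
  unfold hf
  rw [Finset.sum_range_succ, Finset.sum_eq_single 0]
  · unfold nf
    rw [if_pos rfl, if_neg hd, if_pos rfl, pow_zero, one_mul, Nat.sub_zero, Nat.sub_self,
      pow_zero, mul_one]
  · intro i hi hi0
    rw [Finset.mem_range] at hi
    unfold nf
    rw [if_neg hi0, if_neg (by omega), zero_mul]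
  · intro h
    exact absurd (Finset.mem_range.2 (by omega)) h

lemma hf_ng (v : K × K) : hf d (ng d) v = v.1 ^ d := by
  unfold hf
  rw [Finset.sum_range_succ, Finset.sum_eq_zero]
  · unfold ng
    rw [if_pos rfl, Nat.sub_self, pow_zero, mul_one, one_mul, zero_add]
  · intro i hi
    rw [Finset.mem_range] at hi
    unfold ng
    rw [if_neg (by omega), zero_mul]

lemma dx_nf (hd : d ≠ 0) (v : K × K) : dx d (nf d a c) v = c * (d * v.1 ^ (d - 1)) := by
  unfold dx
  rw [Finset.sum_range_succ, Finset.sum_eq_zero]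
  · unfold nf
    rw [if_neg hd, if_pos rfl, Nat.sub_self, pow_zero, mul_one, zero_add]
  · intro i hi
    rw [Finset.mem_range] at hi
    unfold nf
    by_cases h0 : i = 0
    · rw [h0, Nat.cast_zero]
      ring
    · rw [if_neg h0, if_neg (by omega), zero_mul]

lemma ph_nm (hd : d ≠ 0) (v : K × K) : Ph d (nf d a c) (ng d) v = nm d a c v := by
  unfold Ph nm
  rw [hf_nf hd, hf_ng]

/-- the norm is preserved at places of good reduction -/
lemma nm_norm (hd : d ≠ 0) (ha : w a = 1) (hc : w c ≤ 1) (v : K × K) :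
    nrm w (nm d a c v) = nrm w v ^ d := by
  have e1 : w (nm d a c v).2 = w v.1 ^ d := map_pow w _ _
  have h1 : w (a * v.2 ^ d) = w v.2 ^ d := by rw [map_mul, map_pow, ha, one_mul]
  have h2 : w (c * v.1 ^ d) ≤ w v.1 ^ d := by
    rw [map_mul, map_pow]
    exact mul_le_of_le_one_left' hc
  have e3 : nrm w v ^ d = max (w v.1 ^ d) (w v.2 ^ d) := by
    unfold nrm
    rcases le_total (w v.1) (w v.2) with h | h
    · rw [max_eq_right h, max_eq_right (pow_le_pow_left' h d)]
    · rw [max_eq_left h, max_eq_left (pow_le_pow_left' h d)]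
  rw [e3]
  change max (w (a * v.2 ^ d + c * v.1 ^ d)) (w (nm d a c v).2) = _
  rw [e1]
  rcases lt_or_ge (w v.1 ^ d) (w v.2 ^ d) with h | h
  · rw [Valuation.map_add_eq_of_lt_left, h1, max_comm]
    rw [h1]
    exact h2.trans_lt h
  · rw [max_eq_left h, max_eq_right]
    refine (Valuation.map_add w _ _).trans (max_le (h1.le.trans h) h2)

lemma gd_nm (hd : d ≠ 0) (ha : w a = 1) (hc : w c ≤ 1) : GD w d (nf d a c) (ng d) := by
  refine ⟨fun i => ?_, fun i => ?_, fun v => ?_⟩
  · unfold nf
    split_ifs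
    · exact ha.le
    · exact hc
    · rw [map_zero]; exact zero_le
  · unfold ng
    split_ifs
    · rw [map_one]
    · rw [map_zero]; exact zero_le
  · rw [ph_nm hd, nm_norm hd ha hc]

/-- all distances in the tail of a fixed point are trivial at places of good reduction -/
lemma good_tail (hd : 2 ≤ d) (ha : w a = 1) (hc : w c ≤ 1) (hwd : w (d : K) = 1) {v : K × K}
    {s : ℕ} (hv : FT (nm d a c) v s) {i j : ℕ} (hi : i ≤ s) (hij : i < j) :
    dl w ((nm d a c)^[i] v) ((nm d a c)^[j] v) = 1 := by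
  have hd0 : d ≠ 0 := by omega
  have ha0 : a ≠ 0 := fun h0 => zero_ne_one (by rw [← ha, h0, map_zero])
  have hf : Pj (nm d a c) := pj_nm hd0 ha0
  have hgd := gd_nm (w := w) hd0 ha hc
  have hP : Ph d (nf d a c) (ng d) = nm d a c := funext fun v => ph_nm hd0 v
  set y : ℕ → K × K := fun i => (nm d a c)^[i] v with hy
  have hy0 : ∀ i, y i ≠ 0 := fun i => hf.it_ne i hv.v0
  have hys : ∀ i, y (i + 1) = nm d a c (y i) := fun i => Function.iterate_succ_apply' _ _ _
  -- the fixed point
  set p := y (s + 1) with hp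
  set u := y s with hu
  have hp1 : w p.1 = w p.2 := by
    have h1 : dt (nm d a c p) p = 0 := by
      rw [hp, ← hys]
      exact hv.fix
    unfold dt nm at h1
    dsimp only at h1
    have h0 := hy0 (s + 1)
    have key : p.1 ^ (d + 1) = a * p.2 ^ (d + 1) + c * (p.1 ^ d * p.2) := by
      linear_combination -h1
    rcases lt_trichotomy (w p.1) (w p.2) with h2 | h2 | h2
    · exfalso
      have h3 := congrArg w key
      have hp2 : 0 < w p.2 := zero_le.trans_lt h2
      have h4 : w p.1 ^ d * w p.2 < w p.2 ^ (d + 1) := by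
        rw [pow_succ]
        exact mul_lt_mul_of_pos_right (pow_lt_pow_left₀ h2 zero_le hd0) hp2
      have e1 : w (a * p.2 ^ (d + 1)) = w p.2 ^ (d + 1) := by
        rw [map_mul, map_pow, ha, one_mul]
      rw [Valuation.map_add_eq_of_lt_left, e1, map_pow] at h3
      · exact absurd h3 (pow_lt_pow_left₀ h2 zero_le (by omega)).ne
      · rw [e1, map_mul, map_mul, map_pow]
        exact (mul_le_of_le_one_left' hc).trans_lt h4
    · exact h2
    · exfalso
      have h3 := congrArg w key
      have hp2 : 0 < w p.1 := zero_le.trans_lt h2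
      rw [map_pow] at h3
      have h4 : w (a * p.2 ^ (d + 1) + c * (p.1 ^ d * p.2)) < w p.1 ^ (d + 1) := by
        refine (Valuation.map_add w _ _).trans_lt (max_lt ?_ ?_)
        · rw [map_mul, map_pow, ha, one_mul]
          exact pow_lt_pow_left₀ h2 zero_le (by omega)
        · rw [map_mul, map_mul, map_pow]
          refine (mul_le_of_le_one_left' hc).trans_lt ?_
          rw [pow_succ]
          exact mul_lt_mul_of_pos_left h2 (pow_pos hp2 _)
      rw [← h3] at h4
      exact lt_irrefl _ h4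
  have hp0 : w p.1 ≠ 0 := by
    intro h0
    have h1 := hp1
    rw [h0] at h1
    exact hy0 (s + 1) (Prod.ext ((Valuation.zero_iff w).1 h0) ((Valuation.zero_iff w).1 h1.symm))
  -- the point before
  have e0 : dt (nm d a c u) (nm d a c p) = 0 := by
    rw [hu, hp, ← hys, ← hys]
    exact dt_comm_zero hv.fix
  rw [nm_dt] at e0
  have e1 := sub_eq_zero.1 ((mul_eq_zero.1 e0).resolve_left ha0)
  have e2 : w u.2 = w u.1 := by
    have h2 := congrArg w e1
    rw [map_pow, map_pow, map_mul, map_mul, ← hp1] at h2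
    exact mul_right_cancel₀ hp0 ((pow_left_inj₀ zero_le zero_le hd0).1 h2)
  have hu0 : w u.1 ≠ 0 := by
    intro h0
    have h1 := e2
    rw [h0] at h1
    exact hy0 s (Prod.ext ((Valuation.zero_iff w).1 h0) ((Valuation.zero_iff w).1 h1))
  have hne : dt p u ≠ 0 := hv.ne
  have hup : u.1 * p.2 ≠ 0 := by
    intro h0
    have h1 := congrArg w h0
    rw [map_mul, map_zero, ← hp1] at h1
    exact mul_ne_zero hu0 hp0 h1
  have hlast : dl w u p = 1 := by
    have hz : ((u.2 * p.1) / (u.1 * p.2)) ^ d = 1 := by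
      rw [div_pow, e1, div_self (pow_ne_zero _ hup)]
    have hz1 : (u.2 * p.1) / (u.1 * p.2) ≠ 1 := by
      intro h1
      rw [div_eq_one_iff_eq hup] at h1
      apply hne
      unfold dt
      linear_combination h1
    have h3 := PDQ.root_unit hz hz1 (by omega) hwd
    have e3 : dt u p = u.1 * p.2 * (1 - (u.2 * p.1) / (u.1 * p.2)) := by
      rw [mul_sub, mul_one, mul_div_cancel₀ _ hup]
      unfold dt
      ring
    unfold dl nrm
    rw [e3, map_mul, h3, mul_one, map_mul, e2, max_self, ← hp1, max_self,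
      div_self (mul_ne_zero hu0 hp0)]
  -- all the others
  have hpk : ∀ k, dt (y (s + 1 + k)) p = 0 := by
    intro k
    induction k with
    | zero => rw [Nat.add_zero, ← hp, dt_self]
    | succ k ih =>
      have h1 := hf.par _ _ ih
      rw [← hys, hp, ← hys] at h1
      exact par_trans (hy0 (s + 1 + 1)) h1 hv.fix
  obtain ⟨k, rfl⟩ := Nat.exists_eq_add_of_lt hij
  refine le_antisymm (dl_le_one (hy0 _) (hy0 _)) ?_
  have h1 := hgd.nonexp_it (by omega) (hy0 i) (hy0 (i + k + 1)) (s - i)
  rw [hP] at h1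
  have h2 : (nm d a c)^[s - i] (y i) = y s := by
    rw [hy]
    dsimp only
    rw [← Function.iterate_add_apply]
    congr 1
    omega
  have h3 : (nm d a c)^[s - i] (y (i + k + 1)) = y (s + 1 + k) := by
    rw [hy]
    dsimp only
    rw [← Function.iterate_add_apply, show s - i + (i + k + 1) = s + 1 + k by omega]
  rw [h2, h3] at h1
  obtain ⟨b, hb, h4⟩ := par_of (hy0 (s + 1)) (hy0 (s + 1 + k)) (dt_comm_zero (hpk k))
  rw [h4, dl_smul' hb] at h1
  rw [← hlast]
  exact h1

end Good

section Tail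

/-- cross ratios from relations -/
lemma sg_rel {K : Type} [Field K] {A : Finset K} {M : ℕ} {x y p q : K × K}
    (xq : dt x q ≠ 0) (yp : dt y p ≠ 0)
    (h1 : ∃ α ∈ A, ∃ z : K, dt x p * dt y q = α * z ^ M * (dt x q * dt y p))
    (h2 : ∃ β ∈ A, ∃ z : K, dt x y * dt p q = β * z ^ M * (dt x q * dt p y)) :
    dt x p * dt y q / (dt x q * dt y p) ∈ Sg K A M := by
  have hne : dt x q * dt y p ≠ 0 := mul_ne_zero xq yp
  obtain ⟨α, hα, z, e1⟩ := h1
  obtain ⟨β, hβ, z', e2⟩ := h2
  refine ⟨⟨α, hα, z, ?_⟩, β, hβ, z', ?_⟩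
  · rw [e1, mul_div_cancel_right₀ _ hne]
  · have h3 := dt_pl x y p q
    have e3 : 1 - dt x p * dt y q / (dt x q * dt y p) =
        -(dt x y * dt p q) / (dt x q * dt y p) := by
      rw [eq_div_iff hne, sub_mul, div_mul_cancel₀ _ hne]
      linear_combination h3
    rw [e3, e2, dt_swap y p]
    have e4 : -(β * z' ^ M * (dt x q * -dt y p)) = β * z' ^ M * (dt x q * dt y p) := by ring
    rw [e4, mul_div_cancel_right₀ _ hne]

/-- the distances in a tail of a fixed point, at all places outside a finite set -/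
lemma tail_loc {K : Type} [Field K] {w : Valuation K ℤᵐ⁰} {d : ℕ} {a c : K} (hd : 2 ≤ d)
    (ha : w a = 1) (hwd : w (d : K) = 1) {v : K × K} {s : ℕ} (hv : FT (nm d a c) v s)
    (hs : 0 < s) : ∃ (α : ℕ → ℤ) (l : ℤ), ∀ i j, i < s → j < s → i ≠ j → ∃ k : ℤ,
      log (w (dt ((nm d a c)^[i] v) ((nm d a c)^[j] v))) = α i + α j + l +
        k * (d + 1) := by
  rcases le_or_gt (w c) 1 with hc | hc
  · have ha0 : a ≠ 0 := fun h0 => zero_ne_one (by rw [← ha, h0, map_zero])
    have hf : Pj (nm d a c) := pj_nm (by omega) ha0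
    have hy0 : ∀ i, (nm d a c)^[i] v ≠ 0 := fun i => hf.it_ne i hv.v0
    refine ⟨fun i => log (nrm w ((nm d a c)^[i] v)), 0, fun i j hi hj hij => ⟨0, ?_⟩⟩
    have key : ∀ i j, i < s → i < j → log (w (dt ((nm d a c)^[i] v) ((nm d a c)^[j] v))) =
        log (nrm w ((nm d a c)^[i] v)) + log (nrm w ((nm d a c)^[j] v)) := by
      intro i j hi hij
      have h1 := good_tail hd ha hc hwd hv hi.le hij
      unfold dl at h1
      have n1 := nrm_ne (w := w) (hy0 i)
      have n2 := nrm_ne (w := w) (hy0 j)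
      rw [div_eq_one_iff_eq (mul_ne_zero n1 n2)] at h1
      rw [h1, log_mul n1 n2]
    rw [zero_mul, add_zero, add_zero]
    rcases lt_or_gt_of_ne hij with h1 | h1
    · exact key i j hi h1
    · rw [dt_swap, Valuation.map_neg, key j i hj h1, add_comm]
  · obtain ⟨l, hl⟩ := BP.tail_pow (w := w) ⟨hd, ha, hc, hwd⟩ hv hs
    refine ⟨fun i => log (w ((nm d a c)^[i] v).2), l, fun i j hi hj hij => ?_⟩
    obtain ⟨k, hk⟩ := hl i j hi hj hij
    refine ⟨k * l, ?_⟩
    rw [hk]
    ring

/-- the tails of fixed points are short -/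
theorem neg_tail (hG : HMW.T_KGU) (K : Type) [Field K] [NumberField K] (d : ℕ) (hd : 4 ≤ d)
    (a : K) (ha : a ≠ 0) : ∃ B : ℕ, ∀ (c : K) (v : K × K) (s : ℕ), FT (nm d a c) v s → s ≤ B := by
  classical
  obtain ⟨N, hN, hu⟩ := unit_out K a ha
  have hN' : ((N * d : ℕ) : 𝓞 K) ≠ 0 := by exact_mod_cast Nat.mul_ne_zero hN (by omega)
  obtain ⟨A, hA0, hA⟩ := HMW.p_SEL K (d + 1) ((N * d : ℕ) : 𝓞 K) (by omega) hN'
  obtain ⟨B, hB⟩ := wb hG K A hA0 (d + 1) (by omega)
  refine ⟨2 * B + 4, fun c v s hv => ?_⟩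
  by_contra hcon
  push Not at hcon
  have hf : Pj (nm d a c) := pj_nm (by omega) ha
  set y : ℕ → K × K := fun i => (nm d a c)^[i] v with hy
  have hy0 : ∀ i, y i ≠ 0 := fun i => hf.it_ne i hv.v0
  have hne : ∀ i j, i < s → j < s → i ≠ j → dt (y i) (y j) ≠ 0 := fun i j hi hj hij =>
    (hv.nper hf).ne hf hi.le hj.le hij
  have hpow : ∀ i j k l, i < s → j < s → k < s → l < s → i ≠ k → j ≠ l → i ≠ l → j ≠ k →
      ∃ α ∈ A, ∃ z : K, dt (y i) (y k) * dt (y j) (y l) =
        α * z ^ (d + 1) * (dt (y i) (y l) * dt (y j) (y k)) := by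
    intro i j k l hi hj hk hl hik hjl hil hjk
    have n1 := hne i k hi hk hik
    have n2 := hne j l hj hl hjl
    have n3 := hne i l hi hl hil
    have n4 := hne j k hj hk hjk
    have hden : dt (y i) (y l) * dt (y j) (y k) ≠ 0 := mul_ne_zero n3 n4
    obtain ⟨x, hx, z, hz, hxz⟩ := hA ((dt (y i) (y k) * dt (y j) (y l)) /
      (dt (y i) (y l) * dt (y j) (y k))) (div_ne_zero (mul_ne_zero n1 n2) hden)
      fun w hw => by
        have hwa : w.valuation K a = 1 := hu w fun h => hw (by
          rw [Nat.cast_mul]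
          exact w.asIdeal.mul_mem_right _ h)
        have hwd : w.valuation K (d : K) = 1 := PDP.val_one w d fun h => hw (by
          rw [Nat.cast_mul]
          exact w.asIdeal.mul_mem_left _ h)
        obtain ⟨α, β, hloc⟩ := tail_loc (by omega) hwa hwd hv (by omega)
        obtain ⟨k1, e1⟩ := hloc i k hi hk hik
        obtain ⟨k2, e2⟩ := hloc j l hj hl hjl
        obtain ⟨k3, e3⟩ := hloc i l hi hl hil
        obtain ⟨k4, e4⟩ := hloc j k hj hk hjk
        have m1 : w.valuation K (dt (y i) (y k)) ≠ 0 := ((w.valuation K).ne_zero_iff).mpr n1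
        have m2 : w.valuation K (dt (y j) (y l)) ≠ 0 := ((w.valuation K).ne_zero_iff).mpr n2
        have m3 : w.valuation K (dt (y i) (y l)) ≠ 0 := ((w.valuation K).ne_zero_iff).mpr n3
        have m4 : w.valuation K (dt (y j) (y k)) ≠ 0 := ((w.valuation K).ne_zero_iff).mpr n4
        rw [map_div₀, map_mul, map_mul, log_div (mul_ne_zero m1 m2) (mul_ne_zero m3 m4),
          log_mul m1 m2, log_mul m3 m4]
        change ((d + 1 : ℕ) : ℤ) ∣ log (w.valuation K (dt ((nm d a c)^[i] v)
          ((nm d a c)^[k] v))) + log (w.valuation K (dt ((nm d a c)^[j] v)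
          ((nm d a c)^[l] v))) - (log (w.valuation K (dt ((nm d a c)^[i] v)
          ((nm d a c)^[l] v))) + log (w.valuation K (dt ((nm d a c)^[j] v)
          ((nm d a c)^[k] v))))
        rw [e1, e2, e3, e4]
        refine Dvd.intro (k1 + k2 - k3 - k4) ?_
        push_cast
        ring
    exact ⟨x, hx, z, by rw [← hxz, div_mul_cancel₀ _ hden]⟩
  have hfin := grid (S := Sg K A (d + 1)) hB (x := y 0) (y := y 1)
    (Finset.Ico 2 (B + 3)) (Finset.Ico (B + 3) (2 * B + 4)) y y
    (hne 0 1 (by omega) (by omega) (by omega))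
    (fun i hi => hne 0 i (by omega) (by rw [Finset.mem_Ico] at hi; omega)
      (by rw [Finset.mem_Ico] at hi; omega))
    (fun i hi => hne 1 i (by omega) (by rw [Finset.mem_Ico] at hi; omega)
      (by rw [Finset.mem_Ico] at hi; omega))
    (fun i hi => hne 0 i (by omega) (by rw [Finset.mem_Ico] at hi; omega)
      (by rw [Finset.mem_Ico] at hi; omega))
    (fun i hi => hne 1 i (by omega) (by rw [Finset.mem_Ico] at hi; omega)
      (by rw [Finset.mem_Ico] at hi; omega))
    (fun i hi j hj hij => hne i j (by rw [Finset.mem_Ico] at hi; omega)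
      (by rw [Finset.mem_Ico] at hj; omega) hij)
    (fun i hi j hj hij => hne i j (by rw [Finset.mem_Ico] at hi; omega)
      (by rw [Finset.mem_Ico] at hj; omega) hij) (by
      intro i hi j hj
      rw [Finset.mem_Ico] at hi hj
      exact sg_rel (hne 0 j (by omega) (by omega) (by omega))
        (hne 1 i (by omega) (by omega) (by omega))
        (hpow 0 1 i j (by omega) (by omega) (by omega) (by omega) (by omega) (by omega)
          (by omega) (by omega))
        (hpow 0 i 1 j (by omega) (by omega) (by omega) (by omega) (by omega) (by omega)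
          (by omega) (by omega)))
  rw [Nat.card_Ico, Nat.card_Ico] at hfin
  omega

end Tail

end Pool.Agent.PDR
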