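import Pool.Agent.PDR.Neg3

set_option autoImplicit false

/-!
# PDR: the maps `a z ^ (-d) + c`, the number of preperiodic points
-/

open NumberField IsDedekindDomain
open scoped WithZero

noncomputable section

namespace Pool.Agent.PDR

open WithZero

section Tame

variable {K : Type} [Field K] {w : Valuation K ℤᵐ⁰} {d : ℕ} {a c : K}

/-- the maps are tame with exponent `d + 1` outside the primes dividing `d` and `a` -/
lemma nm_tame (hd : 2 ≤ d) (ha : w a = 1) (hwd : w (d : K) = 1)
    (hper : ∃ v n, 0 < n ∧ dt ((nm d a c)^[n] v) v = 0 ∧ dt (nm d a c v) v ≠ 0) :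
    Tame (d + 1) w d (hg d (nf d a c)) (hg d (ng d)) := by
  have hd0 : d ≠ 0 := by omega
  have hnf : ∀ b : K, w b ≤ 1 → ∀ i, i ≤ d → w (nf d a b i) ≤ 1 := by
    intro b hb i _
    unfold nf
    split_ifs
    · exact ha.le
    · exact hb
    · rw [map_zero]; exact zero_le
  have hng : ∀ i, i ≤ d → w (ng d i : K) ≤ 1 := by
    intro i _
    unfold ng
    split_ifs
    · rw [map_one]
    · rw [map_zero]; exact zero_le
  have hnorm : ∀ b : K, w b ≤ 1 → ∀ x : K × K, nrm w x = 1 →
      max (w (hf d (nf d a b) x)) (w (hf d (ng d) x)) = 1 := by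
    intro b hb x hx
    have h1 := nm_norm (w := w) hd0 ha hb x
    rw [hx, one_pow] at h1
    rw [hf_nf hd0, hf_ng]
    exact h1
  rcases le_or_gt (w c) 1 with hc | hc
  · refine tame_seq (μ := 1) (s := 1) (e := 1) (p := nf d a c) (q := ng d)
      (by rw [Matrix.det_one]; exact one_ne_zero) one_ne_zero one_ne_zero (fun v => ?_)
      (hnf c hc) hng (hnorm c hc) (by rw [map_one]) fun h => ?_
    · rw [Matrix.one_mulVec, Matrix.one_mulVec, one_smul, one_mul]
    · rw [map_one] at h
      exact absurd h (lt_irrefl _)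
  · have hb : BP w d a c := ⟨hd, ha, hc, hwd⟩
    obtain ⟨v, n, hn, h1, h2⟩ := hper
    have hv : v ≠ 0 := by
      rintro rfl
      apply h2
      unfold dt
      simp
    have hm := hb.per_mid hn h1 h2
    have hz := hm.val hb hv
    obtain ⟨v1, v2⟩ := hm.ne hb hv
    obtain ⟨z, hzz⟩ : ∃ z, z = v.1 / v.2 := ⟨_, rfl⟩
    rw [← hzz] at hz
    have hz0 : z ≠ 0 := by rw [hzz]; exact div_ne_zero v1 v2
    have hwz0 : w z ≠ 0 := (Valuation.ne_zero_iff w).2 hz0
    have hwz : w z < 1 := by
      by_contra hcon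
      push Not at hcon
      have h3 : 1 < w c * w z ^ d := lt_of_lt_of_le hc (le_mul_of_one_le_right'
        (one_le_pow₀ hcon))
      rw [hz] at h3
      exact lt_irrefl _ h3
    have hc' : w (c * z ^ d) = 1 := by rw [map_mul, map_pow]; exact hz
    refine tame_seq (μ := !![1, 0; 0, z]) (s := (z ^ d)⁻¹) (e := z ^ (d + 1))
      (p := nf d a (c * z ^ d)) (q := ng d) (by rw [Matrix.det_fin_two]; simpa using hz0)
      (inv_ne_zero (pow_ne_zero _ hz0)) (pow_ne_zero _ hz0) (fun v => ?_)
      (hnf _ hc'.le) hng (hnorm _ hc'.le) ?_ fun h => ⟨?_, ?_, fun x hx hlt => ?_⟩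
    · rw [hf_nf hd0, hf_ng, hf_nf hd0, hf_ng]
      have e1 : tp ((!![1, 0; 0, z] : Matrix (Fin 2) (Fin 2) K).mulVec v) =
          (v 0, z * v 1) := by
        unfold tp
        simp [Matrix.mulVec, dotProduct, Fin.sum_univ_two]
      rw [e1]
      have hzd : z ^ d ≠ 0 := pow_ne_zero _ hz0
      unfold tp
      funext i
      fin_cases i
      · simp [Matrix.mulVec, dotProduct, Fin.sum_univ_two]
        field_simp
        ring
      · simp [Matrix.mulVec, dotProduct, Fin.sum_univ_two]
        field_simp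
        ring
    · rw [map_pow]
      exact pow_le_one' hwz.le _
    · rw [map_pow, log_pow, nsmul_eq_mul]
      exact dvd_mul_right _ _
    · unfold nf
      rw [if_neg hd0, if_pos rfl]
      exact hc'
    · have hx1 : w x.1 = 1 := by
        have h3 : w x.1 ≤ 1 := (le_max_left _ _).trans hx.le
        rcases h3.lt_or_eq with h3 | h3
        · exfalso
          have h4 : w x.2 = 1 := by
            have h5 := hx
            unfold nrm at h5
            rcases max_choice (w x.1) (w x.2) with h6 | h6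
            · rw [h6] at h5; exact absurd h5 h3.ne
            · rw [h6] at h5; exact h5
          rw [hf_nf hd0] at hlt
          have e1 : w (a * x.2 ^ d) = 1 := by
            rw [map_mul, map_pow, ha, h4, one_pow, one_mul]
          rw [Valuation.map_add_eq_of_lt_left, e1] at hlt
          · exact lt_irrefl _ hlt
          · rw [e1, map_mul, hc', one_mul, map_pow]
            exact pow_lt_one₀ zero_le h3 hd0
        · exact h3
      rw [dx_nf hd0, map_mul, hc', one_mul, map_mul, hwd, one_mul, map_pow, hx1, one_pow]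

end Tame

section Forms

variable {K : Type} [Field K] {d : ℕ}

lemma hg_aeval (R : Type) [Field R] [Algebra K R] (c : ℕ → K) (v : R × R) :
    MvPolynomial.aeval ![v.1, v.2] (hg d c) = hf d (fun i => algebraMap K R (c i)) v := by
  unfold hg hf
  rw [map_sum]
  refine Finset.sum_congr rfl fun i hi => ?_
  rw [MvPolynomial.aeval_monomial, Finsupp.prod_fintype _ _ (by intro j; exact pow_zero _),
    Fin.prod_univ_two, ex_zero, ex_one]
  rfl

lemma fm_nm (hd : d ≠ 0) (a c : K) (R : Type) [Field R] [Algebra K R] (v : R × R) :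
    fm (hg d (nf d a c)) (hg d (ng d)) R v =
      nm d (algebraMap K R a) (algebraMap K R c) v := by
  unfold fm
  rw [hg_aeval, hg_aeval]
  have e1 : (fun i => algebraMap K R (nf d a c i)) =
      nf d (algebraMap K R a) (algebraMap K R c) := by
    funext i
    unfold nf
    split_ifs
    · rfl
    · rfl
    · exact map_zero _
  have e2 : (fun i => algebraMap K R (ng d i)) = ng d := by
    funext i
    unfold ng
    split_ifs
    · exact map_one _
    · exact map_zero _
  rw [e1, e2, hf_nf hd, hf_ng]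
  rfl

lemma fm_nm' (hd : d ≠ 0) (a c : K) :
    fm (hg d (nf d a c)) (hg d (ng d)) K = nm d a c := by
  funext v
  exact fm_nm hd a c K v

lemma nm_ncz' (hd : d ≠ 0) {a : K} (ha : a ≠ 0) (c : K) (x : Fin 2 → AlgebraicClosure K)
    (hx : x ≠ 0) : ¬ (MvPolynomial.aeval x (hg d (nf d a c)) = 0 ∧
      MvPolynomial.aeval x (hg d (ng d) : MvPolynomial (Fin 2) K) = 0) := by
  rintro ⟨h1, h2⟩
  have h3 := fm_nm hd a c (AlgebraicClosure K) (x 0, x 1)
  have e1 : (![((x 0, x 1) : AlgebraicClosure K × AlgebraicClosure K).1,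
      ((x 0, x 1) : AlgebraicClosure K × AlgebraicClosure K).2] :
        Fin 2 → AlgebraicClosure K) = x := by
    funext i
    fin_cases i <;> rfl
  unfold fm at h3
  rw [e1, h1, h2] at h3
  refine nm_ne (v := (x 0, x 1)) hd ((map_ne_zero (algebraMap K (AlgebraicClosure K))).2 ha)
    (fun h0 => ?_) h3.symm
  apply hx
  funext i
  fin_cases i
  · exact congrArg Prod.fst h0
  · exact congrArg Prod.snd h0

end Forms

/-- the number of preperiodic points of `a z ^ (-d) + c` -/
theorem neg_count (hG : HMW.T_KGU) (K : Type) [Field K] [NumberField K] (d : ℕ) (hd : 4 ≤ d)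
    (a : K) (ha : a ≠ 0) : ∃ B : ℕ, ∀ (c : K) (S : Finset (K × K)), (∀ v ∈ S, v ≠ 0) →
    (∀ u ∈ S, ∀ v ∈ S, u ≠ v → dt u v ≠ 0) →
    (∀ v ∈ S, ∃ k n, 0 < n ∧ dt ((nm d a c)^[n] ((nm d a c)^[k] v)) ((nm d a c)^[k] v) = 0) →
    S.card ≤ B := by
  classical
  have hd0 : d ≠ 0 := by omega
  have : NeZero d := ⟨hd0⟩
  let L := CyclotomicField d K
  have : NumberField L := IsCyclotomicExtension.numberField {d} K L
  have : NeZero ((d : ℕ) : L) := ⟨by exact_mod_cast hd0⟩
  set φ := algebraMap K L with hφ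
  have hφ0 : ∀ {x : K}, φ x = 0 ↔ x = 0 := map_eq_zero φ
  have hφa : φ a ≠ 0 := (map_ne_zero φ).2 ha
  set ζ : L := IsCyclotomicExtension.zeta d K L with hζd
  have hζ : IsPrimitiveRoot ζ d := IsCyclotomicExtension.zeta_spec d K L
  obtain ⟨N, hN, hu⟩ := unit_out L (φ a) hφa
  obtain ⟨B, hB⟩ := symP hG L (d + 1) (N * d) (by omega) (Nat.mul_ne_zero hN hd0)
  obtain ⟨B', hB'⟩ := neg_tail hG K d hd a ha
  refine ⟨d ^ B + d ^ (B' + 1 + 1 + 1), fun c S hS0 hSS hSp => ?_⟩
  -- the map over the extension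
  have hnmL : ∀ v : K × K, em φ (nm d a c v) = nm d (φ a) (φ c) (em φ v) := by
    intro v
    unfold em nm
    dsimp only
    rw [map_add, map_mul, map_mul, map_pow, map_pow]
  have hnmLi : ∀ (k : ℕ) (v : K × K), em φ ((nm d a c)^[k] v) =
      (nm d (φ a) (φ c))^[k] (em φ v) := by
    intro k v
    induction k with
    | zero => rfl
    | succ k ih => rw [Function.iterate_succ_apply', Function.iterate_succ_apply', hnmL, ih]
  have hf : Pj (nm d a c) := pj_nm hd0 ha
  have hfm := fm_nm' hd0 (φ a) (φ c)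
  have hy : Hy L (d + 1) (N * d) d (hg d (nf d (φ a) (φ c))) (hg d (ng d)) := by
    refine ⟨by omega, hg_hom _ _, hg_hom _ _, nm_ncz' hd0 hφa (φ c), ?_⟩
    rintro ⟨v, n, hn, hp⟩ w hw
    have hpj : Pj (fm (hg d (nf d (φ a) (φ c))) (hg d (ng d)) L) := by
      rw [hfm]
      exact pj_nm hd0 hφa
    have hp' := pp_of hpj hp
    rw [hfm] at hp'
    refine nm_tame (by omega) (hu w fun h => hw (by
      rw [Nat.cast_mul]
      exact w.asIdeal.mul_mem_right _ h)) (PDP.val_one w d fun h => hw (by
      rw [Nat.cast_mul]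
      exact w.asIdeal.mul_mem_left _ h)) ⟨tp v, n, hp'.pos, hp'.per, fun h0 => ?_⟩
    have := Nat.le_of_dvd (by omega) (hp'.min 1 h0)
    omega
  have hζ0 : ζ ≠ 0 := hζ.ne_zero hd0
  have hs : Sy (fm (hg d (nf d (φ a) (φ c))) (hg d (ng d)) L) ζ 0 0 1 1 := by
    refine ⟨by rw [mul_one, mul_zero, sub_zero]; exact hζ0, one_ne_zero, fun v => ?_⟩
    rw [hfm, one_smul]
    unfold nm lin
    dsimp only
    simp only [zero_mul, add_zero, zero_add, one_mul, mul_pow, hζ.pow_eq_one]
  have hli : ∀ i : ℕ, (lin ζ 0 0 1)^[i] ((1 : L), (1 : L)) = (ζ ^ i, 1) := by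
    intro i
    induction i with
    | zero => rw [pow_zero]; rfl
    | succ i ih =>
      rw [Function.iterate_succ_apply', ih]
      unfold lin
      dsimp only
      rw [zero_mul, add_zero, zero_mul, zero_add, one_mul, pow_succ']
  have hnsc : ∀ i, 1 ≤ i → i ≤ 3 → ∃ v, dt ((lin ζ 0 0 1)^[i] v) v ≠ 0 := by
    intro i h1 h3
    refine ⟨(1, 1), ?_⟩
    rw [hli]
    unfold dt
    dsimp only
    rw [mul_one, one_mul]
    exact sub_ne_zero.2 (hζ.pow_ne_one_of_pos_of_lt (by omega) (by omega))
  have hk2 := (hB d _ _ hy ζ 0 0 1 1 hs (hnsc 1 le_rfl (by omega)) (hnsc 2 (by omega)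
    (by omega))).2 (Or.inl (hnsc 3 (by omega) le_rfl))
  rw [hfm] at hk2
  -- the points in the cycles of length at least two
  set S₁ := S.filter fun v => em φ v ∈ TT (nm d (φ a) (φ c)) with hS₁
  have c1 : S₁.card ≤ d ^ B := by
    have hinj : Set.InjOn (em φ) S₁ := by
      intro u _ v _ h
      have e1 : φ u.1 = φ v.1 := congrArg Prod.fst h
      have e2 : φ u.2 = φ v.2 := congrArg Prod.snd h
      exact Prod.ext (φ.injective e1) (φ.injective e2)
    rw [← Finset.card_image_of_injOn hinj]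
    refine hk2 _ (fun x hx => ?_) (fun x hx y hy hxy => ?_)
    · obtain ⟨v, hv, rfl⟩ := Finset.mem_image.1 hx
      exact (Finset.mem_filter.1 hv).2
    · obtain ⟨u, hu', rfl⟩ := Finset.mem_image.1 hx
      obtain ⟨v, hv', rfl⟩ := Finset.mem_image.1 hy
      rw [dt_em]
      intro h0
      refine hSS u (Finset.mem_filter.1 hu').1 v (Finset.mem_filter.1 hv').1 (fun he => ?_)
        (hφ0.1 h0)
      exact hxy (by rw [he])
  -- the others
  set S₂ := S.filter fun v => ¬ em φ v ∈ TT (nm d (φ a) (φ c)) with hS₂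
  have c2 : S₂.card ≤ d ^ (B' + 1 + 1 + 1) := by
    refine count_points (F := hg d (nf d a c)) (G := hg d (ng d)) (by omega) (hg_hom _ _)
      (hg_hom _ _) (ncz_of (nm_ncz' hd0 ha c)) (B' + 1) 1 one_pos S₂ (fun u hu' v hv' =>
        hSS u (Finset.mem_filter.1 hu').1 v (Finset.mem_filter.1 hv').1) fun v hv' => ?_
    rw [fm_nm' hd0]
    obtain ⟨hvS, hvT⟩ := Finset.mem_filter.1 hv'
    have hv0 := hS0 v hvS
    obtain ⟨k, n, hn, hp⟩ := hSp v hvS
    obtain ⟨m, hm⟩ := exists_PP hf (hf.it_ne k hv0) hn hp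
    have hm1 : m = 1 := by
      have hpos := hm.pos
      by_contra hcon
      apply hvT
      refine ⟨em_ne φ hv0, k, m, by omega, hm.pos, ?_, fun i hi => hm.min i ?_⟩
      · rw [← hnmLi, ← hnmLi, dt_em, hm.per, map_zero]
      · rw [← hnmLi, ← hnmLi, dt_em] at hi
        exact hφ0.1 hi
    subst hm1
    -- from the fixed point on
    have key : ∀ j, j ≤ B' + 1 → PP (nm d a c) ((nm d a c)^[j] v) 1 →
        dt ((nm d a c)^[B' + 1 + 1] v) ((nm d a c)^[B' + 1] v) = 0 := by
      intro j hj hp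
      obtain ⟨i, hi⟩ := Nat.exists_eq_add_of_le hj
      have h4 := (hp.mapi hf (hf.it_ne j hv0) i).per
      rw [← Function.iterate_add_apply _ i j, ← Function.iterate_add_apply _ 1] at h4
      rw [hi, show j + i + 1 = 1 + (i + j) by ring, show j + i = i + j by ring]
      exact h4
    rcases first_per hf hv0 hm with h1 | ⟨s, h1, h2⟩
    · exact key 0 (Nat.zero_le _) h1
    · have hFT : FT (nm d a c) v s := by
        refine ⟨hv0, ?_, ?_⟩
        · have h3 := h1.per
          rw [Function.iterate_one, ← Function.iterate_succ_apply' (nm d a c)] at h3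
          exact h3
        · have h3 := h2 1 one_pos
          rw [Function.iterate_one, ← Function.iterate_succ_apply' (nm d a c)] at h3
          exact h3
      exact key (s + 1) (by have := hB' c v s hFT; omega) h1
  have h3 : S.card = S₁.card + S₂.card := by
    rw [hS₁, hS₂]
    exact (Finset.card_filter_add_card_filter_not (s := S)
      (fun v => em φ v ∈ TT (nm d (φ a) (φ c)))).symm
  omega

end Pool.Agent.PDR
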