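import Pool.Agent.PDR.Neg4

set_option autoImplicit false

/-!
# PDR: the maps `a z ^ (-d) + c`, odd `d` and a real embedding
-/

noncomputable section

namespace Pool.Agent.PDR

section Real

/-- the coordinate in which the fixed point is infinity -/
def ur (z : ℝ) (v : ℝ × ℝ) : ℝ := v.2 / (v.1 - v.2 * z)

lemma odd_q {d : ℕ} (hd : Odd d) {x y : ℝ} (h : x ≠ y) :
    ∃ Q : ℝ, 0 < Q ∧ x ^ d - y ^ d = Q * (x - y) := by
  have hs : x - y ≠ 0 := sub_ne_zero.2 h
  refine ⟨(x ^ d - y ^ d) / (x - y), ?_, by rw [div_mul_cancel₀ _ hs]⟩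
  rcases lt_or_gt_of_ne h with h1 | h1
  · have h2 := hd.strictMono_pow h1
    exact div_pos_of_neg_of_neg (sub_neg.2 h2) (sub_neg.2 h1)
  · have h2 := hd.strictMono_pow h1
    exact div_pos (sub_pos.2 h2) (sub_pos.2 h1)

variable {d : ℕ} {α γ z : ℝ}

/-- the distance from the fixed point -/
lemma ur_step (hd : Odd d) (hα : 0 < α) (hz : z ^ (d + 1) = α + γ * z ^ d) (hz0 : z ≠ 0)
    {v : ℝ × ℝ} (hv : v.1 - v.2 * z ≠ 0) : ∃ Q : ℝ, 0 < Q ∧
      z ^ d * ((nm d α γ v).1 - (nm d α γ v).2 * z) = -(Q * (v.1 - v.2 * z)) := by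
  have hne : v.2 * z ≠ v.1 := fun h => hv (by rw [h, sub_self])
  obtain ⟨Q, hQ, h1⟩ := odd_q hd hne
  refine ⟨α * Q, mul_pos hα hQ, ?_⟩
  unfold nm
  dsimp only
  rw [mul_pow] at h1
  linear_combination α * h1 - v.1 ^ d * hz

/-- the map reverses the order -/
lemma ur_anti (hd : Odd d) (hα : 0 < α) (hz : z ^ (d + 1) = α + γ * z ^ d) (hz0 : z ≠ 0)
    {v w : ℝ × ℝ} (hv : v.1 - v.2 * z ≠ 0) (hw : w.1 - w.2 * z ≠ 0) (h : ur z v < ur z w) :
    ur z (nm d α γ w) < ur z (nm d α γ v) := by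
  obtain ⟨Q₁, hQ₁, e1⟩ := ur_step hd hα hz hz0 hv
  obtain ⟨Q₂, hQ₂, e2⟩ := ur_step hd hα hz hz0 hw
  have hzd : z ^ d ≠ 0 := pow_ne_zero _ hz0
  have hv' : (nm d α γ v).1 - (nm d α γ v).2 * z ≠ 0 := by
    intro h0
    rw [h0, mul_zero] at e1
    exact mul_ne_zero hQ₁.ne' hv (neg_eq_zero.1 e1.symm)
  have hw' : (nm d α γ w).1 - (nm d α γ w).2 * z ≠ 0 := by
    intro h0
    rw [h0, mul_zero] at e2
    exact mul_ne_zero hQ₂.ne' hw (neg_eq_zero.1 e2.symm)
  have key : ∀ {v w : ℝ × ℝ}, v.1 - v.2 * z ≠ 0 → w.1 - w.2 * z ≠ 0 →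
      ur z w - ur z v = (w.2 * v.1 - w.1 * v.2) / ((v.1 - v.2 * z) * (w.1 - w.2 * z)) := by
    intro v w hv hw
    unfold ur
    rw [div_sub_div _ _ hw hv, mul_comm (w.1 - w.2 * z) (v.1 - v.2 * z)]
    congr 1
    ring
  have h1 := sub_pos.2 h
  rw [key hv hw] at h1
  have hne : w.2 * v.1 ≠ w.1 * v.2 := by
    intro h0
    rw [h0, sub_self, zero_div] at h1
    exact lt_irrefl _ h1
  obtain ⟨Q, hQ, e3⟩ := odd_q hd hne
  refine sub_pos.1 ?_
  rw [key hw' hv']
  have e4 : (nm d α γ v).2 * (nm d α γ w).1 - (nm d α γ v).1 * (nm d α γ w).2 =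
      α * Q * (w.2 * v.1 - w.1 * v.2) := by
    unfold nm
    dsimp only
    rw [mul_pow, mul_pow] at e3
    linear_combination α * e3
  have e5 : ((nm d α γ w).1 - (nm d α γ w).2 * z) * ((nm d α γ v).1 - (nm d α γ v).2 * z) =
      Q₁ * Q₂ * ((v.1 - v.2 * z) * (w.1 - w.2 * z)) / (z ^ d) ^ 2 := by
    rw [eq_div_iff (pow_ne_zero _ hzd)]
    linear_combination z ^ d * ((nm d α γ v).1 - (nm d α γ v).2 * z) * e2 -
      Q₂ * (w.1 - w.2 * z) * e1
  rw [e4, e5]
  have e6 : α * Q * (w.2 * v.1 - w.1 * v.2) /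
      (Q₁ * Q₂ * ((v.1 - v.2 * z) * (w.1 - w.2 * z)) / (z ^ d) ^ 2) =
      α * Q * (z ^ d) ^ 2 / (Q₁ * Q₂) *
        ((w.2 * v.1 - w.1 * v.2) / ((v.1 - v.2 * z) * (w.1 - w.2 * z))) := by
    field_simp
  rw [e6]
  exact mul_pos (div_pos (mul_pos (mul_pos hα hQ) (by positivity)) (mul_pos hQ₁ hQ₂)) h1

/-- a real fixed point -/
lemma real_fix (hd : Odd d) (hα : 0 < α) : ∃ z : ℝ, z ≠ 0 ∧ z ^ (d + 1) = α + γ * z ^ d := by
  have hd1 : 1 ≤ d := hd.pos
  set g : ℝ → ℝ := fun z => z ^ (d + 1) - γ * z ^ d - α with hg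
  have hc : Continuous g := by
    rw [hg]
    fun_prop
  set R : ℝ := |γ| + α + 1 with hR
  have hR1 : 1 ≤ R := by
    have := abs_nonneg γ
    linarith
  have h0 : g 0 ≤ 0 := by
    rw [hg]
    dsimp only
    rw [zero_pow (by omega), zero_pow (by omega)]
    linarith
  have h1 : 0 ≤ g R := by
    rw [hg]
    dsimp only
    have h2 : (1 : ℝ) ≤ R ^ d := one_le_pow₀ hR1
    have h3 : γ ≤ |γ| := le_abs_self γ
    have h4 : R ^ (d + 1) - γ * R ^ d - α = R ^ d * (R - γ) - α := by ring
    rw [h4]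
    have h5 : α ≤ R - γ := by linarith
    have h6 : R - γ ≤ R ^ d * (R - γ) := le_mul_of_one_le_left (by linarith) h2
    linarith
  obtain ⟨z, -, hz⟩ := intermediate_value_Icc (by linarith : (0 : ℝ) ≤ R) hc.continuousOn
    (show (0 : ℝ) ∈ Set.Icc (g 0) (g R) from ⟨h0, h1⟩)
  refine ⟨z, ?_, ?_⟩
  · rintro rfl
    rw [hg] at hz
    dsimp only at hz
    rw [zero_pow (by omega), zero_pow (by omega)] at hz
    linarith
  · rw [hg] at hz
    dsimp only at hz
    linarith

end Real

section Field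

variable {K : Type} [Field K] {d : ℕ} {a c : K}

/-- for odd `d` and positive `a` all preperiodic points are in cycles of length at most two -/
lemma odd_two (φ : K →+* ℝ) (hd : Odd d) (ha : 0 < φ a) {v : K × K} (hv : v ≠ 0) {k n : ℕ}
    (hn : 0 < n) (hp : dt ((nm d a c)^[n] ((nm d a c)^[k] v)) ((nm d a c)^[k] v) = 0) :
    dt ((nm d a c)^[2] v) v = 0 := by
  have hd0 : d ≠ 0 := hd.pos.ne'
  have ha0 : a ≠ 0 := by
    rintro rfl
    rw [map_zero] at ha
    exact lt_irrefl _ ha
  have hf : Pj (nm d a c) := pj_nm hd0 ha0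
  have hφ0 : ∀ {x : K}, φ x = 0 ↔ x = 0 := map_eq_zero φ
  -- injectivity
  have hinj : ∀ u v : K × K, dt (nm d a c u) (nm d a c v) = 0 → dt u v = 0 := by
    intro u v h0
    rw [nm_dt] at h0
    have h1 := sub_eq_zero.1 ((mul_eq_zero.1 h0).resolve_left ha0)
    have h2 := congrArg φ h1
    rw [map_pow, map_pow] at h2
    have h3 := φ.injective (hd.strictMono_pow.injective h2)
    unfold dt
    rw [← h3, sub_self]
  have hinji : ∀ k : ℕ, ∀ u v : K × K, dt ((nm d a c)^[k] u) ((nm d a c)^[k] v) = 0 →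
      dt u v = 0 := by
    intro k
    induction k with
    | zero => intro u v h; exact h
    | succ k ih =>
      intro u v h
      rw [Function.iterate_succ_apply', Function.iterate_succ_apply'] at h
      exact ih u v (hinj _ _ h)
  have hper : dt ((nm d a c)^[n] v) v = 0 := by
    refine hinji k _ _ ?_
    rw [← Function.iterate_add_apply, add_comm k n, Function.iterate_add_apply]
    exact hp
  -- the real picture
  obtain ⟨z, hz0, hz⟩ := real_fix (γ := φ c) hd ha
  set y : ℕ → ℝ × ℝ := fun i => em φ ((nm d a c)^[i] v) with hy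
  have hys : ∀ i, y (i + 1) = nm d (φ a) (φ c) (y i) := by
    intro i
    rw [hy]
    dsimp only
    rw [Function.iterate_succ_apply']
    unfold em nm
    dsimp only
    rw [map_add, map_mul, map_mul, map_pow, map_pow]
  by_cases h0 : (y 0).1 - (y 0).2 * z = 0
  · -- the fixed point
    have e1 : (y 0).1 = (y 0).2 * z := sub_eq_zero.1 h0
    have h1 : dt (y 1) (y 0) = 0 := by
      rw [hys]
      unfold dt nm
      dsimp only
      rw [e1]
      linear_combination -((y 0).2 ^ d * (y 0).2) * hz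
    have h2 : dt (nm d a c v) v = 0 := by
      have h3 := h1
      rw [hy] at h3
      dsimp only at h3
      rw [dt_em] at h3
      exact hφ0.1 h3
    have h3 := hf.par _ _ h2
    exact par_trans (hf.ne _ hv) h3 h2
  · have hyz : ∀ i, (y i).1 - (y i).2 * z ≠ 0 := by
      intro i
      induction i with
      | zero => exact h0
      | succ i ih =>
        obtain ⟨Q, hQ, e1⟩ := ur_step hd ha hz hz0 ih
        rw [hys]
        intro h1
        rw [h1, mul_zero] at e1
        exact mul_ne_zero hQ.ne' ih (neg_eq_zero.1 e1.symm)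
    -- parallel vectors have the same coordinate
    have hpar : ∀ i j, dt ((nm d a c)^[i] v) ((nm d a c)^[j] v) = 0 →
        ur z (y i) = ur z (y j) := by
      intro i j h
      have h1 : (y i).1 * (y j).2 - (y i).2 * (y j).1 = 0 := by
        have h2 : dt (y i) (y j) = 0 := by
          rw [hy]
          dsimp only
          rw [dt_em, h, map_zero]
        exact h2
      unfold ur
      rw [div_eq_div_iff (hyz i) (hyz j)]
      linear_combination -h1
    have hmul : ∀ j, dt ((nm d a c)^[j * n] v) v = 0 := by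
      intro j
      induction j with
      | zero => rw [Nat.zero_mul, Function.iterate_zero_apply, dt_self]
      | succ j ih =>
        have h2 := hf.it n ih
        rw [← Function.iterate_add_apply, show n + j * n = (j + 1) * n by ring] at h2
        exact par_trans (hf.it_ne n hv) h2 hper
    have hcyc : ur z (y (2 * n)) = ur z (y 0) := hpar (2 * n) 0 (hmul 2)
    rcases lt_trichotomy (ur z (y 0)) (ur z (y 2)) with h1 | h1 | h1
    · exfalso
      have h2 : ∀ j, ur z (y (2 * j)) < ur z (y (2 * j + 2)) := by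
        intro j
        induction j with
        | zero => exact h1
        | succ j ih =>
          have h3 := ur_anti hd ha hz hz0 (hyz _) (hyz _) ih
          rw [← hys, ← hys] at h3
          have h4 := ur_anti hd ha hz hz0 (hyz _) (hyz _) h3
          rw [← hys, ← hys] at h4
          exact h4
      have h3 : StrictMono fun j => ur z (y (2 * j)) := strictMono_nat_of_lt_succ h2
      have h4 := h3 hn
      dsimp only at h4
      rw [mul_zero, hcyc] at h4
      exact lt_irrefl _ h4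
    · have h2 : (y 0).2 * (y 2).1 - (y 0).1 * (y 2).2 = 0 := by
        unfold ur at h1
        rw [div_eq_div_iff (hyz 0) (hyz 2)] at h1
        linear_combination h1
      have h3 : dt (y 2) (y 0) = 0 := by
        unfold dt
        linear_combination h2
      rw [hy] at h3
      dsimp only at h3
      rw [dt_em] at h3
      exact hφ0.1 h3
    · exfalso
      have h2 : ∀ j, ur z (y (2 * j + 2)) < ur z (y (2 * j)) := by
        intro j
        induction j with
        | zero => exact h1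
        | succ j ih =>
          have h3 := ur_anti hd ha hz hz0 (hyz _) (hyz _) ih
          rw [← hys, ← hys] at h3
          have h4 := ur_anti hd ha hz hz0 (hyz _) (hyz _) h3
          rw [← hys, ← hys] at h4
          exact h4
      have h3 : StrictAnti fun j => ur z (y (2 * j)) := strictAnti_nat_of_succ_lt h2
      have h4 := h3 hn
      dsimp only at h4
      rw [mul_zero, hcyc] at h4
      exact lt_irrefl _ h4

/-- the number of preperiodic points for odd `d` and positive `a` -/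
lemma odd_count (φ : K →+* ℝ) (hd : Odd d) (hd2 : 2 ≤ d) (ha : 0 < φ a) (c : K)
    (S : Finset (K × K)) (hS0 : ∀ v ∈ S, v ≠ 0)
    (hSS : ∀ u ∈ S, ∀ v ∈ S, u ≠ v → dt u v ≠ 0)
    (hSp : ∀ v ∈ S, ∃ k n, 0 < n ∧
      dt ((nm d a c)^[n] ((nm d a c)^[k] v)) ((nm d a c)^[k] v) = 0) : S.card ≤ d ^ 3 := by
  have hd0 : d ≠ 0 := hd.pos.ne'
  have ha0 : a ≠ 0 := by
    rintro rfl
    rw [map_zero] at ha
    exact lt_irrefl _ ha
  have h1 := count_points (F := hg d (nf d a c)) (G := hg d (ng d)) hd2 (hg_hom _ _)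
    (hg_hom _ _) (ncz_of (nm_ncz' hd0 ha0 c)) 0 2 two_pos S hSS fun v hv => by
      rw [fm_nm' hd0]
      obtain ⟨k, n, hn, hp⟩ := hSp v hv
      exact odd_two φ hd ha (hS0 v hv) hn hp
  exact h1

end Field

end Pool.Agent.PDR
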