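import Pool.Agent.PDR.Count
import Pool.Agent.PDR.SymCyc

set_option autoImplicit false

/-!
# PDR: symmetries have finite order
-/

noncomputable section

namespace Pool.Agent.PDR

section Fib

open Polynomial

variable {K : Type} [Field K] {F G : MvPolynomial (Fin 2) K} {d : ℕ}

lemma pw_fib_ne (hd : 1 ≤ d) (hF : F.IsHomogeneous d) (hG : G.IsHomogeneous d)
    (h : NCZ F G) {y : K × K} (hy : y ≠ 0) :
    (pw F G 1).1 * C y.2 - (pw F G 1).2 * C y.1 ≠ 0 := by
  intro h0
  set p := (pw F G 1).1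
  set q := (pw F G 1).2
  have h1 : p * C y.2 = q * C y.1 := sub_eq_zero.1 h0
  have c1 : IsCoprime p q := pw_coprime h _
  have c2 : IsCoprime (C y.1) (C y.2) := by
    by_cases h2 : y.1 = 0
    · have h3 : y.2 ≠ 0 := fun h3 => hy (Prod.ext h2 h3)
      exact (isCoprime_one_right.of_isCoprime_of_dvd_right
        (isUnit_C.2 (isUnit_iff_ne_zero.2 h3)).dvd)
    · exact (isCoprime_one_left.of_isCoprime_of_dvd_left
        (isUnit_C.2 (isUnit_iff_ne_zero.2 h2)).dvd)
  obtain ⟨d1, d2, d3⟩ := pw_top hF hG (F := F) (G := G) 1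
  have hpp : p ∣ C y.1 := c1.dvd_of_dvd_mul_left ⟨C y.2, h1.symm⟩
  have hqq : q ∣ C y.2 := c1.symm.dvd_of_dvd_mul_left ⟨C y.1, h1⟩
  have hpp' : C y.1 ∣ p := c2.dvd_of_dvd_mul_right ⟨q, by rw [h1, mul_comm]⟩
  have hqq' : C y.2 ∣ q := c2.symm.dvd_of_dvd_mul_right ⟨p, by rw [← h1, mul_comm]⟩
  have hne : (fm F G K)^[1] ((1 : K), (0 : K)) ≠ 0 := by
    rw [Function.iterate_one]
    exact h.ne fun h0 => one_ne_zero (congrArg Prod.fst h0)
  rw [d3] at hne
  have key : ∀ x y : K[X], x ∣ y → y ∣ x → y.natDegree ≤ 0 → x.coeff (d ^ 1) = 0 := by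
    intro x y hxy hyx hy
    by_cases hy0 : y = 0
    · rw [hy0, zero_dvd_iff] at hyx
      rw [hyx, Polynomial.coeff_zero]
    · refine coeff_eq_zero_of_natDegree_lt
        (((natDegree_le_of_dvd hxy hy0).trans hy).trans_lt ?_)
      rw [pow_one]
      exact hd
  refine hne (Prod.ext ?_ ?_)
  · exact key p _ hpp hpp' (natDegree_C _).le
  · exact key q _ hqq hqq' (natDegree_C _).le

/-- the number of points in a fibre -/
theorem fib_card (hd : 1 ≤ d) (hF : F.IsHomogeneous d) (hG : G.IsHomogeneous d)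
    (h : NCZ F G) {y : K × K} (hy : y ≠ 0) (S : Finset (K × K))
    (hS : ∀ a ∈ S, ∀ b ∈ S, a ≠ b → dt a b ≠ 0)
    (hST : ∀ a ∈ S, dt (fm F G K a) y = 0) : S.card ≤ d + 1 := by
  classical
  set W : K[X] := (pw F G 1).1 * C y.2 - (pw F G 1).2 * C y.1 with hW
  have hW0 : W ≠ 0 := pw_fib_ne hd hF hG h hy
  obtain ⟨d1, d2, -⟩ := pw_top hF hG (F := F) (G := G) 1
  have hdeg : W.natDegree ≤ d := by
    have h1 : W.natDegree ≤ d ^ 1 + 0 :=
      (natDegree_sub_le_of_le (natDegree_mul_le_of_le d1 (natDegree_C _).le)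
        (natDegree_mul_le_of_le d2 (natDegree_C _).le)).trans (max_self _).le
    rwa [pow_one, add_zero] at h1
  have h1 : (S.filter fun a => a.2 = 0).card ≤ 1 := by
    refine Finset.card_le_one.2 fun a ha b hb => ?_
    rw [Finset.mem_filter] at ha hb
    by_contra hne
    refine hS a ha.1 b hb.1 hne ?_
    unfold dt
    rw [ha.2, hb.2]
    ring
  have h2 : (S.filter fun a => ¬ a.2 = 0).card ≤ W.natDegree := by
    refine le_trans ?_ (W.card_roots' )
    refine le_trans ?_ (Multiset.toFinset_card_le _)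
    refine Finset.card_le_card_of_injOn (fun a => a.1 / a.2) (fun a ha => ?_)
      (fun a ha b hb hab => ?_)
    · rw [Finset.mem_coe, Finset.mem_filter] at ha
      rw [Finset.mem_coe, Multiset.mem_toFinset, mem_roots hW0, IsRoot.def]
      have e : a = a.2 • (a.1 / a.2, (1 : K)) := by
        refine Prod.ext ?_ ?_
        · rw [Prod.smul_fst, smul_eq_mul, mul_div_cancel₀ _ ha.2]
        · rw [Prod.smul_snd, smul_eq_mul, mul_one]
      have h3 := hST a ha.1
      have h5 := pw_eval (F := F) (G := G) (a.1 / a.2) 1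
      rw [Function.iterate_one] at h5
      rw [e, fm_smul hF hG, dt_smul_left, h5] at h3
      have h4 := (mul_eq_zero.1 h3).resolve_left (pow_ne_zero _ ha.2)
      rw [hW, Polynomial.eval_sub, Polynomial.eval_mul, Polynomial.eval_mul, eval_C, eval_C]
      exact h4
    · rw [Finset.mem_coe, Finset.mem_filter] at ha hb
      by_contra hne
      refine hS a ha.1 b hb.1 hne ?_
      dsimp only at hab
      rw [div_eq_div_iff ha.2 hb.2] at hab
      unfold dt
      linear_combination hab
  have h3 := Finset.card_filter_add_card_filter_not (s := S) (fun a => a.2 = 0)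
  omega

end Fib

section Ord

variable {K : Type} [Field K] {α β γ δ : K}

lemma lin_itl (i : ℕ) (c : K) (a : K × K) :
    (lin α β γ δ)^[i] (c • a) = c • (lin α β γ δ)^[i] a := by
  induction i with
  | zero => rfl
  | succ i ih =>
    rw [Function.iterate_succ_apply', ih, lin_smul, Function.iterate_succ_apply' _ i a]

lemma lin_it_dt (i : ℕ) (a b : K × K) :
    dt ((lin α β γ δ)^[i] a) ((lin α β γ δ)^[i] b) = (α * δ - β * γ) ^ i * dt a b := by
  induction i with
  | zero => rw [Function.iterate_zero_apply, Function.iterate_zero_apply, pow_zero, one_mul]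
  | succ i ih =>
    rw [Function.iterate_succ_apply', Function.iterate_succ_apply', dt_lin, ih, pow_succ]
    ring

/-- a symmetry has finite order -/
lemma fin_ord [Infinite K] {F G : MvPolynomial (Fin 2) K} {d : ℕ} (hd : 1 ≤ d)
    (hF : F.IsHomogeneous d) (hG : G.IsHomogeneous d) (h : NCZ F G) {χ : K}
    (hs : Sy (fm F G K) α β γ δ χ) :
    ∃ k, 0 < k ∧ ∀ v, dt ((lin α β γ δ)^[k] v) v = 0 := by
  classical
  set σ := lin α β γ δ with hσ
  -- every line is fixed by some power
  have h1 : ∀ v : K × K, v ≠ 0 → ∃ k, 0 < k ∧ k ≤ d + 1 ∧ dt (σ^[k] v) v = 0 := by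
    intro v hv
    by_contra hcon
    push Not at hcon
    have hne : ∀ i j, i < j → j ≤ d + 1 → dt (σ^[i] v) (σ^[j] v) ≠ 0 := by
      intro i j hij hj h0
      refine hcon (j - i) (by omega) (by omega) ?_
      obtain ⟨k, rfl⟩ := Nat.exists_eq_add_of_lt hij
      rw [show i + k + 1 = i + (k + 1) by ring, Function.iterate_add_apply, lin_it_dt] at h0
      rw [show i + k + 1 - i = k + 1 by omega]
      exact dt_comm_zero ((mul_eq_zero.1 h0).resolve_left (pow_ne_zero _ hs.det))
    have hne' : ∀ i ∈ Finset.range (d + 2), ∀ j ∈ Finset.range (d + 2), i ≠ j →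
        dt (σ^[i] v) (σ^[j] v) ≠ 0 := by
      intro i hi j hj hij
      rw [Finset.mem_range] at hi hj
      rcases lt_or_gt_of_ne hij with h2 | h2
      · exact hne i j h2 (by omega)
      · intro h0
        exact hne j i h2 (by omega) (dt_comm_zero h0)
    have h2 := fib_card hd hF hG h (y := fm F G K v) (h.ne hv)
      ((Finset.range (d + 2)).image fun i => σ^[i] v) (fun a ha b hb hab => by
        obtain ⟨i, hi, rfl⟩ := Finset.mem_image.1 ha
        obtain ⟨j, hj, rfl⟩ := Finset.mem_image.1 hb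
        exact hne' i hi j hj fun he => hab (by rw [he])) (fun a ha => by
        obtain ⟨i, hi, rfl⟩ := Finset.mem_image.1 ha
        rw [hσ, hs.it, dt_smul_left, dt_self, mul_zero])
    rw [Finset.card_image_of_injOn, Finset.card_range] at h2
    · omega
    · intro i hi j hj hij
      by_contra hcon
      refine hne' i hi j hj hcon ?_
      dsimp only at hij
      rw [hij, dt_self]
  -- some power fixes infinitely many lines
  have h2 : ∀ x : K, ∃ k : Fin (d + 1), dt (σ^[k.1 + 1] (x, 1)) (x, 1) = 0 := by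
    intro x
    obtain ⟨k, hk, hk', h3⟩ := h1 (x, 1) fun h0 => one_ne_zero (congrArg Prod.snd h0)
    exact ⟨⟨k - 1, by omega⟩, by rwa [show k - 1 + 1 = k by omega]⟩
  choose g hg using h2
  obtain ⟨k, hk⟩ := Finite.exists_infinite_fiber g
  obtain ⟨e, he⟩ := Infinite.exists_subset_card_eq (g ⁻¹' {k}) 3
  obtain ⟨α', β', γ', δ', hl⟩ := lin_it α β γ δ (k.1 + 1)
  refine ⟨k.1 + 1, Nat.succ_pos _, fun v => ?_⟩
  rw [hσ, hl]
  obtain ⟨a, b, c, ha, hb, hc, hab, hac, hbc⟩ := Finset.two_lt_card_iff.1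
    (show 2 < e.card by omega)
  have h4 : ∀ x : g ⁻¹' {k}, dt (lin α' β' γ' δ' (x.1, 1)) (x.1, 1) = 0 := by
    intro x
    have h5 : g x.1 = k := x.2
    rw [← hl]
    have h6 := hg x.1
    rw [h5] at h6
    exact h6
  have h5 : ∀ x y : g ⁻¹' {k}, x ≠ y → dt (x.1, (1 : K)) (y.1, 1) ≠ 0 := by
    intro x y hxy h0
    apply hxy
    apply Subtype.ext
    unfold dt at h0
    linear_combination h0
  exact three_fix (h4 a) (h4 b) (h4 c) (h5 a b hab) (h5 a c hac) (h5 b c hbc)

end Ord

end Pool.Agent.PDR
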