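import Pool.Agent.PDR.PowDef
import Pool.Agent.PDR.Neg5
import Pool.Agent.HMW.AllG
import Pool.Agent.HMW.AllK

set_option autoImplicit false

/-!
# PDR: uniform boundedness for `a z ^ k + c`, for all integers `k`
-/

open NumberField

noncomputable section

namespace Pool.Agent.PDR

/-- from finite subsets to the cardinality of the set -/
lemma encard_le_of {α : Type} (S : Set α) (B : ℕ)
    (h : ∀ s : Finset α, (∀ x ∈ s, x ∈ S) → s.card ≤ B) : S.encard ≤ B := by
  by_contra hcon
  rw [not_le] at hcon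
  have h1 : ((B + 1 : ℕ) : ℕ∞) ≤ S.encard := by
    rw [Nat.cast_add, Nat.cast_one]
    exact Order.add_one_le_of_lt hcon
  obtain ⟨t, ht, htc⟩ := Set.exists_subset_encard_eq h1
  have hfin : t.Finite := Set.finite_of_encard_eq_coe htc
  have h2 := h hfin.toFinset (fun x hx => ht (hfin.mem_toFinset.1 hx))
  rw [hfin.encard_eq_coe_toFinset_card] at htc
  have h3 : hfin.toFinset.card = B + 1 := by exact_mod_cast htc
  omega

section Pos

variable {K : Type} [Field K] {a c : K}

lemma powMap_inf {k : ℤ} (hk : ¬ 0 < k) : powMap a c k none = some c := if_neg hk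

lemma powMap_zero {k : ℤ} (hk : k < 0) : powMap a c k (some 0) = none := if_pos ⟨rfl, hk⟩

lemma powMap_some {k : ℤ} {z : K} (h : ¬ (z = 0 ∧ k < 0)) :
    powMap a c k (some z) = some (a * z ^ k + c) := if_neg h

lemma powMap_pos {d : ℕ} (hd : 0 < d) (z : K) :
    powMap a c (d : ℤ) (some z) = some (a * z ^ d + c) := by
  rw [powMap_some (fun h => by omega), zpow_natCast]

lemma powMap_pos_it {d : ℕ} (hd : 0 < d) (z : K) (n : ℕ) :
    (powMap a c (d : ℤ))^[n] (some z) = some ((fun y : K => a * y ^ d + c)^[n] z) := by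
  induction n with
  | zero => rfl
  | succ n ih => rw [Function.iterate_succ_apply', ih, Function.iterate_succ_apply', powMap_pos hd]

/-- from the affine line to the projective line -/
lemma pos_le {d B : ℕ} (hd : 0 < d)
    (h : {x : K | (Set.range fun n : ℕ => (fun y : K => a * y ^ d + c)^[n] x).Finite}.encard ≤
      B) :
    {P : Option K | (Set.range fun n : ℕ => (powMap a c (d : ℤ))^[n] P).Finite}.encard ≤
      ((B + 1 : ℕ) : ℕ∞) := by
  have hsub : {P : Option K | (Set.range fun n : ℕ => (powMap a c (d : ℤ))^[n] P).Finite} ⊆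
      insert none (some '' {x : K | (Set.range fun n : ℕ =>
        (fun y : K => a * y ^ d + c)^[n] x).Finite}) := by
    intro P hP
    cases P with
    | none => exact Set.mem_insert _ _
    | some x =>
      refine Set.mem_insert_of_mem _ ⟨x, ?_, rfl⟩
      have h1 : (some '' (Set.range fun n : ℕ => (fun y : K => a * y ^ d + c)^[n] x)) ⊆
          Set.range fun n : ℕ => (powMap a c (d : ℤ))^[n] (some x) := by
        rintro _ ⟨_, ⟨n, rfl⟩, rfl⟩
        exact ⟨n, powMap_pos_it hd x n⟩
      exact Set.Finite.of_finite_image (hP.subset h1) (Option.some_injective K).injOn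
  calc _ ≤ _ := Set.encard_le_encard hsub
    _ ≤ _ := Set.encard_insert_le _ _
    _ ≤ (B : ℕ∞) + 1 := by
      gcongr
      exact (Set.encard_image_le _ _).trans h
    _ = ((B + 1 : ℕ) : ℕ∞) := by push_cast; rfl

end Pos

section Neg

variable {K : Type} [Field K] {a c : K}

/-- a vector representing a point -/
def vec : Option K → K × K
  | none => (1, 0)
  | some z => (z, 1)

lemma vec_ne (P : Option K) : vec P ≠ 0 := by
  cases P with
  | none => exact fun h => one_ne_zero (congrArg Prod.fst h)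
  | some z => exact fun h => one_ne_zero (congrArg Prod.snd h)

lemma vec_inj {P Q : Option K} (h : dt (vec P) (vec Q) = 0) : P = Q := by
  unfold dt at h
  cases P with
  | none =>
    cases Q with
    | none => rfl
    | some w =>
      simp [vec] at h
  | some z =>
    cases Q with
    | none => simp [vec] at h
    | some w =>
      simp [vec] at h
      rw [sub_eq_zero.1 h]

/-- the map on vectors and on points -/
lemma powMap_vec {d : ℕ} (hd : 0 < d) (ha : a ≠ 0) (P : Option K) :
    dt (nm d a c (vec P)) (vec (powMap a c (-(d : ℤ)) P)) = 0 := by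
  have hd0 : d ≠ 0 := hd.ne'
  cases P with
  | none =>
    rw [powMap_inf (by omega)]
    unfold dt nm vec
    dsimp only
    rw [zero_pow hd0, one_pow]
    ring
  | some z =>
    by_cases hz : z = 0
    · rw [hz, powMap_zero (by omega)]
      unfold dt nm vec
      dsimp only
      rw [zero_pow hd0]
      ring
    · rw [powMap_some (fun h => hz h.1), zpow_neg, zpow_natCast]
      have h1 : z ^ d ≠ 0 := pow_ne_zero _ hz
      unfold dt nm vec
      dsimp only
      field_simp
      ring

lemma powMap_vec_it {d : ℕ} (hd : 0 < d) (ha : a ≠ 0) (P : Option K) (n : ℕ) :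
    dt ((nm d a c)^[n] (vec P)) (vec ((powMap a c (-(d : ℤ)))^[n] P)) = 0 := by
  have hf : Pj (nm d a c) := pj_nm hd.ne' ha
  induction n with
  | zero => rw [Function.iterate_zero_apply, Function.iterate_zero_apply, dt_self]
  | succ n ih =>
    rw [Function.iterate_succ_apply', Function.iterate_succ_apply']
    exact par_trans (hf.ne _ (vec_ne _)) (hf.par _ _ ih) (powMap_vec hd ha _)

lemma pre_vec {d : ℕ} (hd : 0 < d) (ha : a ≠ 0) {P : Option K}
    (hP : (Set.range fun n : ℕ => (powMap a c (-(d : ℤ)))^[n] P).Finite) :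
    ∃ k n, 0 < n ∧ dt ((nm d a c)^[n] ((nm d a c)^[k] (vec P))) ((nm d a c)^[k] (vec P)) = 0 := by
  obtain ⟨i, j, hij, h⟩ : ∃ i j, i < j ∧ (powMap a c (-(d : ℤ)))^[i] P =
      (powMap a c (-(d : ℤ)))^[j] P := by
    by_contra hcon
    push Not at hcon
    refine Set.infinite_range_of_injective (f := fun n : ℕ => (powMap a c (-(d : ℤ)))^[n] P)
      (fun i j h => ?_) hP
    by_contra hne
    rcases lt_or_gt_of_ne hne with h1 | h1
    · exact hcon i j h1 h
    · exact hcon j i h1 h.symm
  refine ⟨i, j - i, by omega, ?_⟩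
  rw [← Function.iterate_add_apply, Nat.sub_add_cancel hij.le]
  have h1 := powMap_vec_it hd ha (c := c) P i
  have h2 := powMap_vec_it hd ha (c := c) P j
  rw [← h] at h2
  exact par_trans (vec_ne _) h2 (dt_comm_zero h1)

/-- from vectors to points -/
lemma neg_le {d B : ℕ} (hd : 0 < d) (ha : a ≠ 0)
    (h : ∀ S : Finset (K × K), (∀ v ∈ S, v ≠ 0) → (∀ u ∈ S, ∀ v ∈ S, u ≠ v → dt u v ≠ 0) →
      (∀ v ∈ S, ∃ k n, 0 < n ∧
        dt ((nm d a c)^[n] ((nm d a c)^[k] v)) ((nm d a c)^[k] v) = 0) → S.card ≤ B) :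
    {P : Option K | (Set.range fun n : ℕ =>
      (powMap a c (-(d : ℤ)))^[n] P).Finite}.encard ≤ B := by
  classical
  refine encard_le_of _ B fun s hs => ?_
  have hinj : Set.InjOn (vec (K := K)) s := fun P _ Q _ hPQ => vec_inj (by rw [hPQ, dt_self])
  rw [← Finset.card_image_of_injOn hinj]
  refine h _ (fun v hv => ?_) (fun u hu v hv huv h0 => ?_) (fun v hv => ?_)
  · obtain ⟨P, -, rfl⟩ := Finset.mem_image.1 hv
    exact vec_ne P
  · obtain ⟨P, -, rfl⟩ := Finset.mem_image.1 hu
    obtain ⟨Q, -, rfl⟩ := Finset.mem_image.1 hv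
    exact huv (by rw [vec_inj h0])
  · obtain ⟨P, hP, rfl⟩ := Finset.mem_image.1 hv
    exact pre_vec hd ha (hs P hP)

end Neg

/-- uniform boundedness for `a z ^ k + c` -/
theorem pow_all (K : Type) [Field K] [NumberField K] (a : K) (k : ℤ) (ha : a ≠ 0)
    (hk : 5 ≤ k ∨ k ≤ -4 ∨ 3 ≤ |k| ∧ a = 1 ∧ Module.finrank ℚ K = 1) :
    ∃ B : ℕ, ∀ c : K,
      {P : Option K | (Set.range fun n : ℕ => (powMap a c k)^[n] P).Finite}.encard ≤ B := by
  rcases lt_or_ge 0 k with hpos | hneg
  · -- positive exponents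
    obtain ⟨d, rfl⟩ : ∃ d : ℕ, k = d := ⟨k.toNat, by omega⟩
    have hd0 : 0 < d := by omega
    have hk' : 5 ≤ d ∨ 3 ≤ d ∧ a = 1 ∧ Module.finrank ℚ K = 1 := by
      rcases hk with h | h | ⟨h, h1, h2⟩
      · exact Or.inl (by omega)
      · omega
      · rw [abs_of_pos hpos] at h
        exact Or.inr ⟨by omega, h1, h2⟩
    rcases hk' with hd | ⟨hd, rfl, hK⟩
    · obtain ⟨B, hB⟩ := HMW.all_KUNI K d a hd ha
      exact ⟨B + 1, fun c => pos_le hd0 (encard_le_of _ B (hB c))⟩
    · obtain ⟨B, hB⟩ := HMW.all_UNI d hd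
      refine ⟨B + 1, fun c => pos_le hd0 (encard_le_of _ B fun s hs => ?_)⟩
      have hbij : Function.Bijective (algebraMap ℚ K) := by
        refine ⟨(algebraMap ℚ K).injective, ?_⟩
        have h1 : (⊥ : Subalgebra ℚ K) = ⊤ := Subalgebra.bot_eq_top_of_finrank_eq_one hK
        intro y
        have hy : y ∈ (⊥ : Subalgebra ℚ K) := by rw [h1]; exact Algebra.mem_top
        exact Algebra.mem_bot.1 hy
      let e : ℚ ≃+* K := RingEquiv.ofBijective (algebraMap ℚ K) hbij
      obtain ⟨c₀, hc₀⟩ : ∃ c₀ : ℚ, e c₀ = c := e.surjective c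
      have hiter : ∀ (k : ℕ) (x : ℚ), e ((HMW.fc d c₀)^[k] x) =
          (fun y : K => 1 * y ^ d + c)^[k] (e x) := by
        intro k
        induction k with
        | zero => intro x; rfl
        | succ k ih =>
          intro x
          rw [Function.iterate_succ_apply, Function.iterate_succ_apply, ih]
          congr 1
          change e (x ^ d + c₀) = 1 * (e x) ^ d + c
          rw [map_add, map_pow, hc₀, one_mul]
      have h2 := hB c₀ (s.map e.symm.toEquiv.toEmbedding) (by
        intro x hx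
        obtain ⟨y, hy, rfl⟩ := Finset.mem_map.1 hx
        have h3 := hs y hy
        have h4 : (Set.range fun k : ℕ => (HMW.fc d c₀)^[k] (e.symm y)) ⊆
            e.symm '' (Set.range fun k : ℕ => (fun y : K => 1 * y ^ d + c)^[k] y) := by
          rintro _ ⟨k, rfl⟩
          refine ⟨_, ⟨k, rfl⟩, ?_⟩
          apply e.injective
          rw [e.apply_symm_apply]
          have h5 := hiter k (e.symm y)
          rw [e.apply_symm_apply] at h5
          exact h5.symm
        exact (h3.image _).subset h4)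
      rwa [Finset.card_map] at h2
  · -- negative exponents
    obtain ⟨d, rfl⟩ : ∃ d : ℕ, k = -(d : ℤ) := ⟨(-k).toNat, by omega⟩
    rcases lt_or_ge d 4 with h3 | h4
    · have h5 : 3 ≤ d ∧ a = 1 ∧ Module.finrank ℚ K = 1 := by
        rcases hk with h | h | ⟨h, h1, h2⟩
        · omega
        · omega
        · rw [abs_neg, Nat.abs_cast] at h
          exact ⟨by omega, h1, h2⟩
      obtain ⟨h6, rfl, hK⟩ := h5
      have hd3 : d = 3 := by omega
      subst hd3
      have hbij : Function.Bijective (algebraMap ℚ K) := by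
        refine ⟨(algebraMap ℚ K).injective, ?_⟩
        have h1 : (⊥ : Subalgebra ℚ K) = ⊤ := Subalgebra.bot_eq_top_of_finrank_eq_one hK
        intro y
        have hy : y ∈ (⊥ : Subalgebra ℚ K) := by rw [h1]; exact Algebra.mem_top
        exact Algebra.mem_bot.1 hy
      let e : ℚ ≃+* K := RingEquiv.ofBijective (algebraMap ℚ K) hbij
      let φ : K →+* ℝ := (Rat.castHom ℝ).comp (e.symm : K →+* ℚ)
      exact ⟨3 ^ 3, fun c => neg_le (by omega) one_ne_zero fun S h1 h2 h3 =>
        odd_count φ (by decide) (by omega) (by rw [map_one]; exact one_pos) c S h1 h2 h3⟩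
    · obtain ⟨B, hB⟩ := neg_count HMW.all_KGU K d h4 a ha
      exact ⟨B, fun c => neg_le (by omega) ha (hB c)⟩

end Pool.Agent.PDR
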