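import Mathlib

set_option autoImplicit false

/-!
# PDR: the map `a z ^ k + c` on the projective line, for an integer `k`
-/

noncomputable section

namespace Pool.Agent.PDR

open Classical in
/-- The map `z ↦ a z ^ k + c` of the projective line `K ∪ {∞}` to itself, for a nonzero integer
`k`; `none` is the point at infinity. For positive `k` infinity is fixed; for negative `k` zero
goes to infinity and infinity goes to `c`. -/
def powMap {K : Type} [Field K] (a c : K) (k : ℤ) : Option K → Option K
  | none => if 0 < k then none else some c
  | some z => if z = 0 ∧ k < 0 then none else some (a * z ^ k + c)

end Pool.Agent.PDR
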