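import Pool.Agent.PDR.Tail

set_option autoImplicit false

/-!
# PDR: maps with a symmetry
-/

open NumberField IsDedekindDomain
open scoped WithZero

noncomputable section

namespace Pool.Agent.PDR

open WithZero
open Pool.Agent.PDP (Sg Sq wb wb2 gcd_mul_aux)

section Lin2

variable {K : Type} [Field K]

lemma lin_lin (α β γ δ α' β' γ' δ' : K) (a : K × K) :
    lin α β γ δ (lin α' β' γ' δ' a) =
      lin (α * α' + β * γ') (α * β' + β * δ') (γ * α' + δ * γ') (γ * β' + δ * δ') a := by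
  unfold lin
  refine Prod.ext ?_ ?_ <;> dsimp only <;> ring

lemma lin_it (α β γ δ : K) (i : ℕ) : ∃ α' β' γ' δ' : K,
    ∀ a, (lin α β γ δ)^[i] a = lin α' β' γ' δ' a := by
  induction i with
  | zero =>
    refine ⟨1, 0, 0, 1, fun a => ?_⟩
    unfold lin
    refine Prod.ext ?_ ?_
    · simp
    · simp
  | succ i ih =>
    obtain ⟨α', β', γ', δ', h⟩ := ih
    refine ⟨α * α' + β * γ', α * β' + β * δ', γ * α' + δ * γ', γ * β' + δ * δ', fun a => ?_⟩
    rw [Function.iterate_succ_apply', h, lin_lin]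

/-- a linear map with three fixed lines is scalar -/
lemma three_fix {α β γ δ : K} {b c e v : K × K} (hb : dt (lin α β γ δ b) b = 0)
    (hc : dt (lin α β γ δ c) c = 0) (he : dt (lin α β γ δ e) e = 0) (h1 : dt b c ≠ 0)
    (h2 : dt b e ≠ 0) (h3 : dt c e ≠ 0) : dt (lin α β γ δ v) v = 0 := by
  have hq : ∀ x : K × K, dt (lin α β γ δ x) x =
      -γ * x.1 ^ 2 + (α - δ) * (x.1 * x.2) + β * x.2 ^ 2 := by
    intro x
    unfold dt lin
    ring
  rw [hq] at hb hc he ⊢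
  have hΔ : dt b c * dt b e * dt c e ≠ 0 := mul_ne_zero (mul_ne_zero h1 h2) h3
  unfold dt at hΔ
  have e1 : γ * ((b.1 * c.2 - b.2 * c.1) * (b.1 * e.2 - b.2 * e.1) * (c.1 * e.2 - c.2 * e.1)) =
      0 := by
    linear_combination (-(c.1 * c.2 * e.2 ^ 2 - c.2 ^ 2 * (e.1 * e.2))) * hb +
      (b.1 * b.2 * e.2 ^ 2 - b.2 ^ 2 * (e.1 * e.2)) * hc -
      (b.1 * b.2 * c.2 ^ 2 - b.2 ^ 2 * (c.1 * c.2)) * he
  have e2 : (α - δ) * ((b.1 * c.2 - b.2 * c.1) * (b.1 * e.2 - b.2 * e.1) *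
      (c.1 * e.2 - c.2 * e.1)) = 0 := by
    linear_combination (-(c.1 ^ 2 * e.2 ^ 2 - c.2 ^ 2 * e.1 ^ 2)) * hb +
      (b.1 ^ 2 * e.2 ^ 2 - b.2 ^ 2 * e.1 ^ 2) * hc -
      (b.1 ^ 2 * c.2 ^ 2 - b.2 ^ 2 * c.1 ^ 2) * he
  have e3 : β * ((b.1 * c.2 - b.2 * c.1) * (b.1 * e.2 - b.2 * e.1) *
      (c.1 * e.2 - c.2 * e.1)) = 0 := by
    linear_combination (c.1 ^ 2 * (e.1 * e.2) - c.1 * c.2 * e.1 ^ 2) * hb -
      (b.1 ^ 2 * (e.1 * e.2) - b.1 * b.2 * e.1 ^ 2) * hc +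
      (b.1 ^ 2 * (c.1 * c.2) - b.1 * b.2 * c.1 ^ 2) * he
  rw [(mul_eq_zero.1 e1).resolve_right hΔ, (mul_eq_zero.1 e2).resolve_right hΔ,
    (mul_eq_zero.1 e3).resolve_right hΔ]
  ring

end Lin2

/-- a symmetry of the map `f`: the linear map with matrix rows `(α, β)`, `(γ, δ)` -/
structure Sy {K : Type} [Field K] (f : K × K → K × K) (α β γ δ χ : K) : Prop where
  det : α * δ - β * γ ≠ 0
  chi : χ ≠ 0
  inv : ∀ a, f (lin α β γ δ a) = χ • f a

section Inv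

variable {K : Type} [Field K] {f : K × K → K × K} {α β γ δ χ : K} {w : Valuation K ℤᵐ⁰} {d ε : ℕ}
  {D : K × K → K × K → ℤᵐ⁰} {ρ : K × K → ℤᵐ⁰} {κ : ℤᵐ⁰}

/-- points with proportional images -/
lemma GR.fib (h : GR w f d ε D ρ κ) {c : K} {a b : K × K} (ha : a ≠ 0) (hb : b ≠ 0)
    (e : f a = c • f b) : ρ a ^ d = w c ^ ε * ρ b ^ d := by
  obtain ⟨c₀, hc₀, h1⟩ := h.dd.img
  have h2 := h1 a ha
  rw [e, h.dd.hsm, h1 b hb] at h2
  have h3 : c₀ * ρ a ^ d = c₀ * (w c ^ ε * ρ b ^ d) := by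
    rw [← h2]
    ac_rfl
  exact mul_left_cancel₀ hc₀ h3

/-- the symmetry changes all distances by the same factor -/
lemma GR.shift (h : GR w f d ε D ρ κ) (hd : d ≠ 0) (hs : Sy f α β γ δ χ) : ∃ t : ℤ, ∀ a b, a ≠ 0 → b ≠ 0 →
    dt a b ≠ 0 → log (D (lin α β γ δ a) (lin α β γ δ b)) = log (D a b) + t := by
  have hσ : ∀ a, a ≠ 0 → lin α β γ δ a ≠ 0 := fun a ha => lin_ne hs.det ha
  have hwχ : w χ ≠ 0 := (Valuation.ne_zero_iff w).2 hs.chi
  have key : ∀ a, a ≠ 0 → (d : ℤ) * (log (ρ (lin α β γ δ a)) - log (ρ a)) =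
      ε * log (w χ) := by
    intro a ha
    have h1 := congrArg log (h.fib (hσ a ha) ha (hs.inv a))
    rw [log_pow, log_mul (pow_ne_zero _ hwχ) (pow_ne_zero _ (h.dd.rho a ha)), log_pow, log_pow,
      nsmul_eq_mul, nsmul_eq_mul, nsmul_eq_mul] at h1
    linear_combination h1
  have h10 : ((1 : K), (0 : K)) ≠ 0 := by
    intro h0
    exact one_ne_zero (congrArg Prod.fst h0)
  have hr' : (d : ℤ) ≠ 0 := by exact_mod_cast hd
  obtain ⟨t, ht⟩ : ∃ t : ℤ, ∀ a, a ≠ 0 → log (ρ (lin α β γ δ a)) = log (ρ a) + t := by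
    refine ⟨log (ρ (lin α β γ δ (1, 0))) - log (ρ (1, 0)), fun a ha => ?_⟩
    have h1 := mul_left_cancel₀ hr' ((key a ha).trans (key _ h10).symm)
    linear_combination h1
  refine ⟨ε * log (w (α * δ - β * γ)) - 2 * t, fun a b ha hb hab => ?_⟩
  have h1 := h.dd.log_eq ha hb hab
  have hne : dt (lin α β γ δ a) (lin α β γ δ b) ≠ 0 := by
    rw [dt_lin]
    exact mul_ne_zero hs.det hab
  have h2 := h.dd.log_eq (hσ a ha) (hσ b hb) hne
  rw [dt_lin, map_mul, log_mul ((Valuation.ne_zero_iff w).2 hs.det)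
    ((Valuation.ne_zero_iff w).2 hab), ht a ha, ht b hb] at h2
  linear_combination h1 - h2

lemma GR.shift_le (h : GR w f d ε D ρ κ) (hs : Sy f α β γ δ χ) {t : ℤ}
    (ht : ∀ a b, a ≠ 0 → b ≠ 0 → dt a b ≠ 0 →
      log (D (lin α β γ δ a) (lin α β γ δ b)) = log (D a b) + t) : t ≤ 0 := by
  have hσ : ∀ a, a ≠ 0 → lin α β γ δ a ≠ 0 := fun a ha => lin_ne hs.det ha
  by_contra hcon
  push Not at hcon
  have h10 : ((1 : K), (0 : K)) ≠ 0 := fun h0 => one_ne_zero (congrArg Prod.fst h0)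
  have h01 : ((0 : K), (1 : K)) ≠ 0 := fun h0 => one_ne_zero (congrArg Prod.snd h0)
  have key : ∀ i : ℕ, (lin α β γ δ)^[i] ((1 : K), (0 : K)) ≠ 0 ∧
      (lin α β γ δ)^[i] ((0 : K), (1 : K)) ≠ 0 ∧
      dt ((lin α β γ δ)^[i] ((1 : K), (0 : K))) ((lin α β γ δ)^[i] ((0 : K), (1 : K))) ≠ 0 ∧
      log (D ((lin α β γ δ)^[i] ((1 : K), (0 : K))) ((lin α β γ δ)^[i] ((0 : K), (1 : K)))) =
        log (D (1, 0) (0, 1)) + i * t := by
    intro i
    induction i with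
    | zero =>
      refine ⟨h10, h01, ?_, by rw [Nat.cast_zero, zero_mul, add_zero]; rfl⟩
      unfold dt
      simp
    | succ i ih =>
      obtain ⟨k1, k2, k3, k4⟩ := ih
      rw [Function.iterate_succ_apply', Function.iterate_succ_apply']
      refine ⟨hσ _ k1, hσ _ k2, ?_, ?_⟩
      · rw [dt_lin]
        exact mul_ne_zero hs.det k3
      · rw [ht _ _ k1 k2 k3, k4]
        push_cast
        ring
  obtain ⟨g, hg⟩ : ∃ g : ℤ, g = log (D (1, 0) (0, 1)) := ⟨_, rfl⟩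
  obtain ⟨i, hi⟩ : ∃ i : ℕ, i = g.natAbs + 1 := ⟨_, rfl⟩
  obtain ⟨k1, k2, k3, k4⟩ := key i
  have h5 := (log_le_log (h.dd.ne k1 k2 k3) one_ne_zero).2 (h.le_one _ _ k1 k2)
  rw [log_one, k4, ← hg] at h5
  have h7 : (i : ℤ) ≤ (i : ℤ) * t := le_mul_of_one_le_right (by positivity) hcon
  have h8 : 1 ≤ g + i := by omega
  linarith

/-- the symmetry preserves distances -/
lemma GR.sym (h : GR w f d ε D ρ κ) (hd0 : d ≠ 0) (hs : Sy f α β γ δ χ)
    (hsm : ∃ d : ℕ, ∀ (c : K) a, f (c • a) = c ^ d • f a) {a b : K × K} (ha : a ≠ 0)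
    (hb : b ≠ 0) (hab : dt a b ≠ 0) : D (lin α β γ δ a) (lin α β γ δ b) = D a b := by
  obtain ⟨d', hd⟩ := hsm
  have hadj : ∀ a, lin α β γ δ (lin δ (-β) (-γ) α a) = (α * δ - β * γ) • a := by
    intro a
    unfold lin
    refine Prod.ext ?_ ?_
    · simp only [Prod.smul_fst, smul_eq_mul]; ring
    · simp only [Prod.smul_snd, smul_eq_mul]; ring
  have hadj' : ∀ a, lin δ (-β) (-γ) α (lin α β γ δ a) = (α * δ - β * γ) • a := by
    intro a
    unfold lin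
    refine Prod.ext ?_ ?_
    · simp only [Prod.smul_fst, smul_eq_mul]; ring
    · simp only [Prod.smul_snd, smul_eq_mul]; ring
  have hs' : Sy f δ (-β) (-γ) α (χ⁻¹ * (α * δ - β * γ) ^ d') := by
    refine ⟨by rw [neg_mul_neg, mul_comm δ α]; exact hs.det,
      mul_ne_zero (inv_ne_zero hs.chi) (pow_ne_zero _ hs.det), fun a => ?_⟩
    have h1 := hs.inv (lin δ (-β) (-γ) α a)
    rw [hadj, hd] at h1
    rw [mul_smul, h1, smul_smul, inv_mul_cancel₀ hs.chi, one_smul]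
  obtain ⟨t, ht⟩ := h.shift hd0 hs
  obtain ⟨t', ht'⟩ := h.shift hd0 hs'
  have l1 := h.shift_le hs ht
  have l2 := h.shift_le hs' ht'
  have hσ : ∀ a, a ≠ 0 → lin α β γ δ a ≠ 0 := fun a ha => lin_ne hs.det ha
  have hne : dt (lin α β γ δ a) (lin α β γ δ b) ≠ 0 := by
    rw [dt_lin]
    exact mul_ne_zero hs.det hab
  have e1 := ht' _ _ (hσ a ha) (hσ b hb) hne
  rw [hadj', hadj', h.smul _ _ _ hs.det, h.dd.symm a, h.smul _ _ _ hs.det, h.dd.symm b,
    ht a b ha hb hab] at e1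
  have e2 : t = 0 := by omega
  have e3 := ht a b ha hb hab
  rw [e2, add_zero] at e3
  rw [← exp_log (h.dd.ne (hσ a ha) (hσ b hb) hne), e3, exp_log (h.dd.ne ha hb hab)]

lemma Sy.it (hs : Sy f α β γ δ χ) (i : ℕ) (a : K × K) :
    f ((lin α β γ δ)^[i] a) = χ ^ i • f a := by
  induction i with
  | zero => rw [Function.iterate_zero_apply, pow_zero, one_smul]
  | succ i ih => rw [Function.iterate_succ_apply', hs.inv, ih, smul_smul, ← pow_succ']

lemma Sy.it_ne (hs : Sy f α β γ δ χ) (i : ℕ) {a : K × K} (ha : a ≠ 0) :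
    (lin α β γ δ)^[i] a ≠ 0 := by
  induction i with
  | zero => exact ha
  | succ i ih =>
    rw [Function.iterate_succ_apply']
    exact lin_ne hs.det ih

lemma Sy.it_dt (hs : Sy f α β γ δ χ) (i : ℕ) {a b : K × K} (hab : dt a b ≠ 0) :
    dt ((lin α β γ δ)^[i] a) ((lin α β γ δ)^[i] b) ≠ 0 := by
  induction i with
  | zero => exact hab
  | succ i ih =>
    rw [Function.iterate_succ_apply', Function.iterate_succ_apply', dt_lin]
    exact mul_ne_zero hs.det ih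

lemma GR.sym_it (h : GR w f d ε D ρ κ) (hd0 : d ≠ 0) (hs : Sy f α β γ δ χ)
    (hsm : ∃ d : ℕ, ∀ (c : K) a, f (c • a) = c ^ d • f a) (i : ℕ) {a b : K × K} (ha : a ≠ 0)
    (hb : b ≠ 0) (hab : dt a b ≠ 0) :
    D ((lin α β γ δ)^[i] a) ((lin α β γ δ)^[i] b) = D a b := by
  induction i with
  | zero => rfl
  | succ i ih =>
    rw [Function.iterate_succ_apply', Function.iterate_succ_apply',
      h.sym hd0 hs hsm (hs.it_ne i ha) (hs.it_ne i hb) (hs.it_dt i hab), ih]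

/-- periodic points keep their distances -/
lemma GR.per_const (h : GR w f d ε D ρ κ) (hf : Pj f) {a b : K × K} (ha : a ≠ 0) (hb : b ≠ 0)
    {n m : ℕ} (hn : 0 < n) (hm : 0 < m) (pa : dt (f^[n] a) a = 0) (pb : dt (f^[m] b) b = 0) :
    D (f a) (f b) = D a b := by
  have hmul : ∀ {x : K × K} {l : ℕ}, x ≠ 0 → dt (f^[l] x) x = 0 → ∀ k, dt (f^[k * l] x) x = 0 := by
    intro x l hx hl k
    induction k with
    | zero => rw [Nat.zero_mul, Function.iterate_zero_apply, dt_self]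
    | succ k ih =>
      have h2 := hf.it l ih
      rw [← Function.iterate_add_apply, show l + k * l = (k + 1) * l by ring] at h2
      exact par_trans (hf.it_ne l hx) h2 hl
  have hdec : ∀ k, D (f^[k + 1] a) (f^[k + 1] b) ≤ D (f a) (f b) := by
    intro k
    induction k with
    | zero => exact le_rfl
    | succ k ih =>
      rw [Function.iterate_succ_apply', Function.iterate_succ_apply' f (k + 1) b]
      exact (h.nonexp _ _ (hf.it_ne _ ha) (hf.it_ne _ hb)).trans ih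
  have hL : 0 < m * n := Nat.mul_pos hm hn
  have e1 := hmul ha pa m
  have e2 := hmul hb pb n
  rw [mul_comm n m] at e2
  obtain ⟨s, hs, h4⟩ := par_of (hf.it_ne _ ha) ha e1
  obtain ⟨s', hs', h5⟩ := par_of (hf.it_ne _ hb) hb e2
  have e3 : D (f^[m * n] a) (f^[m * n] b) = D a b := by
    calc D (f^[m * n] a) (f^[m * n] b) = D (s • f^[m * n] a) (s' • f^[m * n] b) := by
          rw [h.smul _ _ _ hs, h.dd.symm _ (s' • _), h.smul _ _ _ hs', h.dd.symm]
      _ = D a b := by rw [← h4, ← h5]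
  have h6 := hdec (m * n - 1)
  rw [Nat.sub_add_cancel hL, e3] at h6
  exact le_antisymm (h.nonexp a b ha hb) h6

/-- periodic points are far from the conjugates of the other periodic points -/
lemma GR.far_sym (h : GR w f d ε D ρ κ) (hf : Pj f) (hs : Sy f α β γ δ χ) {a b : K × K}
    (ha : a ≠ 0) (hb : b ≠ 0)
    {n m : ℕ} (hn : 0 < n) (hm : 0 < m) (pa : dt (f^[n] a) a = 0) (pb : dt (f^[m] b) b = 0)
    (hab : dt a b ≠ 0) {i : ℕ} (hbi : dt ((lin α β γ δ)^[i] b) b ≠ 0) :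
    D a ((lin α β γ δ)^[i] b) = 1 := by
  refine h.far a b _ ha hb (hs.it_ne i hb) (fun h0 => hbi (dt_comm_zero h0)) ?_ hab
    (h.per_const hf ha hb hn hm pa pb)
  rw [hs.it, dt_smul_right, dt_self, mul_zero]

/-- distances of the conjugates of different periodic points -/
lemma GR.far_sym' (h : GR w f d ε D ρ κ) (hd0 : d ≠ 0) (hf : Pj f) (hs : Sy f α β γ δ χ)
    (hsm : ∃ d : ℕ, ∀ (c : K) a, f (c • a) = c ^ d • f a) {a b : K × K}
    (ha : a ≠ 0) (hb : b ≠ 0)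
    {n m : ℕ} (hn : 0 < n) (hm : 0 < m) (pa : dt (f^[n] a) a = 0) (pb : dt (f^[m] b) b = 0)
    (hab : dt a b ≠ 0) {i k : ℕ} (hbi : dt ((lin α β γ δ)^[k] b) b ≠ 0)
    (hne : dt a ((lin α β γ δ)^[k] b) ≠ 0) :
    D ((lin α β γ δ)^[i] a) ((lin α β γ δ)^[i + k] b) = 1 := by
  rw [Function.iterate_add_apply, h.sym_it hd0 hs hsm i ha (hs.it_ne k hb) hne]
  exact h.far_sym hf hs ha hb hn hm pa pb hab hbi

end Inv

end Pool.Agent.PDR
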