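import Pool.Agent.PDR.Cyc

set_option autoImplicit false

/-!
# PDR: lengths of tails
-/

open NumberField IsDedekindDomain
open scoped WithZero

noncomputable section

namespace Pool.Agent.PDR

open WithZero
open Pool.Agent.PDP (Sg Sq wb wb2 gcd_mul_aux)

/-- `a` is not periodic -/
def NPer {K : Type} [Field K] (f : K × K → K × K) (a : K × K) : Prop :=
  ∀ m, 0 < m → dt (f^[m] a) a ≠ 0

section

variable {K : Type} [Field K] {f : K × K → K × K}

lemma NPer.back {a : K × K} (hf : Pj f) {i t : ℕ} (hi : i ≤ t) (h : NPer f (f^[t] a)) :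
    NPer f (f^[i] a) := by
  intro m hm h0
  obtain ⟨k, rfl⟩ := Nat.exists_eq_add_of_le hi
  refine h m hm ?_
  rw [add_comm i k, Function.iterate_add_apply, ← Function.iterate_add_apply f m k, add_comm m k,
    Function.iterate_add_apply f k m]
  exact hf.it k h0

lemma NPer.ne {a : K × K} (hf : Pj f) {t : ℕ} (h : NPer f (f^[t] a)) {i j : ℕ} (hi : i ≤ t)
    (hj : j ≤ t) (hij : i ≠ j) : dt (f^[i] a) (f^[j] a) ≠ 0 := by
  have key : ∀ i j, i ≤ t → i < j → dt (f^[i] a) (f^[j] a) ≠ 0 := by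
    intro i j hi hij h0
    refine (NPer.back hf hi h) (j - i) (by omega) ?_
    rw [← Function.iterate_add_apply, Nat.sub_add_cancel hij.le]
    exact dt_comm_zero h0
  rcases lt_or_gt_of_ne hij with h1 | h1
  · exact key i j hi h1
  · intro h0
    exact key j i hj h1 (dt_comm_zero h0)

/-- distances in a tail -/
lemma GR.tl {w : Valuation K ℤᵐ⁰} {d ε : ℕ} {D : K × K → K × K → ℤᵐ⁰} {ρ : K × K → ℤᵐ⁰} {κ : ℤᵐ⁰}
    (h : GR w f d ε D ρ κ) (hf : Pj f) {a : K × K} (ha : a ≠ 0) {t n : ℕ}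
    (hp : PP f (f^[t + 1] a) n) (hn : NPer f (f^[t] a)) {i j : ℕ} (hi : i ≤ t) (hj : j ≤ t)
    (hij : ¬ (n : ℤ) ∣ (i : ℤ) - j) : D (f^[i] a) (f^[j] a) = 1 := by
  have key : ∀ i j, i ≤ t → i < j → ¬ n ∣ (j - i) → D (f^[i] a) (f^[j] a) = 1 := by
    intro i j hi hij hnd
    have e : f^[j] a = f^[j - i] (f^[i] a) := by
      rw [← Function.iterate_add_apply, Nat.sub_add_cancel hij.le]
    have e2 : f^[t + 1 - i] (f^[i] a) = f^[t + 1] a := by
      rw [← Function.iterate_add_apply, show t + 1 - i + i = t + 1 by omega]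
    rw [e]
    refine h.tail _ (hf.it_ne i ha) (t + 1 - i) n (j - i) hp.pos ?_ ?_ (NPer.back hf hi hn) hnd
    · rw [e2]; exact hp.per
    · rw [e2]; exact hp.min
  rcases lt_trichotomy i j with h1 | h1 | h1
  · refine key i j hi h1 fun h2 => hij ?_
    have h3 : (n : ℤ) ∣ ((j - i : ℕ) : ℤ) := Int.natCast_dvd_natCast.2 h2
    rw [Nat.cast_sub h1.le] at h3
    rw [← dvd_neg, neg_sub]
    exact h3
  · exact absurd (by rw [h1, sub_self]; exact dvd_zero _) hij
  · rw [h.dd.symm]
    refine key j i hj h1 fun h2 => hij ?_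
    have h3 : (n : ℤ) ∣ ((i - j : ℕ) : ℤ) := Int.natCast_dvd_natCast.2 h2
    rwa [Nat.cast_sub h1.le] at h3

end

/-- tails of cycles of length at least three of maps with a totally ramified fixed point -/
theorem tail_leq (hG : HMW.T_KGU) (K : Type) [Field K] [NumberField K] (A : Finset K)
    (hA0 : ∀ a ∈ A, a ≠ 0) (M N : ℕ) (hM : 5 ≤ M) : ∃ B : ℕ, ∀ (f : K × K → K × K)
    (d : ℕ) (T : Set (K × K)), Pj f → SysR A M N f d T → ∀ (o : K × K) (g : K), TRam f d o g →
    ∀ (a : K × K) (n t : ℕ), a ∈ T → 3 ≤ n →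
    PP f (f^[t + 1] a) n → NPer f (f^[t] a) → t + 1 ≤ (B + 1) * n := by
  classical
  obtain ⟨B, hB⟩ := wb hG K A hA0 M hM
  refine ⟨B, fun f d T hf h o g ho a n t haT hn4 hPP hnp => ?_⟩
  have ha := h.ne a haT
  have huT : ∀ i, f^[i] a ∈ T := fun i => h.it haT _
  obtain ⟨s, hs⟩ : ∃ s, s = t / n := ⟨_, rfl⟩
  have hst : n * s ≤ t := by rw [hs]; exact Nat.mul_div_le t n
  have hst' : t < n * s + n := by
    rw [hs]
    have := Nat.lt_mul_div_succ t (show 0 < n by omega)
    rwa [Nat.mul_succ] at this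
  have hidx : ∀ b r, b < s → r < 3 → n * b + r ≤ t := by
    intro b r hb hr
    calc n * b + r ≤ n * b + n := by omega
      _ = n * (b + 1) := by ring
      _ ≤ n * s := Nat.mul_le_mul_left _ hb
      _ ≤ t := hst
  have hD : ∀ {v : HeightOneSpectrum (𝓞 K)} {ε : ℕ} {D : K × K → K × K → ℤᵐ⁰}
      {ρ : K × K → ℤᵐ⁰} {κ : ℤᵐ⁰}, GR (v.valuation K) f d ε D ρ κ → ∀ (i j : ℕ), i ≤ t → j ≤ t →
      ∀ z e : ℤ, (i : ℤ) - j = n * z + e → e ≠ 0 → -3 < e → e < 3 →
      D (f^[i] a) (f^[j] a) = 1 := by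
    intro v ε D ρ κ hD i j hi hj z e he e0 e1 e2
    refine hD.tl hf ha hPP hnp hi hj fun h1 => ?_
    rw [he] at h1
    have h2 : (n : ℤ) ∣ e := (Int.dvd_add_right (Dvd.intro z rfl)).1 h1
    rcases lt_or_gt_of_ne e0 with h3 | h3
    · have := Int.le_of_dvd (by omega) ((dvd_neg).2 h2)
      omega
    · have := Int.le_of_dvd h3 h2
      omega
  have f1 : ∀ b b', n * b + 1 ≠ n * b' + 2 := by
    intro b b' he
    have h1 : (n * b + 1) % n = (n * b' + 2) % n := by rw [he]
    rw [Nat.mul_add_mod, Nat.mul_add_mod, Nat.mod_eq_of_lt (by omega),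
      Nat.mod_eq_of_lt (by omega)] at h1
    omega
  have f2 : ∀ b b', b ≠ b' → n * b ≠ n * b' := fun b b' hb he =>
    hb (Nat.eq_of_mul_eq_mul_left (by omega) he)
  have hfin := grid (S := Sg K A M) hB (x := o) (y := f^[0] a)
    (Finset.range s) (Finset.range s) (fun b => f^[n * b + 1] a)
    (fun b => f^[n * b + 2] a) (h.tne _ _ ho _ (huT 0)) (fun _ _ => h.tne _ _ ho _ (huT _)) ?_
    (fun _ _ => h.tne _ _ ho _ (huT _)) ?_ ?_ ?_ ?_
  · rw [Finset.card_range, or_self] at hfin
    calc t + 1 ≤ n * s + n := hst'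
      _ = (s + 1) * n := by ring
      _ ≤ (B + 1) * n := Nat.mul_le_mul_right _ (by omega)
  · intro b hb
    exact hnp.ne hf (by omega) (hidx b 1 (Finset.mem_range.1 hb) (by omega)) (by omega)
  · intro b hb
    exact hnp.ne hf (by omega) (hidx b 2 (Finset.mem_range.1 hb) (by omega)) (by omega)
  · intro b hb b' hb' hbb
    exact hnp.ne hf (hidx b 1 (Finset.mem_range.1 hb) (by omega))
      (hidx b' 1 (Finset.mem_range.1 hb') (by omega)) fun he => f2 b b' hbb (by omega)
  · intro b hb b' hb' hbb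
    exact hnp.ne hf (hidx b 2 (Finset.mem_range.1 hb) (by omega))
      (hidx b' 2 (Finset.mem_range.1 hb') (by omega)) fun he => f2 b b' hbb (by omega)
  · intro b hb b' hb'
    have g1 := hidx b 1 (Finset.mem_range.1 hb) (by omega)
    have g2 := hidx b' 2 (Finset.mem_range.1 hb') (by omega)
    refine sgq_of h ho (huT _) (huT _) (huT _) (hnp.ne hf (by omega) g1 (by omega))
      (hnp.ne hf (by omega) g2 (by omega)) (hnp.ne hf g1 g2 (f1 b b')) ?_ ?_
    · intro v _ ε D ρ κ h3
      rw [hD h3 0 (n * b' + 2) (by omega) g2 (-b') (-2) (by push_cast; ring) (by omega) (by omega)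
          (by omega),
        hD h3 0 (n * b + 1) (by omega) g1 (-b) (-1) (by push_cast; ring) (by omega) (by omega)
          (by omega)]
    · intro v _ ε D ρ κ h3
      rw [hD h3 (n * b + 1) (n * b' + 2) g1 g2 (b - b') (-1) (by push_cast; ring) (by omega)
          (by omega) (by omega),
        hD h3 0 (n * b + 1) (by omega) g1 (-b) (-1) (by push_cast; ring) (by omega) (by omega)
          (by omega)]

/-- tails of cycles of length at least four -/
theorem tail_le (hG : HMW.T_KGU) (K : Type) [Field K] [NumberField K] (A : Finset K)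
    (hA0 : ∀ a ∈ A, a ≠ 0) (M N : ℕ) (hM : 5 ≤ M) : ∃ B : ℕ, ∀ (f : K × K → K × K)
    (d : ℕ) (T : Set (K × K)), Pj f → SysR A M N f d T → ∀ (a : K × K) (n t : ℕ), a ∈ T → 4 ≤ n →
    PP f (f^[t + 1] a) n → NPer f (f^[t] a) → t + 1 ≤ (B + 1) * n := by
  classical
  obtain ⟨B, hB⟩ := wb hG K A hA0 M hM
  refine ⟨B, fun f d T hf h a n t haT hn4 hPP hnp => ?_⟩
  have ha := h.ne a haT
  have huT : ∀ i, f^[i] a ∈ T := fun i => h.it haT _
  obtain ⟨s, hs⟩ : ∃ s, s = t / n := ⟨_, rfl⟩
  have hst : n * s ≤ t := by rw [hs]; exact Nat.mul_div_le t n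
  have hst' : t < n * s + n := by
    rw [hs]
    have := Nat.lt_mul_div_succ t (show 0 < n by omega)
    rwa [Nat.mul_succ] at this
  have hidx : ∀ b r, b < s → r < 4 → n * b + r ≤ t := by
    intro b r hb hr
    calc n * b + r ≤ n * b + n := by omega
      _ = n * (b + 1) := by ring
      _ ≤ n * s := Nat.mul_le_mul_left _ hb
      _ ≤ t := hst
  rcases Nat.eq_zero_or_pos s with h0 | h0
  · rw [h0, mul_zero, zero_add] at hst'
    calc t + 1 ≤ n := hst'
      _ ≤ (B + 1) * n := Nat.le_mul_of_pos_left _ (by omega)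
  have ht4 : n ≤ t := le_trans (Nat.le_mul_of_pos_right _ h0) hst
  have hD : ∀ {v : HeightOneSpectrum (𝓞 K)} {ε : ℕ} {D : K × K → K × K → ℤᵐ⁰}
      {ρ : K × K → ℤᵐ⁰} {κ : ℤᵐ⁰}, GR (v.valuation K) f d ε D ρ κ → ∀ (i j : ℕ), i ≤ t → j ≤ t →
      ∀ z e : ℤ, (i : ℤ) - j = n * z + e → e ≠ 0 → -4 < e → e < 4 →
      D (f^[i] a) (f^[j] a) = 1 := by
    intro v ε D ρ κ hD i j hi hj z e he e0 e1 e2
    refine hD.tl hf ha hPP hnp hi hj fun h1 => ?_
    rw [he] at h1
    have h2 : (n : ℤ) ∣ e := (Int.dvd_add_right (Dvd.intro z rfl)).1 h1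
    rcases lt_or_gt_of_ne e0 with h3 | h3
    · have := Int.le_of_dvd (by omega) ((dvd_neg).2 h2)
      omega
    · have := Int.le_of_dvd h3 h2
      omega
  have f1 : ∀ b b', n * b + 2 ≠ n * b' + 3 := by
    intro b b' he
    have h1 : (n * b + 2) % n = (n * b' + 3) % n := by rw [he]
    rw [Nat.mul_add_mod, Nat.mul_add_mod, Nat.mod_eq_of_lt (by omega),
      Nat.mod_eq_of_lt (by omega)] at h1
    omega
  have f2 : ∀ b b', b ≠ b' → n * b ≠ n * b' := fun b b' hb he =>
    hb (Nat.eq_of_mul_eq_mul_left (by omega) he)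
  have hfin := grid (S := Sg K A M) hB (x := f^[0] a) (y := f^[1] a)
    (Finset.range s) (Finset.range s) (fun b => f^[n * b + 2] a)
    (fun b => f^[n * b + 3] a) (hnp.ne hf (by omega) (by omega) (by omega)) ?_ ?_ ?_ ?_ ?_ ?_ ?_
  · rw [Finset.card_range, or_self] at hfin
    calc t + 1 ≤ n * s + n := hst'
      _ = (s + 1) * n := by ring
      _ ≤ (B + 1) * n := Nat.mul_le_mul_right _ (by omega)
  · intro b hb
    exact hnp.ne hf (by omega) (hidx b 2 (Finset.mem_range.1 hb) (by omega)) (by omega)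
  · intro b hb
    exact hnp.ne hf (by omega) (hidx b 2 (Finset.mem_range.1 hb) (by omega)) (by omega)
  · intro b hb
    exact hnp.ne hf (by omega) (hidx b 3 (Finset.mem_range.1 hb) (by omega)) (by omega)
  · intro b hb
    exact hnp.ne hf (by omega) (hidx b 3 (Finset.mem_range.1 hb) (by omega)) (by omega)
  · intro b hb b' hb' hbb
    exact hnp.ne hf (hidx b 2 (Finset.mem_range.1 hb) (by omega))
      (hidx b' 2 (Finset.mem_range.1 hb') (by omega)) fun he => f2 b b' hbb (by omega)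
  · intro b hb b' hb' hbb
    exact hnp.ne hf (hidx b 3 (Finset.mem_range.1 hb) (by omega))
      (hidx b' 3 (Finset.mem_range.1 hb') (by omega)) fun he => f2 b b' hbb (by omega)
  · intro b hb b' hb'
    have g1 := hidx b 2 (Finset.mem_range.1 hb) (by omega)
    have g2 := hidx b' 3 (Finset.mem_range.1 hb') (by omega)
    refine sg_of h (huT _) (huT _) (huT _) (huT _) (hnp.ne hf (by omega) (by omega) (by omega))
      (hnp.ne hf (by omega) g1 (by omega)) (hnp.ne hf (by omega) g2 (by omega))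
      (hnp.ne hf (by omega) g1 (by omega)) (hnp.ne hf (by omega) g2 (by omega))
      (hnp.ne hf g1 g2 (f1 b b')) ?_ ?_
    · intro v _ ε D ρ κ h3
      rw [hD h3 0 (n * b + 2) (by omega) g1 (-b) (-2) (by push_cast; ring) (by omega) (by omega)
          (by omega),
        hD h3 1 (n * b' + 3) (by omega) g2 (-b') (-2) (by push_cast; ring) (by omega) (by omega)
          (by omega),
        hD h3 0 (n * b' + 3) (by omega) g2 (-b') (-3) (by push_cast; ring) (by omega) (by omega)
          (by omega),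
        hD h3 1 (n * b + 2) (by omega) g1 (-b) (-1) (by push_cast; ring) (by omega) (by omega)
          (by omega), log_one]
      ring
    · intro v _ ε D ρ κ h3
      rw [hD h3 0 1 (by omega) (by omega) 0 (-1) (by push_cast; ring) (by omega) (by omega)
          (by omega),
        hD h3 (n * b + 2) (n * b' + 3) g1 g2 (b - b') (-1) (by push_cast; ring) (by omega)
          (by omega) (by omega),
        hD h3 0 (n * b' + 3) (by omega) g2 (-b') (-3) (by push_cast; ring) (by omega) (by omega)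
          (by omega),
        hD h3 1 (n * b + 2) (by omega) g1 (-b) (-1) (by push_cast; ring) (by omega) (by omega)
          (by omega), log_one]
      ring

end Pool.Agent.PDR
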