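import Pool.Agent.PDP.Local

set_option autoImplicit false

/-!
# PDR: vectors, determinants and binary forms
-/

open scoped WithZero

noncomputable section

namespace Pool.Agent.PDR

open Pool.Agent.PDP (Si Si_mul Si_le)

section Alg

variable {K : Type} [Field K]

/-- the determinant of two vectors -/
def dt (a b : K × K) : K := a.1 * b.2 - a.2 * b.1

lemma dt_self (a : K × K) : dt a a = 0 := by unfold dt; ring

lemma dt_swap (a b : K × K) : dt b a = -dt a b := by unfold dt; ring

lemma dt_pl (a b c e : K × K) : dt a b * dt c e - dt a c * dt b e + dt a e * dt b c = 0 := by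
  unfold dt; ring

lemma dt_smul_left (s : K) (a b : K × K) : dt (s • a) b = s * dt a b := by
  unfold dt; simp only [Prod.smul_fst, Prod.smul_snd, smul_eq_mul]; ring

lemma dt_smul_right (s : K) (a b : K × K) : dt a (s • b) = s * dt a b := by
  unfold dt; simp only [Prod.smul_fst, Prod.smul_snd, smul_eq_mul]; ring

/-- vectors with vanishing determinant are proportional -/
lemma par_of {a b : K × K} (ha : a ≠ 0) (hb : b ≠ 0) (h : dt a b = 0) :
    ∃ s : K, s ≠ 0 ∧ b = s • a := by
  have h1 : a.1 * b.2 = a.2 * b.1 := sub_eq_zero.1 h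
  by_cases h0 : a.1 = 0
  · have h2 : a.2 ≠ 0 := by
      intro h2
      exact ha (Prod.ext h0 h2)
    have h3 : b.1 = 0 := by
      rw [h0, zero_mul] at h1
      exact (mul_eq_zero.1 h1.symm).resolve_left h2
    refine ⟨b.2 / a.2, div_ne_zero ?_ h2, ?_⟩
    · intro h4
      exact hb (Prod.ext h3 h4)
    · refine Prod.ext ?_ ?_
      · rw [Prod.smul_fst, smul_eq_mul, h0, mul_zero, h3]
      · rw [Prod.smul_snd, smul_eq_mul, div_mul_cancel₀ _ h2]
  · refine ⟨b.1 / a.1, div_ne_zero ?_ h0, ?_⟩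
    · intro h4
      rw [h4, mul_zero] at h1
      exact hb (Prod.ext h4 ((mul_eq_zero.1 h1).resolve_left h0))
    · refine Prod.ext ?_ ?_
      · rw [Prod.smul_fst, smul_eq_mul, div_mul_cancel₀ _ h0]
      · rw [Prod.smul_snd, smul_eq_mul]
        field_simp
        linear_combination h1

lemma par_trans {a b c : K × K} (hb : b ≠ 0) (h1 : dt a b = 0) (h2 : dt b c = 0) :
    dt a c = 0 := by
  by_cases ha : a = 0
  · rw [ha]; unfold dt; simp
  · obtain ⟨s, hs, rfl⟩ := par_of ha hb h1
    rw [dt_smul_left] at h2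
    exact (mul_eq_zero.1 h2).resolve_left hs

/-- the value of a binary form with coefficients `p` at the vector `a` -/
def hf (d : ℕ) (p : ℕ → K) (a : K × K) : K :=
  ∑ i ∈ Finset.range (d + 1), p i * (a.1 ^ i * a.2 ^ (d - i))

/-- the pair of two binary forms -/
def Ph (d : ℕ) (p q : ℕ → K) (a : K × K) : K × K := (hf d p a, hf d q a)

lemma hf_smul (d : ℕ) (p : ℕ → K) (s : K) (a : K × K) : hf d p (s • a) = s ^ d * hf d p a := by
  unfold hf
  rw [Finset.mul_sum]
  refine Finset.sum_congr rfl fun i hi => ?_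
  rw [Finset.mem_range] at hi
  simp only [Prod.smul_fst, Prod.smul_snd, smul_eq_mul]
  rw [mul_pow, mul_pow]
  have : s ^ d = s ^ i * s ^ (d - i) := by rw [← pow_add]; congr 1; omega
  rw [this]
  ring

lemma Ph_smul (d : ℕ) (p q : ℕ → K) (s : K) (a : K × K) :
    Ph d p q (s • a) = s ^ d • Ph d p q a := by
  unfold Ph
  rw [hf_smul, hf_smul]
  rfl

/-- the quotient of the elementary determinants -/
def rr (d i j : ℕ) (a b : K × K) : K :=
  if j ≤ i then (a.1 * b.1) ^ j * (a.2 * b.2) ^ (d - i) * Si (i - j) (a.1 * b.2) (a.2 * b.1)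
  else -((a.1 * b.1) ^ i * (a.2 * b.2) ^ (d - j) * Si (j - i) (a.1 * b.2) (a.2 * b.1))

lemma rr_mul {d i j : ℕ} (hi : i ≤ d) (hj : j ≤ d) (a b : K × K) : rr d i j a b * dt a b =
    a.1 ^ i * a.2 ^ (d - i) * (b.1 ^ j * b.2 ^ (d - j)) -
    b.1 ^ i * b.2 ^ (d - i) * (a.1 ^ j * a.2 ^ (d - j)) := by
  unfold rr dt
  split_ifs with h
  · have e1 : Si (i - j) (a.1 * b.2) (a.2 * b.1) * (a.1 * b.2 - a.2 * b.1) =
      (a.1 * b.2) ^ (i - j) - (a.2 * b.1) ^ (i - j) := Si_mul _ _ _
    obtain ⟨k, rfl⟩ := Nat.exists_eq_add_of_le h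
    obtain ⟨l, rfl⟩ := Nat.exists_eq_add_of_le hi
    have e2 : j + k - j = k := by omega
    have e3 : j + k + l - (j + k) = l := by omega
    have e4 : j + k + l - j = k + l := by omega
    rw [e2] at e1
    rw [e2, e3, e4, mul_assoc, e1]
    simp only [mul_pow, pow_add]
    ring
  · push Not at h
    have e1 : Si (j - i) (a.1 * b.2) (a.2 * b.1) * (a.1 * b.2 - a.2 * b.1) =
      (a.1 * b.2) ^ (j - i) - (a.2 * b.1) ^ (j - i) := Si_mul _ _ _
    obtain ⟨k, rfl⟩ := Nat.exists_eq_add_of_le h.le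
    obtain ⟨l, rfl⟩ := Nat.exists_eq_add_of_le hj
    have e2 : i + k - i = k := by omega
    have e3 : i + k + l - (i + k) = l := by omega
    have e4 : i + k + l - i = k + l := by omega
    rw [e2] at e1
    rw [e2, e3, e4, neg_mul, mul_assoc, e1]
    simp only [mul_pow, pow_add]
    ring

/-- the quotient `det(f(a), f(b)) / det(a, b)` -/
def RR (d : ℕ) (p q : ℕ → K) (a b : K × K) : K :=
  ∑ i ∈ Finset.range (d + 1), ∑ j ∈ Finset.range (d + 1), p i * q j * rr d i j a b

lemma RR_mul (d : ℕ) (p q : ℕ → K) (a b : K × K) :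
    RR d p q a b * dt a b = dt (Ph d p q a) (Ph d p q b) := by
  unfold RR
  rw [Finset.sum_mul]
  have h1 : ∀ i ∈ Finset.range (d + 1),
      (∑ j ∈ Finset.range (d + 1), p i * q j * rr d i j a b) * dt a b =
      p i * (a.1 ^ i * a.2 ^ (d - i)) * hf d q b - p i * (b.1 ^ i * b.2 ^ (d - i)) * hf d q a := by
    intro i hi
    rw [Finset.mem_range] at hi
    rw [Finset.sum_mul]
    unfold hf
    rw [Finset.mul_sum, Finset.mul_sum, ← Finset.sum_sub_distrib]
    refine Finset.sum_congr rfl fun j hj => ?_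
    rw [Finset.mem_range] at hj
    rw [mul_assoc, rr_mul (by omega) (by omega)]
    ring
  rw [Finset.sum_congr rfl h1, Finset.sum_sub_distrib, ← Finset.sum_mul, ← Finset.sum_mul]
  unfold Ph dt
  rw [show (∑ i ∈ Finset.range (d + 1), p i * (a.1 ^ i * a.2 ^ (d - i))) = hf d p a from rfl,
    show (∑ i ∈ Finset.range (d + 1), p i * (b.1 ^ i * b.2 ^ (d - i))) = hf d p b from rfl]
  ring

lemma dt_zero_of {d : ℕ} {p q : ℕ → K} {a b : K × K} (h : dt a b = 0) :
    dt (Ph d p q a) (Ph d p q b) = 0 := by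
  rw [← RR_mul, h, mul_zero]

lemma Si_smul (k : ℕ) (s x y : K) : Si k (s * x) (s * y) = s ^ (k - 1) * Si k x y := by
  unfold Si
  rw [Finset.mul_sum]
  refine Finset.sum_congr rfl fun j hj => ?_
  rw [Finset.mem_range] at hj
  rw [mul_pow, mul_pow]
  have : s ^ (k - 1) = s ^ j * s ^ (k - 1 - j) := by rw [← pow_add]; congr 1; omega
  rw [this]
  ring

lemma Si_zero (x y : K) : Si 0 x y = 0 := by
  unfold Si
  rw [Finset.range_zero, Finset.sum_empty]

lemma rr_smul {d i j : ℕ} (hi : i ≤ d) (hj : j ≤ d) (s : K) (a b : K × K) :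
    rr d i j (s • a) b = s ^ (d - 1) * rr d i j a b := by
  unfold rr
  simp only [Prod.smul_fst, Prod.smul_snd, smul_eq_mul, mul_assoc s]
  split_ifs with h
  · obtain ⟨k, rfl⟩ := Nat.exists_eq_add_of_le h
    rcases k with _ | k
    · rw [show j + 0 - j = 0 by omega, Si_zero, Si_zero]
      ring
    · obtain ⟨l, rfl⟩ := Nat.exists_eq_add_of_le hi
      rw [show j + (k + 1) - j = k + 1 by omega,
        show j + (k + 1) + l - (j + (k + 1)) = l by omega,
        show j + (k + 1) + l - 1 = j + k + l by omega, Si_smul, Nat.add_sub_cancel]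
      simp only [mul_pow, pow_add]
      ring
  · push Not at h
    obtain ⟨k, rfl⟩ := Nat.exists_eq_add_of_le h.le
    rcases k with _ | k
    · omega
    · obtain ⟨l, rfl⟩ := Nat.exists_eq_add_of_le hj
      rw [show i + (k + 1) - i = k + 1 by omega,
        show i + (k + 1) + l - (i + (k + 1)) = l by omega,
        show i + (k + 1) + l - 1 = i + k + l by omega, Si_smul, Nat.add_sub_cancel]
      simp only [mul_pow, pow_add]
      ring

lemma RR_smul (d : ℕ) (p q : ℕ → K) (s : K) (a b : K × K) :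
    RR d p q (s • a) b = s ^ (d - 1) * RR d p q a b := by
  unfold RR
  rw [Finset.mul_sum]
  refine Finset.sum_congr rfl fun i hi => ?_
  rw [Finset.mul_sum]
  refine Finset.sum_congr rfl fun j hj => ?_
  rw [Finset.mem_range] at hi hj
  rw [rr_smul (by omega) (by omega)]
  ring


lemma Si_symm (k : ℕ) (x y : K) : Si k x y = Si k y x := by
  unfold Si
  rw [← Finset.sum_range_reflect]
  refine Finset.sum_congr rfl fun j hj => ?_
  rw [Finset.mem_range] at hj
  rw [show k - 1 - (k - 1 - j) = j by omega, mul_comm]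

lemma RR_symm (d : ℕ) (p q : ℕ → K) (x y : K × K) : RR d p q x y = RR d p q y x := by
  unfold RR
  refine Finset.sum_congr rfl fun i _ => Finset.sum_congr rfl fun j _ => ?_
  congr 1
  unfold rr
  have e : ∀ k, Si k (x.1 * y.2) (x.2 * y.1) = Si k (y.1 * x.2) (y.2 * x.1) := by
    intro k
    rw [Si_symm, mul_comm x.2, mul_comm x.1]
  rw [mul_comm x.1 y.1, mul_comm x.2 y.2, e, e]

lemma RR_smul_right (d : ℕ) (p q : ℕ → K) (s : K) (a b : K × K) :
    RR d p q a (s • b) = s ^ (d - 1) * RR d p q a b := by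
  rw [RR_symm, RR_smul, RR_symm]

end Alg

section Val

variable {K Γ : Type} [Field K] [LinearOrderedCommGroupWithZero Γ] (w : Valuation K Γ)

/-- the larger of the two absolute values -/
def nrm (a : K × K) : Γ := max (w a.1) (w a.2)

/-- the chordal distance -/
def dl (a b : K × K) : Γ := w (dt a b) / (nrm w a * nrm w b)

variable {w}

lemma nrm_smul (s : K) (a : K × K) : nrm w (s • a) = w s * nrm w a := by
  unfold nrm
  simp only [Prod.smul_fst, Prod.smul_snd, smul_eq_mul, map_mul]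
  exact (Monotone.map_max (f := fun x => w s * x) fun _ _ h => mul_le_mul_right h (w s)).symm

lemma nrm_ne {a : K × K} (ha : a ≠ 0) : nrm w a ≠ 0 := by
  intro h
  have h1 : w a.1 ≤ 0 := (le_max_left _ _).trans h.le
  have h2 : w a.2 ≤ 0 := (le_max_right _ _).trans h.le
  exact ha (Prod.ext ((Valuation.zero_iff w).1 (le_antisymm h1 zero_le))
    ((Valuation.zero_iff w).1 (le_antisymm h2 zero_le)))

lemma dt_le (a b : K × K) : w (dt a b) ≤ nrm w a * nrm w b := by
  unfold dt
  refine (Valuation.map_sub w _ _).trans (max_le ?_ ?_)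
  · rw [map_mul]
    exact mul_le_mul' (le_max_left _ _) (le_max_right _ _)
  · rw [map_mul]
    exact mul_le_mul' (le_max_right _ _) (le_max_left _ _)

lemma hf_le {d : ℕ} {p : ℕ → K} (hp : ∀ i, w (p i) ≤ 1) (a : K × K) :
    w (hf d p a) ≤ nrm w a ^ d := by
  unfold hf
  refine Valuation.map_sum_le w fun i hi => ?_
  rw [Finset.mem_range] at hi
  rw [map_mul, map_mul, map_pow, map_pow]
  calc w (p i) * (w a.1 ^ i * w a.2 ^ (d - i)) ≤ 1 * (nrm w a ^ i * nrm w a ^ (d - i)) :=
        mul_le_mul' (hp i) (mul_le_mul' (pow_le_pow_left' (le_max_left _ _) _)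
          (pow_le_pow_left' (le_max_right _ _) _))
    _ = nrm w a ^ d := by rw [one_mul, ← pow_add]; congr 1; omega

lemma rr_le {d i j : ℕ} (hi : i ≤ d) (hj : j ≤ d) (a b : K × K) :
    w (rr d i j a b) ≤ (nrm w a * nrm w b) ^ (d - 1) := by
  set V := nrm w a * nrm w b with hV
  have h11 : w (a.1 * b.1) ≤ V := by
    rw [map_mul]; exact mul_le_mul' (le_max_left _ _) (le_max_left _ _)
  have h22 : w (a.2 * b.2) ≤ V := by
    rw [map_mul]; exact mul_le_mul' (le_max_right _ _) (le_max_right _ _)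
  have h12 : w (a.1 * b.2) ≤ V := by
    rw [map_mul]; exact mul_le_mul' (le_max_left _ _) (le_max_right _ _)
  have h21 : w (a.2 * b.1) ≤ V := by
    rw [map_mul]; exact mul_le_mul' (le_max_right _ _) (le_max_left _ _)
  unfold rr
  split_ifs with h
  · obtain ⟨k, rfl⟩ := Nat.exists_eq_add_of_le h
    rcases k with _ | k
    · rw [show j + 0 - j = 0 by omega, Si_zero, mul_zero, map_zero]
      exact zero_le
    · obtain ⟨l, rfl⟩ := Nat.exists_eq_add_of_le hi
      rw [show j + (k + 1) - j = k + 1 by omega,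
        show j + (k + 1) + l - (j + (k + 1)) = l by omega,
        show j + (k + 1) + l - 1 = j + l + k by omega, map_mul, map_mul, map_pow, map_pow]
      calc _ ≤ V ^ j * V ^ l * V ^ k := mul_le_mul' (mul_le_mul' (pow_le_pow_left' h11 _)
            (pow_le_pow_left' h22 _)) (Si_le h12 h21 k)
        _ = V ^ (j + l + k) := by rw [← pow_add, ← pow_add]
  · push Not at h
    obtain ⟨k, rfl⟩ := Nat.exists_eq_add_of_le h.le
    rcases k with _ | k
    · omega
    · obtain ⟨l, rfl⟩ := Nat.exists_eq_add_of_le hj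
      rw [show i + (k + 1) - i = k + 1 by omega,
        show i + (k + 1) + l - (i + (k + 1)) = l by omega,
        show i + (k + 1) + l - 1 = i + l + k by omega, Valuation.map_neg, map_mul, map_mul,
        map_pow, map_pow]
      calc _ ≤ V ^ i * V ^ l * V ^ k := mul_le_mul' (mul_le_mul' (pow_le_pow_left' h11 _)
            (pow_le_pow_left' h22 _)) (Si_le h12 h21 k)
        _ = V ^ (i + l + k) := by rw [← pow_add, ← pow_add]

lemma RR_le {d : ℕ} {p q : ℕ → K} (hp : ∀ i, w (p i) ≤ 1) (hq : ∀ i, w (q i) ≤ 1)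
    (a b : K × K) : w (RR d p q a b) ≤ (nrm w a * nrm w b) ^ (d - 1) := by
  unfold RR
  refine Valuation.map_sum_le w fun i hi => Valuation.map_sum_le w fun j hj => ?_
  rw [Finset.mem_range] at hi hj
  rw [map_mul, map_mul]
  calc _ ≤ 1 * 1 * (nrm w a * nrm w b) ^ (d - 1) :=
        mul_le_mul' (mul_le_mul' (hp i) (hq j)) (rr_le (by omega) (by omega) a b)
    _ = _ := by rw [one_mul, one_mul]

lemma dl_self (a : K × K) : dl w a a = 0 := by
  unfold dl
  rw [dt_self, map_zero, zero_div]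

lemma dl_symm (a b : K × K) : dl w a b = dl w b a := by
  unfold dl
  rw [dt_swap, Valuation.map_neg, mul_comm]

lemma dl_le_one {a b : K × K} (ha : a ≠ 0) (hb : b ≠ 0) : dl w a b ≤ 1 := by
  unfold dl
  rw [div_le_iff₀ (zero_lt_iff.2 (mul_ne_zero (nrm_ne ha) (nrm_ne hb))), one_mul]
  exact dt_le a b

lemma dl_smul {s : K} (hs : s ≠ 0) (a b : K × K) : dl w (s • a) b = dl w a b := by
  unfold dl
  have h1 : w s ≠ 0 := (Valuation.ne_zero_iff w).2 hs
  rw [dt_smul_left, nrm_smul, map_mul, mul_assoc, mul_div_mul_left _ _ h1]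

lemma dl_smul' {s : K} (hs : s ≠ 0) (a b : K × K) : dl w a (s • b) = dl w a b := by
  rw [dl_symm, dl_smul hs, dl_symm]

lemma dl_eq_zero {a b : K × K} (ha : a ≠ 0) (hb : b ≠ 0) : dl w a b = 0 ↔ dt a b = 0 := by
  unfold dl
  rw [div_eq_zero_iff, Valuation.zero_iff]
  constructor
  · rintro (h | h)
    · exact h
    · exact absurd h (mul_ne_zero (nrm_ne ha) (nrm_ne hb))
  · exact Or.inl

lemma dl_tri {a b c : K × K} (ha : a ≠ 0) (hb : b ≠ 0) (hc : c ≠ 0) :
    dl w a c ≤ max (dl w a b) (dl w b c) := by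
  have na := nrm_ne (w := w) ha
  have nb := nrm_ne (w := w) hb
  have nc := nrm_ne (w := w) hc
  have h1 : w (dt a c) * nrm w b ≤ max (w (dt a b) * nrm w c) (w (dt b c) * nrm w a) := by
    rw [← nrm_smul]
    have e1 : (dt a c • b).1 = dt b c * a.1 + dt a b * c.1 := by
      rw [Prod.smul_fst, smul_eq_mul]; unfold dt; ring
    have e2 : (dt a c • b).2 = dt b c * a.2 + dt a b * c.2 := by
      rw [Prod.smul_snd, smul_eq_mul]; unfold dt; ring
    have key : ∀ x y : K, w x ≤ nrm w a → w y ≤ nrm w c →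
        w (dt b c * x + dt a b * y) ≤ max (w (dt a b) * nrm w c) (w (dt b c) * nrm w a) := by
      intro x y hx hy
      refine (Valuation.map_add w _ _).trans (max_le ?_ ?_)
      · rw [map_mul]
        exact (mul_le_mul_right hx _).trans (le_max_right _ _)
      · rw [map_mul]
        exact (mul_le_mul_right hy _).trans (le_max_left _ _)
    unfold nrm at key ⊢
    rw [e1, e2]
    exact max_le (key _ _ (le_max_left _ _) (le_max_left _ _))
      (key _ _ (le_max_right _ _) (le_max_right _ _))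
  unfold dl
  rw [div_le_iff₀ (zero_lt_iff.2 (mul_ne_zero na nc))]
  rcases le_max_iff.1 h1 with h2 | h2
  · refine le_trans ?_ (mul_le_mul_left (le_max_left _ _) _)
    rw [div_mul_eq_mul_div, le_div_iff₀ (zero_lt_iff.2 (mul_ne_zero na nb))]
    calc w (dt a c) * (nrm w a * nrm w b) = w (dt a c) * nrm w b * nrm w a := by ac_rfl
      _ ≤ w (dt a b) * nrm w c * nrm w a := mul_le_mul_left h2 _
      _ = w (dt a b) * (nrm w a * nrm w c) := by ac_rfl
  · refine le_trans ?_ (mul_le_mul_left (le_max_right _ _) _)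
    rw [div_mul_eq_mul_div, le_div_iff₀ (zero_lt_iff.2 (mul_ne_zero nb nc))]
    calc w (dt a c) * (nrm w b * nrm w c) = w (dt a c) * nrm w b * nrm w c := by ac_rfl
      _ ≤ w (dt b c) * nrm w a * nrm w c := mul_le_mul_left h2 _
      _ = w (dt b c) * (nrm w a * nrm w c) := by ac_rfl

end Val

end Pool.Agent.PDR
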